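import Pool.Agent.MP_f7db47_al.Main
import Pool.Agent.MP_f7db47_al.PLD

namespace Pool.Agent.MP_f7db47_al.PT

universe v

variable {R : Type v} [Ring R]

theorem Ab_le {G P Δ : Type} [Group G] [Group P] [Group Δ] (hP : PolyZ P)
    (f : Δ →* G × P) (hf : Function.Injective f) (K₀ : Subgroup G) (hK₀ : QQ R K₀)
    (K : Subgroup Δ) (hK : ∀ x ∈ K, (f x).1 ∈ K₀) : QQ R K := by
  refine (hK₀.prod_poly hP).sub
    ((((MonoidHom.fst _ _).comp (f.comp K.subtype)).codRestrict K₀ fun x => hK x x.2).prod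
      ((MonoidHom.snd _ _).comp (f.comp K.subtype))) ?_
  intro x y hxy
  exact Subtype.ext (hf (Prod.ext (congrArg (fun z => (z.1 : G)) hxy)
    (congrArg (fun z => z.2) hxy)))

theorem Ab_poly {K : Type} [Group K] [Group.FG K] (hc : ∀ a b : K, a * b = b * a)
    (ht : ∀ g : K, IsOfFinOrder g → g = 1) : PolyZ K := by
  let _ : CommGroup K := { ‹Group K› with mul_comm := hc }
  have : Module.Finite ℤ (Additive K) := Module.Finite.iff_addGroup_fg.2 inferInstance
  have : IsMulTorsionFree K := isMulTorsionFree_iff_not_isOfFinOrder.2 fun g hg h => hg (ht g h)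
  have : Module.Free ℤ (Additive K) := Module.free_of_finite_type_torsion_free'
  let e := (Module.finBasis ℤ (Additive K)).equivFun
  exact polyZ_of_pi _ K (AddMonoidHom.toMultiplicativeRight e.toAddEquiv.toAddMonoidHom)
    e.injective

theorem qq_loc {G : Type} [Group G] (h : ∀ K : Subgroup G, K.FG → QQ R K) : QQ R G := by
  intro P _ hP Δ _ f hf
  let p : Δ →* G := (MonoidHom.fst _ _).comp f
  refine G1_local fun Φ => ⟨(Subgroup.closure (p '' Φ)).comap p,
    fun x hx => Subgroup.subset_closure ⟨x, hx, rfl⟩, ?_⟩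
  exact (Ab_le hP f hf _ (h _ (fg_closure_image p Φ)) _ fun x hx => hx).g1

theorem qq_poly (hR : RegularRing R) {G : Type} [Group G] (h : PolyZ G) : QQ R G := by
  exact (ClassD.poly G h).qq hR

theorem qq_ab (hR : RegularRing R) {G : Type} [Group G] (hc : ∀ a b : G, a * b = b * a)
    (ht : ∀ g : G, IsOfFinOrder g → g = 1) : QQ R G := by
  refine qq_loc fun K hK => qq_poly hR ?_
  have : Group.FG K := (Group.fg_iff_subgroup_fg K).2 hK
  exact Ab_poly (fun a b => Subtype.ext (hc a b)) fun g hg =>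
    Subtype.ext (ht g (K.subtype.isOfFinOrder hg))

end Pool.Agent.MP_f7db47_al.PT
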