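import Pool.Agent.MP_f7db47_al.Defs

/-!
The class of groups for the theorem on products of trees.
-/

namespace Pool.Agent.MP_f7db47_al

/-- The class `P`: the least class that contains the poly-`ℤ` groups and the torsion-free
abelian groups, is closed under subgroups, products with poly-`ℤ` groups and directed unions,
and contains `G` whenever `G` acts on a finite product of trees freely modulo the kernel, or
maps to `GL_2` in positive characteristic with torsion-free image, with all subgroups of abelian
image in the class. -/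
inductive ClassP : (G : Type) → [Group G] → Prop
  | poly (G : Type) [Group G] (h : PolyZ G) : ClassP G
  | ab (G : Type) [Group G] (hc : ∀ a b : G, a * b = b * a)
      (ht : ∀ g : G, IsOfFinOrder g → g = 1) : ClassP G
  | sub (G H : Type) [Group G] [Group H] (f : G →* H) (hf : Function.Injective f)
      (hH : ClassP H) : ClassP G
  | prod (G P : Type) [Group G] [Group P] (hG : ClassP G) (hP : PolyZ P) : ClassP (G × P)
  | loc (G : Type) [Group G] (h : ∀ K : Subgroup G, K.FG → ClassP K) : ClassP G
  | trees (G : Type) [Group G] (k : ℕ) (V : Fin k → Type) (X : ∀ i, SimpleGraph (V i))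
      (hX : ∀ i, (X i).IsTree) (ρ : ∀ i, G →* (X i ≃g X i))
      (hfree : ∀ g : G, (∀ i, ∃ v, ρ i (g ^ 2) v = v) → ∀ i, ρ i g = 1)
      (hab : ∀ H : Subgroup G, (∀ a ∈ H, ∀ b ∈ H, ∀ i, ρ i (a * b) = ρ i (b * a)) → ClassP H) :
      ClassP G
  | gl2 (G : Type) [Group G] (A : Type) [CommRing A] (N : ℕ) (hN : 0 < N) (hA : (N : A) = 0)
      (f : G →* GL (Fin 2) A) (ht : ∀ g : G, IsOfFinOrder (f g) → f g = 1)
      (hab : ∀ H : Subgroup G, (∀ a ∈ H, ∀ b ∈ H, f (a * b) = f (b * a)) → ClassP H) :
      ClassP G

end Pool.Agent.MP_f7db47_al
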