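import Pool.Agent.MP_f7db47_al.PT.GLb

namespace Pool.Agent.MP_f7db47_al.PT

theorem GLc_prime (A : Type) [CommRing A] (hfg : Algebra.FiniteType ℤ A) (N : ℕ) (hN : 0 < N)
    (hA : (N : A) = 0) (P : Ideal A) (hP : P.IsPrime) :
    ∃ (k : ℕ) (V : Fin k → Type) (X : ∀ i, SimpleGraph (V i))
      (ρ : ∀ i, GL (Fin 2) (A ⧸ P) →* (X i ≃g X i)), (∀ i, (X i).IsTree) ∧
      ∀ g, (∀ i, ∃ v, ρ i g v = v) → IsOfFinOrder g := by
  have hc : CharP (A ⧸ P) (ringChar (A ⧸ P)) := ringChar.charP _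
  have hN' : (N : A ⧸ P) = 0 := by rw [← map_natCast (Ideal.Quotient.mk P), hA, map_zero]
  have hp : (ringChar (A ⧸ P)).Prime := by
    refine (CharP.char_is_prime_or_zero (A ⧸ P) _).resolve_right fun h => ?_
    have := (ringChar.spec (A ⧸ P) N).1 hN'
    rw [h, zero_dvd_iff] at this
    omega
  have : Fact (ringChar (A ⧸ P)).Prime := ⟨hp⟩
  letI := ZMod.algebra (A ⧸ P) (ringChar (A ⧸ P))
  have h1 : Algebra.FiniteType ℤ (A ⧸ P) :=
    hfg.of_surjective (Ideal.Quotient.mk P).toIntAlgHom Ideal.Quotient.mk_surjective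
  have h2 : Algebra.FiniteType (ZMod (ringChar (A ⧸ P))) (A ⧸ P) :=
    Algebra.FiniteType.of_restrictScalars_finiteType ℤ _ _
  exact gl2_trees_domain (ringChar (A ⧸ P)) (A ⧸ P)

theorem gl2_trees (A : Type) [CommRing A] (hfg : Algebra.FiniteType ℤ A) (N : ℕ) (hN : 0 < N)
    (hA : (N : A) = 0) :
    ∃ (k : ℕ) (V : Fin k → Type) (X : ∀ i, SimpleGraph (V i))
      (ρ : ∀ i, GL (Fin 2) A →* (X i ≃g X i)), (∀ i, (X i).IsTree) ∧
      ∀ g, (∀ i, ∃ v, ρ i g v = v) → IsOfFinOrder g := by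
  have hno : IsNoetherianRing A := Algebra.FiniteType.isNoetherianRing ℤ A
  have hfin : Finite (minimalPrimes A) := (minimalPrimes.finite_of_isNoetherianRing A).to_subtype
  have := Fintype.ofFinite (minimalPrimes A)
  choose k V X ρ h1 h2 using fun P : minimalPrimes A =>
    GLc_prime A hfg N hN hA P.1 (Ideal.minimalPrimes_isPrime P.2)
  let e := (Fintype.equivFin (Σ P : minimalPrimes A, Fin (k P))).symm
  refine ⟨_, fun i => V (e i).1 (e i).2, fun i => X (e i).1 (e i).2, fun i =>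
    (ρ (e i).1 (e i).2).comp (Matrix.GeneralLinearGroup.map (Ideal.Quotient.mk (e i).1.1)),
    fun i => h1 _ _, fun g hg => ?_⟩
  have h3 : ∀ P : minimalPrimes A, ∃ n : ℕ, 0 < n ∧
      Matrix.GeneralLinearGroup.map (Ideal.Quotient.mk P.1) g ^ n = 1 := fun P => by
    refine isOfFinOrder_iff_pow_eq_one.1 (h2 P _ fun i => ?_)
    have := hg (e.symm ⟨P, i⟩)
    have h4 : ∀ c : (Σ P : minimalPrimes A, Fin (k P)), c = ⟨P, i⟩ →
        (∃ v, ρ c.1 c.2 (Matrix.GeneralLinearGroup.map (Ideal.Quotient.mk c.1.1) g) v = v) →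
        ∃ v, ρ P i (Matrix.GeneralLinearGroup.map (Ideal.Quotient.mk P.1) g) v = v := by
      rintro c rfl h
      exact h
    exact h4 _ (e.apply_symm_apply _) this
  choose n hn h4 using h3
  have hpos : 0 < ∏ P, n P := Finset.prod_pos fun P _ => hn P
  refine IsOfFinOrder.of_pow (n := ∏ P, n P) (finOrder_of_nil A N hN hA _ fun i j => ?_) hpos.ne'
  rw [← mem_nilradical, nilradical, ← Ideal.sInf_minimalPrimes, Ideal.mem_sInf]
  intro P hP
  obtain ⟨c, hc⟩ := Finset.dvd_prod_of_mem n (Finset.mem_univ ⟨P, hP⟩)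
  have h5 : Matrix.GeneralLinearGroup.map (Ideal.Quotient.mk P) (g ^ ∏ P, n P) = 1 := by
    rw [map_pow, hc, pow_mul, h4 ⟨P, hP⟩, one_pow]
  have h6 : Ideal.Quotient.mk P ((g ^ ∏ P, n P).val i j) =
      (1 : Matrix (Fin 2) (Fin 2) (A ⧸ P)) i j :=
    congrArg (fun g : GL (Fin 2) (A ⧸ P) => g.val i j) h5
  rw [← Ideal.Quotient.eq_zero_iff_mem, Matrix.sub_apply, map_sub, h6, sub_eq_zero,
    Matrix.one_apply, Matrix.one_apply]
  split_ifs <;> simp

end Pool.Agent.MP_f7db47_al.PT
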