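import Pool.Agent.MP_f7db47_al.PT.Hgt
import Pool.Agent.MP_f7db47_al.TreeGeo

namespace Pool.Agent.MP_f7db47_al.PT

universe u

/-- The barycentric subdivision. -/
def Subdiv_graph {V : Type u} (X : SimpleGraph V) : SimpleGraph (V ⊕ X.edgeSet) where
  Adj x y := match x, y with
    | .inl v, .inr e => v ∈ e.1
    | .inr e, .inl v => v ∈ e.1
    | _, _ => False
  symm := ⟨by rintro (x | x) (y | y) h <;> exact h⟩
  loopless := ⟨by rintro (x | x) h <;> exact h⟩

/-- The action on the subdivision. -/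
@[reducible] def Subdiv_act {G V : Type u} [Group G] {X : SimpleGraph V} (ρ : G →* (X ≃g X)) :
    MulAction G (V ⊕ X.edgeSet) where
  smul g := Sum.map (ρ g) fun e => ⟨e.1.map (ρ g), (ρ g).map_mem_edgeSet_iff.2 e.2⟩
  one_smul := by
    rintro (v | e)
    · exact congrArg Sum.inl (by rw [map_one]; rfl)
    · refine congrArg Sum.inr (Subtype.ext ?_)
      change e.1.map (ρ 1) = e.1
      rw [map_one]
      exact congrFun Sym2.map_id' _
  mul_smul g h := by
    rintro (v | e)
    · exact congrArg Sum.inl (by rw [map_mul]; rfl)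
    · refine congrArg Sum.inr (Subtype.ext ?_)
      change e.1.map (ρ (g * h)) = (e.1.map (ρ h)).map (ρ g)
      rw [map_mul, Sym2.map_map]
      rfl

theorem Subdiv_edge {V : Type u} {X : SimpleGraph V} (e : X.edgeSet) {v : V} (h : v ∈ e.1) :
    ∃ (w : V) (hw : X.Adj v w), e = ⟨s(v, w), hw⟩ := by
  obtain ⟨e, he⟩ := e
  obtain ⟨w, rfl⟩ := Sym2.mem_iff_exists.1 h
  exact ⟨w, he, rfl⟩

theorem Subdiv_tree {V : Type u} {X : SimpleGraph V} (hX : X.IsTree) : (Subdiv_graph X).IsTree := by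
  obtain ⟨r⟩ := hX.connected.nonempty
  refine ⟨?_, acyclic_of_height _ (Sum.elim (fun v => 2 * (X.dist r v : ℤ)) fun e =>
    Sym2.lift ⟨fun a b => (X.dist r a : ℤ) + X.dist r b, fun a b => add_comm _ _⟩ e.1) ?_ ?_⟩
  · have h1 : ∀ a b, X.Reachable a b → (Subdiv_graph X).Reachable (.inl a) (.inl b) := by
      rintro a b ⟨p⟩
      induction p with
      | nil => rfl
      | @cons a b c h p ih =>
        have h2 : (Subdiv_graph X).Adj (.inl a) (.inr ⟨s(a, b), h⟩) := Sym2.mem_mk_left a b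
        have h3 : (Subdiv_graph X).Adj (.inr ⟨s(a, b), h⟩) (.inl b) := Sym2.mem_mk_right a b
        exact (h2.reachable.trans h3.reachable).trans ih
    have h2 : ∀ x, (Subdiv_graph X).Reachable (.inl r) x := by
      rintro (v | e)
      · exact h1 _ _ (hX.connected r v)
      · have h3 : (Subdiv_graph X).Adj (.inl e.1.out.1) (.inr e) := Sym2.out_fst_mem e.1
        exact (h1 _ _ (hX.connected r _)).trans h3.reachable
    have : Nonempty (V ⊕ X.edgeSet) := ⟨.inl r⟩
    exact ⟨fun x y => (h2 x).symm.trans (h2 y)⟩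
  · rintro (v | e) (w | e') h
    · exact h.elim
    · obtain ⟨w, hw, rfl⟩ := Subdiv_edge e' h
      have := hX.dist_eq_dist_add_one_of_adj r hw
      simp only [Sum.elim_inl, Sum.elim_inr, Sym2.lift_mk]
      omega
    · obtain ⟨v, hv, rfl⟩ := Subdiv_edge e h
      have := hX.dist_eq_dist_add_one_of_adj r hv
      simp only [Sum.elim_inl, Sum.elim_inr, Sym2.lift_mk]
      omega
    · exact h.elim
  · rintro (v | e) (b | b) (c | c) hb hc h1 h2
    · exact hb.elim
    · exact hb.elim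
    · exact hc.elim
    · obtain ⟨b, hb', rfl⟩ := Subdiv_edge b hb
      obtain ⟨c, hc', rfl⟩ := Subdiv_edge c hc
      simp only [Sum.elim_inl, Sum.elim_inr, Sym2.lift_mk] at h1 h2
      obtain rfl := tree_uniq hX (z := r) hb' hc' (by omega) (by omega)
      rfl
    · obtain ⟨w, hw, rfl⟩ := Subdiv_edge e hb
      simp only [Sum.elim_inl, Sum.elim_inr, Sym2.lift_mk] at h1 h2
      rcases Sym2.mem_iff.1 hc with rfl | rfl
      · rfl
      · omega
    · exact hc.elim
    · exact hb.elim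
    · exact hb.elim

theorem exists_subdiv {G V : Type u} [Group G] (X : SimpleGraph V) (hX : X.IsTree)
    (ρ : G →* (X ≃g X)) :
    ∃ (V' : Type u) (_ : MulAction G V') (X' : SimpleGraph V'), TreeAction G X' ∧
      (∀ (g : G) (y : V'), g • y = y → ∃ v, ρ (g ^ 2) v = v) ∧
      ∀ g : G, ρ g = 1 ↔ ∀ y : V', g • y = y := by
  refine ⟨V ⊕ X.edgeSet, Subdiv_act ρ, Subdiv_graph X, ⟨Subdiv_tree hX, ?_, ?_⟩, ?_, fun g => ?_⟩
  · rintro g (v | e) (w | e') h
    · exact h.elim
    · exact Sym2.mem_map.2 ⟨v, h, rfl⟩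
    · exact Sym2.mem_map.2 ⟨w, h, rfl⟩
    · exact h.elim
  · rintro g (v | e) (w | e') h ⟨h1, -⟩
    · exact h.elim
    · exact Sum.inl_ne_inr h1
    · exact Sum.inr_ne_inl h1
    · exact h.elim
  · have h2 : ∀ g v, ρ (g ^ 2) v = ρ g (ρ g v) := fun g v => by rw [pow_two, map_mul]; rfl
    rintro g (v | ⟨e, he⟩) h
    · have h1 : ρ g v = v := Sum.inl_injective h
      exact ⟨v, by rw [h2, h1, h1]⟩
    · have h1 : e.map (ρ g) = e := congrArg Subtype.val (Sum.inr_injective h)
      induction e using Sym2.ind with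
      | h a b =>
        refine ⟨a, ?_⟩
        rcases Sym2.eq_iff.1 h1 with ⟨h3, -⟩ | ⟨h3, h4⟩
        · rw [h2, h3, h3]
        · rw [h2, h3, h4]
  · refine ⟨fun h => ?_, fun h => RelIso.ext fun v => Sum.inl_injective (h (.inl v))⟩
    rintro (v | e)
    · exact congrArg Sum.inl (by rw [h]; rfl)
    · refine congrArg Sum.inr (Subtype.ext ?_)
      change e.1.map (ρ g) = e.1
      rw [h]
      exact congrFun Sym2.map_id' _

end Pool.Agent.MP_f7db47_al.PT
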