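import Pool.Agent.MP_f7db47_al.PT.PMain
import Pool.Agent.MP_f7db47_al.PT.Defs
import Pool.Agent.MP_f7db47_al.PT.Subdiv
import Pool.Agent.MP_f7db47_al.PT.GLc
import Pool.Agent.MP_f7db47_al.PT.Ab

/-!
The class `P` satisfies the inductive property.
-/

namespace Pool.Agent.MP_f7db47_al.PT

universe v

variable {R : Type v} [Ring R]

theorem qq_aut {G : Type} [Group G] {k : ℕ} {V : Fin k → Type} (X : ∀ i, SimpleGraph (V i))
    (hX : ∀ i, (X i).IsTree) (ρ : ∀ i, G →* (X i ≃g X i))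
    (hfree : ∀ g : G, (∀ i, ∃ v, ρ i (g ^ 2) v = v) → ∀ i, ρ i g = 1)
    (hab : ∀ H : Subgroup G, (∀ a ∈ H, ∀ b ∈ H, ∀ i, ρ i (a * b) = ρ i (b * a)) → QQ R H) :
    QQ R G := by
  choose V' act X' h1 h2 h3 using fun i => exists_subdiv (X i) (hX i) (ρ i)
  refine qq_trees _ (Fin k) rfl G V' X' h1
    (fun g x hx i => (h3 i g).1 (hfree g (fun j => h2 j g _ (hx j)) i)) fun H hH => ?_
  refine hab H fun a ha b hb i => ?_
  rw [← inv_mul_eq_one, ← map_inv, ← map_mul, h3]
  intro y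
  rw [mul_smul, inv_smul_eq_iff]
  exact (hH a ha b hb i y).symm

theorem qq_gl2 {G : Type} [Group G] {A : Type} [CommRing A] {N : ℕ} (hN : 0 < N)
    (hA : (N : A) = 0) (f : G →* GL (Fin 2) A) (ht : ∀ g : G, IsOfFinOrder (f g) → f g = 1)
    (hab : ∀ H : Subgroup G, (∀ a ∈ H, ∀ b ∈ H, f (a * b) = f (b * a)) → QQ R H) : QQ R G := by
  refine qq_loc fun K hK => ?_
  obtain ⟨A₀, f₀, hfg, hf₀⟩ := exists_fg_subring ((Group.fg_iff_subgroup_fg K).2 hK) A
    (f.comp K.subtype)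
  obtain ⟨k, V, X, ρ, hX, hρ⟩ := gl2_trees A₀ hfg N hN (Subtype.ext (by simpa using hA))
  have hinj : ∀ g : K, f g = 1 → f₀ g = 1 := by
    intro g hg
    have := (hf₀ g).trans hg
    ext i j
    simpa [Matrix.one_apply, apply_ite] using congrArg (fun M : GL (Fin 2) A => M.val i j) this
  have key : ∀ g : K, IsOfFinOrder (f₀ g) → f g = 1 := fun g hg =>
    ht g ((hf₀ g) ▸ MonoidHom.isOfFinOrder _ hg)
  refine qq_aut X hX (fun i => (ρ i).comp f₀) (fun g hg i => ?_) fun H hH => ?_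
  · have := hρ (f₀ (g ^ 2)) hg
    rw [map_pow] at this
    rw [MonoidHom.comp_apply, hinj g (key g (this.of_pow two_ne_zero)), map_one]
  · refine (hab (H.map K.subtype) ?_).sub
      (H.equivMapOfInjective _ (Subgroup.subtype_injective _)).toMonoidHom (MulEquiv.injective _)
    rintro _ ⟨a, ha, rfl⟩ _ ⟨b, hb, rfl⟩
    have := key ((a * b)⁻¹ * (b * a)) (hρ _ fun i => ⟨(hX i).connected.nonempty.some, by
      have h := hH a ha b hb i
      simp only [MonoidHom.comp_apply] at h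
      rw [map_mul, map_mul, map_inv, map_inv, h, inv_mul_cancel]
      rfl⟩)
    rwa [Subgroup.coe_mul, map_mul, Subgroup.coe_inv, map_inv, inv_mul_eq_one] at this

theorem qq_classP (hR : RegularRing R) {G : Type} [Group G] (hG : ClassP G) : QQ R G := by
  induction hG with
  | poly G h => exact qq_poly hR h
  | ab G hc ht => exact qq_ab hR hc ht
  | sub G H f hf _ ih => exact ih.sub f hf
  | prod G P _ hP ih => exact ih.prod_poly hP
  | loc G _ ih => exact qq_loc ih
  | trees G k V X hX ρ hfree _ ih => exact qq_aut X hX ρ hfree ih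
  | gl2 G A N hN hA f ht _ ih => exact qq_gl2 hN hA f ht ih

end Pool.Agent.MP_f7db47_al.PT
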