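import Mathlib

namespace Pool.Agent.MP_f7db47_al.PT

theorem GLa_sq {B : Type} [CommRing B] (M : Matrix (Fin 2) (Fin 2) B) :
    M * M = M.trace • M + (-M.det) • (1 : Matrix (Fin 2) (Fin 2) B) := by
  ext i j
  fin_cases i <;> fin_cases j <;>
    simp [Matrix.mul_apply, Fin.sum_univ_two, Matrix.trace_fin_two, Matrix.det_fin_two] <;> ring

theorem finOrder_of_integral (p : ℕ) [Fact p.Prime] (B : Type) [CommRing B] [Algebra (ZMod p) B]
    (g : GL (Fin 2) B) (h1 : IsIntegral (ZMod p) g.val.trace)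
    (h2 : IsIntegral (ZMod p) g.val.det) : IsOfFinOrder g := by
  set S := Algebra.adjoin (ZMod p) ({g.val.trace, g.val.det} : Set B) with hS
  have hfin : Module.Finite (ZMod p) S := by
    refine Algebra.finite_adjoin_of_finite_of_isIntegral (Set.toFinite _) ?_
    rintro x (rfl | rfl)
    · exact h1
    · exact h2
  have hF : Finite S := Module.finite_of_finite (ZMod p)
  have ht : g.val.trace ∈ S := Algebra.subset_adjoin (by simp)
  have hd : g.val.det ∈ S := Algebra.subset_adjoin (by simp)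
  have key : ∀ n : ℕ, ∃ a b : S, g.val ^ n = (a : B) • g.val + (b : B) • 1 := by
    intro n
    induction n with
    | zero => exact ⟨0, 1, by simp⟩
    | succ n ih =>
      obtain ⟨a, b, h⟩ := ih
      refine ⟨a * ⟨_, ht⟩ + b, -(a * ⟨_, hd⟩), ?_⟩
      rw [pow_succ, h, add_mul, smul_mul_assoc, smul_mul_assoc, one_mul, GLa_sq]
      simp only [MulMemClass.coe_mul, AddMemClass.coe_add, NegMemClass.coe_neg]
      module
  rw [← finite_powers]
  refine Set.Finite.of_finite_image (f := Units.val) ?_ Units.val_injective.injOn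
  refine (Set.finite_range fun c : S × S => (c.1 : B) • g.val + (c.2 : B) • 1).subset ?_
  rintro _ ⟨_, ⟨n, rfl⟩, rfl⟩
  obtain ⟨a, b, h⟩ := key n
  exact ⟨(a, b), by simpa using h.symm⟩

theorem GLa_dvd {C : Type} [CommRing C] (N : ℕ) (hN : 0 < N) (hC : (N : C) = 0) (x : C) (k : ℕ) :
    ∃ n : ℕ, 0 < n ∧ x ^ (k + 1) ∣ (1 + x) ^ n - 1 := by
  induction k with
  | zero => exact ⟨1, one_pos, by simp⟩
  | succ k ih =>
    obtain ⟨n, hn, w, h⟩ := ih
    refine ⟨n * N, Nat.mul_pos hn hN, ?_⟩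
    have h1 : (1 + x) ^ n = 1 + x ^ (k + 1) * w := by rw [← h]; ring
    have h2 := sq_dvd_add_pow_sub_sub (x ^ (k + 1) * w) 1 N
    rw [hC, mul_zero, sub_zero, one_pow] at h2
    rw [pow_mul, h1]
    exact Dvd.dvd.trans ⟨x ^ k * w ^ 2, by ring⟩ h2

theorem finOrder_of_nil (A : Type) [CommRing A] (N : ℕ) (hN : 0 < N) (hA : (N : A) = 0)
    (g : GL (Fin 2) A) (h : ∀ i j, IsNilpotent ((g.val - 1) i j)) : IsOfFinOrder g := by
  set X := g.val - 1 with hX
  have ht : IsNilpotent X.trace := by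
    rw [Matrix.trace_fin_two]
    exact (Commute.all _ _).isNilpotent_add (h 0 0) (h 1 1)
  have hd : IsNilpotent (-X.det) := by
    rw [Matrix.det_fin_two]
    exact ((Commute.all _ _).isNilpotent_sub ((Commute.all _ _).isNilpotent_mul_right (h 0 0))
      ((Commute.all _ _).isNilpotent_mul_right (h 0 1))).neg
  have hs : ∀ (c : A) (M : Matrix (Fin 2) (Fin 2) A), IsNilpotent c → IsNilpotent (c • M) := by
    rintro c M ⟨n, hn⟩
    exact ⟨n, by rw [smul_pow, hn, zero_smul]⟩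
  have h2 : IsNilpotent (X ^ 2) := by
    rw [sq, GLa_sq]
    exact ((Commute.one_right X).smul_left _ |>.smul_right _).isNilpotent_add (hs _ _ ht)
      (hs _ _ hd)
  obtain ⟨k, hk⟩ := h2.of_pow
  have hC : (N : Polynomial A) = 0 := by rw [← Polynomial.C_eq_natCast, hA, map_zero]
  obtain ⟨n, hn, w, hw⟩ := GLa_dvd N hN hC Polynomial.X k
  have h3 := congrArg (Polynomial.aeval X) hw
  simp only [map_sub, map_pow, map_add, map_one, map_mul, Polynomial.aeval_X] at h3
  rw [pow_succ, hk, zero_mul, zero_mul, hX, add_sub_cancel, sub_eq_zero] at h3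
  exact isOfFinOrder_iff_pow_eq_one.2 ⟨n, hn, Units.ext (by simpa using h3)⟩

/-- The invertible matrices defined over a subring. -/
def GLa_sub {A : Type} [CommRing A] (A₀ : Subring A) : Subgroup (GL (Fin 2) A) where
  carrier := {g | (∀ i j, g.val i j ∈ A₀) ∧ ∀ i j, (g⁻¹).val i j ∈ A₀}
  one_mem' := by
    have : ∀ i j : Fin 2, (1 : Matrix (Fin 2) (Fin 2) A) i j ∈ A₀ := fun i j => by
      rw [Matrix.one_apply]
      split_ifs
      · exact A₀.one_mem
      · exact A₀.zero_mem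
    exact ⟨this, by simpa using this⟩
  mul_mem' := by
    rintro a b ⟨h1, h2⟩ ⟨h3, h4⟩
    refine ⟨fun i j => ?_, fun i j => ?_⟩
    · rw [Units.val_mul, Matrix.mul_apply]
      exact A₀.sum_mem fun l _ => A₀.mul_mem (h1 _ _) (h3 _ _)
    · rw [mul_inv_rev, Units.val_mul, Matrix.mul_apply]
      exact A₀.sum_mem fun l _ => A₀.mul_mem (h4 _ _) (h2 _ _)
  inv_mem' := by
    rintro a ⟨h1, h2⟩
    exact ⟨h2, by rw [inv_inv]; exact h1⟩

theorem GLa_inj {A : Type} [CommRing A] (A₀ : Subring A) :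
    Function.Injective (Matrix.GeneralLinearGroup.map (n := Fin 2) A₀.subtype) := by
  intro a b h
  refine Units.ext (Matrix.ext fun i j => Subtype.ext ?_)
  exact congrArg (fun g : GL (Fin 2) A => g.val i j) h

theorem GLa_range {A : Type} [CommRing A] (A₀ : Subring A) (g : GL (Fin 2) A)
    (hg : g ∈ GLa_sub A₀) :
    g ∈ (Matrix.GeneralLinearGroup.map (n := Fin 2) A₀.subtype).range := by
  have hi : Function.Injective (A₀.subtype.mapMatrix (m := Fin 2)) := fun a b h =>
    Matrix.ext fun i j => Subtype.ext (congrArg (fun M : Matrix (Fin 2) (Fin 2) A => M i j) h)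
  let M : Matrix (Fin 2) (Fin 2) A₀ := fun i j => ⟨_, hg.1 i j⟩
  let M' : Matrix (Fin 2) (Fin 2) A₀ := fun i j => ⟨_, hg.2 i j⟩
  have e1 : A₀.subtype.mapMatrix M = g.val := rfl
  have e2 : A₀.subtype.mapMatrix M' = (g⁻¹).val := rfl
  refine ⟨⟨M, M', hi ?_, hi ?_⟩, Units.ext e1⟩
  · rw [map_mul, map_one, e1, e2, Units.mul_inv]
  · rw [map_mul, map_one, e1, e2, Units.inv_mul]

theorem exists_fg_subring {K : Type} [Group K] (hK : Group.FG K) (A : Type) [CommRing A]
    (f : K →* GL (Fin 2) A) :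
    ∃ (A₀ : Subring A) (f₀ : K →* GL (Fin 2) A₀), Algebra.FiniteType ℤ A₀ ∧
      ∀ g, Matrix.GeneralLinearGroup.map A₀.subtype (f₀ g) = f g := by
  obtain ⟨S, hS, hfin⟩ := Group.fg_iff.1 hK
  have := hfin.to_subtype
  let T : Set A := Set.range (fun c : S × Fin 2 × Fin 2 => (f c.1).val c.2.1 c.2.2) ∪
    Set.range (fun c : S × Fin 2 × Fin 2 => ((f c.1)⁻¹).val c.2.1 c.2.2)
  have hT : T.Finite := (Set.finite_range _).union (Set.finite_range _)
  let A₀ : Subring A := (Algebra.adjoin ℤ T).toSubring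
  have hmem : ∀ g, f g ∈ GLa_sub A₀ := by
    have : (⊤ : Subgroup K) ≤ (GLa_sub A₀).comap f := by
      rw [← hS, Subgroup.closure_le]
      intro s hs
      exact ⟨fun i j => Algebra.subset_adjoin (Or.inl ⟨(⟨s, hs⟩, i, j), rfl⟩),
        fun i j => Algebra.subset_adjoin (Or.inr ⟨(⟨s, hs⟩, i, j), rfl⟩)⟩
    exact fun g => this (Subgroup.mem_top g)
  let e := MonoidHom.ofInjective (GLa_inj A₀)
  refine ⟨A₀, e.symm.toMonoidHom.comp (f.codRestrict _ fun g => GLa_range A₀ _ (hmem g)), ?_,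
    fun g => ?_⟩
  · have h1 : (Algebra.adjoin ℤ T).FG := ⟨hT.toFinset, by simp⟩
    have h2 := (Subalgebra.fg_iff_finiteType _).1 h1
    exact h2
  · exact congrArg Subtype.val (e.apply_symm_apply ⟨f g, GLa_range A₀ _ (hmem g)⟩)

end Pool.Agent.MP_f7db47_al.PT
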