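import Pool.Agent.MP_f7db47_al.PT.BT
import Pool.Agent.MP_f7db47_al.PT.Subdiv

/-!
The subdivided Bruhat-Tits tree, with its vertex and edge stabilisers.
-/

namespace Pool.Agent.MP_f7db47_al.PT

open scoped WithZero

section

open WithZero Matrix

variable {K : Type} [Field K] (v : Valuation K ℤᵐ⁰)

/-- the Iwahori condition -/
def ZBT_I (g : GL (Fin 2) K) (u : ℤ) : Prop :=
  (∀ i j, v (g.val i j) ≤ exp u) ∧ v (g.val 1 0) < exp u ∧ BTd v g = u + u

theorem ZBT_lt {a b : K} {u u' : ℤ} (ha : v a ≤ exp u) (hb : v b < exp u') :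
    v (a * b) < exp (u + u') := by
  rw [map_mul, exp_add]
  exact (mul_le_mul' ha le_rfl).trans_lt (mul_lt_mul_of_pos_left hb (zero_lt_iff.2 exp_ne_zero))

theorem ZBT_iw {x : Kˣ} (hx : v x = exp 1) {g : GL (Fin 2) K} (h1 : g ∈ BTH v)
    (h2 : (BTD x)⁻¹ * g * BTD x ∈ BTH v) : ZBT_I v g (BTn v g) := by
  have e1 : BTδ v g = 0 := h1
  have e2 : BTδ v ((BTD x)⁻¹ * g * BTD x) = 0 := h2
  rw [BTδ, BTd_mul, BTd_mul, BTd_inv] at e2
  rw [BTδ] at e1
  refine ⟨BT_le_n v g, ?_, by omega⟩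
  have e3 := (BTn_le_iff v (g := (BTD x)⁻¹ * g * BTD x) (u := BTn v g)).1 (by omega) 1 0
  have e4 : ((BTD x)⁻¹ * g * BTD x).val 1 0 = g.val 1 0 * x := by
    rw [← map_inv, Units.val_mul, Units.val_mul, BTD_val, BTD_val]
    simp [mul_apply, Fin.sum_univ_two, vecMul, dotProduct]
  rw [e4, map_mul, hx, ← le_div_iff₀ (zero_lt_iff.2 exp_ne_zero), ← exp_sub] at e3
  exact e3.trans_lt (exp_lt_exp.2 (by omega))

theorem ZBT_diag {g h : GL (Fin 2) K} {u u' : ℤ} (hg : ZBT_I v g u) (hh : ZBT_I v h u')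
    (i : Fin 2) : v ((g * h).val i i - g.val i i * h.val i i) < exp (u + u') := by
  rw [Units.val_mul, mul_apply, Fin.sum_univ_two]
  fin_cases i
  · simpa using ZBT_lt v (hg.1 0 1) hh.2.1
  · have := ZBT_lt v (hh.1 0 1) hg.2.1
    rw [add_comm, mul_comm] at this
    simpa using this

theorem ZBT_unit {g : GL (Fin 2) K} {u : ℤ} (hg : ZBT_I v g u) (i : Fin 2) :
    exp u ≤ v (g.val i i) := by
  by_contra h
  rw [not_le] at h
  have h1 : v (g.val 0 0 * g.val 1 1) < exp (u + u) := by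
    fin_cases i
    · rw [mul_comm]
      exact ZBT_lt v (hg.1 1 1) h
    · exact ZBT_lt v (hg.1 0 0) h
  have h2 := v.map_sub_lt h1 (ZBT_lt v (hg.1 0 1) hg.2.1)
  rw [← det_fin_two, BT_vdet, hg.2.2] at h2
  exact lt_irrefl _ h2

theorem ZBT_core {g h w : GL (Fin 2) K} {u u' U t : ℤ} (hg : ZBT_I v g u) (hh : ZBT_I v h u')
    (hp : ZBT_I v (h * g) U) (hw : ZBT_I v w t) (e : w * (h * g) = g * h) :
    v (w.val.trace - 2) < 1 := by
  have d1 := BTd_mul v h g
  have d2 := BTd_mul v g h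
  have d3 := BTd_mul v w (h * g)
  rw [e, d2, hw.2.2, d1] at d3
  rw [hp.2.2, hg.2.2, hh.2.2] at d1
  obtain rfl : t = 0 := by omega
  obtain rfl : U = u + u' := by omega
  have key : ∀ i, v (w.val i i - 1) < 1 := fun i => by
    have a1 := ZBT_diag v hg hh i
    have a2 := ZBT_diag v hh hg i
    have a3 := ZBT_diag v hw hp i
    rw [add_comm] at a2
    rw [e, zero_add] at a3
    have a4 := v.map_sub_lt (v.map_sub_lt a1 a2) a3
    rw [show (g * h).val i i - g.val i i * h.val i i - ((h * g).val i i - h.val i i * g.val i i) -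
      ((g * h).val i i - w.val i i * (h * g).val i i) = (h * g).val i i * (w.val i i - 1) by ring,
      map_mul] at a4
    by_contra a5
    exact absurd a4 (not_lt.2 ((mul_one _).symm.trans_le
      (mul_le_mul' (ZBT_unit v hp i) (not_lt.1 a5))))
  rw [trace_fin_two, show w.val 0 0 + w.val 1 1 - 2 = (w.val 0 0 - 1) + (w.val 1 1 - 1) by ring]
  exact v.map_add_lt (key 0) (key 1)

theorem ZBT_fix {g k : GL (Fin 2) K}
    (h : g • (k : GL (Fin 2) K ⧸ BTH v) = k) : k⁻¹ * g * k ∈ BTH v := by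
  rw [mul_assoc]
  exact QuotientGroup.eq.1 h.symm

theorem ZBT_trace (g k : GL (Fin 2) K) : (k⁻¹ * g * k).val.trace = g.val.trace := by
  rw [Units.val_mul, trace_mul_comm, ← Units.val_mul, ← mul_assoc, mul_inv_cancel, one_mul]

theorem ZBT_low {x : Kˣ} (hx : v x = exp 1) {a b : GL (Fin 2) K ⧸ BTH v} (hab : (BTX v).Adj a b)
    (h : BTh v b.out < BTh v a.out) :
    ∃ k : GL (Fin 2) K, a = k ∧ b = (k * BTD x : GL (Fin 2) K) := by
  obtain ⟨a, ha, rfl⟩ := BT_rep v a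
  obtain ⟨g, rfl⟩ := QuotientGroup.mk_surjective b
  rw [BTh_mk, BTh_mk] at h
  have h3 := BTh_upper v ha (a⁻¹ * g)
  rw [mul_inv_cancel_left] at h3
  have := BT_low v hx ((BTX_adj v _ _).1 hab) (by omega)
  refine ⟨a, rfl, Eq.symm ?_⟩
  rwa [QuotientGroup.eq, _root_.mul_inv_rev, mul_assoc]

theorem ZBT_edge {x : Kˣ} (hx : v x = exp 1) {a b : GL (Fin 2) K ⧸ BTH v} (hab : (BTX v).Adj a b)
    {g h : GL (Fin 2) K} (ga : g • a = a) (gb : g • b = b) (ha : h • a = a) (hb : h • b = b) :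
    v ((g * h * g⁻¹ * h⁻¹).val.trace - 2) < 1 := by
  wlog hl : BTh v b.out < BTh v a.out generalizing a b
  · refine this hab.symm gb ga hb ha ?_
    have h1 : BTδ v (a.out⁻¹ * b.out) = 1 := hab
    have h2 := BTd_mul v a.out⁻¹ b.out
    have h3 := BTd_inv v a.out
    unfold BTδ BTh at *
    omega
  have key : ∀ y ∈ MulAction.stabilizer (GL (Fin 2) K) a ⊓ MulAction.stabilizer (GL (Fin 2) K) b,
      ∀ k : GL (Fin 2) K, a = k → b = (k * BTD x : GL (Fin 2) K) →
        ZBT_I v (k⁻¹ * y * k) (BTn v (k⁻¹ * y * k)) := by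
    rintro y ⟨h1, h2⟩ k rfl rfl
    refine ZBT_iw v hx (ZBT_fix v h1) ?_
    have := ZBT_fix v h2
    rwa [_root_.mul_inv_rev, ← mul_assoc, mul_assoc _ k⁻¹, mul_assoc _ _ k] at this
  obtain ⟨k, h1, h2⟩ := ZBT_low v hx hab hl
  have mg : g ∈ MulAction.stabilizer (GL (Fin 2) K) a ⊓ MulAction.stabilizer (GL (Fin 2) K) b :=
    ⟨ga, gb⟩
  have mh : h ∈ MulAction.stabilizer (GL (Fin 2) K) a ⊓ MulAction.stabilizer (GL (Fin 2) K) b :=
    ⟨ha, hb⟩
  have h3 := key _ (mul_mem mh mg) k h1 h2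
  rw [show k⁻¹ * (h * g) * k = k⁻¹ * h * k * (k⁻¹ * g * k) by group] at h3
  rw [← ZBT_trace _ k]
  exact ZBT_core v (key g mg k h1 h2) (key h mh k h1 h2) h3
    (key _ (mul_mem (mul_mem (mul_mem mg mh) (inv_mem mg)) (inv_mem mh)) k h1 h2) (by group)

theorem ZBT_vert {g : GL (Fin 2) K} {a : GL (Fin 2) K ⧸ BTH v} (h : g • g • a = a) :
    v (g.val.trace ^ 2 / g.val.det) ≤ 1 := by
  obtain ⟨k, rfl⟩ := QuotientGroup.mk_surjective a
  rw [← mul_smul] at h
  have h1 : BTδ v (k⁻¹ * (g * g) * k) = 0 := ZBT_fix v h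
  rw [BTδ, BTd_mul, BTd_mul, BTd_mul, BTd_inv] at h1
  have h2 := (BTn_le_iff v (g := k⁻¹ * (g * g) * k) (u := BTd v g)).1 (by omega)
  have h3 := v.map_add_le (h2 0 0) (h2 1 1)
  rw [← trace_fin_two, ZBT_trace, ← BT_vdet] at h3
  have h4 : g.val.trace ^ 2 = (g * g).val.trace + g.val.det + g.val.det := by
    simp only [Units.val_mul, trace_fin_two, mul_apply, Fin.sum_univ_two, det_fin_two]
    ring
  rw [map_div₀, h4]
  exact div_le_one_of_le₀ (v.map_add_le (v.map_add_le h3 le_rfl) le_rfl) zero_le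

theorem ZBT_scal {g : GL (Fin 2) K} {c : K} (h : g.val = c • (1 : Matrix (Fin 2) (Fin 2) K))
    (a : GL (Fin 2) K ⧸ BTH v) : g • a = a := by
  obtain ⟨k, rfl⟩ := QuotientGroup.mk_surjective a
  have h1 : g * k = k * g := Units.ext (by simp [h])
  have h2 : g.val.det = c * c := by simp [h, sq]
  have h3 : v c ≠ 0 := fun e => BT_det_ne g (by rw [h2, (Valuation.zero_iff v).1 e, mul_zero])
  have h4 : g ∈ BTH v := BTδ_zero v (log (v c)) (fun i j => by
    rw [exp_log h3, h]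
    fin_cases i <;> fin_cases j <;> simp) (by rw [h2, map_mul, exp_add, exp_log h3])
  change ((g * k : GL (Fin 2) K) : GL (Fin 2) K ⧸ BTH v) = k
  rw [h1, QuotientGroup.mk_mul_of_mem k h4]

theorem ZBT_half {x : Kˣ} (hx : v x = exp 1) {a : GL (Fin 2) K ⧸ BTH v} {e : (BTX v).edgeSet}
    (hae : a ∈ e.1) {g h : GL (Fin 2) K} (ga : g • a = a) (ge : e.1.map (g • ·) = e.1)
    (ha : h • a = a) (he : e.1.map (h • ·) = e.1) :
    v ((g * h * g⁻¹ * h⁻¹).val.trace - 2) < 1 := by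
  obtain ⟨b, hab, rfl⟩ := Subdiv_edge e hae
  have key : ∀ y : GL (Fin 2) K, y • a = a → s(a, b).map (y • ·) = s(a, b) → y • b = b := by
    intro y h1 h2
    rcases Sym2.eq_iff.1 h2 with ⟨-, h3⟩ | ⟨h3, -⟩
    · exact h3
    · exact absurd (h1.symm.trans h3) hab.ne
  exact ZBT_edge v hx hab ga (key g ga ge) ha (key h ha he)

end

theorem exists_BT0 {K : Type} [Field K] (v : Valuation K ℤᵐ⁰) (π : K)
    (hπ : v π = WithZero.exp (-1)) :
    ∃ (V : Type) (_ : MulAction (GL (Fin 2) K) V) (X : SimpleGraph V),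
      TreeAction (GL (Fin 2) K) X ∧
      (∀ (g : GL (Fin 2) K) (c : K), g.val = c • (1 : Matrix (Fin 2) (Fin 2) K) →
        ∀ y : V, g • y = y) ∧
      (∀ (g : GL (Fin 2) K) (y : V), g • y = y → v (g.val.trace ^ 2 / g.val.det) ≤ 1) ∧
      ∀ (g h : GL (Fin 2) K) (a b : V), X.Adj a b → g • a = a → g • b = b → h • a = a →
        h • b = b → v ((g * h * g⁻¹ * h⁻¹).val.trace - 2) < 1 := by
  have h0 : π ≠ 0 := fun h => by rw [h, map_zero] at hπ; exact WithZero.exp_ne_zero hπ.symm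
  have hx : v ((Units.mk0 π h0)⁻¹ : Kˣ) = WithZero.exp 1 := by simp [hπ]
  refine ⟨_ ⊕ (BTX v).edgeSet, Subdiv_act (BTρ v), Subdiv_graph (BTX v),
    ⟨Subdiv_tree ⟨BT_conn v hx, BT_acyclic v hx⟩, ?_, ?_⟩, ?_, ?_, ?_⟩
  · rintro g (a | e) (w | e') h
    · exact h.elim
    · exact Sym2.mem_map.2 ⟨a, h, rfl⟩
    · exact Sym2.mem_map.2 ⟨w, h, rfl⟩
    · exact h.elim
  · rintro g (a | e) (w | e') h ⟨h1, -⟩
    · exact h.elim
    · exact Sum.inl_ne_inr h1
    · exact Sum.inr_ne_inl h1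
    · exact h.elim
  · rintro g c h (a | e)
    · exact congrArg Sum.inl (ZBT_scal v h a)
    · refine congrArg Sum.inr (Subtype.ext ?_)
      change e.1.map (g • ·) = e.1
      rw [funext (ZBT_scal v h)]
      exact congrFun Sym2.map_id' _
  · rintro g (a | ⟨e, he⟩) h
    · have h1 : g • a = a := Sum.inl_injective h
      exact ZBT_vert v (a := a) (by rw [h1, h1])
    · have h1 : e.map (g • ·) = e := congrArg Subtype.val (Sum.inr_injective h)
      induction e using Sym2.ind with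
      | h a b =>
        refine ZBT_vert v (a := a) ?_
        rcases Sym2.eq_iff.1 h1 with ⟨h3, -⟩ | ⟨h3, h4⟩
        · rw [show g • a = a from h3, show g • a = a from h3]
        · rw [show g • a = b from h3, show g • b = a from h4]
  · rintro g h (a | e) (b | e') hab h1 h2 h3 h4
    · exact hab.elim
    · exact ZBT_half v hx hab (Sum.inl_injective h1) (congrArg Subtype.val (Sum.inr_injective h2))
        (Sum.inl_injective h3) (congrArg Subtype.val (Sum.inr_injective h4))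
    · exact ZBT_half v hx hab (Sum.inl_injective h2) (congrArg Subtype.val (Sum.inr_injective h1))
        (Sum.inl_injective h4) (congrArg Subtype.val (Sum.inr_injective h3))
    · exact hab.elim

end Pool.Agent.MP_f7db47_al.PT
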