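import Pool.Agent.MP_f7db47_al.PT.ZDefs

/-!
The incidence geometry of `GL_2` over a field of characteristic zero.
-/

namespace Pool.Agent.MP_f7db47_al.PT

section alg

variable {K : Type} [Field K]

/-- Two by two matrices. -/
abbrev ZGeo_M (K : Type) : Type := Matrix (Fin 2) (Fin 2) K

/-- The trace form. -/
def ZGeo_B (x y : ZGeo_M K) : K := (x * y).trace

/-- Twice the traceless part. -/
def ZGeo_tl (h : ZGeo_M K) : ZGeo_M K := (2 : K) • h - h.trace • (1 : ZGeo_M K)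

/-- Conjugation. -/
def ZGeo_cj (g : GL (Fin 2) K) (x : ZGeo_M K) : ZGeo_M K := g.val * x * (g⁻¹).val

theorem ZGeo_e11 {x : ZGeo_M K} (h : x.trace = 0) : x 1 1 = -x 0 0 := by
  rw [Matrix.trace_fin_two] at h
  linear_combination h

theorem ZGeo_B_comm (x y : ZGeo_M K) : ZGeo_B x y = ZGeo_B y x := Matrix.trace_mul_comm x y

theorem ZGeo_B_smul (c d : K) (x y : ZGeo_M K) :
    ZGeo_B (c • x) (d • y) = c * d * ZGeo_B x y := by
  simp [ZGeo_B, mul_assoc, mul_left_comm]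

theorem ZGeo_tl_trace (h : ZGeo_M K) : (ZGeo_tl h).trace = 0 := by
  simp [ZGeo_tl, Matrix.trace_fin_two]
  ring

theorem ZGeo_tl_smul (c : K) (h : ZGeo_M K) : ZGeo_tl (c • h) = c • ZGeo_tl h := by
  simp [ZGeo_tl, smul_sub, smul_smul, mul_comm]

theorem ZGeo_tl_comm {h n : ZGeo_M K} (e : h * n = n * h) : ZGeo_tl h * n = n * ZGeo_tl h := by
  simp [ZGeo_tl, sub_mul, mul_sub, e]

theorem ZGeo_cj_mul (g : GL (Fin 2) K) (x y : ZGeo_M K) :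
    ZGeo_cj g (x * y) = ZGeo_cj g x * ZGeo_cj g y := by
  simp only [ZGeo_cj, mul_assoc, Units.inv_mul_cancel_left]

theorem ZGeo_cj_sub (g : GL (Fin 2) K) (x y : ZGeo_M K) :
    ZGeo_cj g (x - y) = ZGeo_cj g x - ZGeo_cj g y := by
  simp only [ZGeo_cj, mul_sub, sub_mul]

theorem ZGeo_cj_smul (g : GL (Fin 2) K) (c : K) (x : ZGeo_M K) :
    ZGeo_cj g (c • x) = c • ZGeo_cj g x := by
  simp only [ZGeo_cj, mul_smul_comm, smul_mul_assoc]

theorem ZGeo_cj_one (x : ZGeo_M K) : ZGeo_cj 1 x = x := by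
  simp [ZGeo_cj]

theorem ZGeo_cj_cj (g h : GL (Fin 2) K) (x : ZGeo_M K) :
    ZGeo_cj (g * h) x = ZGeo_cj g (ZGeo_cj h x) := by
  simp only [ZGeo_cj, mul_inv_rev, Units.val_mul, mul_assoc]

theorem ZGeo_cj_trace (g : GL (Fin 2) K) (x : ZGeo_M K) : (ZGeo_cj g x).trace = x.trace := by
  rw [ZGeo_cj, Matrix.trace_mul_comm, ← mul_assoc, Units.inv_mul, one_mul]

theorem ZGeo_cj_eq_zero {g : GL (Fin 2) K} {x : ZGeo_M K} (h : ZGeo_cj g x = 0) : x = 0 := by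
  have h1 := congrArg (ZGeo_cj g⁻¹) h
  rw [← ZGeo_cj_cj, inv_mul_cancel, ZGeo_cj_one] at h1
  rw [h1]
  simp [ZGeo_cj]

theorem ZGeo_cj_B (g : GL (Fin 2) K) (x y : ZGeo_M K) :
    ZGeo_B (ZGeo_cj g x) (ZGeo_cj g y) = ZGeo_B x y := by
  rw [ZGeo_B, ← ZGeo_cj_mul, ZGeo_cj_trace, ZGeo_B]

theorem ZGeo_cj_tl (g : GL (Fin 2) K) (x : ZGeo_M K) :
    ZGeo_tl (ZGeo_cj g x) = ZGeo_cj g (ZGeo_tl x) := by
  rw [ZGeo_tl, ZGeo_tl, ZGeo_cj_sub, ZGeo_cj_smul, ZGeo_cj_smul, ZGeo_cj_trace]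
  simp [ZGeo_cj]

theorem ZGeo_cj_val (a h : GL (Fin 2) K) : (a * h * a⁻¹).val = ZGeo_cj a h.val := by
  simp only [ZGeo_cj, Units.val_mul]

theorem ZGeo_cj_eq {g : GL (Fin 2) K} {x y : ZGeo_M K} :
    ZGeo_cj g x = y ↔ g.val * x = y * g.val := by
  constructor
  · rintro rfl
    simp only [ZGeo_cj, mul_assoc, Units.inv_mul, mul_one]
  · intro h
    rw [ZGeo_cj, h, mul_assoc, Units.mul_inv, mul_one]

theorem ZGeo_br_trace (x y : ZGeo_M K) : (x * y - y * x).trace = 0 := by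
  rw [Matrix.trace_sub, Matrix.trace_mul_comm, sub_self]

theorem ZGeo_triple {x x' y : ZGeo_M K} (hx : x.trace = 0) (hx' : x'.trace = 0)
    (hy : y.trace = 0) : y * (x * x' - x' * x) - (x * x' - x' * x) * y =
      (2 * ZGeo_B y x) • x' - (2 * ZGeo_B y x') • x := by
  have h1 := ZGeo_e11 hx
  have h2 := ZGeo_e11 hx'
  have h3 := ZGeo_e11 hy
  ext i j
  fin_cases i <;> fin_cases j <;>
    simp [ZGeo_B, Matrix.mul_apply, Fin.sum_univ_two, Matrix.trace_fin_two, h1, h2, h3] <;> ring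

theorem ZGeo_anti {x y : ZGeo_M K} (hx : x.trace = 0) (hy : y.trace = 0) :
    x * y + y * x = ZGeo_B x y • (1 : ZGeo_M K) := by
  have h1 := ZGeo_e11 hx
  have h2 := ZGeo_e11 hy
  ext i j
  fin_cases i <;> fin_cases j <;>
    simp [ZGeo_B, Matrix.mul_apply, Fin.sum_univ_two, Matrix.trace_fin_two, h1, h2] <;> ring

theorem ZGeo_gram (a b : ZGeo_M K) :
    ZGeo_B (ZGeo_tl a) (ZGeo_tl b) ^ 2 - ZGeo_B (ZGeo_tl a) (ZGeo_tl a) *
      ZGeo_B (ZGeo_tl b) (ZGeo_tl b) = -16 * (a * b - b * a).det := by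
  simp [ZGeo_B, ZGeo_tl, Matrix.mul_apply, Fin.sum_univ_two, Matrix.trace_fin_two,
    Matrix.det_fin_two]
  ring

theorem ZGeo_disc (a : ZGeo_M K) :
    ZGeo_B (ZGeo_tl a) (ZGeo_tl a) = 2 * (a.trace ^ 2 - 4 * a.det) := by
  simp [ZGeo_B, ZGeo_tl, Matrix.mul_apply, Fin.sum_univ_two, Matrix.trace_fin_two,
    Matrix.det_fin_two]
  ring

theorem ZGeo_det_sub_one (a : ZGeo_M K) : (a - 1).det = a.det - a.trace + 1 := by
  simp [Matrix.trace_fin_two, Matrix.det_fin_two]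
  ring

variable [CharZero K]

theorem ZGeo_prop {x y : ZGeo_M K} (hx : x.trace = 0) (hy : y.trace = 0) (hy0 : y ≠ 0)
    (h : x * y = y * x) : ∃ c : K, x = c • y := by
  have h1 := ZGeo_e11 hx
  have h2 := ZGeo_e11 hy
  have e00 := congrFun (congrFun h 0) 0
  have e01 := congrFun (congrFun h 0) 1
  have e10 := congrFun (congrFun h 1) 0
  simp only [Matrix.mul_apply, Fin.sum_univ_two, h1, h2] at e00 e01 e10
  have f1 : x 0 1 * y 1 0 = y 0 1 * x 1 0 := by linear_combination e00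
  have f2 : x 0 0 * y 0 1 = y 0 0 * x 0 1 := by linear_combination e01 / 2
  have f3 : x 1 0 * y 0 0 = y 1 0 * x 0 0 := by linear_combination e10 / 2
  have key : ∀ c : K, x 0 0 = c * y 0 0 → x 0 1 = c * y 0 1 → x 1 0 = c * y 1 0 →
      ∃ c : K, x = c • y := by
    intro c g1 g2 g3
    refine ⟨c, ?_⟩
    ext i j
    fin_cases i <;> fin_cases j <;> simp [h1, h2, g1, g2, g3]
  by_cases k1 : y 0 0 = 0
  · by_cases k2 : y 0 1 = 0
    · by_cases k3 : y 1 0 = 0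
      · refine absurd ?_ hy0
        ext i j
        fin_cases i <;> fin_cases j <;> simp [h2, k1, k2, k3]
      · refine key (x 1 0 / y 1 0) ?_ ?_ ?_
        · field_simp
          linear_combination -f3
        · field_simp
          linear_combination f1
        · field_simp
    · refine key (x 0 1 / y 0 1) ?_ ?_ ?_
      · field_simp
        linear_combination f2
      · field_simp
      · field_simp
        linear_combination -f1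
  · refine key (x 0 0 / y 0 0) ?_ ?_ ?_
    · field_simp
    · field_simp
      linear_combination -f2
    · field_simp
      linear_combination f3

theorem ZGeo_tl_eq_zero {h : ZGeo_M K} :
    ZGeo_tl h = 0 ↔ ∃ c : K, h = c • (1 : ZGeo_M K) := by
  constructor
  · intro e
    refine ⟨h.trace / 2, ?_⟩
    have h1 : (2 : K) • h = h.trace • (1 : ZGeo_M K) := sub_eq_zero.mp e
    have h2 : h = (2 : K)⁻¹ • ((2 : K) • h) := by
      rw [smul_smul, inv_mul_cancel₀ two_ne_zero, one_smul]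
    rw [h1, smul_smul] at h2
    rw [div_eq_inv_mul]
    exact h2
  · rintro ⟨c, rfl⟩
    rw [ZGeo_tl_smul]
    have : ZGeo_tl (1 : ZGeo_M K) = 0 := by simp [ZGeo_tl]
    rw [this, smul_zero]

theorem ZGeo_orth {x x' y : ZGeo_M K} (hx : x.trace = 0) (hx' : x'.trace = 0)
    (hy : y.trace = 0) (hne : x * x' - x' * x ≠ 0) (h1 : ZGeo_B y x = 0) (h2 : ZGeo_B y x' = 0) :
    ∃ c : K, y = c • (x * x' - x' * x) := by
  refine ZGeo_prop hy (ZGeo_br_trace _ _) hne (sub_eq_zero.mp ?_)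
  rw [ZGeo_triple hx hx' hy, h1, h2]
  simp

theorem ZGeo_nil {x y : ZGeo_M K} (hx : x.trace = 0) (hy : y.trace = 0) (hy0 : y ≠ 0)
    (h1 : ZGeo_B x x = 0) (h2 : ZGeo_B y y = 0) (h3 : ZGeo_B x y = 0) : ∃ c : K, x = c • y := by
  refine ZGeo_prop hx hy hy0 ?_
  by_contra hne
  have hne' : x * y - y * x ≠ 0 := sub_ne_zero.mpr hne
  obtain ⟨c, hc⟩ := ZGeo_orth hx hy hx hne' h1 h3
  obtain ⟨d, hd⟩ := ZGeo_orth hx hy hy hne' (by rw [ZGeo_B_comm]; exact h3) h2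
  generalize x * y - y * x = u at hc hd
  apply hne
  rw [hc, hd]
  simp only [mul_smul_comm, smul_mul_assoc, smul_smul, mul_comm c d]

theorem ZGeo_fix {x y : ZGeo_M K} (hx : x.trace = 0) (hy : y.trace = 0) (hx0 : x ≠ 0)
    (h1 : ZGeo_B x x = 0) (h2 : ZGeo_B y y ≠ 0) (h3 : ZGeo_B x y = 0) {g : GL (Fin 2) K}
    {l c : K} (gx : ZGeo_cj g x = l • x) (gy : ZGeo_cj g y = c • y) : g.val * y = y * g.val := by
  have h4 : (x * y - y * x) * x = x * (x * y - y * x) := by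
    refine (sub_eq_zero.mp ?_).symm
    rw [ZGeo_triple hx hy hx, h1, h3]
    simp
  obtain ⟨μ, hμ⟩ := ZGeo_prop (ZGeo_br_trace x y) hx hx0 h4
  have hμ0 : μ ≠ 0 := by
    rintro rfl
    rw [zero_smul, sub_eq_zero] at hμ
    obtain ⟨t, ht⟩ := ZGeo_prop hy hx hx0 hμ.symm
    apply h2
    rw [ht, ZGeo_B_smul, h1, mul_zero]
  have hl0 : l ≠ 0 := by
    rintro rfl
    rw [zero_smul] at gx
    exact hx0 (ZGeo_cj_eq_zero gx)
  have h5 := congrArg (ZGeo_cj g) hμ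
  rw [ZGeo_cj_sub, ZGeo_cj_mul, ZGeo_cj_mul, ZGeo_cj_smul, gx, gy] at h5
  have h6 : (l * c) • (x * y - y * x) = (μ * l) • x := by
    rw [mul_smul μ l x, ← h5]
    simp only [mul_smul_comm, smul_mul_assoc, smul_smul, smul_sub, mul_comm c l]
  rw [hμ, smul_smul] at h6
  have h7 : l * c * μ = μ * l := smul_left_injective K hx0 h6
  have h8 : c = 1 := by
    have : l * μ * (c - 1) = 0 := by linear_combination h7
    exact sub_eq_zero.mp ((mul_eq_zero.mp this).resolve_left (mul_ne_zero hl0 hμ0))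
  rw [h8, one_smul] at gy
  exact ZGeo_cj_eq.mp gy

end alg

section om

variable (K : Type) [Field K]

/-- Nonzero traceless matrices. -/
def ZGeo_NZ : Type := {n : ZGeo_M K // n ≠ 0 ∧ n.trace = 0}

/-- Proportionality. -/
def ZGeo_st : Setoid (ZGeo_NZ K) where
  r x y := ∃ c : K, x.1 = c • y.1
  iseqv := by
    refine ⟨fun x => ⟨1, (one_smul _ _).symm⟩, ?_, ?_⟩
    · rintro x y ⟨c, hc⟩
      have hc0 : c ≠ 0 := by
        rintro rfl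
        exact x.2.1 (by rw [hc, zero_smul])
      exact ⟨c⁻¹, by rw [hc, smul_smul, inv_mul_cancel₀ hc0, one_smul]⟩
    · rintro x y z ⟨c, hc⟩ ⟨d, hd⟩
      exact ⟨c * d, by rw [hc, hd, smul_smul]⟩

/-- The lines. -/
def ZGeo_Om : Type := Quotient (ZGeo_st K)

variable {K}

/-- The line through a matrix. -/
def ZGeo_mk (x : ZGeo_NZ K) : ZGeo_Om K := Quotient.mk (ZGeo_st K) x

theorem ZGeo_mk_eq {x y : ZGeo_NZ K} : ZGeo_mk x = ZGeo_mk y ↔ ∃ c : K, x.1 = c • y.1 :=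
  Quotient.eq (r := ZGeo_st K)

theorem ZGeo_surj (ω : ZGeo_Om K) : ∃ x, ZGeo_mk x = ω := Quotient.exists_rep ω

/-- Conjugation of nonzero traceless matrices. -/
def ZGeo_act (g : GL (Fin 2) K) (x : ZGeo_NZ K) : ZGeo_NZ K :=
  ⟨ZGeo_cj g x.1, fun h => x.2.1 (ZGeo_cj_eq_zero h), by rw [ZGeo_cj_trace]; exact x.2.2⟩

/-- The action on lines. -/
@[reducible] def ZGeo_ma : MulAction (GL (Fin 2) K) (ZGeo_Om K) where
  smul g := Quotient.map (sa := ZGeo_st K) (sb := ZGeo_st K) (ZGeo_act g) (by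
    rintro x y ⟨c, hc⟩
    exact ⟨c, by change ZGeo_cj g x.1 = c • ZGeo_cj g y.1; rw [hc, ZGeo_cj_smul]⟩)
  one_smul ω := by
    obtain ⟨x, rfl⟩ := ZGeo_surj ω
    change ZGeo_mk (ZGeo_act 1 x) = ZGeo_mk x
    exact congrArg ZGeo_mk (Subtype.ext (ZGeo_cj_one _))
  mul_smul g h ω := by
    obtain ⟨x, rfl⟩ := ZGeo_surj ω
    change ZGeo_mk (ZGeo_act (g * h) x) = ZGeo_mk (ZGeo_act g (ZGeo_act h x))
    exact congrArg ZGeo_mk (Subtype.ext (ZGeo_cj_cj _ _ _))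

attribute [local instance] ZGeo_ma

theorem ZGeo_smul_mk (g : GL (Fin 2) K) (x : ZGeo_NZ K) :
    g • ZGeo_mk x = ZGeo_mk (ZGeo_act g x) := rfl

theorem ZGeo_fix_iff {g : GL (Fin 2) K} {x : ZGeo_NZ K} :
    g • ZGeo_mk x = ZGeo_mk x ↔ ∃ c : K, ZGeo_cj g x.1 = c • x.1 := by
  rw [ZGeo_smul_mk, ZGeo_mk_eq]
  rfl

/-- Orthogonal lines. -/
def ZGeo_Or (a b : ZGeo_Om K) : Prop :=
  ∀ x y, ZGeo_mk x = a → ZGeo_mk y = b → ZGeo_B x.1 y.1 = 0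

theorem ZGeo_or_mk {x y : ZGeo_NZ K} :
    ZGeo_Or (ZGeo_mk x) (ZGeo_mk y) ↔ ZGeo_B x.1 y.1 = 0 := by
  refine ⟨fun h => h x y rfl rfl, fun h x' y' h1 h2 => ?_⟩
  obtain ⟨c, hc⟩ := ZGeo_mk_eq.mp h1
  obtain ⟨d, hd⟩ := ZGeo_mk_eq.mp h2
  rw [hc, hd, ZGeo_B_smul, h, mul_zero]

theorem ZGeo_or_smul (g : GL (Fin 2) K) (a b : ZGeo_Om K) :
    ZGeo_Or (g • a) (g • b) ↔ ZGeo_Or a b := by
  obtain ⟨x, rfl⟩ := ZGeo_surj a
  obtain ⟨y, rfl⟩ := ZGeo_surj b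
  rw [ZGeo_smul_mk, ZGeo_smul_mk, ZGeo_or_mk, ZGeo_or_mk]
  change ZGeo_B (ZGeo_cj g x.1) (ZGeo_cj g y.1) = 0 ↔ _
  rw [ZGeo_cj_B]

theorem ZGeo_or_symm {a b : ZGeo_Om K} (h : ZGeo_Or a b) : ZGeo_Or b a :=
  fun x y h1 h2 => by rw [ZGeo_B_comm]; exact h y x h2 h1

/-- The incidence graph. -/
def ZGeo_X : SimpleGraph (ZGeo_Om K) where
  Adj a b := ZGeo_Or a b ∧ (ZGeo_Or a a ↔ ¬ ZGeo_Or b b)
  symm := ⟨fun a b h => ⟨ZGeo_or_symm h.1, by have := h.2; tauto⟩⟩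
  loopless := ⟨fun a h => by have := h.2; tauto⟩

open Classical in
/-- The line through the traceless part. -/
noncomputable def ZGeo_om (h : GL (Fin 2) K) : ZGeo_Om K :=
  if e : ZGeo_tl h.val = 0 then
    ZGeo_mk ⟨!![0, 1; 0, 0], fun e => by simpa using congrFun (congrFun e 0) 1, by
      simp [Matrix.trace_fin_two]⟩
  else ZGeo_mk ⟨ZGeo_tl h.val, e, ZGeo_tl_trace _⟩

theorem ZGeo_om_eq {h : GL (Fin 2) K} (e : ¬ ZGeo_tl h.val = 0) :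
    ZGeo_om h = ZGeo_mk ⟨ZGeo_tl h.val, e, ZGeo_tl_trace _⟩ := dif_neg e

variable [CharZero K]

theorem ZGeo_triv {g : GL (Fin 2) K} (h : ZGeo_tl g.val = 0) (a : ZGeo_Om K) : g • a = a := by
  obtain ⟨x, rfl⟩ := ZGeo_surj a
  obtain ⟨c, hc⟩ := ZGeo_tl_eq_zero.mp h
  refine ZGeo_fix_iff.mpr ⟨1, ?_⟩
  rw [one_smul, ZGeo_cj_eq, hc]
  simp

theorem ZGeo_rig {g : GL (Fin 2) K} {a b c : ZGeo_Om K} (hb : ZGeo_Or b b)
    (h1 : ZGeo_X.Adj b a) (h2 : ZGeo_X.Adj b c) (hne : a ≠ c) (ga : g • a = a) (gb : g • b = b)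
    (gc : g • c = c) (z : ZGeo_Om K) : g • z = z := by
  refine ZGeo_triv ?_ z
  by_contra h0
  have key : ∀ d, ZGeo_X.Adj b d → g • d = d →
      ZGeo_mk ⟨ZGeo_tl g.val, h0, ZGeo_tl_trace _⟩ = d := by
    intro d hd gd
    obtain ⟨x, rfl⟩ := ZGeo_surj b
    obtain ⟨y, rfl⟩ := ZGeo_surj d
    obtain ⟨l, hl⟩ := ZGeo_fix_iff.mp gb
    obtain ⟨t, ht⟩ := ZGeo_fix_iff.mp gd
    have h3 := ZGeo_fix x.2.2 y.2.2 x.2.1 (ZGeo_or_mk.mp hb)
      (fun e => hd.2.mp hb (ZGeo_or_mk.mpr e)) (ZGeo_or_mk.mp hd.1) hl ht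
    exact ZGeo_mk_eq.mpr (ZGeo_prop (ZGeo_tl_trace _) y.2.2 y.2.1 (ZGeo_tl_comm h3))
  exact hne ((key a h1 ga).symm.trans (key c h2 gc))

theorem ZGeo_cz_sq {g : GL (Fin 2) K} (h : ZGeo_tl g.val = 0) : ZGeo_tl (g * g).val = 0 := by
  obtain ⟨c, hc⟩ := ZGeo_tl_eq_zero.mp h
  refine ZGeo_tl_eq_zero.mpr ⟨c * c, ?_⟩
  rw [Units.val_mul, hc]
  simp [smul_smul]

theorem ZGeo_near {γ h : GL (Fin 2) K} (h1 : ¬ ZGeo_tl (γ * γ).val = 0)
    (h2 : ¬ ZGeo_tl h.val = 0) (h3 : γ • ZGeo_om h = ZGeo_om h) :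
    ZGeo_om γ = ZGeo_om h ∨ ((¬ ZGeo_tl h.val = 0 ∧
      ZGeo_B (ZGeo_tl h.val) (ZGeo_tl h.val) = 0) ∧ ZGeo_X.Adj (ZGeo_om γ) (ZGeo_om h)) := by
  have h4 : ¬ ZGeo_tl γ.val = 0 := fun e => h1 (ZGeo_cz_sq e)
  rw [ZGeo_om_eq h2] at h3 ⊢
  rw [ZGeo_om_eq h4]
  obtain ⟨c, hc⟩ := ZGeo_fix_iff.mp h3
  change ZGeo_cj γ (ZGeo_tl h.val) = c • ZGeo_tl h.val at hc
  have tn := ZGeo_tl_trace h.val
  have tm := ZGeo_tl_trace γ.val
  by_cases hc1 : c = 1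
  · rw [hc1, one_smul, ZGeo_cj_eq] at hc
    exact Or.inl (ZGeo_mk_eq.mpr (ZGeo_prop tm tn h2 (ZGeo_tl_comm hc)))
  have hm : ZGeo_cj γ (ZGeo_tl γ.val) = (1 : K) • ZGeo_tl γ.val := by
    rw [one_smul, ZGeo_cj_eq]
    exact (ZGeo_tl_comm rfl).symm
  have hB : ZGeo_B (ZGeo_tl γ.val) (ZGeo_tl h.val) = 0 := by
    have h5 := ZGeo_cj_B γ (ZGeo_tl γ.val) (ZGeo_tl h.val)
    rw [hm, hc, ZGeo_B_smul] at h5
    have h6 : (c - 1) * ZGeo_B (ZGeo_tl γ.val) (ZGeo_tl h.val) = 0 := by linear_combination h5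
    exact (mul_eq_zero.mp h6).resolve_left (sub_ne_zero.mpr hc1)
  by_cases hn : ZGeo_B (ZGeo_tl h.val) (ZGeo_tl h.val) = 0
  · by_cases hm0 : ZGeo_B (ZGeo_tl γ.val) (ZGeo_tl γ.val) = 0
    · exact Or.inl (ZGeo_mk_eq.mpr (ZGeo_nil tm tn h2 hm0 hn hB))
    · refine Or.inr ⟨⟨h2, hn⟩, ZGeo_or_mk.mpr hB, ?_⟩
      rw [ZGeo_or_mk, ZGeo_or_mk]
      exact ⟨fun e => absurd e hm0, fun e => absurd hn e⟩
  · exfalso
    have h5 := ZGeo_cj_B γ (ZGeo_tl h.val) (ZGeo_tl h.val)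
    rw [hc, ZGeo_B_smul] at h5
    have h6 : (c - 1) * (c + 1) * ZGeo_B (ZGeo_tl h.val) (ZGeo_tl h.val) = 0 := by
      linear_combination h5
    have h7 : c = -1 := eq_neg_of_add_eq_zero_left
      ((mul_eq_zero.mp ((mul_eq_zero.mp h6).resolve_right hn)).resolve_left (sub_ne_zero.mpr hc1))
    rw [h7, ZGeo_cj_eq] at hc
    have h8 := ZGeo_anti tm tn
    rw [hB, zero_smul] at h8
    clear h3
    generalize ZGeo_tl h.val = n at h8 hc h2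
    have h9 : (2 * γ.val.trace) • n = 0 := by
      have h10 : ZGeo_tl γ.val * n + n * ZGeo_tl γ.val =
          (2 : K) • (γ.val * n + n * γ.val) - (2 * γ.val.trace) • n := by
        simp only [ZGeo_tl, sub_mul, mul_sub, smul_mul_assoc, mul_smul_comm, one_mul, mul_one]
        module
      rw [h10, hc] at h8
      simpa using h8
    have h11 : γ.val.trace = 0 := by
      have := (smul_eq_zero.mp h9).resolve_right h2
      exact (mul_eq_zero.mp this).resolve_left two_ne_zero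
    refine h1 (ZGeo_tl_eq_zero.mpr ⟨(2 : K)⁻¹ * ZGeo_B γ.val γ.val, ?_⟩)
    rw [mul_smul, ← ZGeo_anti h11 h11, ← two_smul K, smul_smul, inv_mul_cancel₀ two_ne_zero,
      one_smul, Units.val_mul]

/-- The geometry. -/
noncomputable def ZGeo_D : Geo (GL (Fin 2) K) (ZGeo_Om K) where
  X := ZGeo_X
  ty a := ZGeo_Or a a
  Cz g := ZGeo_tl g.val = 0
  Un g := ¬ ZGeo_tl g.val = 0 ∧ ZGeo_B (ZGeo_tl g.val) (ZGeo_tl g.val) = 0
  om := ZGeo_om
  adj_smul g a b h := ⟨(ZGeo_or_smul g a b).mpr h.1, by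
    rw [ZGeo_or_smul, ZGeo_or_smul]; exact h.2⟩
  ty_smul g a := ZGeo_or_smul g a a
  ty_adj _ _ h := h.2
  four a b b' c h1 h2 h3 h4 hne := by
    obtain ⟨x, rfl⟩ := ZGeo_surj a
    obtain ⟨x', rfl⟩ := ZGeo_surj c
    have hu : x.1 * x'.1 - x'.1 * x.1 ≠ 0 := fun e =>
      hne (ZGeo_mk_eq.mpr (ZGeo_prop x.2.2 x'.2.2 x'.2.1 (sub_eq_zero.mp e)))
    have key : ∀ d, ZGeo_Or (ZGeo_mk x) d → ZGeo_Or d (ZGeo_mk x') →
        d = ZGeo_mk ⟨_, hu, ZGeo_br_trace _ _⟩ := by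
      intro d e1 e2
      obtain ⟨y, rfl⟩ := ZGeo_surj d
      exact ZGeo_mk_eq.mpr (ZGeo_orth x.2.2 x'.2.2 y.2.2 hu
        (ZGeo_or_mk.mp (ZGeo_or_symm e1)) (ZGeo_or_mk.mp e2))
    exact (key b h1.1 h2.1).trans (key b' h3.1 h4.1).symm
  rigid g a b c d h1 h2 h3 n1 n2 ga gb gc gd := by
    by_cases hb : ZGeo_Or b b
    · exact ZGeo_rig hb h1.symm h2 n1 ga gb gc
    · exact ZGeo_rig (h2.symm.2.mpr hb) h2.symm h3 n2 gb gc gd
  cz_triv _ a h := ZGeo_triv h a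
  cz_sq _ h := ZGeo_cz_sq h
  cz_conj a h e := by
    rw [ZGeo_cj_val, ZGeo_cj_tl] at e
    exact ZGeo_cj_eq_zero e
  un_conj a h e := by
    rw [ZGeo_cj_val, ZGeo_cj_tl, ZGeo_cj_B]
    exact ⟨fun e' => e.1 (ZGeo_cj_eq_zero e'), e.2⟩
  un_ncz _ e := e.1
  om_conj a h e := by
    have e' : ¬ ZGeo_tl (a * h * a⁻¹).val = 0 := by
      rw [ZGeo_cj_val, ZGeo_cj_tl]
      exact fun e' => e (ZGeo_cj_eq_zero e')
    rw [ZGeo_om_eq e, ZGeo_om_eq e', ZGeo_smul_mk]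
    refine congrArg ZGeo_mk (Subtype.ext ?_)
    change ZGeo_tl (a * h * a⁻¹).val = ZGeo_cj a (ZGeo_tl h.val)
    rw [ZGeo_cj_val, ZGeo_cj_tl]
  om_comm a h e e' := by
    obtain ⟨c, hc⟩ := ZGeo_tl_eq_zero.mp e'
    rw [ZGeo_om_eq e]
    refine ZGeo_fix_iff.mpr ⟨c, ?_⟩
    change ZGeo_cj a (ZGeo_tl h.val) = c • ZGeo_tl h.val
    have h1 : (a * h * a⁻¹).val = c • h.val := by
      have h2 : a * h * a⁻¹ = a * h * a⁻¹ * h⁻¹ * h := by group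
      rw [h2, Units.val_mul, hc]
      simp
    rw [← ZGeo_cj_tl, ← ZGeo_cj_val, h1, ZGeo_tl_smul]
  om_near _ _ h1 h2 h3 := ZGeo_near h1 h2 h3

theorem ZGeo_comm2 (a b : GL (Fin 2) K) (h : (a * b * a⁻¹ * b⁻¹).val.trace = 2) :
    (ZGeo_D (K := K)).Comm2 a b := by
  have hdet : (a * b * a⁻¹ * b⁻¹).val.det = 1 := by
    have h1 : Matrix.GeneralLinearGroup.det (a * b * a⁻¹ * b⁻¹) = 1 := by
      simp only [map_mul, map_inv]
      rw [mul_comm (Matrix.GeneralLinearGroup.det a)]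
      group
    have h2 := congrArg Units.val h1
    rw [Matrix.GeneralLinearGroup.val_det_apply] at h2
    exact h2
  have hw : a.val * b.val = (a * b * a⁻¹ * b⁻¹).val * (b.val * a.val) := by
    rw [← Units.val_mul, ← Units.val_mul, ← Units.val_mul]
    congr 1
    group
  constructor
  · rintro ⟨a1, a2⟩ ⟨b1, b2⟩
    change ZGeo_om a = ZGeo_om b
    rw [ZGeo_om_eq a1, ZGeo_om_eq b1]
    have h1 : (a.val * b.val - b.val * a.val).det = 0 := by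
      have h2 : a.val * b.val - b.val * a.val =
          ((a * b * a⁻¹ * b⁻¹).val - 1) * (b.val * a.val) := by
        rw [sub_mul, ← hw, one_mul]
      rw [h2, Matrix.det_mul, ZGeo_det_sub_one, hdet, h]
      ring
    have h3 := ZGeo_gram a.val b.val
    rw [h1, a2, zero_mul, sub_zero, mul_zero] at h3
    exact ZGeo_mk_eq.mpr (ZGeo_nil (ZGeo_tl_trace _) (ZGeo_tl_trace _) b1 a2 b2
      (pow_eq_zero_iff two_ne_zero |>.mp h3))
  · intro a1 b1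
    by_cases hz : ZGeo_tl (a * b * a⁻¹ * b⁻¹).val = 0
    · right
      change ZGeo_om a = ZGeo_om b
      rw [ZGeo_om_eq a1, ZGeo_om_eq b1]
      obtain ⟨c, hc⟩ := ZGeo_tl_eq_zero.mp hz
      have hc1 : c = 1 := by
        rw [hc, Matrix.trace_smul, Matrix.trace_one] at h
        simp only [Fintype.card_fin, Nat.cast_ofNat, smul_eq_mul] at h
        linear_combination h / 2
      rw [hc, hc1, one_smul, one_mul] at hw
      exact ZGeo_mk_eq.mpr (ZGeo_prop (ZGeo_tl_trace _) (ZGeo_tl_trace _) b1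
        (ZGeo_tl_comm (ZGeo_tl_comm hw.symm).symm))
    · left
      refine ⟨hz, ?_⟩
      rw [ZGeo_disc, hdet, h]
      ring

end om

theorem exists_geo (K : Type) [Field K] [CharZero K] :
    ∃ (Ω : Type) (_ : MulAction (GL (Fin 2) K) Ω) (D : Geo (GL (Fin 2) K) Ω),
      (∀ g, D.Cz g → ∃ c : K, g.val = c • (1 : Matrix (Fin 2) (Fin 2) K)) ∧
      (∀ a b : GL (Fin 2) K, (a * b * a⁻¹ * b⁻¹).val.trace = 2 → D.Comm2 a b) ∧
      ∀ ω : Ω, ∃ n : Matrix (Fin 2) (Fin 2) K, n ≠ 0 ∧ n.trace = 0 ∧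
        ∀ g : GL (Fin 2) K, g • ω = ω → ∃ c : K, g.val * n = c • (n * g.val) := by
  refine ⟨ZGeo_Om K, ZGeo_ma, ZGeo_D, fun g h => ZGeo_tl_eq_zero.mp h, ZGeo_comm2, fun ω => ?_⟩
  obtain ⟨x, rfl⟩ := ZGeo_surj ω
  refine ⟨x.1, x.2.1, x.2.2, fun g hg => ?_⟩
  obtain ⟨c, hc⟩ := ZGeo_fix_iff.mp hg
  exact ⟨c, by rw [ZGeo_cj_eq.mp hc, smul_mul_assoc]⟩

end Pool.Agent.MP_f7db47_al.PT
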