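import Mathlib

namespace Pool.Agent.MP_f7db47_al.PT

universe u

theorem acyclic_of_height {V : Type u} (X : SimpleGraph V) (h : V → ℤ)
    (h1 : ∀ a b, X.Adj a b → h a ≠ h b)
    (h2 : ∀ a b c, X.Adj a b → X.Adj a c → h b < h a → h c < h a → b = c) : X.IsAcyclic := by
  classical
  intro v c hc
  obtain ⟨a, ha, hmax⟩ := c.support.toFinset.exists_max_image h
    ⟨v, List.mem_toFinset.2 c.start_mem_support⟩
  rw [List.mem_toFinset] at ha
  have hc' : (c.rotate a ha).IsCycle := hc.rotate ha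
  have hle : ∀ i, h ((c.rotate a ha).getVert i) ≤ h a := fun i =>
    hmax _ (List.mem_toFinset.2
      ((c.mem_support_rotate_iff a ha).1 ((c.rotate a ha).getVert_mem_support i)))
  have a1 : X.Adj a (c.rotate a ha).snd := SimpleGraph.Walk.adj_snd hc'.not_nil
  have a2 : X.Adj a (c.rotate a ha).penultimate :=
    (SimpleGraph.Walk.adj_penultimate hc'.not_nil).symm
  exact hc'.snd_ne_penultimate (h2 a _ _ a1 a2 (lt_of_le_of_ne (hle _) (h1 _ _ a1).symm)
    (lt_of_le_of_ne (hle _) (h1 _ _ a2).symm))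

/-- the line -/
def hgt_line : SimpleGraph ℤ where
  Adj a b := a = b + 1 ∨ b = a + 1
  symm := ⟨fun _ _ h => h.symm⟩
  loopless := ⟨fun a h => by omega⟩

/-- translations of the line -/
def hgt_tr (m : ℤ) : hgt_line ≃g hgt_line where
  toEquiv := Equiv.addRight m
  map_rel_iff' := by
    intro a b
    change (a + m = b + m + 1 ∨ b + m = a + m + 1) ↔ (a = b + 1 ∨ b = a + 1)
    omega

theorem hgt_reach (n : ℤ) : hgt_line.Reachable 0 n := by
  induction n using Int.induction_on with
  | zero => rfl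
  | succ n ih => exact ih.trans (SimpleGraph.Adj.reachable (Or.inr rfl))
  | pred n ih => exact ih.trans (SimpleGraph.Adj.reachable (Or.inl (by ring)))

theorem exists_line {G : Type u} [Group G] (φ : G →* Multiplicative ℤ) :
    ∃ (X : SimpleGraph ℤ) (ρ : G →* (X ≃g X)), X.IsTree ∧
      ∀ g n, ρ g n = n + (φ g).toAdd := by
  refine ⟨hgt_line, MonoidHom.mk' (fun g => hgt_tr (φ g).toAdd) fun a b => ?_,
    ⟨⟨fun a b => (hgt_reach a).symm.trans (hgt_reach b)⟩, ?_⟩, fun _ _ => rfl⟩
  · ext n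
    change n + (φ (a * b)).toAdd = n + (φ b).toAdd + (φ a).toAdd
    rw [map_mul, toAdd_mul]
    ring
  · refine acyclic_of_height _ (fun n => (n.natAbs : ℤ)) (fun a b h => ?_) fun a b c hb hc => ?_
    · change a = b + 1 ∨ b = a + 1 at h
      omega
    · change a = b + 1 ∨ b = a + 1 at hb
      change a = c + 1 ∨ c = a + 1 at hc
      omega

end Pool.Agent.MP_f7db47_al.PT
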