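import Pool.Agent.MP_f7db47_al.TreeMain
import Pool.Agent.MP_f7db47_al.PT.Ab
import Pool.Agent.MP_f7db47_al.PT.Hgt

/-!
Tame actions on trees and the inductive property.
-/

namespace Pool.Agent.MP_f7db47_al.PT

universe v

variable {R : Type v} [Ring R]

theorem ZTame_pd {L : Type v} [Ring L] (ρ : R →+* L) (k : ℕ) :
    ∀ (M : Type v) [AddCommGroup M] [Module L M], FR ρ k M →
      CategoryTheory.HasProjectiveDimensionLT (ModuleCat.of L M) (k + 1) := by
  induction k with
  | zero =>
    intro M _ _ h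
    exact CategoryTheory.projective_iff_hasProjectiveDimensionLT_one.1
      ((IsProjective.iff_projective M).1 (Ind.projective h))
  | succ k ih =>
    rintro M _ _ ⟨m, _, p, hp, h⟩
    exact ((LinearMap.shortExact_shortComplexKer hp).hasProjectiveDimensionLT_X₃_iff k
      ((IsProjective.iff_projective (m → L)).1 inferInstance)).2 (ih _ h)

theorem regCoh_of_polyZ (hR : RegularRing R) {L : Type} [Group L] (h : PolyZ L) :
    RegularCoherent (MonoidAlgebra R L) := by
  intro n A hA
  have hr := PolyZ.reg hR h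
  have := hr.isNoetherianRing
  have : Module.Finite (MonoidAlgebra R L) A := Module.Finite.iff_fg.2 hA
  obtain ⟨k, hk⟩ := hr _ A
  exact ⟨Module.finitePresentation_of_finite _ _,
    (CategoryTheory.projectiveDimension_ne_top_iff _).2 ⟨k, ZTame_pd _ k A hk⟩⟩

theorem qq_tame {G V : Type} [Group G] [MulAction G V] {X : SimpleGraph V}
    (hX : TreeAction G X) {F Z : Set (Subgroup G)} (hT : TameTree G X F Z)
    (hZ : ∀ K ∈ Z, ∀ (P : Type) [Group P], PolyZ P → ∀ L : Subgroup (K × P),
      RegularCoherent (MonoidAlgebra R L))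
    (hV : ∀ y : V, QQ R (MulAction.stabilizer G y)) (hF : ∀ H ∈ F, QQ R H) : QQ R G := by
  intro P _ hP Δ _ f hf
  let p : Δ →* G := (MonoidHom.fst _ _).comp f
  let _ : MulAction Δ V := MulAction.compHom V p
  have hV' : ∀ y : V, G1 R (MulAction.stabilizer Δ y) := fun y =>
    (qq_of_le' hP f hf _ (hV y) _ fun x hx => hx).g1
  rw [G1_iff]
  intro J _ _ A hu
  refine tree_main p (fun _ _ => rfl) hX hT (stdTS R Δ)
    (fun H hH J _ _ A hA hu => T_of_isUnit_msup _
      (qq_of_le' hP f hf _ (hF H hH) _ fun x hx => hx).g1 hA hu) (fun K hK Q => ?_)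
    (fun y J _ _ A hA hu => T_of_isUnit_msup _ (hV' y) hA hu)
    (fun D _ => TB.splitT_std hV' fun τ => ?_) hu
  · let g : K.comap p →* K × P :=
      ((p.comp (K.comap p).subtype).codRestrict K fun x => x.2).prod
        ((MonoidHom.snd _ _).comp (f.comp (K.comap p).subtype))
    have hg : Function.Injective g := fun x y hxy =>
      Subtype.ext (hf (Prod.ext (congrArg (fun z => (z.1 : G)) hxy)
        (congrArg (fun z => z.2) hxy)))
    let e := MonoidHom.ofInjective hg
    refine tameP_of_coherent _ Q ((K.comap p).subtype.comp e.symm.toMonoidHom)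
      ((K.comap p).subtype_injective.comp e.symm.injective) (fun x hx => ⟨e ⟨x, hx⟩, ?_⟩)
      (hZ K hK P hP g.range)
    simp
  · exact (qq_of_le' hP f hf _ (hV (D.ep τ false)) (D.C τ) fun x hx => hx false).g0

theorem qq_tree_loc (hR : RegularRing R) {G V : Type} [Group G] [MulAction G V]
    {X : SimpleGraph V} (hX : TreeAction G X) (hV : ∀ y : V, QQ R (MulAction.stabilizer G y))
    (hE : ∀ a b, X.Adj a b → ∀ M : Subgroup G, M.FG →
      M ≤ MulAction.stabilizer G a ⊓ MulAction.stabilizer G b → PolyZ M) : QQ R G := by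
  refine qq_tame (F := ∅) (Z := {K | PolyZ K}) hX (fun a b hab => ?_)
    (fun K hK P _ hP L => regCoh_of_polyZ hR
      (polyZ_of_injective (polyZ_prod hK hP) _ L.subtype L.subtype_injective)) hV
    fun H hH => hH.elim
  exact ⟨{M : Subgroup G // M.FG ∧ M ≤ MulAction.stabilizer G a ⊓ MulAction.stabilizer G b},
    fun M => M.1, fun _ _ => False, ⟨fun x => ⟨x, fun _ h => h.elim⟩⟩, fun M => M.2.2,
    fun M h1 h2 => ⟨⟨M, h1, h2⟩, le_rfl⟩, fun M => Or.inl (hE a b hab M.1 M.2.1 M.2.2)⟩

theorem qq_line (hR : RegularRing R) {G : Type} [Group G] (ψ : G →* Multiplicative ℤ)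
    (hc : ∀ a b : G, ψ a = 1 → ψ b = 1 → a * b = b * a)
    (ht : ∀ g : G, IsOfFinOrder g → g = 1) : QQ R G := by
  obtain ⟨X, ρ, hX, hρ⟩ := exists_line ψ
  let _ : MulAction G ℤ :=
    { smul := fun g n => ρ g n
      one_smul := fun n => by change ρ 1 n = n; rw [map_one]; rfl
      mul_smul := fun a b n => by change ρ (a * b) n = ρ a (ρ b n); rw [map_mul]; rfl }
  have hs : ∀ (g : G) (n : ℤ), g • n = ρ g n := fun _ _ => rfl
  have hk : ∀ (y : ℤ) (g : G), g ∈ MulAction.stabilizer G y → ψ g = 1 := fun y g hg => by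
    have h1 : ρ g y = y := hg
    rw [hρ] at h1
    exact toAdd_eq_zero.1 (by omega)
  have hab : ∀ (y : ℤ) (M : Subgroup G), M ≤ MulAction.stabilizer G y →
      (∀ a b : M, a * b = b * a) ∧ ∀ g : M, IsOfFinOrder g → g = 1 := fun y M hM =>
    ⟨fun a b => Subtype.ext (hc a b (hk y _ (hM a.2)) (hk y _ (hM b.2))), fun g hg =>
      Subtype.ext (ht g (M.subtype.isOfFinOrder hg))⟩
  refine qq_tree_loc hR (X := X) ⟨hX, fun g a b h => (ρ g).map_rel_iff.2 h, fun g a b h h' => ?_⟩
    (fun y => qq_ab hR (hab y _ le_rfl).1 (hab y _ le_rfl).2) fun a b _ M hM hle => ?_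
  · have h1 := h.ne
    rw [hs, hs, hρ, hρ] at h'
    omega
  · have : Group.FG M := (Group.fg_iff_subgroup_fg M).2 hM
    exact Ab_poly (hab a M (hle.trans inf_le_left)).1 (hab a M (hle.trans inf_le_left)).2

end Pool.Agent.MP_f7db47_al.PT
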