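import Pool.Agent.MP_f7db47_al.PT.ZAbq
import Pool.Agent.MP_f7db47_al.PT.ZTame

/-!
Groups of matrices that normalise a line of traceless matrices.
-/

namespace Pool.Agent.MP_f7db47_al.PT

universe v

variable {R : Type v} [Ring R] {K : Type} [Field K] [CharZero K]

theorem ZMet_span {n m : Matrix (Fin 2) (Fin 2) K} (hn : n ≠ 0) (ht : n.trace = 0)
    (h : m * n = n * m) : ∃ a b : K, m = a • (1 : Matrix (Fin 2) (Fin 2) K) + b • n := by
  have h00 := congrFun (congrFun h 0) 0
  have h01 := congrFun (congrFun h 0) 1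
  have h10 := congrFun (congrFun h 1) 0
  simp only [Matrix.mul_apply, Fin.sum_univ_two] at h00 h01 h10
  rw [Matrix.trace_fin_two] at ht
  have h11 : n 1 1 = - n 0 0 := by linear_combination ht
  rw [h11] at h01 h10
  have key : ∀ a b : K, m 0 0 = a + b * n 0 0 → m 0 1 = b * n 0 1 → m 1 0 = b * n 1 0 →
      m 1 1 = a - b * n 0 0 → m = a • (1 : Matrix (Fin 2) (Fin 2) K) + b • n := by
    intro a b e1 e2 e3 e4
    ext i j
    fin_cases i <;> fin_cases j
    · simpa using e1
    · simpa using e2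
    · simpa using e3
    · simp [h11, e4, sub_eq_add_neg]
  by_cases hp : n 0 0 = 0
  · by_cases hq : n 0 1 = 0
    · have hr : n 1 0 ≠ 0 := by
        intro hr
        apply hn
        ext i j
        fin_cases i <;> fin_cases j <;> simp [hp, hq, hr, h11]
      refine ⟨m 0 0, m 1 0 / n 1 0, key _ _ (by simp [hp]) ?_ (by field_simp) ?_⟩
      · rw [hq, mul_zero]
        apply mul_right_cancel₀ hr
        rw [hp, hq] at h00
        linear_combination h00
      · rw [hp, mul_zero, sub_zero]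
        apply mul_right_cancel₀ hr
        rw [hp] at h10
        linear_combination h10
    · refine ⟨m 0 0, m 0 1 / n 0 1, key _ _ (by simp [hp]) (by field_simp) ?_ ?_⟩
      · field_simp
        linear_combination -h00
      · rw [hp, mul_zero, sub_zero]
        apply mul_right_cancel₀ hq
        rw [hp] at h01
        linear_combination -h01
  · refine ⟨(m 0 0 + m 1 1) / 2, (m 0 0 - m 1 1) / (2 * n 0 0), key _ _ ?_ ?_ ?_ ?_⟩
    · field_simp
      ring
    · field_simp
      linear_combination -h01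
    · field_simp
      linear_combination h10
    · field_simp
      ring

theorem ZMet_comm {n m m' : Matrix (Fin 2) (Fin 2) K} (hn : n ≠ 0) (ht : n.trace = 0)
    (h : m * n = n * m) (h' : m' * n = n * m') : m * m' = m' * m := by
  obtain ⟨a, b, rfl⟩ := ZMet_span hn ht h
  rw [add_mul, mul_add, smul_mul_assoc, smul_mul_assoc, mul_smul_comm, mul_smul_comm, one_mul,
    mul_one, h']

/-- The element `g` moves `n` to the multiple `x` of `n`. -/
def ZMet_N (n : Matrix (Fin 2) (Fin 2) K) (g : GL (Fin 2) K) (x : K) : Prop :=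
  g.val * n = x • (n * g.val)

omit [CharZero K] in
theorem ZMet_N_one (n : Matrix (Fin 2) (Fin 2) K) : ZMet_N n 1 1 := by
  simp [ZMet_N]

omit [CharZero K] in
theorem ZMet_N_mul {n : Matrix (Fin 2) (Fin 2) K} {g h : GL (Fin 2) K} {x y : K}
    (hg : ZMet_N n g x) (hh : ZMet_N n h y) : ZMet_N n (g * h) (x * y) := by
  unfold ZMet_N at *
  rw [Units.val_mul, mul_assoc, hh, mul_smul_comm, ← mul_assoc, hg, smul_mul_assoc, smul_smul,
    mul_assoc, mul_comm y x]

omit [CharZero K] in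
theorem ZMet_N_uniq {n : Matrix (Fin 2) (Fin 2) K} (hn : n ≠ 0) {g : GL (Fin 2) K} {x y : K}
    (hx : ZMet_N n g x) (hy : ZMet_N n g y) : x = y := by
  unfold ZMet_N at *
  have h0 : n * g.val ≠ 0 := fun h => hn ((Units.mul_left_eq_zero g).mp h)
  exact smul_left_injective K h0 (hx.symm.trans hy)

omit [CharZero K] in
theorem ZMet_N_ne {n : Matrix (Fin 2) (Fin 2) K} (hn : n ≠ 0) {g : GL (Fin 2) K} {x : K}
    (hx : ZMet_N n g x) : x ≠ 0 := by
  rintro rfl
  unfold ZMet_N at hx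
  rw [zero_smul] at hx
  exact hn ((Units.mul_right_eq_zero g).mp hx)

omit [CharZero K] in
theorem ZMet_N_inv {n : Matrix (Fin 2) (Fin 2) K} (hn : n ≠ 0) {g : GL (Fin 2) K} {x : K}
    (hx : ZMet_N n g x) : ZMet_N n g⁻¹ x⁻¹ := by
  have h0 := ZMet_N_ne hn hx
  unfold ZMet_N at *
  have h1 : g⁻¹.val * (g.val * n) * g⁻¹.val = g⁻¹.val * (x • (n * g.val)) * g⁻¹.val := by
    rw [hx]
  rw [← mul_assoc, Units.inv_mul, one_mul, mul_smul_comm, smul_mul_assoc, mul_assoc, mul_assoc,
    Units.mul_inv, mul_one] at h1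
  rw [h1, smul_smul, inv_mul_cancel₀ h0, one_smul]

omit [CharZero K] in
theorem ZMet_N_comm {n : Matrix (Fin 2) (Fin 2) K} (hn : n ≠ 0) {a b : GL (Fin 2) K}
    (ha : ∃ x : K, a.val * n = x • (n * a.val)) (hb : ∃ x : K, b.val * n = x • (n * b.val)) :
    (a * b * a⁻¹ * b⁻¹).val * n = n * (a * b * a⁻¹ * b⁻¹).val := by
  obtain ⟨x, hx⟩ := ha
  obtain ⟨y, hy⟩ := hb
  have h := ZMet_N_mul (ZMet_N_mul (ZMet_N_mul hx hy) (ZMet_N_inv hn hx)) (ZMet_N_inv hn hy)
  have hx0 := ZMet_N_ne hn hx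
  have hy0 := ZMet_N_ne hn hy
  have e : x * y * x⁻¹ * y⁻¹ = 1 := by field_simp
  rw [e] at h
  unfold ZMet_N at h
  rwa [one_smul] at h

theorem metab_of_norm {n : Matrix (Fin 2) (Fin 2) K} (hn : n ≠ 0) (ht : n.trace = 0)
    {a b c d : GL (Fin 2) K} (ha : ∃ x : K, a.val * n = x • (n * a.val))
    (hb : ∃ x : K, b.val * n = x • (n * b.val)) (hc : ∃ x : K, c.val * n = x • (n * c.val))
    (hd : ∃ x : K, d.val * n = x • (n * d.val)) :
    Commute (a * b * a⁻¹ * b⁻¹) (c * d * c⁻¹ * d⁻¹) := by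
  have h1 := ZMet_N_comm hn ha hb
  have h2 := ZMet_N_comm hn hc hd
  generalize a * b * a⁻¹ * b⁻¹ = u at *
  generalize c * d * c⁻¹ * d⁻¹ = w at *
  exact Units.ext (ZMet_comm hn ht h1 h2)

theorem ZMet_tf {A : Type} [CommGroup A] (q : A ⧸ CommGroup.torsion A) (hq : IsOfFinOrder q) :
    q = 1 := by
  obtain ⟨x, rfl⟩ := QuotientGroup.mk_surjective q
  obtain ⟨k, hk, h⟩ := isOfFinOrder_iff_pow_eq_one.mp hq
  rw [← QuotientGroup.mk_pow, QuotientGroup.eq_one_iff] at h
  rw [QuotientGroup.eq_one_iff]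
  exact IsOfFinOrder.of_pow h hk.ne'

omit [CharZero K] in
theorem ZMet_N_pow {n : Matrix (Fin 2) (Fin 2) K} {g : GL (Fin 2) K} {x : K}
    (hx : ZMet_N n g x) (k : ℕ) : ZMet_N n (g ^ k) (x ^ k) := by
  induction k with
  | zero => simpa using ZMet_N_one n
  | succ k ih => rw [pow_succ, pow_succ]; exact ZMet_N_mul ih hx

theorem ZMet_ker {n : Matrix (Fin 2) (Fin 2) K} (hn : n ≠ 0) (ht : n.trace = 0)
    {g : GL (Fin 2) K} {x : K} (hx : ZMet_N n g x) {k : ℕ} (hk : 0 < k) (h1 : x ^ k = 1)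
    (h2 : g.val.det ^ k = 1) (hg : IsOfFinOrder g → g = 1) : g.val * n = n * g.val := by
  have h3 := ZMet_N_pow hx k
  rw [h1] at h3
  unfold ZMet_N at h3
  rw [one_smul] at h3
  obtain ⟨a, b, e⟩ := ZMet_span hn ht h3
  by_cases hb : b = 0
  · rw [hb, zero_smul, add_zero] at e
    have hd : (g ^ k).val.det = 1 := by rw [Units.val_pow_eq_pow_val, Matrix.det_pow, h2]
    rw [e, Matrix.det_smul, Matrix.det_one, mul_one, Fintype.card_fin] at hd
    have h4 : g ^ (k * 2) = 1 := by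
      apply Units.ext
      rw [pow_mul, Units.val_pow_eq_pow_val, e, smul_pow, hd, one_pow, one_smul, Units.val_one]
    rw [hg (isOfFinOrder_iff_pow_eq_one.mpr ⟨k * 2, by omega, h4⟩)]
    simp
  · have h5 : g.val * (g ^ k).val = (g ^ k).val * g.val := by
      rw [← Units.val_mul, ← Units.val_mul, ← pow_succ, ← pow_succ']
    rw [e, add_mul, mul_add, smul_mul_assoc, smul_mul_assoc, mul_smul_comm, mul_smul_comm,
      one_mul, mul_one, add_right_inj] at h5
    exact smul_right_injective _ hb h5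

theorem qq_norm (hR : RegularRing R) {H : Type} [Group H] (f : H →* GL (Fin 2) K)
    (hf : Function.Injective f) (hH : ∀ g : H, IsOfFinOrder g → g = 1)
    {n : Matrix (Fin 2) (Fin 2) K} (hn : n ≠ 0) (ht : n.trace = 0)
    (h : ∀ g : H, ∃ x : K, (f g).val * n = x • (n * (f g).val)) : QQ R H := by
  choose c hc using h
  have hc' : ∀ g, ZMet_N n (f g) (c g) := hc
  let χ : H →* K :=
    { toFun := c
      map_one' := ZMet_N_uniq hn (hc' 1) (by rw [map_one]; exact ZMet_N_one n)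
      map_mul' := fun a b =>
        ZMet_N_uniq hn (hc' (a * b)) (by rw [map_mul]; exact ZMet_N_mul (hc' a) (hc' b)) }
  let φ₀ : H →* Kˣ × Kˣ := χ.toHomUnits.prod (Matrix.GeneralLinearGroup.det.comp f)
  let φ : H →* (Kˣ × Kˣ) ⧸ CommGroup.torsion (Kˣ × Kˣ) := (QuotientGroup.mk' _).comp φ₀
  have hker : ∀ g : H, φ g = 1 → (f g).val * n = n * (f g).val := by
    intro g hg
    have h1 : IsOfFinOrder (φ₀ g) := (QuotientGroup.eq_one_iff _).mp hg
    obtain ⟨k, hk, h2⟩ := isOfFinOrder_iff_pow_eq_one.mp h1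
    have h3 : (χ.toHomUnits g) ^ k = 1 := congrArg Prod.fst h2
    have h4 : (Matrix.GeneralLinearGroup.det (f g)) ^ k = 1 := congrArg Prod.snd h2
    refine ZMet_ker hn ht (hc' g) hk ?_ ?_ ?_
    · have := congrArg Units.val h3
      rw [Units.val_pow_eq_pow_val] at this
      exact this
    · have := congrArg Units.val h4
      rw [Units.val_pow_eq_pow_val] at this
      exact this
    · intro h5
      obtain ⟨l, hl, h6⟩ := isOfFinOrder_iff_pow_eq_one.mp h5
      rw [← map_pow, ← map_one f] at h6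
      rw [hH g (isOfFinOrder_iff_pow_eq_one.mpr ⟨l, hl, hf h6⟩), map_one]
  refine qq_abq' ZMet_tf φ fun H' ψ hψ => qq_line hR ψ (fun a b ha hb => ?_) fun g hg => ?_
  · apply Subtype.ext
    apply hf
    rw [Subgroup.coe_mul, Subgroup.coe_mul, map_mul, map_mul]
    exact Units.ext (ZMet_comm hn ht (hker _ (hψ a ha)) (hker _ (hψ b hb)))
  · exact Subtype.ext (hH _ (H'.subtype.isOfFinOrder hg))

end Pool.Agent.MP_f7db47_al.PT
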