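import Pool.Agent.MP_f7db47_al.PT.Hgt
import Pool.Agent.MP_f7db47_al.TreeGeo
import Pool.Agent.MP_f7db47_al.PT.Subdiv

/-!
The tree of bases and superbases of the plane lattice.
-/

namespace Pool.Agent.MP_f7db47_al.PT

/-- positive binary forms of discriminant `-3` -/
@[ext] structure ZTop_V where
  a : ℤ
  b : ℤ
  c : ℤ
  disc : 4 * (a * c) = b * b + 3
  pos : 0 < a

theorem ZTop_det (g : GL (Fin 2) ℤ) : (g 0 0 * g 1 1 - g 0 1 * g 1 0) ^ 2 = 1 := by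
  have h := (Matrix.isUnit_iff_isUnit_det _).1 g.isUnit
  rw [Matrix.det_fin_two] at h
  exact Int.isUnit_sq h

theorem ZTop_pos {a b c p q A B C : ℤ} (h : 4 * (a * c) = b * b + 3) (ha : 0 < a)
    (hA : A = p * p * a + p * q * b + q * q * c) (h' : 4 * (A * C) = B * B + 3) : 0 < A := by
  have h1 : 4 * (a * A) = (2 * p * a + q * b) ^ 2 + 3 * q ^ 2 := by
    rw [hA]
    linear_combination q ^ 2 * h
  have h2 : 0 ≤ a * A := by nlinarith [sq_nonneg (2 * p * a + q * b), sq_nonneg q]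
  refine lt_of_le_of_ne (nonneg_of_mul_nonneg_right h2 ha) ?_
  rintro rfl
  nlinarith [mul_self_nonneg B]

theorem ZTop_disc (g : GL (Fin 2) ℤ) (x : ZTop_V) :
    4 * ((g 0 0 * g 0 0 * x.a + g 0 0 * g 0 1 * x.b + g 0 1 * g 0 1 * x.c) *
      (g 1 0 * g 1 0 * x.a + g 1 0 * g 1 1 * x.b + g 1 1 * g 1 1 * x.c)) =
    (2 * g 0 0 * g 1 0 * x.a + (g 0 0 * g 1 1 + g 0 1 * g 1 0) * x.b + 2 * g 0 1 * g 1 1 * x.c) *
      (2 * g 0 0 * g 1 0 * x.a + (g 0 0 * g 1 1 + g 0 1 * g 1 0) * x.b + 2 * g 0 1 * g 1 1 * x.c)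
      + 3 := by
  linear_combination (g 0 0 * g 1 1 - g 0 1 * g 1 0) ^ 2 * x.disc + 3 * ZTop_det g

/-- change of variables -/
def ZTop_act (g : GL (Fin 2) ℤ) (x : ZTop_V) : ZTop_V :=
  ⟨_, _, _, ZTop_disc g x, ZTop_pos x.disc x.pos rfl (ZTop_disc g x)⟩

instance ZTop_mulAction : MulAction (GL (Fin 2) ℤ) ZTop_V where
  smul := ZTop_act
  one_smul x := by
    change ZTop_act 1 x = x
    ext <;> simp [ZTop_act]
  mul_smul g h x := by
    change ZTop_act (g * h) x = ZTop_act g (ZTop_act h x)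
    ext <;> simp only [ZTop_act, Units.val_mul, Matrix.mul_apply, Fin.sum_univ_two] <;> ring

/-- the invariant pairing -/
def ZTop_P (x y : ZTop_V) : ℤ := 2 * (x.a * y.c) + 2 * (x.c * y.a) - x.b * y.b

theorem ZTop_P_smul (g : GL (Fin 2) ℤ) (x y : ZTop_V) : ZTop_P (g • x) (g • y) = ZTop_P x y := by
  change ZTop_P (ZTop_act g x) (ZTop_act g y) = _
  simp only [ZTop_P, ZTop_act]
  linear_combination (2 * (x.a * y.c) + 2 * (x.c * y.a) - x.b * y.b) * ZTop_det g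

/-- the trivalent tree -/
def ZTop_X : SimpleGraph ZTop_V where
  Adj x y := ZTop_P x y = 5
  symm := ⟨fun x y h => by
    simp only [ZTop_P] at h ⊢
    linear_combination h⟩
  loopless := ⟨fun x h => by
    have := x.disc
    simp only [ZTop_P] at h
    linarith [mul_comm x.a x.c]⟩

theorem ZTop_adj (g : GL (Fin 2) ℤ) (x y : ZTop_V) :
    ZTop_X.Adj (g • x) (g • y) ↔ ZTop_X.Adj x y := by
  change ZTop_P _ _ = 5 ↔ ZTop_P _ _ = 5
  rw [ZTop_P_smul]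

/-- the base point -/
def ZTop_o : ZTop_V := ⟨1, 1, 1, by norm_num, one_pos⟩

theorem ZTop_nbr {y : ZTop_V} (h : ZTop_X.Adj ZTop_o y) :
    (y.a = 1 ∧ y.b = -1 ∧ y.c = 1) ∨ (y.a = 3 ∧ y.b = 3 ∧ y.c = 1) ∨
      (y.a = 1 ∧ y.b = 3 ∧ y.c = 3) := by
  obtain ⟨a, b, c, h1, h2⟩ := y
  change 2 * (1 * c) + 2 * (1 * a) - 1 * b = 5 at h
  obtain rfl : b = 2 * a + 2 * c - 5 := by omega
  have h3 : a ≤ 3 := by nlinarith [sq_nonneg (a + 2 * c - 5)]
  have h4 : c ≤ 3 := by nlinarith [sq_nonneg (c + 2 * a - 5)]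
  have h5 : 0 < c := by nlinarith [sq_nonneg (c + 2 * a - 5)]
  dsimp only
  interval_cases a <;> interval_cases c <;> omega

theorem ZTop_facts (x : ZTop_V) :
    0 < x.c ∧ x.b % 2 = 1 ∧ ¬ (2 * x.a < x.b ∧ 2 * x.c < x.b) ∧ x.b < 2 * x.a + 2 * x.c := by
  obtain ⟨a, b, c, h1, h2⟩ := x
  have h3 : 0 < c := by nlinarith [mul_self_nonneg b]
  refine ⟨h3, ?_, fun h => ?_, ?_⟩
  · change b % 2 = 1
    by_contra h
    obtain ⟨k, rfl⟩ : ∃ k, b = 2 * k := ⟨b / 2, by omega⟩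
    have : 4 * (a * c) = 4 * (k * k) + 3 := by linear_combination h1
    omega
  · change 2 * a < b ∧ 2 * c < b at h
    nlinarith [h.1, h.2]
  · change b < 2 * a + 2 * c
    by_contra h
    nlinarith [mul_pos h2 h3, mul_pos h2 h2, mul_pos h3 h3]

theorem ZTop_low (x : ZTop_V) (hx : x ≠ ZTop_o) : ∃ t : GL (Fin 2) ℤ,
    ZTop_X.Adj (t • ZTop_o) ZTop_o ∧ ZTop_P x (t • ZTop_o) < ZTop_P x ZTop_o := by
  obtain ⟨h1, h2, -, -⟩ := ZTop_facts x
  by_cases e1 : x.b < 0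
  · refine ⟨Matrix.GeneralLinearGroup.mk'' !![1, 0; 0, -1] (by simp), (rfl : ZTop_P _ _ = 5), ?_⟩
    change 2 * (x.a * 1) + 2 * (x.c * 1) - x.b * -1 < 2 * (x.a * 1) + 2 * (x.c * 1) - x.b * 1
    omega
  by_cases e2 : 2 * x.c < x.b
  · refine ⟨Matrix.GeneralLinearGroup.mk'' !![1, 1; 0, 1] (by simp), (rfl : ZTop_P _ _ = 5), ?_⟩
    change 2 * (x.a * 1) + 2 * (x.c * 3) - x.b * 3 < 2 * (x.a * 1) + 2 * (x.c * 1) - x.b * 1
    omega
  by_cases e3 : 2 * x.a < x.b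
  · refine ⟨Matrix.GeneralLinearGroup.mk'' !![1, 0; 1, 1] (by simp), (rfl : ZTop_P _ _ = 5), ?_⟩
    change 2 * (x.a * 3) + 2 * (x.c * 1) - x.b * 3 < 2 * (x.a * 1) + 2 * (x.c * 1) - x.b * 1
    omega
  obtain ⟨a, b, c, h3, h4⟩ := x
  change b % 2 = 1 at h2
  change ¬ b < 0 at e1
  change ¬ 2 * c < b at e2
  change ¬ 2 * a < b at e3
  have h5 : (b + 1) * (b + 1) ≤ (2 * a) * (2 * c) :=
    mul_le_mul (by omega) (by omega) (by omega) (by omega)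
  obtain rfl : b = 1 := by
    have : b ≤ 1 := by nlinarith
    omega
  have h6 : a * c = 1 := by omega
  exact (hx (ZTop_V.ext (Int.eq_one_of_mul_eq_one_right h4.le h6) rfl
    (Int.eq_one_of_mul_eq_one_left h1.le h6))).elim

theorem ZTop_reach (n : ℕ) : ∀ x : ZTop_V, ZTop_P x ZTop_o < n →
    ZTop_X.Reachable x ZTop_o ∧ ∃ g : GL (Fin 2) ℤ, g • x = ZTop_o := by
  induction n with
  | zero =>
    intro x h
    have := (ZTop_facts x).2.2.2
    change 2 * (x.a * 1) + 2 * (x.c * 1) - x.b * 1 < _ at h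
    omega
  | succ n ih =>
    intro x h
    by_cases hx : x = ZTop_o
    · exact ⟨hx ▸ SimpleGraph.Reachable.refl _, 1, by rw [one_smul, hx]⟩
    obtain ⟨t, h1, h2⟩ := ZTop_low x hx
    have h3 := ZTop_P_smul t (t⁻¹ • x) ZTop_o
    rw [smul_inv_smul] at h3
    obtain ⟨h4, g, hg⟩ := ih (t⁻¹ • x) (by omega)
    have h5 := h4.map (G' := ZTop_X) ⟨(t • ·), fun h => (ZTop_adj t _ _).2 h⟩
    change ZTop_X.Reachable (t • t⁻¹ • x) (t • ZTop_o) at h5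
    rw [smul_inv_smul] at h5
    exact ⟨h5.trans h1.reachable, g * t⁻¹, by rw [mul_smul, hg]⟩

theorem ZTop_trans (x : ZTop_V) :
    ZTop_X.Reachable x ZTop_o ∧ ∃ g : GL (Fin 2) ℤ, g • x = ZTop_o :=
  ZTop_reach ((ZTop_P x ZTop_o).toNat + 1) x (by omega)

theorem ZTop_tree : ZTop_X.IsTree := by
  have : Nonempty ZTop_V := ⟨ZTop_o⟩
  refine ⟨⟨fun x y => (ZTop_trans x).1.trans (ZTop_trans y).1.symm⟩,
    acyclic_of_height _ (fun x => ZTop_P x ZTop_o) (fun x y h => ?_) fun x y z h h' l l' => ?_⟩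
  · obtain ⟨g, hg⟩ := (ZTop_trans x).2
    have h1 := (ZTop_adj g x y).2 h
    rw [← ZTop_P_smul g x, ← ZTop_P_smul g y]
    rw [hg] at h1 ⊢
    have h2 := (ZTop_facts (g • ZTop_o)).2.1
    generalize g • ZTop_o = N at h2 ⊢
    change 2 * (1 * N.c) + 2 * (1 * N.a) - 1 * N.b ≠ _
    rcases ZTop_nbr h1 with e | e | e <;> rw [ZTop_P, e.1, e.2.1, e.2.2] <;> omega
  · obtain ⟨g, hg⟩ := (ZTop_trans x).2
    have h1 := (ZTop_adj g x y).2 h
    have h2 := (ZTop_adj g x z).2 h'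
    rw [← ZTop_P_smul g x, ← ZTop_P_smul g y] at l
    rw [← ZTop_P_smul g x, ← ZTop_P_smul g z] at l'
    rw [hg] at h1 h2 l l'
    obtain ⟨h3, -, h4, -⟩ := ZTop_facts (g • ZTop_o)
    have h5 := (g • ZTop_o).pos
    generalize g • ZTop_o = N at h3 h4 h5 l l'
    change _ < 2 * (1 * N.c) + 2 * (1 * N.a) - 1 * N.b at l l'
    refine MulAction.injective g ?_
    change g • y = g • z
    rcases ZTop_nbr h1 with e | e | e <;> rcases ZTop_nbr h2 with e' | e' | e' <;>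
      rw [ZTop_P, e.1, e.2.1, e.2.2] at l <;> rw [ZTop_P, e'.1, e'.2.1, e'.2.2] at l' <;>
      first
        | omega
        | exact ZTop_V.ext (e.1.trans e'.1.symm) (e.2.1.trans e'.2.1.symm)
            (e.2.2.trans e'.2.2.symm)

theorem ZTop_bd {p q : ℤ} (h : p * p * 1 + p * q * 1 + q * q * 1 = 1) :
    p ∈ Set.Icc (-1 : ℤ) 1 ∧ q ∈ Set.Icc (-1 : ℤ) 1 :=
  ⟨⟨by nlinarith [sq_nonneg (p + 2 * q)], by nlinarith [sq_nonneg (p + 2 * q)]⟩,
    by nlinarith [sq_nonneg (q + 2 * p)], by nlinarith [sq_nonneg (q + 2 * p)]⟩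

theorem ZTop_fin {g : GL (Fin 2) ℤ} {x : ZTop_V} (h : g • x = x) : IsOfFinOrder g := by
  obtain ⟨k, hk⟩ := (ZTop_trans x).2
  have h1 : (k * g * k⁻¹) • ZTop_o = ZTop_o := by
    rw [← hk, mul_smul, mul_smul, inv_smul_smul, h]
  have h2 : {M : Matrix (Fin 2) (Fin 2) ℤ | ∀ i j, M i j ∈ Set.Icc (-1 : ℤ) 1}.Finite :=
    Set.Finite.pi' fun _ => Set.Finite.pi' fun _ => Set.finite_Icc _ _
  have h3 : IsOfFinOrder (k * g * k⁻¹) := by
    refine finite_powers.1 ((h2.preimage Units.val_injective.injOn).subset ?_)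
    rintro _ ⟨n, rfl⟩
    have h4 : ((k * g * k⁻¹) ^ n) • ZTop_o = ZTop_o :=
      (MulAction.stabilizer _ ZTop_o).pow_mem h1 n
    have h5 := ZTop_bd (congrArg ZTop_V.a h4)
    have h6 := ZTop_bd (congrArg ZTop_V.c h4)
    exact Fin.forall_fin_two.2 ⟨Fin.forall_fin_two.2 h5, Fin.forall_fin_two.2 h6⟩
  have h4 := (MulAut.conj k⁻¹).toMonoidHom.isOfFinOrder h3
  simpa [mul_assoc] using h4

theorem exists_topo : ∃ (V : Type) (_ : MulAction (GL (Fin 2) ℤ) V) (X : SimpleGraph V),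
    TreeAction (GL (Fin 2) ℤ) X ∧
      ∀ (g : GL (Fin 2) ℤ) (y : V), g • y = y → IsOfFinOrder g := by
  obtain ⟨V, _, X, h1, h2, -⟩ := exists_subdiv ZTop_X ZTop_tree
    (MonoidHom.mk' (fun g : GL (Fin 2) ℤ =>
      (⟨MulAction.toPerm g, ZTop_adj g _ _⟩ : ZTop_X ≃g ZTop_X)) fun a b => by
        ext1 x
        exact mul_smul a b x)
  refine ⟨V, inferInstance, X, h1, fun g y h => ?_⟩
  obtain ⟨v, hv⟩ := h2 g y h
  exact (isOfFinOrder_pow.1 (ZTop_fin hv)).resolve_right two_ne_zero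

end Pool.Agent.MP_f7db47_al.PT
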