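import Pool.Agent.MP_f7db47_al.PT.Val

/-!
Valuations that detect the algebraic elements of an affine domain of characteristic zero.
-/

namespace Pool.Agent.MP_f7db47_al.PT

open scoped WithZero

theorem ZVal_sep (F L : Type) [Field F] [Field L] [Algebra F L] [FiniteDimensional F L]
    [Algebra.IsSeparable F L] (O : ValuationSubring F) (hO : IsDiscreteValuationRing O) :
    ∃ (m : ℕ) (v : Fin m → Valuation L ℤᵐ⁰), (∀ i, ∃ π, v i π = WithZero.exp (-1)) ∧
      (∀ x : L, (∀ i, v i x ≤ 1) → ∀ j, (minpoly F x).coeff j ∈ O) ∧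
      ∀ i, ∀ x ∈ O, v i (algebraMap F L x) ≤ 1 := by
  have := integralClosure.isDedekindDomain O F L
  have := integralClosure.isFractionRing_of_finite_extension (A := O) F L
  have hi : Function.Injective (algebraMap O L) := by
    rw [IsScalarTower.algebraMap_eq O F L]
    exact (algebraMap F L).injective.comp Subtype.val_injective
  have : FaithfulSMul O (integralClosure O L) := (faithfulSMul_iff_algebraMap_injective _ _).2
    fun a b h => hi (congrArg Subtype.val h)
  have hf : Finite (IsDedekindDomain.HeightOneSpectrum (integralClosure O L)) := by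
    have := (IsDedekindDomain.primesOver_finite (IsLocalRing.maximalIdeal O)
      (integralClosure O L)).to_subtype
    refine Finite.of_injective (β := Ideal.primesOver (IsLocalRing.maximalIdeal O)
      (integralClosure O L)) (fun v => ⟨v.asIdeal, v.isPrime, ⟨?_⟩⟩) fun v w h =>
        IsDedekindDomain.HeightOneSpectrum.ext (congrArg Subtype.val h)
    have := v.isMaximal
    exact (IsLocalRing.eq_maximalIdeal
      (Ideal.isMaximal_comap_of_isIntegral_of_isMaximal v.asIdeal)).symm
  obtain ⟨m, ⟨e⟩⟩ := Finite.exists_equiv_fin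
    (IsDedekindDomain.HeightOneSpectrum (integralClosure O L))
  refine ⟨m, fun i => (e.symm i).valuation L, fun i => (e.symm i).valuation_exists_uniformizer L,
    fun x hx j => ?_, fun i x hx => ?_⟩
  · obtain ⟨y, rfl⟩ := IsDedekindDomain.HeightOneSpectrum.mem_integers_of_valuation_le_one
      (R := integralClosure O L) L x fun v => by simpa using hx (e v)
    rw [minpoly.isIntegrallyClosed_eq_field_fractions' F (R := O) (s := algebraMap _ L y) y.2,
      Polynomial.coeff_map]
    exact SetLike.coe_mem _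
  · exact (e.symm i).valuation_le_one (K := L) (algebraMap O (integralClosure O L) ⟨x, hx⟩)

theorem ZVal_fields (k B A F L : Type) [Field k] [CommRing B] [IsDomain B]
    [IsIntegrallyClosed B] [CommRing A] [IsDomain A] [Algebra k B] [Algebra k A] [Algebra B A]
    [IsScalarTower k B A] [Module.Finite B A] [Field F] [Algebra B F] [IsFractionRing B F]
    [Field L] [Algebra A L] [IsFractionRing A L] [Algebra B L] [Algebra F L]
    [IsScalarTower B F L] [IsScalarTower B A L] [FiniteDimensional F L] [CharZero F]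
    (O : ValuationSubring F) (hO : IsDiscreteValuationRing O)
    (hc : ∀ c : k, algebraMap B F (algebraMap k B c) ∈ O)
    (h : ∀ b : B, algebraMap B F b ∈ O → ∃ c : k, b = algebraMap k B c) :
    ∃ (m : ℕ) (v : Fin m → Valuation L ℤᵐ⁰), (∀ i, ∃ π, v i π = WithZero.exp (-1)) ∧
      (∀ a : A, (∀ i, v i (algebraMap A L a) ≤ 1) → IsIntegral k a) ∧
      ∀ i (c : k), v i (algebraMap A L (algebraMap k A c)) ≤ 1 := by
  obtain ⟨m, v, h1, h2, h3⟩ := ZVal_sep F L O hO
  refine ⟨m, v, h1, fun a ha => ?_, fun i c => ?_⟩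
  · have hi : IsIntegral B a := Algebra.IsIntegral.isIntegral _
    refine Val_const k B A _ hi fun j => ?_
    have h4 := h2 _ ha j
    rw [minpoly.isIntegrallyClosed_eq_field_fractions F L hi, Polynomial.coeff_map] at h4
    exact h _ h4
  · rw [IsScalarTower.algebraMap_apply k B A, ← IsScalarTower.algebraMap_apply B A L,
      IsScalarTower.algebraMap_apply B F L]
    exact h3 i _ (hc c)

theorem ZVal_abs (k B A : Type) [Field k] [CharZero k] [CommRing B]
    [IsDomain B] [IsIntegrallyClosed B] [CommRing A] [IsDomain A] [Algebra k B] [Algebra k A]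
    [Algebra B A] [IsScalarTower k B A] [Module.Finite B A] [FaithfulSMul B A]
    (O : ValuationSubring (FractionRing B)) (hO : IsDiscreteValuationRing O)
    (hc : ∀ c : k, algebraMap B (FractionRing B) (algebraMap k B c) ∈ O)
    (h : ∀ b : B, algebraMap B (FractionRing B) b ∈ O → ∃ c : k, b = algebraMap k B c) :
    ∃ (m : ℕ) (v : Fin m → Valuation (FractionRing A) ℤᵐ⁰),
      (∀ i, ∃ π, v i π = WithZero.exp (-1)) ∧
      (∀ a : A, (∀ i, v i (algebraMap A _ a) ≤ 1) → IsIntegral k a) ∧
      ∀ i (c : k), v i (algebraMap A _ (algebraMap k A c)) ≤ 1 := by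
  let _ := FractionRing.liftAlgebra B (FractionRing A)
  have _ : FiniteDimensional (FractionRing B) (FractionRing A) :=
    .of_isLocalization B A (nonZeroDivisors B)
  have _ : CharZero (FractionRing B) :=
    charZero_of_injective_algebraMap (algebraMap k (FractionRing B)).injective
  exact ZVal_fields k B A (FractionRing B) (FractionRing A) O hO hc h

theorem ZVal_base (k A : Type) [Field k] [CharZero k] [CommRing A] [IsDomain A] [Algebra k A]
    [Algebra.FiniteType k A] :
    ∃ (m : ℕ) (v : Fin m → Valuation (FractionRing A) ℤᵐ⁰),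
      (∀ i, ∃ π, v i π = WithZero.exp (-1)) ∧
      (∀ a : A, (∀ i, v i (algebraMap A _ a) ≤ 1) → IsIntegral k a) ∧
      ∀ i (c : k), v i (algebraMap A _ (algebraMap k A c)) ≤ 1 := by
  obtain ⟨s, g, hg, hf⟩ := exists_finite_inj_algHom_of_fg k A
  let _ : Algebra (MvPolynomial (Fin s) k) A := g.toRingHom.toAlgebra
  have _ : IsScalarTower k (MvPolynomial (Fin s) k) A :=
    IsScalarTower.of_algebraMap_eq fun c => (g.commutes c).symm
  have _ : Module.Finite (MvPolynomial (Fin s) k) A := hf
  have _ : FaithfulSMul (MvPolynomial (Fin s) k) A :=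
    (faithfulSMul_iff_algebraMap_injective _ _).2 hg
  rcases s with _ | s
  · refine ⟨0, Fin.elim0, fun i => i.elim0, fun a _ => ?_, fun i => i.elim0⟩
    exact Val_const k (MvPolynomial (Fin 0) k) A a
      (Algebra.IsIntegral.isIntegral a) fun j => ⟨_, MvPolynomial.eq_C_of_isEmpty _⟩
  · obtain ⟨O, hO, hc, h⟩ := exists_deg_dvr k s
    exact ZVal_abs k (MvPolynomial (Fin (s + 1)) k) A O hO hc h

theorem ZVal_alg {L : Type} [Field L] [CharZero L] (v : Valuation L ℤᵐ⁰)
    (h : ∀ c : ℚ, v (algebraMap ℚ L c) ≤ 1) {x : L} (hx : IsAlgebraic ℤ x) : v x ≤ 1 :=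
  (Valuation.integer.integers v).mem_of_integral
    (((IsFractionRing.isAlgebraic_iff ℤ ℚ L).1 hx).isIntegral.map_of_comp_eq
      ((algebraMap ℚ L).codRestrict v.integer h) (RingHom.id L) rfl)

theorem ZVal_zero {L : Type} [Field L] [CharZero L] (v : Valuation L ℤᵐ⁰) (ρ : ℚ →+* L)
    (h : ∀ c : ℚ, v (ρ c) ≤ 1) (x : L) (hx : IsAlgebraic ℤ x) (hv : v x < 1) : x = 0 := by
  by_contra h0
  have h5 := ZVal_alg v (Subsingleton.elim ρ (algebraMap ℚ L) ▸ h) hx.inv
  rw [map_inv₀, inv_le_one₀ (zero_lt_iff.2 ((Valuation.ne_zero_iff _).2 h0))] at h5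
  exact absurd hv (not_lt.2 h5)

theorem exists_vals0 (A : Type) [CommRing A] [IsDomain A] [CharZero A]
    (hfg : Algebra.FiniteType ℤ A) :
    ∃ (L : Type) (_ : Field L) (_ : CharZero L) (φ : A →+* L) (m : ℕ)
      (v : Fin m → Valuation L ℤᵐ⁰), Function.Injective φ ∧
      (∀ i, ∃ π, v i π = WithZero.exp (-1)) ∧
      (∀ a : A, (∀ i, v i (φ a) ≤ 1) → IsAlgebraic ℤ a) ∧
      ∀ (i : Fin m) (x : L), IsAlgebraic ℤ x → v i x < 1 → x = 0 := by
  classical
  obtain ⟨s, hs⟩ := hfg.out
  let K := FractionRing A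
  let A' : Subalgebra ℚ K := Algebra.adjoin ℚ (algebraMap A K '' s)
  have _ : Algebra.FiniteType ℚ A' := .adjoin_of_finite (s.finite_toSet.image _)
  have hm : ∀ a : A, algebraMap A K a ∈ A' := fun a => by
    have ha : a ∈ Algebra.adjoin ℤ (s : Set A) := hs ▸ Algebra.mem_top
    induction ha using Algebra.adjoin_induction with
    | mem x hx => exact Algebra.subset_adjoin ⟨x, hx, rfl⟩
    | algebraMap r => simp
    | add x y _ _ hx hy => rw [map_add]; exact add_mem hx hy
    | mul x y _ _ hx hy => rw [map_mul]; exact mul_mem hx hy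
  let φ : A →+* A' := (algebraMap A K).codRestrict A' hm
  have hφ : Function.Injective φ := fun a b h =>
    IsFractionRing.injective A K (congrArg Subtype.val h)
  obtain ⟨m, v, h1, h2, h3⟩ := ZVal_base ℚ A'
  exact ⟨FractionRing A', inferInstance, inferInstance, (algebraMap A' _).comp φ, m, v,
    (IsFractionRing.injective A' _).comp hφ, h1,
    fun a ha => (isAlgebraic_algHom_iff φ.toIntAlgHom hφ).1
      ((IsFractionRing.isAlgebraic_iff ℤ ℚ A').2 (h2 _ ha).isAlgebraic),
    fun i => ZVal_zero (v i) ((algebraMap A' _).comp (algebraMap ℚ A')) (h3 i)⟩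

end Pool.Agent.MP_f7db47_al.PT
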