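import Pool.Agent.MP_f7db47_al.PT.ZMain
import Pool.Agent.MP_f7db47_al.PT.ZGeo
import Pool.Agent.MP_f7db47_al.PT.ZBT
import Pool.Agent.MP_f7db47_al.PT.ZVal
import Pool.Agent.MP_f7db47_al.PT.ZTop
import Pool.Agent.MP_f7db47_al.PT.ZMet
import Pool.Agent.MP_f7db47_al.PT.GLa

/-!
Subgroups of `GL_2` in characteristic zero.
-/

namespace Pool.Agent.MP_f7db47_al.PT

open Matrix Function

universe v

variable {R : Type v} [Ring R]

lemma ZInt_inj {A B : Type} [CommRing A] [CommRing B] {φ : A →+* B} (h : Injective φ) :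
    Injective (GeneralLinearGroup.map (n := Fin 2) φ) := fun _ _ e =>
  Units.ext (Matrix.ext fun i j => h (congrArg (fun g : GL (Fin 2) B => g.val i j) e))

lemma ZInt_det {A B : Type} [CommRing A] [CommRing B] (φ : A →+* B) (g : GL (Fin 2) A) :
    (GeneralLinearGroup.map φ g).val.det = φ g.val.det := (φ.map_det _).symm

lemma ZInt_tr {A B : Type} [CommRing A] [CommRing B] (φ : A →+* B) (g : GL (Fin 2) A) :
    (GeneralLinearGroup.map φ g).val.trace = φ g.val.trace := (AddMonoidHom.map_trace φ _).symm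

lemma ZInt_comm {A : Type} [CommRing A] (a b : GL (Fin 2) A) :
    (a * b * a⁻¹ * b⁻¹).val.det = 1 := by
  have h : GeneralLinearGroup.det (a * b * a⁻¹ * b⁻¹) = 1 := by
    simp only [map_mul, map_inv]
    rw [mul_comm (GeneralLinearGroup.det a), mul_inv_cancel_right, mul_inv_cancel]
  exact congrArg Units.val h

lemma ZInt_s {A L : Type} [CommRing A] [Field L] (φ : A →+* L) (g : GL (Fin 2) A) :
    (GeneralLinearGroup.map φ g).val.trace ^ 2 / (GeneralLinearGroup.map φ g).val.det =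
      φ (g.val.trace ^ 2 * (g⁻¹).val.det) := by
  have h : φ g.val.det * φ (g⁻¹).val.det = 1 := by
    rw [← map_mul, ← det_mul, Units.mul_inv, det_one, map_one]
  rw [ZInt_det, ZInt_tr, map_mul, map_pow, div_eq_mul_inv, eq_inv_of_mul_eq_one_right h]

theorem qq_gl2_fg {G : Type} [Group G] {A : Type} [CommRing A] [IsDomain A] [CharZero A]
    (hfg : Algebra.FiniteType ℤ A) (f : G →* GL (Fin 2) A)
    (hsol : ∀ (L : Type) [Field L] [CharZero L] (φ : A →+* L), Injective φ →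
      ∀ (H : Subgroup G) (n : Matrix (Fin 2) (Fin 2) L), n ≠ 0 → n.trace = 0 →
      (∀ g ∈ H, ∃ x : L, (GeneralLinearGroup.map φ (f g)).val * n =
        x • (n * (GeneralLinearGroup.map φ (f g)).val)) → QQ R H)
    (halg : ∀ H : Subgroup G,
      (∀ g ∈ H, IsAlgebraic ℤ ((f g).val.trace ^ 2 * ((f g)⁻¹).val.det)) → QQ R H) :
    QQ R G := by
  obtain ⟨L, _, _, φ, m, v, hφ, h1, h2, h3⟩ := exists_vals0 A hfg
  obtain ⟨Ω, _, D, d1, d2, d3⟩ := exists_geo L
  choose π hπ using h1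
  choose V act X b1 b2 b3 b4 using fun i => exists_BT0 (v i) (π i) (hπ i)
  let f' : G →* GL (Fin 2) L := (GeneralLinearGroup.map φ).comp f
  let _ : ∀ i, MulAction G (V i) := fun i => MulAction.compHom (V i) f'
  have hiff : ∀ a : A, IsAlgebraic ℤ (φ a) ↔ IsAlgebraic ℤ a := fun a =>
    isAlgebraic_algHom_iff φ.toIntAlgHom hφ
  refine qqZ_trees D (fun q => IsAlgebraic ℤ (q.val.trace ^ 2 / q.val.det)) _ (Fin m) rfl G f' V X
    (fun i => ⟨(b1 i).1, fun g => (b1 i).2.1 (f' g), fun g => (b1 i).2.2 (f' g)⟩)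
    (fun g hg i => ?_) (fun x g hg => ?_) (fun i a b hab g h e1 e2 e3 e4 e5 => d2 _ _ ?_)
    (fun ω H hH => ?_) fun H hH => halg H fun g hg => ?_
  · obtain ⟨c, hc⟩ := d1 _ hg
    exact b2 i _ c hc
  · change IsAlgebraic ℤ ((GeneralLinearGroup.map φ (f g)).val.trace ^ 2 /
      (GeneralLinearGroup.map φ (f g)).val.det)
    rw [ZInt_s, hiff]
    refine h2 _ fun i => ?_
    rw [← ZInt_s]
    exact b3 i (f' g) (x i) (hg i)
  · simp only [map_mul, map_inv, ZInt_comm, div_one] at e5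
    have e6 := e5.of_pow two_pos
    exact sub_eq_zero.1 (h3 i _ (e6.sub (isAlgebraic_natCast 2)) (b4 i _ _ a b hab e1 e2 e3 e4))
  · obtain ⟨n, n1, n2, n3⟩ := d3 ω
    exact hsol L φ hφ H n n1 n2 fun g hg => n3 _ (hH g hg)
  · rw [← hiff, ← ZInt_s]
    exact hH g hg

lemma ZInt_sub {G : Type} [Group G] {K : Subgroup G} {H : Subgroup K}
    (h : QQ R (H.map K.subtype)) : QQ R H :=
  h.sub (H.equivMapOfInjective _ (Subgroup.subtype_injective _)).toMonoidHom
    (MulEquiv.injective _)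

theorem qq_gl2F {G : Type} [Group G] {K : Type} [Field K] [CharZero K] (f : G →* GL (Fin 2) K)
    (hm : ∀ H : Subgroup G, (∀ a ∈ H, ∀ b ∈ H, ∀ c ∈ H, ∀ d ∈ H,
      Commute (f (a * b * a⁻¹ * b⁻¹)) (f (c * d * c⁻¹ * d⁻¹))) → QQ R H)
    (ha : ∀ H : Subgroup G,
      (∀ g ∈ H, IsAlgebraic ℤ ((f g).val.trace ^ 2 / (f g).val.det)) → QQ R H) : QQ R G := by
  refine qq_loc fun M hM => ?_
  obtain ⟨A₀, f₀, hfg, hf₀⟩ := exists_fg_subring ((Group.fg_iff_subgroup_fg M).2 hM) K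
    (f.comp M.subtype)
  have hf : ∀ g : M, f g = GeneralLinearGroup.map A₀.subtype (f₀ g) := fun g => (hf₀ g).symm
  refine qq_gl2_fg hfg f₀ (fun L _ _ φ hφ H n n1 n2 n3 => ZInt_sub (hm _ ?_))
    fun H hH => ZInt_sub (ha _ ?_)
  · rintro _ ⟨a, ha, rfl⟩ _ ⟨b, hb, rfl⟩ _ ⟨c, hc, rfl⟩ _ ⟨d, hd, rfl⟩
    have h1 := metab_of_norm n1 n2 (n3 a ha) (n3 b hb) (n3 c hc) (n3 d hd)
    simp only [← map_mul, ← map_inv] at h1
    have h2 := (Commute.of_map (ZInt_inj hφ) h1).map (GeneralLinearGroup.map A₀.subtype)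
    rw [← hf, ← hf] at h2
    exact h2
  · rintro _ ⟨g, hg, rfl⟩
    have h1 := (isAlgebraic_algHom_iff A₀.subtype.toIntAlgHom A₀.subtype_injective).2 (hH g hg)
    have h2 := ZInt_s A₀.subtype (f₀ g)
    rw [← hf] at h2
    exact h2 ▸ h1

theorem qq_int (hR : RegularRing R) {H : Type} [Group H] {A : Type} [CommRing A] [IsDomain A]
    [CharZero A] (ev : A →+* ℤ) (f : H →* GL (Fin 2) A) (hf : Injective f)
    (ht : ∀ g : H, IsOfFinOrder g → g = 1)
    (hs : ∀ g : H, (f g).val.det = 1 → ∃ n : ℤ, (f g).val.trace = n) : QQ R H := by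
  let L := FractionRing A
  have hφ : Injective (algebraMap A L) := IsFractionRing.injective A L
  have : CharZero L := charZero_of_injective_algebraMap hφ
  obtain ⟨Ω, _, D, d1, d2, d3⟩ := exists_geo L
  let f' : H →* GL (Fin 2) L := (GeneralLinearGroup.map (algebraMap A L)).comp f
  have hf' : Injective f' := (ZInt_inj hφ).comp hf
  let e : H →* GL (Fin 2) ℤ := (GeneralLinearGroup.map ev).comp f
  have hC : ∀ a ∈ e.ker, ∀ b ∈ e.ker, D.Comm2 (f' a) (f' b) := by
    intro a ha b hb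
    have h1 : a * b * a⁻¹ * b⁻¹ ∈ e.ker :=
      mul_mem (mul_mem (mul_mem ha hb) (inv_mem ha)) (inv_mem hb)
    obtain ⟨n, hn⟩ := hs (a * b * a⁻¹ * b⁻¹) (by simp only [map_mul, map_inv, ZInt_comm])
    have h2 := ZInt_tr ev (f (a * b * a⁻¹ * b⁻¹))
    rw [show GeneralLinearGroup.map ev (f (a * b * a⁻¹ * b⁻¹)) = 1 from h1, hn] at h2
    have h3 : n = 2 := by simpa using h2.symm
    have h4 := ZInt_tr (algebraMap A L) (f (a * b * a⁻¹ * b⁻¹))
    rw [hn, h3] at h4
    refine d2 _ _ ?_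
    rw [← map_inv, ← map_inv, ← map_mul, ← map_mul, ← map_mul]
    exact h4.trans (by rw [map_intCast]; simp)
  have hconj : ∀ h : H, ∀ u ∈ e.ker, h * u * h⁻¹ ∈ e.ker := fun h u hu =>
    (MonoidHom.normal_ker e).conj_mem u hu h
  by_cases hc : ∀ u ∈ e.ker, D.Cz (f' u)
  swap
  · have key : ∃ ω : Ω, ∀ h : H, f' h • ω = ω := by
      by_cases h1 : ∃ u ∈ e.ker, D.Un (f' u)
      · obtain ⟨u, hu, h2⟩ := h1
        refine ⟨D.om (f' u), fun h => ?_⟩
        have h3 := (hC _ (hconj h u hu) u hu).1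
        simp only [map_mul, map_inv] at h3
        rw [← D.om_conj _ _ (D.un_ncz _ h2)]
        exact h3 (D.un_conj _ _ h2) h2
      · push Not at hc
        obtain ⟨u, hu, h2⟩ := hc
        refine ⟨D.om (f' u), fun h => ?_⟩
        have h3 := (hC _ (hconj h u hu) u hu).2
        have h4 := hconj h u hu
        have h5 : ¬ D.Un (f' (h * u * h⁻¹ * u * (h * u * h⁻¹)⁻¹ * u⁻¹)) := fun h5 =>
          h1 ⟨_, mul_mem (mul_mem (mul_mem h4 hu) (inv_mem h4)) (inv_mem hu), h5⟩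
        simp only [map_mul, map_inv] at h3 h5
        rw [← D.om_conj _ _ h2]
        exact (h3 (fun h6 => h2 (D.cz_conj _ _ h6)) h2).resolve_left h5
    obtain ⟨ω, hω⟩ := key
    obtain ⟨n, n1, n2, n3⟩ := d3 ω
    exact qq_norm hR f' hf' ht n1 n2 fun g => n3 _ (hω g)
  obtain ⟨V, _, X, hX, hfin⟩ := exists_topo
  let _ : MulAction H V := MulAction.compHom V e
  have hab : ∀ (y : V), ∀ a ∈ MulAction.stabilizer H y, ∀ b ∈ MulAction.stabilizer H y,
      a * b = b * a := by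
    intro y a ha b hb
    have h1 : a * b * a⁻¹ * b⁻¹ ∈ MulAction.stabilizer H y :=
      mul_mem (mul_mem (mul_mem ha hb) (inv_mem ha)) (inv_mem hb)
    obtain ⟨k, hk, h2⟩ := isOfFinOrder_iff_pow_eq_one.1 (hfin _ y h1)
    obtain ⟨c, h3⟩ := d1 _ (hc ((a * b * a⁻¹ * b⁻¹) ^ k) (by rwa [MonoidHom.mem_ker, map_pow]))
    have h4 : c ^ 2 = 1 := by
      have := congrArg det h3
      rw [map_pow, Units.val_pow_eq_pow_val, det_pow] at this
      simp only [map_mul, map_inv, ZInt_comm] at this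
      simpa using this.symm
    have h5 : f' ((a * b * a⁻¹ * b⁻¹) ^ (k * 2)) = f' 1 := by
      rw [pow_mul, map_pow, map_one]
      refine Units.ext ?_
      rw [Units.val_pow_eq_pow_val, h3, smul_pow, h4, one_pow, one_smul, Units.val_one]
    have h6 := ht _ (isOfFinOrder_iff_pow_eq_one.2 ⟨k * 2, by omega, hf' h5⟩)
    rw [mul_inv_eq_one, mul_inv_eq_iff_eq_mul] at h6
    exact h6
  refine qq_tree_loc hR (X := X) ⟨hX.1, fun g => hX.2.1 (e g), fun g => hX.2.2 (e g)⟩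
    (fun y => qq_ab hR (fun a b => Subtype.ext (hab y _ a.2 _ b.2)) fun g hg =>
      Subtype.ext (ht _ ((MulAction.stabilizer H y).subtype.isOfFinOrder hg)))
    fun a b _ M hM hle => ?_
  have : Group.FG M := (Group.fg_iff_subgroup_fg M).2 hM
  exact Ab_poly (fun x y => Subtype.ext (hab a _ (hle x.2).1 _ (hle y.2).1)) fun g hg =>
    Subtype.ext (ht _ (M.subtype.isOfFinOrder hg))

theorem qq_gl2Z (hR : RegularRing R) {G : Type} [Group G] {A : Type} [CommRing A] [IsDomain A]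
    (ev : A →+* ℤ) (hA : ∀ a : A, IsAlgebraic ℤ a → ∃ n : ℤ, a = n) (f : G →* GL (Fin 2) A)
    (hf : Injective f) (ht : ∀ g : G, IsOfFinOrder g → g = 1) : QQ R G := by
  have : CharZero A := ev.charZero
  refine qq_loc fun M hM => ?_
  obtain ⟨A₀, f₀, hfg, hf₀⟩ := exists_fg_subring ((Group.fg_iff_subgroup_fg M).2 hM) A
    (f.comp M.subtype)
  have hinj : Injective f₀ := fun a b h => Subtype.ext (hf (by
    have := congrArg (GeneralLinearGroup.map A₀.subtype) h
    rwa [hf₀, hf₀] at this))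
  have htor : ∀ (H : Subgroup M) (g : H), IsOfFinOrder g → g = 1 := fun H g hg =>
    Subtype.ext (Subtype.ext (ht _ ((M.subtype.comp H.subtype).isOfFinOrder hg)))
  refine qq_gl2_fg hfg f₀ (fun L _ _ φ hφ H n n1 n2 n3 => ?_) fun H hH => ?_
  · exact qq_norm hR ((GeneralLinearGroup.map φ).comp (f₀.comp H.subtype))
      ((ZInt_inj hφ).comp (hinj.comp H.subtype_injective)) (htor H) n1 n2 fun g => n3 g g.2
  · refine qq_int hR (ev.comp A₀.subtype) (f₀.comp H.subtype) (hinj.comp H.subtype_injective)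
      (htor H) fun g hg => ?_
    have h1 := hH g g.2
    have h2 : ((f₀ g)⁻¹).val.det = 1 := by
      have h3 : (f₀ g).val.det * ((f₀ g)⁻¹).val.det = 1 := by
        rw [← det_mul, Units.mul_inv, det_one]
      rwa [show (f₀ g).val.det = 1 from hg, one_mul] at h3
    rw [h2, mul_one] at h1
    obtain ⟨n, hn⟩ := hA _ ((isAlgebraic_algHom_iff A₀.subtype.toIntAlgHom
      A₀.subtype_injective).2 (h1.of_pow two_pos))
    exact ⟨n, Subtype.ext (by simpa using hn)⟩

end Pool.Agent.MP_f7db47_al.PT
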