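import Mathlib

namespace Pool.Agent.MP_f7db47_al.PT

open scoped WithZero

/-- The valuations above a discrete valuation ring in a finite separable extension. -/
theorem exists_vals_sep (F L : Type) [Field F] [Field L] [Algebra F L] [FiniteDimensional F L]
    [Algebra.IsSeparable F L] (O : ValuationSubring F) (hO : IsDiscreteValuationRing O) :
    ∃ (m : ℕ) (v : Fin m → Valuation L ℤᵐ⁰), (∀ i, ∃ π, v i π = WithZero.exp (-1)) ∧
      ∀ x : L, (∀ i, v i x ≤ 1) → ∀ j, (minpoly F x).coeff j ∈ O := by
  have := integralClosure.isDedekindDomain O F L
  have := integralClosure.isFractionRing_of_finite_extension (A := O) F L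
  have hi : Function.Injective (algebraMap O L) := by
    rw [IsScalarTower.algebraMap_eq O F L]
    exact (algebraMap F L).injective.comp Subtype.val_injective
  have : FaithfulSMul O (integralClosure O L) := (faithfulSMul_iff_algebraMap_injective _ _).2
    fun a b h => hi (congrArg Subtype.val h)
  have hf : Finite (IsDedekindDomain.HeightOneSpectrum (integralClosure O L)) := by
    have := (IsDedekindDomain.primesOver_finite (IsLocalRing.maximalIdeal O)
      (integralClosure O L)).to_subtype
    refine Finite.of_injective (β := Ideal.primesOver (IsLocalRing.maximalIdeal O)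
      (integralClosure O L)) (fun v => ⟨v.asIdeal, v.isPrime, ⟨?_⟩⟩) fun v w h =>
        IsDedekindDomain.HeightOneSpectrum.ext (congrArg Subtype.val h)
    have := v.isMaximal
    exact (IsLocalRing.eq_maximalIdeal
      (Ideal.isMaximal_comap_of_isIntegral_of_isMaximal v.asIdeal)).symm
  obtain ⟨m, ⟨e⟩⟩ := Finite.exists_equiv_fin
    (IsDedekindDomain.HeightOneSpectrum (integralClosure O L))
  refine ⟨m, fun i => (e.symm i).valuation L, fun i => (e.symm i).valuation_exists_uniformizer L,
    fun x hx j => ?_⟩
  obtain ⟨y, rfl⟩ := IsDedekindDomain.HeightOneSpectrum.mem_integers_of_valuation_le_one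
    (R := integralClosure O L) L x fun v => by simpa using hx (e v)
  rw [minpoly.isIntegrallyClosed_eq_field_fractions' F (R := O) (s := algebraMap _ L y) y.2,
    Polynomial.coeff_map]
  exact SetLike.coe_mem _

/-- A power of Frobenius maps a finite extension into a separable one. -/
theorem exists_frob_sep (p : ℕ) [Fact p.Prime] (F L : Type) [Field F] [Field L] [Algebra F L]
    [FiniteDimensional F L] [CharP F p] :
    ∃ (e : ℕ) (ψ : L →+* separableClosure F L), ∀ x, (ψ x : L) = x ^ p ^ e := by
  have : CharP (separableClosure F L) p :=
    charP_of_injective_algebraMap (algebraMap F _).injective p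
  have : ExpChar (separableClosure F L) p := ExpChar.prime Fact.out
  exact ⟨_, IsPurelyInseparable.iterateFrobenius (separableClosure F L) L p le_rfl,
    IsPurelyInseparable.algebraMap_iterateFrobenius (separableClosure F L) p le_rfl⟩

end Pool.Agent.MP_f7db47_al.PT
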