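import Pool.Agent.MP_f7db47_al.PT.Val1
import Pool.Agent.MP_f7db47_al.PT.Val2

namespace Pool.Agent.MP_f7db47_al.PT

open scoped WithZero

theorem Val_const (k B A : Type) [Field k] [CommRing B] [CommRing A] [Algebra k B] [Algebra k A]
    [Algebra B A] [IsScalarTower k B A] (y : A) (hy : IsIntegral B y)
    (h : ∀ j, ∃ c : k, (minpoly B y).coeff j = algebraMap k B c) : IsIntegral k y := by
  obtain ⟨q, hq, -, hm⟩ := Polynomial.lifts_and_natDegree_eq_and_monic
    ((Polynomial.lifts_iff_coeff_lifts (f := algebraMap k B) (minpoly B y)).2 fun j => by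
      obtain ⟨c, hc⟩ := h j
      exact ⟨c, hc.symm⟩) (minpoly.monic hy)
  refine ⟨q, hm, ?_⟩
  rw [← Polynomial.aeval_def, ← Polynomial.aeval_map_algebraMap B, hq, minpoly.aeval]

theorem Val_fields (p : ℕ) [Fact p.Prime] (k B A F L0 : Type) [Field k] [CommRing B] [IsDomain B]
    [IsIntegrallyClosed B] [CommRing A] [IsDomain A] [Algebra k B] [Algebra k A] [Algebra B A]
    [IsScalarTower k B A] [Module.Finite B A] [Field F] [Algebra B F] [IsFractionRing B F]
    [Field L0] [Algebra A L0] [IsFractionRing A L0] [Algebra B L0] [Algebra F L0]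
    [IsScalarTower B F L0] [IsScalarTower B A L0] [FiniteDimensional F L0] [CharP F p]
    (O : ValuationSubring F) (hO : IsDiscreteValuationRing O)
    (h : ∀ b : B, algebraMap B F b ∈ O → ∃ c : k, b = algebraMap k B c) :
    ∃ (L : Type) (_ : Field L) (φ : A →+* L) (m : ℕ) (v : Fin m → Valuation L ℤᵐ⁰),
      Function.Injective φ ∧ (∀ i, ∃ π, v i π = WithZero.exp (-1)) ∧
      ∀ a : A, (∀ i, v i (φ a) ≤ 1) → IsIntegral k a := by
  obtain ⟨e, ψ, hψ⟩ := exists_frob_sep p F L0
  obtain ⟨m, v, h1, h2⟩ := exists_vals_sep F (separableClosure F L0) O hO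
  refine ⟨separableClosure F L0, inferInstance, ψ.comp (algebraMap A L0), m, v,
    ψ.injective.comp (IsFractionRing.injective A L0), h1, fun a ha => ?_⟩
  have hi : IsIntegral B (a ^ p ^ e) := Algebra.IsIntegral.isIntegral _
  refine IsIntegral.of_pow (pow_pos (Fact.out : p.Prime).pos e) (Val_const k B A _ hi fun j => ?_)
  have h3 := h2 _ ha j
  rw [IntermediateField.minpoly_eq, RingHom.comp_apply, hψ, ← map_pow,
    minpoly.isIntegrallyClosed_eq_field_fractions F L0 hi, Polynomial.coeff_map] at h3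
  exact h _ h3

theorem Val_abs (p : ℕ) [Fact p.Prime] (k B A : Type) [Field k] [CharP k p] [CommRing B]
    [IsDomain B] [IsIntegrallyClosed B] [CommRing A] [IsDomain A] [Algebra k B] [Algebra k A]
    [Algebra B A] [IsScalarTower k B A] [Module.Finite B A] [FaithfulSMul B A]
    (O : ValuationSubring (FractionRing B)) (hO : IsDiscreteValuationRing O)
    (h : ∀ b : B, algebraMap B (FractionRing B) b ∈ O → ∃ c : k, b = algebraMap k B c) :
    ∃ (L : Type) (_ : Field L) (φ : A →+* L) (m : ℕ) (v : Fin m → Valuation L ℤᵐ⁰),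
      Function.Injective φ ∧ (∀ i, ∃ π, v i π = WithZero.exp (-1)) ∧
      ∀ a : A, (∀ i, v i (φ a) ≤ 1) → IsIntegral k a := by
  let _ := FractionRing.liftAlgebra B (FractionRing A)
  have _ : FiniteDimensional (FractionRing B) (FractionRing A) :=
    .of_isLocalization B A (nonZeroDivisors B)
  have _ : CharP (FractionRing B) p :=
    charP_of_injective_algebraMap (algebraMap k (FractionRing B)).injective p
  exact Val_fields p k B A (FractionRing B) (FractionRing A) O hO h

/-- Finitely many discrete valuations that detect the algebraic elements of an affine domain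
over a prime field. -/
theorem exists_vals (p : ℕ) [Fact p.Prime] (A : Type) [CommRing A] [IsDomain A]
    [Algebra (ZMod p) A] [Algebra.FiniteType (ZMod p) A] :
    ∃ (L : Type) (_ : Field L) (φ : A →+* L) (m : ℕ) (v : Fin m → Valuation L ℤᵐ⁰),
      Function.Injective φ ∧ (∀ i, ∃ π, v i π = WithZero.exp (-1)) ∧
      ∀ a : A, (∀ i, v i (φ a) ≤ 1) → IsIntegral (ZMod p) a := by
  obtain ⟨s, g, hg, hf⟩ := exists_finite_inj_algHom_of_fg (ZMod p) A
  let _ : Algebra (MvPolynomial (Fin s) (ZMod p)) A := g.toRingHom.toAlgebra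
  have _ : IsScalarTower (ZMod p) (MvPolynomial (Fin s) (ZMod p)) A :=
    IsScalarTower.of_algebraMap_eq fun c => (g.commutes c).symm
  have _ : Module.Finite (MvPolynomial (Fin s) (ZMod p)) A := hf
  have _ : FaithfulSMul (MvPolynomial (Fin s) (ZMod p)) A :=
    (faithfulSMul_iff_algebraMap_injective _ _).2 hg
  rcases s with _ | s
  · refine ⟨FractionRing A, inferInstance, algebraMap A _, 0, Fin.elim0,
      IsFractionRing.injective A _, fun i => i.elim0, fun a _ => ?_⟩
    refine Val_const (ZMod p) (MvPolynomial (Fin 0) (ZMod p)) A a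
      (Algebra.IsIntegral.isIntegral a) fun j => ⟨_, MvPolynomial.eq_C_of_isEmpty _⟩
  · obtain ⟨O, hO, -, h⟩ := exists_deg_dvr (ZMod p) s
    exact Val_abs p (ZMod p) (MvPolynomial (Fin (s + 1)) (ZMod p)) A O hO h

end Pool.Agent.MP_f7db47_al.PT
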