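import Pool.Agent.MP_f7db47_al.PT.ZFH
import Pool.Agent.MP_f7db47_al.PT.Ab

/-!
Groups over torsion-free abelian groups.
-/

namespace Pool.Agent.MP_f7db47_al.PT

universe v

variable {R : Type v} [Ring R]

theorem ZAbq_top {G : Type} [Group G] (h : QQ R (⊤ : Subgroup G)) : QQ R G :=
  h.sub (Subgroup.topEquiv (G := G)).symm.toMonoidHom (Subgroup.topEquiv (G := G)).symm.injective

theorem ZAbq_res {G Q Q' : Type} [Group G] [Group Q] [Group Q'] (φ : G →* Q)
    (h : ∀ (H : Subgroup G) (ψ : H →* Multiplicative ℤ),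
      (∀ x : H, ψ x = 1 → φ x = 1) → QQ R H) (N : Subgroup G) (φ' : N →* Q')
    (hφ : ∀ x : N, φ' x = 1 → φ x = 1) (H : Subgroup N) (ψ : H →* Multiplicative ℤ)
    (hψ : ∀ x : H, ψ x = 1 → φ' x = 1) : QQ R H := by
  let e : H ≃* H.map N.subtype := H.equivMapOfInjective N.subtype N.subtype_injective
  refine (h (H.map N.subtype) (ψ.comp e.symm.toMonoidHom) fun x hx => ?_).sub
    e.toMonoidHom e.injective
  have h1 := hφ _ (hψ (e.symm x) hx)
  have h2 : ((e (e.symm x) : H.map N.subtype) : G) = ((e.symm x : H) : N) := rfl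
  rw [← h2, e.apply_symm_apply] at h1
  exact h1

/-- Restriction to some of the coordinates. -/
def ZAbq_co {ι κ : Type} (j : κ → ι) : Multiplicative (ι → ℤ) →* Multiplicative (κ → ℤ) where
  toFun x := Multiplicative.ofAdd fun k => x.toAdd (j k)
  map_one' := rfl
  map_mul' _ _ := rfl

/-- One coordinate. -/
def ZAbq_ev {ι : Type} (i : ι) : Multiplicative (ι → ℤ) →* Multiplicative ℤ where
  toFun x := Multiplicative.ofAdd (x.toAdd i)
  map_one' := rfl
  map_mul' _ _ := rfl

theorem ZAbq_core : ∀ (r : ℕ) (G : Type) [Group G] (φ : G →* Multiplicative (Fin r → ℤ)),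
    (∀ (H : Subgroup G) (ψ : H →* Multiplicative ℤ),
      (∀ x : H, ψ x = 1 → φ x = 1) → QQ R H) → QQ R G
  | 0, G, _, φ, h => ZAbq_top (h ⊤ 1 fun _ _ => Subsingleton.elim _ _)
  | 1, G, _, φ, h => by
    refine ZAbq_top (h ⊤ (((ZAbq_ev 0).comp φ).comp (Subgroup.subtype _)) fun x hx => ?_)
    refine Multiplicative.toAdd.injective (funext fun i => ?_)
    rw [Subsingleton.elim i 0]
    exact congrArg Multiplicative.toAdd hx
  | r + 2, G, _, φ, h => by
    intro P _ hP Δ _ f hf
    refine g1_FH (fun δ => (φ (f δ).1).toAdd 0) (fun δ => (φ (f δ).1).toAdd 1)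
      (fun a b => by simp) (fun a b => by simp) fun a b hab N hN => ?_
    let N₀ : Subgroup G :=
      { carrier := {g | a * (φ g).toAdd 0 + b * (φ g).toAdd 1 = 0}
        one_mem' := by simp
        mul_mem' := fun {x y} hx hy => by
          simp only [Set.mem_ofPred_eq, map_mul, toAdd_mul, Pi.add_apply] at hx hy ⊢
          linear_combination hx + hy
        inv_mem' := fun {x} hx => by
          simp only [Set.mem_ofPred_eq, map_inv, toAdd_inv, Pi.neg_apply] at hx ⊢
          linear_combination -hx }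
    refine Ab_le hP f hf N₀ ?_ N fun x hx => (hN x).1 hx
    have key : ∀ i : Fin (r + 2), (∀ x : N₀, (∀ k : Fin (r + 1), (φ x).toAdd (i.succAbove k) = 0) →
        (φ x).toAdd i = 0) → QQ R N₀ := by
      intro i hi
      refine ZAbq_core (r + 1) N₀ (((ZAbq_co i.succAbove).comp φ).comp N₀.subtype)
        (ZAbq_res φ h N₀ _ fun x hx => ?_)
      have h1 : ∀ k : Fin (r + 1), (φ x).toAdd (i.succAbove k) = 0 := fun k =>
        congrFun (congrArg Multiplicative.toAdd hx) k
      refine Multiplicative.toAdd.injective (funext fun j => ?_)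
      rcases Fin.eq_self_or_eq_succAbove i j with rfl | ⟨k, rfl⟩
      · exact hi x h1
      · exact h1 k
    by_cases ha : a = 0
    · refine key 1 fun x _ => ?_
      have hx : a * (φ x).toAdd 0 + b * (φ x).toAdd 1 = 0 := x.2
      rw [ha, zero_mul, zero_add] at hx
      exact (mul_eq_zero.1 hx).resolve_left (hab.resolve_left fun h => h ha)
    · refine key 0 fun x h1 => ?_
      have hx : a * (φ x).toAdd 0 + b * (φ x).toAdd 1 = 0 := x.2
      have h2 : (φ x).toAdd 1 = 0 := h1 0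
      rw [h2, mul_zero, add_zero] at hx
      exact (mul_eq_zero.1 hx).resolve_left ha

theorem ZAbq_emb {K : Type} [CommGroup K] [Group.FG K] (ht : ∀ g : K, IsOfFinOrder g → g = 1) :
    ∃ (r : ℕ) (e : K →* Multiplicative (Fin r → ℤ)), Function.Injective e := by
  have : Module.Finite ℤ (Additive K) := Module.Finite.iff_addGroup_fg.2 inferInstance
  have : IsMulTorsionFree K := isMulTorsionFree_iff_not_isOfFinOrder.2 fun g hg h => hg (ht g h)
  have : Module.Free ℤ (Additive K) := Module.free_of_finite_type_torsion_free'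
  let e := (Module.finBasis ℤ (Additive K)).equivFun
  exact ⟨_, AddMonoidHom.toMultiplicativeRight e.toAddEquiv.toAddMonoidHom, e.injective⟩

theorem qq_abq' {G Q : Type} [Group G] [CommGroup Q] (hQ : ∀ q : Q, IsOfFinOrder q → q = 1)
    (φ : G →* Q) (h : ∀ (H : Subgroup G) (ψ : H →* Multiplicative ℤ),
      (∀ x : H, ψ x = 1 → φ x = 1) → QQ R H) : QQ R G := by
  refine qq_loc fun K hK => ?_
  have : Group.FG K := (Group.fg_iff_subgroup_fg K).2 hK
  let χ : K →* Q := φ.comp K.subtype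
  have : Group.FG χ.range := Group.fg_range χ
  obtain ⟨r, e, he⟩ := ZAbq_emb (K := χ.range) fun g hg =>
    Subtype.ext (hQ g (χ.range.subtype.isOfFinOrder hg))
  refine ZAbq_core r K (e.comp χ.rangeRestrict) (ZAbq_res φ h K _ fun x hx => ?_)
  have h1 : χ.rangeRestrict x = 1 := he (hx.trans (map_one e).symm)
  exact congrArg Subtype.val h1

theorem qq_abq {G Q : Type} [Group G] [CommGroup Q] (hQ : ∀ q : Q, IsOfFinOrder q → q = 1)
    (φ : G →* Q) (h : ∀ H : Subgroup G, IsCyclic (H.map φ) → QQ R H) : QQ R G := by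
  refine qq_abq' hQ φ fun H ψ hψ => h H ?_
  have : IsCyclic ψ.range := Subgroup.isCyclic _
  obtain ⟨⟨_, x, rfl⟩, hx⟩ := IsCyclic.exists_generator (α := ψ.range)
  refine ⟨⟨⟨φ x, x, x.2, rfl⟩, ?_⟩⟩
  rintro ⟨_, y, hy, rfl⟩
  obtain ⟨n, hn⟩ := hx ⟨ψ ⟨y, hy⟩, ⟨y, hy⟩, rfl⟩
  have h1 : ψ x ^ n = ψ ⟨y, hy⟩ := congrArg Subtype.val hn
  have h2 := hψ (x ^ n * ⟨y, hy⟩⁻¹) (by rw [map_mul, map_zpow, map_inv, h1, mul_inv_cancel])
  refine ⟨n, Subtype.ext ?_⟩
  have h3 : φ x ^ n * (φ y)⁻¹ = 1 := by simpa using h2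
  exact mul_inv_eq_one.1 h3

end Pool.Agent.MP_f7db47_al.PT
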