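import Mathlib

namespace Pool.Agent.MP_f7db47_al.PT

/-- The greedy marking at stage `p`. -/
def MarkM {ι : Type} (t A n : ℕ) (c : (ι → ℤ) → ℕ) (p : ℕ) (x : ι → ℤ) : Prop :=
  c x = p % n ∧ c x < n ∧ ∀ (p' : ℕ) (_ : p' < p) (y : ι → ℤ), MarkM t A n c p' y →
    (p' / n = p / n → ¬ ∀ τ, |x τ - y τ| ≤ A) ∧ (p' / n < p / n → ¬ ∀ τ, |x τ - y τ| ≤ t)
termination_by p

theorem Mark_iff {ι : Type} (t A n : ℕ) (c : (ι → ℤ) → ℕ) (p : ℕ) (x : ι → ℤ) :
    MarkM t A n c p x ↔ c x = p % n ∧ c x < n ∧ ∀ (p' : ℕ) (_ : p' < p) (y : ι → ℤ),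
      MarkM t A n c p' y → (p' / n = p / n → ¬ ∀ τ, |x τ - y τ| ≤ A) ∧
        (p' / n < p / n → ¬ ∀ τ, |x τ - y τ| ≤ t) := by
  rw [MarkM]

theorem Mark_loc {ι : Type} {t A n : ℕ} (ht : t ≤ A) (p : ℕ) :
    ∀ (c c' : (ι → ℤ) → ℕ) (x x' : ι → ℤ),
      (∀ y : ι → ℤ, (∀ τ, |y τ| ≤ (p * A : ℕ)) → c (x + y) = c' (x' + y)) →
      MarkM t A n c p x → MarkM t A n c' p x' := by
  induction p using Nat.strong_induction_on with
  | _ p ih =>
    intro c c' x x' h hM
    rw [Mark_iff] at hM ⊢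
    obtain ⟨h1, h2, h3⟩ := hM
    have h0 : c x = c' x' := by
      have := h 0 (fun τ => by simp only [Pi.zero_apply, abs_zero]; positivity)
      rwa [add_zero, add_zero] at this
    refine ⟨h0 ▸ h1, h0 ▸ h2, fun p' hp' y' hy' => ?_⟩
    have key : (∀ τ, |x' τ - y' τ| ≤ A) → MarkM t A n c p' (x + (y' - x')) := fun hc => by
      refine ih p' hp' c' c y' _ (fun z hz => ?_) hy'
      have e := h (y' - x' + z) (fun τ => by
        have a1 := hc τ
        have a2 := hz τ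
        have a3 : (p' + 1) * A ≤ p * A := Nat.mul_le_mul_right _ hp'
        have a4 : ((p' * A : ℕ) : ℤ) + A ≤ (p * A : ℕ) := by
          rw [add_mul, one_mul] at a3
          exact_mod_cast a3
        rw [abs_sub_comm] at a1
        simp only [Pi.add_apply, Pi.sub_apply]
        exact (abs_add_le _ _).trans (by linarith))
      rw [add_assoc, e]
      congr 1
      abel
    have e2 : ∀ τ, x τ - (x + (y' - x')) τ = x' τ - y' τ := fun τ => by
      simp only [Pi.add_apply, Pi.sub_apply]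
      ring
    refine ⟨fun hq hc => (h3 p' hp' _ (key hc)).1 hq fun τ => by rw [e2]; exact hc τ,
      fun hq hc => (h3 p' hp' _ (key fun τ => (hc τ).trans (by exact_mod_cast ht))).2 hq
        fun τ => by rw [e2]; exact hc τ⟩

theorem Mark_div {n q i : ℕ} (hi : i < n) : (q * n + i) / n = q := by
  have hn : 0 < n := by omega
  rw [mul_comm, Nat.mul_add_div hn, Nat.div_eq_of_lt hi, add_zero]

theorem Mark_mod {n q i : ℕ} (hi : i < n) : (q * n + i) % n = i := by
  rw [mul_comm, Nat.mul_add_mod, Nat.mod_eq_of_lt hi]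

theorem Mark_close {a b s : ℤ} (hs : 0 ≤ s) (h : a / (s + 1) = b / (s + 1)) : |a - b| ≤ s := by
  have h1 := Int.mul_ediv_add_emod a (s + 1)
  have h2 := Int.mul_ediv_add_emod b (s + 1)
  have h3 := Int.emod_nonneg a (by omega : s + 1 ≠ 0)
  have h4 := Int.emod_nonneg b (by omega : s + 1 ≠ 0)
  have h5 := Int.emod_lt_of_pos a (by omega : 0 < s + 1)
  have h6 := Int.emod_lt_of_pos b (by omega : 0 < s + 1)
  rw [h] at h1
  rw [abs_le]
  constructor <;> linarith

theorem Mark_pack {ι : Type} [Fintype ι] {t A C N : ℕ} (hA : A ≤ C * t) (x : ι → ℤ)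
    (y : Fin N → ι → ℤ) (h1 : ∀ q τ, |x τ - y q τ| ≤ A)
    (h2 : ∀ q q', q' < q → ¬ ∀ τ, |y q τ - y q' τ| ≤ t) : N ≤ (2 * C + 1) ^ Fintype.card ι := by
  classical
  have hA' : (A : ℤ) ≤ C * t := by exact_mod_cast hA
  have hb : ∀ q τ, 0 ≤ (y q τ - x τ + A) / ((t : ℤ) + 1) ∧
      (y q τ - x τ + A) / ((t : ℤ) + 1) < 2 * C + 1 := fun q τ => by
    have a := abs_le.1 (h1 q τ)
    refine ⟨Int.ediv_nonneg (by linarith [a.2]) (by positivity), ?_⟩
    refine Int.ediv_lt_of_lt_mul (by positivity) ?_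
    have : (0 : ℤ) ≤ C := by positivity
    have : (0 : ℤ) ≤ t := by positivity
    nlinarith [a.1]
  let f : Fin N → ι → Fin (2 * C + 1) := fun q τ =>
    ⟨((y q τ - x τ + A) / ((t : ℤ) + 1)).toNat, by
      have := hb q τ
      omega⟩
  have hcl : ∀ q q', f q = f q' → ∀ τ, |y q τ - y q' τ| ≤ t := fun q q' h τ => by
    have e : ((y q τ - x τ + A) / ((t : ℤ) + 1)).toNat =
        ((y q' τ - x τ + A) / ((t : ℤ) + 1)).toNat := congrArg Fin.val (congrFun h τ)
    have a1 := (hb q τ).1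
    have a2 := (hb q' τ).1
    have e' : (y q τ - x τ + A) / ((t : ℤ) + 1) = (y q' τ - x τ + A) / ((t : ℤ) + 1) := by
      omega
    have := Mark_close (by positivity) e'
    rwa [show y q τ - x τ + A - (y q' τ - x τ + A) = y q τ - y q' τ by ring] at this
  have hf : Function.Injective f := fun q q' h => by
    rcases lt_trichotomy q q' with hq | hq | hq
    · exact absurd (hcl q' q h.symm) (h2 q' q hq)
    · exact hq
    · exact absurd (hcl q q' h) (h2 q q' hq)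
  have := Fintype.card_le_of_injective f hf
  simpa using this

theorem exists_marks (ι : Type) [Fintype ι] (t A C n : ℕ) (hA : A ≤ C * t) (ht : t ≤ A) :
    ∃ Mark : ((ι → ℤ) → ℕ) → ℕ → (ι → ℤ) → Prop,
      (∀ c q x, Mark c q x → c x < n) ∧
      (∀ c q x y, Mark c q x → Mark c q y → (∀ τ, |x τ - y τ| ≤ A) → c x = c y) ∧
      (∀ c x, c x < n → ∃ q < (2 * C + 1) ^ Fintype.card ι + 1, ∃ y, Mark c q y ∧
        ∀ τ, |x τ - y τ| ≤ t) ∧
      ∀ c c' q x x', (∀ y : ι → ℤ, (∀ τ, |y τ| ≤ ((q + 1) * n * A : ℕ)) →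
        c (x + y) = c' (x' + y)) → (Mark c q x ↔ Mark c' q x') := by
  refine ⟨fun c q x => ∃ i < n, MarkM t A n c (q * n + i) x, ?_, ?_, ?_, ?_⟩
  · rintro c q x ⟨i, -, h⟩
    exact ((Mark_iff _ _ _ _ _ _).1 h).2.1
  · rintro c q x y ⟨i, hi, h⟩ ⟨i', hi', h'⟩ hc
    obtain ⟨a1, -, a3⟩ := (Mark_iff _ _ _ _ _ _).1 h
    obtain ⟨b1, -, b3⟩ := (Mark_iff _ _ _ _ _ _).1 h'
    rcases lt_trichotomy i i' with hq | hq | hq
    · exact absurd (fun τ => by rw [abs_sub_comm]; exact hc τ)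
        ((b3 _ (by omega) x h).1 (by rw [Mark_div hi, Mark_div hi']))
    · rw [a1, b1, hq]
    · exact absurd hc ((a3 _ (by omega) y h').1 (by rw [Mark_div hi, Mark_div hi']))
  · intro c x hx
    by_contra hcon
    have hn : 0 < n := by omega
    have hun : ∀ p y, p / n < (2 * C + 1) ^ Fintype.card ι + 1 → MarkM t A n c p y →
        ¬ ∀ τ, |x τ - y τ| ≤ t := fun p y hp hM hc =>
      hcon ⟨p / n, hp, y, ⟨p % n, Nat.mod_lt _ hn, by rwa [Nat.div_add_mod']⟩, hc⟩
    have hbl : ∀ q : Fin ((2 * C + 1) ^ Fintype.card ι + 1), ∃ p y, p / n = q ∧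
        MarkM t A n c p y ∧ ∀ τ, |x τ - y τ| ≤ A := fun q => by
      by_contra hno
      refine hun (q * n + c x) x (by rw [Mark_div hx]; exact q.2) ?_
        (fun τ => by simp only [sub_self, abs_zero]; positivity)
      rw [Mark_iff]
      refine ⟨(Mark_mod hx).symm, hx, fun p' _ y hy => ?_⟩
      rw [Mark_div hx]
      exact ⟨fun h hc => hno ⟨p', y, h, hy, hc⟩, fun h => hun p' y (h.trans q.2) hy⟩
    choose p y h1 h2 h3 using hbl
    have := Mark_pack hA x y h3 fun q q' hq => by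
      have hlt : p q' / n < p q / n := by rw [h1, h1]; exact hq
      exact (((Mark_iff _ _ _ _ _ _).1 (h2 q)).2.2 (p q') (Nat.lt_of_div_lt_div hlt) _ (h2 q')).2 hlt
    omega
  · intro c c' q x x' h
    have key : ∀ i < n, ∀ y : ι → ℤ, (∀ τ, |y τ| ≤ ((q * n + i) * A : ℕ)) →
        c (x + y) = c' (x' + y) := fun i hi y hy => h y fun τ => (hy τ).trans (by
      have : (q * n + i) * A ≤ (q + 1) * n * A :=
        Nat.mul_le_mul_right _ (by rw [add_mul, one_mul]; omega)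
      exact_mod_cast this)
    constructor
    · rintro ⟨i, hi, hM⟩
      exact ⟨i, hi, Mark_loc ht _ c c' x x' (key i hi) hM⟩
    · rintro ⟨i, hi, hM⟩
      exact ⟨i, hi, Mark_loc ht _ c' c x' x (fun y hy => (key i hi y hy).symm) hM⟩

end Pool.Agent.MP_f7db47_al.PT
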