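import Pool.Agent.MP_f7db47_al.PT.ZPerm

/-!
The action of integral representations on the classes of invertible matrices.
-/

namespace Pool.Agent.MP_f7db47_al.PT

universe u v w

variable {R : Type v} [Ring R] {G : Type u} [Group G] {W : Type w} [AddCommGroup W]

open Matrix in
/-- multiply the coefficients by integer weights -/
noncomputable def ZLat_wt (c : G → ℤ) : MonoidAlgebra R G →+ MonoidAlgebra R G where
  toFun x := MonoidAlgebra.ofCoeff
    (Finsupp.onFinset x.coeff.support (fun g => c g • x.coeff g) fun g hg =>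
      Finsupp.mem_support_iff.mpr fun h => hg (by rw [h, smul_zero]))
  map_zero' := by ext; simp
  map_add' x y := by ext g; simp

theorem ZLat_coeff (c : G → ℤ) (x : MonoidAlgebra R G) (g : G) :
    (ZLat_wt c x).coeff g = c g • x.coeff g := rfl

theorem ZLat_single (c : G → ℤ) (g : G) (r : R) :
    ZLat_wt c (MonoidAlgebra.single g r) = MonoidAlgebra.single g (c g • r) := by
  classical
  ext k
  rw [ZLat_coeff, MonoidAlgebra.coeff_single, MonoidAlgebra.coeff_single, Finsupp.single_apply,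
    Finsupp.single_apply]
  split_ifs with h
  · rw [h]
  · rw [smul_zero]

theorem ZLat_wt_mul {κ : Type} [Fintype κ] (a b : κ → G → ℤ) (c : G → ℤ)
    (h : ∀ g k, c (g * k) = ∑ i, a i g * b i k) (x y : MonoidAlgebra R G) :
    ∑ i, ZLat_wt (a i) x * ZLat_wt (b i) y = ZLat_wt c (x * y) := by
  induction x using MonoidAlgebra.induction_linear with
  | zero => simp
  | add x x' hx hx' => simp only [map_add, add_mul, Finset.sum_add_distrib, hx, hx']
  | single g r =>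
    induction y using MonoidAlgebra.induction_linear with
    | zero => simp
    | add y y' hy hy' => simp only [map_add, mul_add, Finset.sum_add_distrib, hy, hy']
    | single k s =>
      simp only [ZLat_single, MonoidAlgebra.single_mul_single, h, Finset.sum_smul]
      rw [← MonoidAlgebra.singleAddHom_apply, map_sum]
      refine Finset.sum_congr rfl fun i _ => ?_
      rw [MonoidAlgebra.singleAddHom_apply, smul_mul_smul_comm]

/-- twist of a matrix by a family of integer matrices -/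
noncomputable def ZLat_Tw {m m' J K : Type} (φ : G → Matrix m m' ℤ)
    (A : Matrix J K (MonoidAlgebra R G)) : Matrix (J × m) (K × m') (MonoidAlgebra R G) :=
  fun x y => ZLat_wt (fun g => φ g x.2 y.2) (A x.1 y.1)

theorem ZLat_Tw_mul {m m' m'' J : Type} [Fintype m'] [Fintype J] {φ₁ : G → Matrix m m' ℤ}
    {φ₂ : G → Matrix m' m'' ℤ} {φ : G → Matrix m m'' ℤ} (h : ∀ g k, φ (g * k) = φ₁ g * φ₂ k)
    (A B : Matrix J J (MonoidAlgebra R G)) :
    ZLat_Tw φ₁ A * ZLat_Tw φ₂ B = ZLat_Tw φ (A * B) := by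
  ext1 x y
  rw [Matrix.mul_apply, Fintype.sum_prod_type]
  simp only [ZLat_Tw]
  rw [Matrix.mul_apply, map_sum]
  refine Finset.sum_congr rfl fun j _ => ?_
  exact ZLat_wt_mul _ _ _ (fun g k => by rw [h, Matrix.mul_apply]) _ _

theorem ZLat_Tw_one {m J : Type} [DecidableEq m] [DecidableEq J] {φ : G → Matrix m m ℤ}
    (h : φ 1 = 1) : ZLat_Tw φ (1 : Matrix J J (MonoidAlgebra R G)) = 1 := by
  ext1 ⟨i, a⟩ ⟨j, b⟩
  simp only [ZLat_Tw, Matrix.one_apply, Prod.mk.injEq]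
  by_cases hij : i = j
  · rw [if_pos hij, MonoidAlgebra.one_def, ZLat_single, h, Matrix.one_apply]
    by_cases hab : a = b
    · rw [if_pos hab, if_pos ⟨hij, hab⟩, one_smul]
    · rw [if_neg hab, if_neg fun h' => hab h'.2, zero_smul, MonoidAlgebra.single_zero]
  · rw [if_neg hij, if_neg fun h' => hij h'.1, map_zero]

/-- matrix representations -/
def ZLat_Rep {m : Type} [Fintype m] [DecidableEq m] (φ : G → Matrix m m ℤ) : Prop :=
  φ 1 = 1 ∧ ∀ g k, φ (g * k) = φ g * φ k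

theorem ZLat_unit {S : Type*} [Ring S] {a b : S} (h : a * b = 1) (h' : b * a = 1) : IsUnit a :=
  ⟨⟨a, b, h, h'⟩, rfl⟩

section
variable {m m' J : Type} [Fintype m] [DecidableEq m] [Fintype m'] [DecidableEq m'] [Fintype J]
  [DecidableEq J] {A : Matrix J J (MonoidAlgebra R G)}

open Matrix

theorem ZLat_Tw_unit {φ : G → Matrix m m ℤ} (h : ZLat_Rep φ) (hu : IsUnit A) :
    IsUnit (ZLat_Tw φ A) := by
  obtain ⟨u, rfl⟩ := hu
  refine ZLat_unit (b := ZLat_Tw φ (↑u⁻¹ : Matrix J J (MonoidAlgebra R G))) ?_ ?_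
  · rw [ZLat_Tw_mul h.2, Units.mul_inv, ZLat_Tw_one h.1]
  · rw [ZLat_Tw_mul h.2, Units.inv_mul, ZLat_Tw_one h.1]

theorem ZLat_cls_tri (D : WhS R G W) {P : Matrix m m (MonoidAlgebra R G)}
    {S : Matrix m' m' (MonoidAlgebra R G)} (Q : Matrix m m' (MonoidAlgebra R G)) (hP : IsUnit P)
    (hS : IsUnit S) : IsUnit (fromBlocks P Q 0 S) ∧
      D.cls (fromBlocks P Q 0 S) = D.cls P + D.cls S := by
  obtain ⟨P', p1, p2⟩ := isUnit_iff_exists.mp hP
  obtain ⟨S', s1, s2⟩ := isUnit_iff_exists.mp hS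
  have h1 : IsUnit (fromBlocks (1 : Matrix m m (MonoidAlgebra R G)) (Q * S') 0
      (1 : Matrix m' m' (MonoidAlgebra R G))) := by
    obtain ⟨B, -, h, h'⟩ := T_unit (T_upper (Q * S'))
    exact ZLat_unit h h'
  have h2 : IsUnit (fromBlocks P 0 0 S) := by
    refine ZLat_unit (b := fromBlocks P' 0 0 S') ?_ ?_
    · simp only [fromBlocks_multiply, Matrix.mul_zero, Matrix.zero_mul, add_zero, zero_add, p1, s1,
        fromBlocks_one]
    · simp only [fromBlocks_multiply, Matrix.mul_zero, Matrix.zero_mul, add_zero, zero_add, p2, s2,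
        fromBlocks_one]
  have e : fromBlocks P Q 0 S = fromBlocks 1 (Q * S') 0 1 * fromBlocks P 0 0 S := by
    simp only [fromBlocks_multiply, Matrix.mul_zero, Matrix.zero_mul, add_zero, zero_add,
      Matrix.one_mul, Matrix.mul_assoc, s2, Matrix.mul_one]
  rw [e]
  refine ⟨h1.mul h2, ?_⟩
  rw [D.mul h1 h2, (D.zero_iff h1).mpr (T_upper _), zero_add, D.diag hP hS]

theorem ZLat_wt_zero (x : MonoidAlgebra R G) : ZLat_wt (fun _ => 0) x = 0 := by
  ext g
  rw [ZLat_coeff, zero_smul]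
  rfl

theorem ZLat_wt_one (x : MonoidAlgebra R G) : ZLat_wt (fun _ => 1) x = x := by
  ext g
  rw [ZLat_coeff, one_smul]

theorem ZLat_cls_block (D : WhS R G W) {a : G → Matrix m m ℤ} (b : G → Matrix m m' ℤ)
    {d : G → Matrix m' m' ℤ} (ha : ZLat_Rep a) (hd : ZLat_Rep d) (hu : IsUnit A) :
    D.cls (ZLat_Tw (fun g => fromBlocks (a g) (b g) 0 (d g)) A) =
      D.cls (ZLat_Tw a A) + D.cls (ZLat_Tw d A) := by
  obtain ⟨h1, h2⟩ := ZLat_cls_tri D (ZLat_Tw b A) (ZLat_Tw_unit ha hu) (ZLat_Tw_unit hd hu)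
  rw [← h2, ← D.reindex (Equiv.prodSumDistrib J m m') h1]
  congr 1
  ext1 ⟨i, x | x⟩ ⟨j, y | y⟩
  · rfl
  · rfl
  · exact ZLat_wt_zero _
  · rfl

theorem ZLat_cls_conj (D : WhS R G W) {a b : G → Matrix m m ℤ} {S S' : Matrix m m ℤ}
    (ha : ZLat_Rep a) (hb : ZLat_Rep b) (h1 : S * S' = 1) (h2 : S' * S = 1)
    (h : ∀ g, S * a g = b g * S) (hu : IsUnit A) :
    D.cls (ZLat_Tw a A) = D.cls (ZLat_Tw b A) := by
  have hs : IsUnit (ZLat_Tw (fun g => S * a g) (1 : Matrix J J (MonoidAlgebra R G))) := by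
    refine ZLat_unit (b := ZLat_Tw (fun g => S' * b g) 1) ?_ ?_
    · rw [ZLat_Tw_mul (φ := b), one_mul, ZLat_Tw_one hb.1]
      intro g k
      rw [h, mul_assoc, ← mul_assoc S, h1, one_mul, hb.2]
    · rw [ZLat_Tw_mul (φ := a), one_mul, ZLat_Tw_one ha.1]
      intro g k
      rw [mul_assoc, ← mul_assoc (b g), ← h, mul_assoc, ← mul_assoc S', h2, one_mul, ha.2]
  have e : ZLat_Tw (fun g => S * a g) (1 : Matrix J J (MonoidAlgebra R G)) * ZLat_Tw a A =
      ZLat_Tw b A * ZLat_Tw (fun g => S * a g) 1 := by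
    rw [ZLat_Tw_mul (φ := fun g => S * a g), ZLat_Tw_mul (φ := fun g => S * a g), one_mul, mul_one]
    · intro g k
      rw [← mul_assoc, ← h, ha.2, mul_assoc]
    · intro g k
      rw [ha.2, mul_assoc]
  have e' := congrArg D.cls e
  rw [D.mul hs (ZLat_Tw_unit ha hu), D.mul (ZLat_Tw_unit hb hu) hs, add_comm] at e'
  exact add_right_cancel e'

theorem ZLat_rep_one : ZLat_Rep fun _ : G => (1 : Matrix m m ℤ) := ⟨rfl, fun _ _ => by simp⟩

theorem ZLat_triv_equiv (D : WhS R G W) (e : m' ≃ m) (hu : IsUnit A) :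
    D.cls (ZLat_Tw (fun _ => (1 : Matrix m' m' ℤ)) A) =
      D.cls (ZLat_Tw (fun _ => (1 : Matrix m m ℤ)) A) := by
  rw [← D.reindex ((Equiv.refl J).prodCongr e) (ZLat_Tw_unit ZLat_rep_one hu)]
  congr 1
  ext1 x y
  simp [ZLat_Tw, Matrix.one_apply]

theorem ZLat_triv_fin (D : WhS R G W) (hu : IsUnit A) (n : ℕ) :
    D.cls (ZLat_Tw (fun _ => (1 : Matrix (Fin n) (Fin n) ℤ)) A) = n • D.cls A := by
  induction n with
  | zero =>
    rw [zero_smul]
    refine (D.zero_iff (ZLat_Tw_unit ZLat_rep_one hu)).mpr ?_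
    rw [Subsingleton.elim (ZLat_Tw _ A) 1]
    exact T_one
  | succ n ih =>
    have h1 := ZLat_cls_block D (m := Fin n) (m' := Fin 1) (fun _ => 0) ZLat_rep_one ZLat_rep_one hu
    rw [fromBlocks_one, ZLat_triv_equiv D finSumFinEquiv hu, ih] at h1
    rw [h1, succ_nsmul, ← D.reindex (Equiv.prodUnique J (Fin 1)) hu]
    congr 2
    ext1 x y
    rw [ZLat_Tw, Subsingleton.elim x.2 y.2, Matrix.one_apply_eq, ZLat_wt_one]
    rfl

theorem ZLat_triv (D : WhS R G W) (hu : IsUnit A) :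
    D.cls (ZLat_Tw (fun _ => (1 : Matrix m m ℤ)) A) = Fintype.card m • D.cls A := by
  rw [ZLat_triv_equiv D (Fintype.equivFin m) hu, ZLat_triv_fin D hu]

theorem ZLat_step (D : WhS R G W) {a : G → Matrix m m ℤ} {b : G → Matrix m' m' ℤ}
    (ha : ZLat_Rep a) (hb : ZLat_Rep b) (E : Matrix m' m ℤ) (δ : G → Matrix m m' ℤ)
    (h1 : ∀ g, E * δ g + 1 = b g) (h2 : ∀ g, δ g * E + 1 = a g) (hu : IsUnit A)
    (h3 : ∀ g k, δ (g * k) = a g * δ k + δ g) (h4 : δ 1 = 0) :
    D.cls (ZLat_Tw a A) - Fintype.card m • D.cls A =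
      D.cls (ZLat_Tw b A) - Fintype.card m' • D.cls A := by
  have r1 : ZLat_Rep fun g => fromBlocks (a g) (δ g) 0 (1 : Matrix m' m' ℤ) :=
    ⟨by simp [ha.1, h4], fun g k => by simp [fromBlocks_multiply, ha.2, h3]⟩
  have r2 : ZLat_Rep fun g => fromBlocks (1 : Matrix m m ℤ) (δ g) 0 (b g) := by
    refine ⟨by simp [hb.1, h4], fun g k => ?_⟩
    have : δ (g * k) = δ k + δ g * b k := by
      rw [h3, ← h1, ← h2, Matrix.add_mul, Matrix.mul_add, Matrix.one_mul, Matrix.mul_one,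
        Matrix.mul_assoc]
      abel
    simp [fromBlocks_multiply, hb.2, this]
  have h := ZLat_cls_conj D (S := fromBlocks 1 0 E 1) (S' := fromBlocks 1 0 (-E) 1) r1 r2
    (by simp [fromBlocks_multiply]) (by simp [fromBlocks_multiply]) (fun g => by
      simp [fromBlocks_multiply, ← h1, ← h2, Matrix.mul_add, Matrix.add_mul, Matrix.mul_assoc,
        add_comm]) hu
  rw [ZLat_cls_block D _ ha ZLat_rep_one hu, ZLat_cls_block D _ ZLat_rep_one hb hu, ZLat_triv D hu,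
    ZLat_triv D hu] at h
  rw [sub_eq_sub_iff_add_eq_add, h, add_comm]

theorem ZLat_mod (D : WhS R G W) {M M' : Type} [AddCommGroup M] [AddCommGroup M']
    (b : Module.Basis m ℤ M) (b' : Module.Basis m' ℤ M') (ρ : Representation ℤ G M)
    (ρ' : Representation ℤ G M') (f : M →ₗ[ℤ] M') (hf : Function.Injective f)
    (he : ∀ g x, f (ρ g x) = ρ' g (f x)) (hr : ∀ g y, ρ' g y - y ∈ LinearMap.range f)
    (hu : IsUnit A) :
    D.cls (ZLat_Tw (fun g => LinearMap.toMatrix b b (ρ g)) A) - Fintype.card m • D.cls A =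
      D.cls (ZLat_Tw (fun g => LinearMap.toMatrix b' b' (ρ' g)) A) - Fintype.card m' • D.cls A := by
  have hδ : ∀ g, ∃ δ : M' →ₗ[ℤ] M, ∀ y, f (δ y) = ρ' g y - y := fun g =>
    ⟨(LinearEquiv.ofInjective f hf).symm.toLinearMap ∘ₗ
      LinearMap.codRestrict _ (ρ' g - LinearMap.id) (hr g), fun y =>
      LinearEquiv.ofInjective_symm_apply f (h := hf) _⟩
  choose δ hδ using hδ
  refine ZLat_step D ⟨by simp, fun g k => by simp only [map_mul, LinearMap.toMatrix_mul]⟩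
    ⟨by simp, fun g k => by simp only [map_mul, LinearMap.toMatrix_mul]⟩ (LinearMap.toMatrix b b' f)
    (fun g => LinearMap.toMatrix b' b (δ g)) (fun g => ?_) (fun g => ?_) hu (fun g k => ?_) ?_
  · rw [← LinearMap.toMatrix_comp, ← LinearMap.toMatrix_id b', ← map_add]
    congr 1
    ext y
    simp [hδ]
  · rw [← LinearMap.toMatrix_comp, ← LinearMap.toMatrix_id b, ← map_add]
    congr 1
    ext x
    apply hf
    simp [hδ, he]
  · rw [← LinearMap.toMatrix_comp, ← map_add]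
    congr 1
    ext y
    apply hf
    simp [hδ, he]
  · rw [← map_zero (LinearMap.toMatrix b' b)]
    congr 1
    ext y
    apply hf
    simp [hδ]

end

/-- the permutation module -/
def ZLat_pm {X : Type} (σ : G →* Equiv.Perm X) : Representation ℤ G (X → ℤ) where
  toFun g := LinearMap.funLeft ℤ ℤ (σ g⁻¹)
  map_one' := by ext F x; simp
  map_mul' g k := by ext F x; simp

theorem ZLat_pm_apply {X : Type} (σ : G →* Equiv.Perm X) (g : G) (F : X → ℤ) :
    ZLat_pm σ g F = F ∘ σ g⁻¹ := rfl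

theorem ZLat_permM {X J : Type} [Fintype X] [DecidableEq X] (σ : G →* Equiv.Perm X)
    (A : Matrix J J (MonoidAlgebra R G)) :
    ZLat_Tw (fun g => LinearMap.toMatrix (Pi.basisFun ℤ X) (Pi.basisFun ℤ X) (ZLat_pm σ g)) A =
      permM σ A := by
  ext x y g
  rw [ZLat_Tw, permM, ZLat_coeff, coeff_pr, LinearMap.toMatrix_apply, Pi.basisFun_repr,
    ZLat_pm_apply, Pi.basisFun_apply, Function.comp_apply, Pi.single_apply]
  have e : σ g⁻¹ x.2 = y.2 ↔ g ∈ {g | σ g y.2 = x.2} := by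
    rw [map_inv, Equiv.Perm.inv_eq_iff_eq]
    exact eq_comm
  by_cases h : σ g⁻¹ x.2 = y.2
  · rw [if_pos h, if_pos (e.mp h), one_smul]
  · rw [if_neg h, if_neg fun h' => h (e.mpr h'), zero_smul]

theorem cls_perm (D : WhS R G W) {X Y : Type} [Fintype X] [DecidableEq X] [Fintype Y]
    [DecidableEq Y] (σ : G →* Equiv.Perm X) (τ : G →* Equiv.Perm Y)
    (f : (X → ℤ) →ₗ[ℤ] (Y → ℤ)) (hf : Function.Injective f)
    (he : ∀ (g : G) (F : X → ℤ), f (F ∘ σ g) = f F ∘ τ g)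
    (n : ℕ) (Kf : ℕ → Submodule ℤ (Y → ℤ)) (h0 : Kf 0 = ⊤) (hanti : ∀ j, Kf (j + 1) ≤ Kf j)
    (hstep : ∀ (j : ℕ) (g : G) (F : Y → ℤ), F ∈ Kf j → F ∘ τ g - F ∈ Kf (j + 1))
    (hn : Kf n ≤ LinearMap.range f) {J : Type} [Fintype J] [DecidableEq J]
    {A : Matrix J J (MonoidAlgebra R G)} (hu : IsUnit A) :
    D.cls (permM σ A) + Fintype.card Y • D.cls A =
      D.cls (permM τ A) + Fintype.card X • D.cls A := by
  have hinv : ∀ (j : ℕ) (g : G), LinearMap.range f ⊔ Kf j ≤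
      (LinearMap.range f ⊔ Kf j).comap (ZLat_pm τ g) := by
    intro j g
    refine sup_le ?_ fun F hF => ?_
    · rintro _ ⟨F, rfl⟩
      exact Submodule.mem_sup_left ⟨F ∘ σ g⁻¹, he _ _⟩
    · have h1 := (Kf j).add_mem (hanti j (hstep j g⁻¹ F hF)) hF
      rw [sub_add_cancel] at h1
      exact Submodule.mem_sup_right h1
  obtain ⟨kap, hkap⟩ : ∃ kap : ℕ → W, ∀ j, kap j = D.cls (ZLat_Tw (fun g => LinearMap.toMatrix
      (Module.finBasis ℤ ↥(LinearMap.range f ⊔ Kf j)) (Module.finBasis ℤ ↥(LinearMap.range f ⊔ Kf j))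
      ((ZLat_pm τ).subrepresentation (LinearMap.range f ⊔ Kf j) (hinv j) g)) A) -
      Fintype.card (Fin (Module.finrank ℤ ↥(LinearMap.range f ⊔ Kf j))) • D.cls A := ⟨_, fun _ => rfl⟩
  have h1 : ∀ j, kap (j + 1) = kap j := by
    intro j
    rw [hkap, hkap]
    refine ZLat_mod D _ _ _ _ (Submodule.inclusion (sup_le_sup_left (hanti j) _))
      (Submodule.inclusion_injective _) (fun g x => rfl) (fun g y => ?_) hu
    obtain ⟨a, ⟨F, rfl⟩, k, hk, e⟩ := Submodule.mem_sup.mp y.2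
    refine ⟨⟨(f (F ∘ σ g⁻¹) - f F) + (k ∘ τ g⁻¹ - k), Submodule.add_mem_sup
      (Submodule.sub_mem _ ⟨_, rfl⟩ ⟨_, rfl⟩) (hstep j g⁻¹ k hk)⟩, Subtype.ext ?_⟩
    change (f (F ∘ σ g⁻¹) - f F) + (k ∘ τ g⁻¹ - k) = (y : Y → ℤ) ∘ τ g⁻¹ - y
    rw [he, ← e]
    ext z
    simp only [Pi.add_apply, Pi.sub_apply, Function.comp_apply]
    ring
  have h2 : ∀ j, kap j = kap 0 := fun j => by
    induction j with
    | zero => rfl
    | succ j ih => rw [h1, ih]
  have h3 := ZLat_mod D (Pi.basisFun ℤ X) (Module.finBasis ℤ ↥(LinearMap.range f ⊔ Kf n))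
    (ZLat_pm σ) ((ZLat_pm τ).subrepresentation (LinearMap.range f ⊔ Kf n) (hinv n))
    (LinearMap.codRestrict _ f fun x => Submodule.mem_sup_left ⟨x, rfl⟩)
    (fun x y h => hf (congrArg Subtype.val h)) (fun g x => Subtype.ext (he _ _))
    (fun g y => by
      generalize _ - y = z
      obtain ⟨x, hx⟩ := sup_le le_rfl hn z.2
      exact ⟨x, Subtype.ext hx⟩) hu
  have h4 := ZLat_mod D (Module.finBasis ℤ ↥(LinearMap.range f ⊔ Kf 0)) (Pi.basisFun ℤ Y)
    ((ZLat_pm τ).subrepresentation (LinearMap.range f ⊔ Kf 0) (hinv 0)) (ZLat_pm τ)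
    (Submodule.subtype _) Subtype.val_injective (fun g x => rfl)
    (fun g y => ⟨⟨_, Submodule.mem_sup_right (by rw [h0]; trivial)⟩, rfl⟩) hu
  rw [← hkap, ZLat_permM] at h3 h4
  rw [← sub_eq_sub_iff_add_eq_add, h3, h2, h4]

end Pool.Agent.MP_f7db47_al.PT
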