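import Pool.Agent.MP_f7db47_al.PT.Hgt

namespace Pool.Agent.MP_f7db47_al.PT

open scoped WithZero

section

open WithZero Matrix

variable {K : Type} [Field K] (v : Valuation K ℤᵐ⁰)

/-- size of a row -/
noncomputable def BTr (i : Fin 2) (g : GL (Fin 2) K) : ℤ := log (max (v (g.val i 0)) (v (g.val i 1)))

/-- size of a matrix -/
noncomputable def BTn (g : GL (Fin 2) K) : ℤ := max (BTr v 0 g) (BTr v 1 g)

/-- size of the determinant -/
noncomputable def BTd (g : GL (Fin 2) K) : ℤ := log (v g.val.det)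

/-- displacement of the base point -/
noncomputable def BTδ (g : GL (Fin 2) K) : ℤ := 2 * BTn v g - BTd v g

/-- height -/
noncomputable def BTh (g : GL (Fin 2) K) : ℤ := 2 * BTr v 1 g - BTd v g

theorem BT_det_ne (g : GL (Fin 2) K) : g.val.det ≠ 0 := g.det_ne_zero

theorem BT_vdet (g : GL (Fin 2) K) : v g.val.det = exp (BTd v g) :=
  (exp_log ((Valuation.ne_zero_iff v).2 (BT_det_ne g))).symm

theorem BT_row_ne (i : Fin 2) (g : GL (Fin 2) K) : max (v (g.val i 0)) (v (g.val i 1)) ≠ 0 := by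
  intro h
  have h0 : g.val i 0 = 0 := by simpa using (le_max_left _ _).trans h.le
  have h1 : g.val i 1 = 0 := by simpa using (le_max_right _ _).trans h.le
  refine BT_det_ne g (det_eq_zero_of_row_eq_zero i fun j => ?_)
  fin_cases j <;> assumption

theorem BTr_le_iff {i : Fin 2} {g : GL (Fin 2) K} {u : ℤ} :
    BTr v i g ≤ u ↔ ∀ j, v (g.val i j) ≤ exp u := by
  rw [BTr, log_le_iff_le_exp (BT_row_ne v i g), max_le_iff, Fin.forall_fin_two]

theorem BTn_le_iff {g : GL (Fin 2) K} {u : ℤ} : BTn v g ≤ u ↔ ∀ i j, v (g.val i j) ≤ exp u := by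
  rw [BTn, max_le_iff, BTr_le_iff, BTr_le_iff, Fin.forall_fin_two (p := fun i => ∀ j, _)]

theorem BT_le_r (g : GL (Fin 2) K) (i j : Fin 2) : v (g.val i j) ≤ exp (BTr v i g) :=
  (BTr_le_iff v).1 le_rfl j

theorem BT_le_n (g : GL (Fin 2) K) (i j : Fin 2) : v (g.val i j) ≤ exp (BTn v g) :=
  (BTn_le_iff v).1 le_rfl i j

theorem BTd_mul (g h : GL (Fin 2) K) : BTd v (g * h) = BTd v g + BTd v h := by
  apply exp_injective
  rw [exp_add, ← BT_vdet, ← BT_vdet, ← BT_vdet, Units.val_mul, det_mul, map_mul]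

theorem BTd_one : BTd v 1 = 0 := by simp [BTd]

theorem BTd_inv (g : GL (Fin 2) K) : BTd v g⁻¹ = -BTd v g := by
  have := BTd_mul v g⁻¹ g
  rw [inv_mul_cancel, BTd_one] at this
  omega

theorem BTr_mul (i : Fin 2) (g h : GL (Fin 2) K) : BTr v i (g * h) ≤ BTr v i g + BTn v h := by
  refine (BTr_le_iff v).2 fun j => ?_
  rw [Units.val_mul, mul_apply, Fin.sum_univ_two, exp_add]
  refine v.map_add_le ?_ ?_ <;> rw [map_mul] <;> exact mul_le_mul' (BT_le_r v _ _ _) (BT_le_n v _ _ _)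

theorem BTn_mul (g h : GL (Fin 2) K) : BTn v (g * h) ≤ BTn v g + BTn v h := by
  have h0 := BTr_mul v 0 g h
  have h1 := BTr_mul v 1 g h
  unfold BTn at *
  omega

theorem BTd_le (g : GL (Fin 2) K) : BTd v g ≤ BTr v 0 g + BTr v 1 g := by
  rw [← exp_le_exp, ← BT_vdet, det_fin_two, exp_add]
  refine v.map_sub_le ?_ ?_ <;> rw [map_mul] <;> exact mul_le_mul' (BT_le_r v _ _ _) (BT_le_r v _ _ _)

theorem BTδ_nonneg (g : GL (Fin 2) K) : 0 ≤ BTδ v g := by
  have := BTd_le v g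
  unfold BTδ BTn
  omega

theorem BTn_inv (g : GL (Fin 2) K) : BTn v g⁻¹ ≤ BTn v g - BTd v g := by
  refine (BTn_le_iff v).2 fun i j => ?_
  rw [coe_units_inv, inv_def, Ring.inverse_eq_inv', adjugate_fin_two, Matrix.smul_apply, smul_eq_mul,
    map_mul, map_inv₀, BT_vdet, exp_sub, div_eq_inv_mul]
  refine mul_le_mul' le_rfl ?_
  fin_cases i <;> fin_cases j <;> simpa using BT_le_n v g _ _

theorem BTδ_inv (g : GL (Fin 2) K) : BTδ v g⁻¹ = BTδ v g := by
  have h1 := BTn_inv v g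
  have h2 := BTn_inv v g⁻¹
  have h3 := BTd_inv v g
  rw [inv_inv] at h2
  unfold BTδ
  omega

theorem BTδ_mul (g h : GL (Fin 2) K) : BTδ v (g * h) ≤ BTδ v g + BTδ v h := by
  have h1 := BTn_mul v g h
  have h2 := BTd_mul v g h
  unfold BTδ
  omega

theorem BTδ_zero {g : GL (Fin 2) K} (u : ℤ) (h1 : ∀ i j, v (g.val i j) ≤ exp u)
    (h2 : v g.val.det = exp (u + u)) : BTδ v g = 0 := by
  have h3 := (BTn_le_iff v).2 h1
  have h4 := BTδ_nonneg v g
  rw [BT_vdet, exp_inj] at h2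
  unfold BTδ at *
  omega

/-- the stabiliser of the base point -/
def BTH : Subgroup (GL (Fin 2) K) where
  carrier := {g | BTδ v g = 0}
  one_mem' := BTδ_zero v 0 (fun i j => by fin_cases i <;> fin_cases j <;> simp) (by simp)
  mul_mem' := fun {a b} ha hb => by
    have h1 := BTδ_mul v a b
    have h2 := BTδ_nonneg v (a * b)
    simp only [Set.mem_ofPred_eq] at *
    omega
  inv_mem' := fun {a} ha => (BTδ_inv v a).trans ha

theorem BTδ_right (g : GL (Fin 2) K) {h : GL (Fin 2) K} (hh : h ∈ BTH v) :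
    BTδ v (g * h) = BTδ v g := by
  have h1 := BTδ_mul v g h
  have h2 := BTδ_mul v (g * h) h⁻¹
  have h3 : BTδ v h = 0 := hh
  rw [mul_inv_cancel_right, BTδ_inv] at h2
  omega

theorem BTδ_left (g : GL (Fin 2) K) {h : GL (Fin 2) K} (hh : h ∈ BTH v) :
    BTδ v (h * g) = BTδ v g := by
  rw [← BTδ_inv, _root_.mul_inv_rev, BTδ_right v _ (inv_mem hh), BTδ_inv]

theorem BTh_mul (g h : GL (Fin 2) K) : BTh v (g * h) ≤ BTh v g + BTδ v h := by
  have h1 := BTr_mul v 1 g h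
  have h2 := BTd_mul v g h
  unfold BTδ BTh
  omega

theorem BTh_right (g : GL (Fin 2) K) {h : GL (Fin 2) K} (hh : h ∈ BTH v) :
    BTh v (g * h) = BTh v g := by
  have h1 := BTh_mul v g h
  have h2 := BTh_mul v (g * h) h⁻¹
  have h3 : BTδ v h = 0 := hh
  rw [mul_inv_cancel_right, BTδ_inv] at h2
  omega

theorem BTh_one : BTh v 1 = 0 := by simp [BTh, BTr, BTd]

theorem BTr_upper {b : GL (Fin 2) K} (hb : b.val 1 0 = 0) (x : GL (Fin 2) K) :
    BTr v 1 (b * x) = BTr v 1 b + BTr v 1 x := by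
  have h1 : v (b.val 1 1) ≠ 0 := by simpa [hb] using BT_row_ne v 1 b
  have h2 : BTr v 1 b = log (v (b.val 1 1)) := by simp [BTr, hb]
  rw [h2, BTr, BTr, ← log_mul h1 (BT_row_ne v 1 x), mul_max]
  simp [mul_apply, Fin.sum_univ_two, hb]

theorem BTh_upper {b : GL (Fin 2) K} (hb : b.val 1 0 = 0) (x : GL (Fin 2) K) :
    BTh v (b * x) = BTh v b + BTh v x := by
  have h1 := BTr_upper v hb x
  have h2 := BTd_mul v b x
  unfold BTh
  omega

theorem BT_iwasawa (g : GL (Fin 2) K) : ∃ h ∈ BTH v, (g * h).val 1 0 = 0 := by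
  rcases le_total (v (g.val 1 0)) (v (g.val 1 1)) with h | h
  · have h1 : g.val 1 1 ≠ 0 := by simpa [h] using BT_row_ne v 1 g
    have h2 : v (g.val 1 0 / g.val 1 1) ≤ 1 := by
      rw [map_div₀]; exact div_le_one_of_le₀ h zero_le
    refine ⟨GeneralLinearGroup.mkOfDetNeZero !![1, 0; -(g.val 1 0 / g.val 1 1), 1] (by simp),
      BTδ_zero v 0 (fun i j => ?_) ?_, ?_⟩
    · change v (!![1, 0; -(g.val 1 0 / g.val 1 1), 1] i j) ≤ _
      fin_cases i <;> fin_cases j <;> simp [-map_div₀, h2]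
    · change v (det !![1, 0; -(g.val 1 0 / g.val 1 1), 1]) = _
      simp
    · change (g.val * !![1, 0; -(g.val 1 0 / g.val 1 1), 1]) 1 0 = 0
      simp [mul_apply, Fin.sum_univ_two]
      field_simp
      ring
  · have h1 : g.val 1 0 ≠ 0 := by simpa [h] using BT_row_ne v 1 g
    have h2 : v (g.val 1 1 / g.val 1 0) ≤ 1 := by
      rw [map_div₀]; exact div_le_one_of_le₀ h zero_le
    refine ⟨GeneralLinearGroup.mkOfDetNeZero !![-(g.val 1 1 / g.val 1 0), 1; 1, 0] (by simp),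
      BTδ_zero v 0 (fun i j => ?_) ?_, ?_⟩
    · change v (!![-(g.val 1 1 / g.val 1 0), 1; 1, 0] i j) ≤ _
      fin_cases i <;> fin_cases j <;> simp [-map_div₀, h2]
    · change v (det !![-(g.val 1 1 / g.val 1 0), 1; 1, 0]) = _
      simp
    · change (g.val * !![-(g.val 1 1 / g.val 1 0), 1; 1, 0]) 1 0 = 0
      simp [mul_apply, Fin.sum_univ_two]
      field_simp
      ring

/-- diagonal matrices -/
def BTD : Kˣ →* GL (Fin 2) K where
  toFun x := ⟨!![x, 0; 0, 1], !![x⁻¹, 0; 0, 1], by simp [one_fin_two], by simp [one_fin_two]⟩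
  map_one' := Units.ext (by simp [one_fin_two])
  map_mul' x y := Units.ext (by simp)

theorem BTD_val (x : Kˣ) : (BTD x).val = !![(x : K), 0; 0, 1] := rfl

theorem BTd_D {x : Kˣ} {m : ℤ} (hx : v x = exp m) : BTd v (BTD x) = m := by
  simp [BTd, BTD_val, hx]

theorem BTδ_D {x : Kˣ} (hx : v x = exp 1) : BTδ v (BTD x) = 1 := by
  rw [BTδ, BTd_D v hx]
  simp [BTn, BTr, BTD_val, hx]

theorem BT_low {x : Kˣ} (hx : v x = exp 1) {k : GL (Fin 2) K} (h1 : BTδ v k = 1)
    (h2 : BTh v k < 0) : (BTD x)⁻¹ * k ∈ BTH v := by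
  have hx' : v (x⁻¹ : Kˣ) = exp (-1) := by simp [hx]
  rw [← map_inv]
  refine BTδ_zero v (BTn v k - 1) (fun i j => ?_) ?_
  · have a1 : BTr v 1 k ≤ BTn v k - 1 := by unfold BTδ BTh at *; omega
    have a2 := (BTr_le_iff v).1 a1 j
    have a3 : exp (-1) * v (k.val 0 j) ≤ exp (BTn v k - 1) := by
      rw [sub_eq_neg_add, exp_add]
      exact mul_le_mul' le_rfl (BT_le_n v k 0 j)
    rw [← hx', ← map_mul] at a3
    rw [Units.val_mul, BTD_val, mul_apply, Fin.sum_univ_two]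
    fin_cases i
    · simpa using a3
    · simpa using a2
  · rw [BT_vdet, BTd_mul, BTd_D v hx', exp_inj]
    unfold BTδ at h1
    omega

theorem BT_cartan {x : Kˣ} (hx : v x = exp 1) {b : GL (Fin 2) K} (hb : b.val 1 0 = 0) :
    ∃ m n : ℤ, (BTD x ^ m)⁻¹ * (b * BTD x ^ n) ∈ BTH v := by
  have hz : ∀ m : ℤ, v (x ^ m : Kˣ) = exp m := fun m => by
    rw [Units.val_zpow_eq_zpow_val, map_zpow₀, hx, ← WithZero.exp_zsmul]; simp
  have h1 : v (b.val 1 1) = exp (BTr v 1 b) := by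
    have h1 : v (b.val 1 1) ≠ 0 := by simpa [hb] using BT_row_ne v 1 b
    simp [BTr, hb, exp_log h1]
  have h0 : v (b.val 0 0) = exp (BTd v b - BTr v 1 b) := by
    rw [exp_sub, ← h1, ← BT_vdet, det_fin_two, hb, mul_zero, sub_zero, map_mul, h1,
      mul_div_cancel_right₀ _ exp_ne_zero]
  refine ⟨BTn v b - BTr v 1 b, BTn v b + BTr v 1 b - BTd v b, ?_⟩
  rw [← map_zpow, ← map_zpow, ← map_inv, ← _root_.zpow_neg]
  refine BTδ_zero v (BTr v 1 b) (fun i j => ?_) ?_
  · have a1 := hz (-(BTn v b - BTr v 1 b))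
    have a2 := hz (BTn v b + BTr v 1 b - BTd v b)
    generalize x ^ (-(BTn v b - BTr v 1 b)) = y at a1
    generalize x ^ (BTn v b + BTr v 1 b - BTd v b) = z at a2
    have a3 : v (y * (b.val 0 0 * z)) ≤ exp (BTr v 1 b) := by
      rw [map_mul, map_mul, a1, a2, h0, ← exp_add, ← exp_add, exp_le_exp]; omega
    have a4 : v (y * b.val 0 1) ≤ exp (BTr v 1 b) := by
      rw [map_mul, a1]
      refine (mul_le_mul' le_rfl (BT_le_n v b 0 1)).trans ?_
      rw [← exp_add, exp_le_exp]; omega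
    rw [Units.val_mul, Units.val_mul, BTD_val, BTD_val]
    fin_cases i <;> fin_cases j
    · simpa [mul_apply, Fin.sum_univ_two] using a3
    · simpa [mul_apply, Fin.sum_univ_two] using a4
    · simp [mul_apply, Fin.sum_univ_two, hb]
    · simpa [mul_apply, Fin.sum_univ_two] using h1.le
  · rw [BT_vdet, BTd_mul, BTd_mul, BTd_D v (hz _), BTd_D v (hz _), exp_inj]
    omega

/-- the distance of two vertices -/
noncomputable def BTdist (x y : GL (Fin 2) K ⧸ BTH v) : ℤ := BTδ v (x.out⁻¹ * y.out)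

theorem BTdist_mk (g g' : GL (Fin 2) K) : BTdist v g g' = BTδ v (g⁻¹ * g') := by
  obtain ⟨h, hh⟩ := QuotientGroup.mk_out_eq_mul (BTH v) g
  obtain ⟨h', hh'⟩ := QuotientGroup.mk_out_eq_mul (BTH v) g'
  rw [BTdist, hh, hh', _root_.mul_inv_rev, mul_assoc, BTδ_left v _ (inv_mem h.2), ← mul_assoc,
    BTδ_right v _ h'.2]

/-- the tree -/
def BTX : SimpleGraph (GL (Fin 2) K ⧸ BTH v) where
  Adj x y := BTdist v x y = 1
  symm := ⟨fun x y h => by rw [BTdist, ← BTδ_inv, _root_.mul_inv_rev, inv_inv]; exact h⟩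
  loopless := ⟨fun x h => by
    have : BTδ v 1 = 0 := (BTH v).one_mem
    rw [BTdist, inv_mul_cancel, this] at h
    omega⟩

theorem BTX_adj (g g' : GL (Fin 2) K) : (BTX v).Adj g g' ↔ BTδ v (g⁻¹ * g') = 1 := by
  rw [← BTdist_mk]; rfl

theorem BTh_mk (g : GL (Fin 2) K) : BTh v (g : GL (Fin 2) K ⧸ BTH v).out = BTh v g := by
  obtain ⟨h, hh⟩ := QuotientGroup.mk_out_eq_mul (BTH v) g
  rw [hh, BTh_right v _ h.2]

theorem BT_rep (a : GL (Fin 2) K ⧸ BTH v) : ∃ b : GL (Fin 2) K, b.val 1 0 = 0 ∧ a = b := by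
  obtain ⟨g, rfl⟩ := QuotientGroup.mk_surjective a
  obtain ⟨h, hh, h0⟩ := BT_iwasawa v g
  exact ⟨g * h, h0, (QuotientGroup.mk_mul_of_mem g hh).symm⟩

theorem BT_acyclic {x : Kˣ} (hx : v x = exp 1) : (BTX v).IsAcyclic := by
  refine acyclic_of_height _ (fun a => BTh v a.out) (fun a b h => ?_) fun a b c hb hc h1 h2 => ?_
  · have h1 : BTδ v (a.out⁻¹ * b.out) = 1 := h
    have h2 := BTd_mul v a.out⁻¹ b.out
    have h3 := BTd_inv v a.out
    unfold BTδ BTh at *
    omega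
  · obtain ⟨a, ha, rfl⟩ := BT_rep v a
    have key : ∀ b : GL (Fin 2) K ⧸ BTH v, (BTX v).Adj a b →
        BTh v b.out < BTh v (a : GL (Fin 2) K ⧸ BTH v).out → (a * BTD x : GL (Fin 2) K) = b := by
      intro b hb h
      obtain ⟨g, rfl⟩ := QuotientGroup.mk_surjective b
      rw [BTh_mk, BTh_mk] at h
      have h3 := BTh_upper v ha (a⁻¹ * g)
      rw [mul_inv_cancel_left] at h3
      have := BT_low v hx ((BTX_adj v _ _).1 hb) (by omega)
      rwa [QuotientGroup.eq, _root_.mul_inv_rev, mul_assoc]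
    exact (key b hb h1).symm.trans (key c hc h2)

theorem BT_reach {t : GL (Fin 2) K} (ht : BTδ v t = 1) (g : GL (Fin 2) K) (n : ℤ) :
    (BTX v).Reachable g (g * t ^ n : GL (Fin 2) K) := by
  have step : ∀ m : ℤ, (BTX v).Adj (g * t ^ m : GL (Fin 2) K) (g * t ^ (m + 1) : GL (Fin 2) K) :=
    fun m => by rwa [BTX_adj, _root_.zpow_add_one, ← mul_assoc g, inv_mul_cancel_left]
  induction n using Int.induction_on with
  | zero => simp
  | succ n ih => exact ih.trans (step _).reachable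
  | pred n ih =>
    have := step (-n - 1)
    rw [sub_add_cancel] at this
    exact ih.trans this.symm.reachable

theorem BT_conn {x : Kˣ} (hx : v x = exp 1) : (BTX v).Connected := by
  have key : ∀ a, (BTX v).Reachable a ((1 : GL (Fin 2) K) : GL (Fin 2) K ⧸ BTH v) := by
    intro a
    obtain ⟨b, hb, rfl⟩ := BT_rep v a
    obtain ⟨m, n, h⟩ := BT_cartan v hx hb
    have h1 := BT_reach v (BTδ_D v hx) b n
    have h2 := BT_reach v (BTδ_D v hx) 1 m
    rw [one_mul, QuotientGroup.eq.2 h] at h2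
    exact h1.trans h2.symm
  exact ⟨fun a b => (key a).trans (key b).symm⟩

/-- the action -/
noncomputable def BTρ : GL (Fin 2) K →* (BTX v ≃g BTX v) where
  toFun g :=
    { toEquiv := MulAction.toPerm g
      map_rel_iff' := fun {a b} => by
        obtain ⟨a, rfl⟩ := QuotientGroup.mk_surjective a
        obtain ⟨b, rfl⟩ := QuotientGroup.mk_surjective b
        change (BTX v).Adj (g * a : GL (Fin 2) K) (g * b : GL (Fin 2) K) ↔ _
        rw [BTX_adj, BTX_adj, _root_.mul_inv_rev, mul_assoc, inv_mul_cancel_left] }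
  map_one' := RelIso.ext fun a => one_smul (GL (Fin 2) K) a
  map_mul' g h := RelIso.ext fun a => mul_smul g h a

end

/-- The Bruhat-Tits tree of a discrete valuation. -/
theorem exists_BT {K : Type} [Field K] (v : Valuation K ℤᵐ⁰) (π : K)
    (hπ : v π = WithZero.exp (-1)) :
    ∃ (V : Type) (X : SimpleGraph V) (ρ : GL (Fin 2) K →* (X ≃g X)), X.IsTree ∧
      ∀ g : GL (Fin 2) K, (∃ x, ρ g x = x) → v g.val.det = 1 → v g.val.trace ≤ 1 := by
  have h0 : π ≠ 0 := fun h => by rw [h, map_zero] at hπ; exact WithZero.exp_ne_zero hπ.symm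
  have hx : v ((Units.mk0 π h0)⁻¹ : Kˣ) = WithZero.exp 1 := by simp [hπ]
  refine ⟨_, BTX v, BTρ v, ⟨BT_conn v hx, BT_acyclic v hx⟩, ?_⟩
  rintro g ⟨a, ha⟩ hd
  obtain ⟨a, rfl⟩ := QuotientGroup.mk_surjective a
  have h1 : ((g * a : GL (Fin 2) K) : GL (Fin 2) K ⧸ BTH v) = a := ha
  have h2 : BTδ v (a⁻¹ * (g * a)) = 0 := QuotientGroup.eq.1 h1.symm
  have h3 : BTd v g = 0 := by simp [BTd, hd]
  rw [BTδ, BTd_mul, BTd_mul, BTd_inv] at h2
  have h4 := (BTn_le_iff v (g := a⁻¹ * (g * a)) (u := 0)).1 (by omega)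
  have h5 : g.val.trace = (a⁻¹ * (g * a)).val.trace := by
    rw [Units.val_mul, Matrix.trace_mul_comm, ← Units.val_mul, mul_inv_cancel_right]
  rw [h5, Matrix.trace_fin_two]
  exact v.map_add_le (h4 0 0) (h4 1 1)

end Pool.Agent.MP_f7db47_al.PT
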