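import Pool.Agent.MP_f7db47_al.PT.WDefs

/-!
Chains, and the finite sets of past segments.
-/

set_option linter.unusedSectionVars false

namespace Pool.Agent.MP_f7db47_al.PT

universe u w

variable {G : Type u} [Group G]

namespace CS

variable {E : Type w} [MulAction G E] (c : CS G E)

lemma dep_self (x : E) : c.dep x x = 0 := by
  have := c.add (c.refl x) (c.refl x)
  omega

lemma uniq {x y y' z : E} (h1 : c.le z y) (h2 : c.le y x) (h3 : c.le z y') (h4 : c.le y' x)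
    (h : c.dep x y = c.dep x y') : y = y' := by
  have h5 := c.lin h1 h2 h3 h4 h.le
  have h6 := c.add h5 h2
  exact (c.zero h5 (by omega)).symm

lemma le_inv {g : G} {x y : E} (h : c.le x (g • y)) : c.le (g⁻¹ • x) y := by
  simpa using c.smul g⁻¹ h

lemma inv_le {g : G} {x y : E} (h : c.le (g • x) y) : c.le x (g⁻¹ • y) := by
  simpa using c.smul g⁻¹ h

lemma of_smul {g : G} {x y : E} (h : c.le (g • x) (g • y)) : c.le x y := by
  simpa using c.smul g⁻¹ h

/-- The opposite order. -/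
def op : CS G E where
  le x y := c.le y x
  dep x y := c.dep y x
  refl := c.refl
  trans h1 h2 := c.trans h2 h1
  smul g _ _ h := c.smul g h
  dep_smul g x y := c.dep_smul g y x
  add h1 h2 := by rw [c.add h2 h1, add_comm]
  zero h1 h2 := (c.zero h1 h2).symm
  mid {x z} a h1 h2 := by
    obtain ⟨y, h3, h4, h5⟩ := c.mid (c.dep z x - a) h1 (by omega)
    have := c.add h3 h4
    exact ⟨y, h4, h3, by omega⟩
  lin h1 h2 h3 h4 h := by
    have := c.add h2 h1
    have := c.add h4 h3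
    exact c.lin h4 h3 h2 h1 (by omega)

open Classical in
/-- The point at depth `a` on the chain from `x` down to `z`. -/
noncomputable def pt (x z : E) (a : ℕ) : E :=
  if h : c.le z x ∧ a ≤ c.dep x z then (c.mid a h.1 h.2).choose else x

lemma pt_spec {x z : E} {a : ℕ} (h1 : c.le z x) (h2 : a ≤ c.dep x z) :
    c.le z (c.pt x z a) ∧ c.le (c.pt x z a) x ∧ c.dep x (c.pt x z a) = a := by
  rw [pt, dif_pos ⟨h1, h2⟩]
  exact (c.mid a h1 h2).choose_spec

end CS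

variable {ι : Type} {V : ι → Type w} [∀ τ, MulAction G (V τ)] (c : ∀ τ, CS G (V τ))
variable {J : Type} (l : J → ∀ τ, V τ) (Φ : J → J → Set G)

/-- The past segments of length `m` that occur along paths of arrows of `Φ`. -/
def Up : ℕ → J → Set (∀ τ, V τ)
  | 0, j => {l j}
  | m + 1, j => {x | ∃ i, ∃ g ∈ Φ i j, ∃ y ∈ Up m i, ∀ τ, (c τ).le (l j τ) (x τ) ∧
      (c τ).le (g • x τ) (y τ) ∧ (c τ).dep (x τ) (l j τ) = m + 1}

/-- The arrows of `Φ` are strictly positive. -/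
def Str : Prop :=
  ∀ i j, ∀ g ∈ Φ i j, ∀ τ, (c τ).le (g • l j τ) (l i τ) ∧ 1 ≤ (c τ).dep (l i τ) (g • l j τ)

/-- A step along an arrow of `Φ` or along the identity. -/
def Stp (i j : J) (g : G) (a b : ℕ) : Prop :=
  (g ∈ Φ i j ∧ a ≤ b + 1) ∨ (i = j ∧ g = 1 ∧ a ≤ b)

variable {c l Φ}

lemma Up.spec {m : ℕ} {j : J} {x : ∀ τ, V τ} (h : x ∈ Up c l Φ m j) (τ : ι) :
    (c τ).le (l j τ) (x τ) ∧ (c τ).dep (x τ) (l j τ) = m := by
  cases m with
  | zero =>
    rw [Up, Set.mem_singleton_iff] at h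
    rw [h]
    exact ⟨(c τ).refl _, (c τ).dep_self _⟩
  | succ m =>
    obtain ⟨i, g, -, y, -, h⟩ := h
    exact ⟨(h τ).1, (h τ).2.2⟩

lemma Up.finite [Finite J] (hΦ : ∀ i j, (Φ i j).Finite) (m : ℕ) (j : J) :
    (Up c l Φ m j).Finite := by
  induction m generalizing j with
  | zero => exact Set.finite_singleton _
  | succ m ih =>
    have : Up c l Φ (m + 1) j = ⋃ i, ⋃ g ∈ Φ i j, ⋃ y ∈ Up c l Φ m i,
        {x : ∀ τ, V τ | ∀ τ, (c τ).le (l j τ) (x τ) ∧
          (c τ).le (g • x τ) (y τ) ∧ (c τ).dep (x τ) (l j τ) = m + 1} := by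
      ext x
      simp only [Up, Set.mem_ofPred_eq, Set.mem_iUnion, exists_prop]
    rw [this]
    refine Set.finite_iUnion fun i => (hΦ i j).biUnion fun g _ => (ih i).biUnion fun y _ => ?_
    refine Set.Subsingleton.finite fun x hx x' hx' => funext fun τ => ?_
    obtain ⟨h1, h2, h3⟩ := hx τ
    obtain ⟨h4, h5, h6⟩ := hx' τ
    have e1 := (c τ).add ((c τ).smul g h1) h2
    have e2 := (c τ).add ((c τ).smul g h4) h5
    rw [(c τ).dep_smul] at e1 e2
    exact smul_left_cancel g ((c τ).uniq ((c τ).smul g h1) h2 ((c τ).smul g h4) h5 (by omega))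

lemma Up.trunc1 (hs : Str c l Φ) {m : ℕ} {j : J} {x x' : ∀ τ, V τ} (h : x ∈ Up c l Φ (m + 1) j)
    (h' : ∀ τ, (c τ).le (l j τ) (x' τ) ∧ (c τ).le (x' τ) (x τ) ∧ (c τ).dep (x' τ) (l j τ) = m) :
    x' ∈ Up c l Φ m j := by
  induction m generalizing j x x' with
  | zero => exact funext fun τ => ((c τ).zero (h' τ).1 (h' τ).2.2).symm
  | succ m ih =>
    obtain ⟨i, g, hg, y, hy, h⟩ := h
    have hp := fun τ => (c τ).pt_spec (a := 1) (Up.spec hy τ).1 (by rw [(Up.spec hy τ).2]; omega)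
    refine ⟨i, g, hg, fun τ => (c τ).pt (y τ) (l i τ) 1, ih hy fun τ => ?_, fun τ => ?_⟩
    · have := (c τ).add (hp τ).1 (hp τ).2.1
      rw [(Up.spec hy τ).2, (hp τ).2.2] at this
      exact ⟨(hp τ).1, (hp τ).2.1, by omega⟩
    · obtain ⟨h1, h2, h3⟩ := h' τ
      obtain ⟨h4, h5⟩ := hs i j g hg τ
      have h6 := (c τ).trans ((c τ).smul g h2) (h τ).2.1
      have e1 := (c τ).add ((c τ).smul g h1) h6
      have e2 := (c τ).add h4 (Up.spec hy τ).1
      rw [(c τ).dep_smul, h3] at e1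
      rw [(Up.spec hy τ).2] at e2
      refine ⟨h1, (c τ).lin ((c τ).trans h4 (hp τ).1) (hp τ).2.1 ((c τ).smul g h1) h6 ?_, h3⟩
      rw [(hp τ).2.2]
      omega

lemma Up.trunc (hs : Str c l Φ) {m a : ℕ} (ha : a ≤ m) {j : J} {x x' : ∀ τ, V τ}
    (h : x ∈ Up c l Φ m j)
    (h' : ∀ τ, (c τ).le (l j τ) (x' τ) ∧ (c τ).le (x' τ) (x τ) ∧ (c τ).dep (x' τ) (l j τ) = a) :
    x' ∈ Up c l Φ a j := by
  induction m generalizing x with
  | zero =>
    obtain rfl : a = 0 := by omega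
    exact funext fun τ => ((c τ).zero (h' τ).1 (h' τ).2.2).symm
  | succ m ih =>
    have e := fun τ => (c τ).add (h' τ).1 (h' τ).2.1
    by_cases hm : a = m + 1
    · have : x' = x := funext fun τ => (c τ).zero (h' τ).2.1 (by
        have := e τ
        rw [(Up.spec h τ).2, (h' τ).2.2] at this
        omega)
      rw [this, hm]; exact h
    · have hp := fun τ => (c τ).pt_spec (a := 1) (Up.spec h τ).1
        (by rw [(Up.spec h τ).2]; omega)
      refine ih (by omega) (x := fun τ => (c τ).pt (x τ) (l j τ) 1)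
        (Up.trunc1 hs h fun τ => ?_) fun τ => ⟨(h' τ).1, ?_, (h' τ).2.2⟩
      · have := (c τ).add (hp τ).1 (hp τ).2.1
        rw [(Up.spec h τ).2, (hp τ).2.2] at this
        exact ⟨(hp τ).1, (hp τ).2.1, by omega⟩
      · refine (c τ).lin (hp τ).1 (hp τ).2.1 (h' τ).1 (h' τ).2.1 ?_
        have := e τ
        rw [(Up.spec h τ).2, (h' τ).2.2] at this
        rw [(hp τ).2.2]
        omega

lemma Stp.spec (hs : Str c l Φ) {i j : J} {g : G} {a b : ℕ} (h : Stp Φ i j g a b) (τ : ι) :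
    (c τ).le (g • l j τ) (l i τ) ∧ a ≤ b + (c τ).dep (l i τ) (g • l j τ) := by
  rcases h with ⟨h1, h2⟩ | ⟨rfl, rfl, h2⟩
  · have := hs i j g h1 τ
    exact ⟨this.1, by omega⟩
  · rw [one_smul]
    exact ⟨(c τ).refl _, by omega⟩

lemma Up.push (hs : Str c l Φ) {i j : J} {g : G} {a m : ℕ} (h : Stp Φ i j g a m)
    {x y : ∀ τ, V τ} (hy : y ∈ Up c l Φ m i)
    (hx : ∀ τ, (c τ).le (l j τ) (x τ) ∧ (c τ).le (g • x τ) (y τ) ∧ (c τ).dep (x τ) (l j τ) = a) :
    x ∈ Up c l Φ a j := by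
  rcases h with ⟨h1, h2⟩ | ⟨rfl, rfl, h2⟩
  · have h3 := fun τ => (c τ).trans (hs i j g h1 τ).1 (Up.spec hy τ).1
    have e := fun τ => (c τ).add (hs i j g h1 τ).1 (Up.spec hy τ).1
    have hp := fun τ => (c τ).pt_spec (a := (c τ).dep (y τ) (g • l j τ) - (m + 1)) (h3 τ)
      (by omega)
    have hd : ∀ τ, (c τ).dep ((c τ).pt (y τ) (g • l j τ) ((c τ).dep (y τ) (g • l j τ) - (m + 1)))
        (g • l j τ) = m + 1 := fun τ => by
      have e1 := (c τ).add (hp τ).1 (hp τ).2.1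
      have e2 := e τ
      have := (hs i j g h1 τ).2
      rw [(Up.spec hy τ).2] at e2
      rw [(hp τ).2.2] at e1
      omega
    refine Up.trunc hs h2 (x := fun τ => g⁻¹ • (c τ).pt (y τ) (g • l j τ)
      ((c τ).dep (y τ) (g • l j τ) - (m + 1))) ⟨i, g, h1, y, hy, fun τ => ?_⟩ fun τ => ?_
    · refine ⟨(c τ).inv_le (hp τ).1, by rw [smul_inv_smul]; exact (hp τ).2.1, ?_⟩
      rw [← (c τ).dep_smul g, smul_inv_smul, hd]
    · refine ⟨(hx τ).1, (c τ).inv_le ((c τ).lin (hp τ).1 (hp τ).2.1 ((c τ).smul g (hx τ).1)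
        (hx τ).2.1 ?_), (hx τ).2.2⟩
      have e1 := (c τ).add ((c τ).smul g (hx τ).1) (hx τ).2.1
      rw [(c τ).dep_smul, (hx τ).2.2] at e1
      rw [(hp τ).2.2]
      omega
  · exact Up.trunc hs h2 hy fun τ => by simpa using hx τ

/-- Unique lifting of factorisations. -/
lemma Up.lift (hs : Str c l Φ) {i j k : J} {g h : G} {m m' m'' : ℕ} (hg : Stp Φ i j g m' m)
    (hh : Stp Φ j k h m'' m') {x x'' : ∀ τ, V τ} (hx : x ∈ Up c l Φ m i)
    (hx'' : x'' ∈ Up c l Φ m'' k) (hgh : ∀ τ, (c τ).le ((g * h) • x'' τ) (x τ)) :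
    ∃! x', x' ∈ Up c l Φ m' j ∧ (∀ τ, (c τ).le (g • x' τ) (x τ)) ∧
      ∀ τ, (c τ).le (h • x'' τ) (x' τ) := by
  have h3 := fun τ => (c τ).trans (hg.spec hs τ).1 (Up.spec hx τ).1
  have e := fun τ => (c τ).add (hg.spec hs τ).1 (Up.spec hx τ).1
  have hp := fun τ => (c τ).pt_spec (a := (c τ).dep (x τ) (g • l j τ) - m') (h3 τ) (by omega)
  have hd : ∀ τ, (c τ).dep ((c τ).pt (x τ) (g • l j τ) ((c τ).dep (x τ) (g • l j τ) - m'))
      (g • l j τ) = m' := fun τ => by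
    have e1 := (c τ).add (hp τ).1 (hp τ).2.1
    have e2 := e τ
    have := (hg.spec hs τ).2
    rw [(Up.spec hx τ).2] at e2
    rw [(hp τ).2.2] at e1
    omega
  refine ⟨fun τ => g⁻¹ • (c τ).pt (x τ) (g • l j τ) ((c τ).dep (x τ) (g • l j τ) - m'),
    ⟨Up.push hs hg hx fun τ => ?_, fun τ => ?_, fun τ => ?_⟩, ?_⟩
  · refine ⟨(c τ).inv_le (hp τ).1, by rw [smul_inv_smul]; exact (hp τ).2.1, ?_⟩
    rw [← (c τ).dep_smul g, smul_inv_smul, hd]
  · rw [smul_inv_smul]; exact (hp τ).2.1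
  · refine (c τ).inv_le ?_
    rw [← mul_smul]
    have h4 := (c τ).smul g (hh.spec hs τ).1
    have h5 := (c τ).smul (g * h) (Up.spec hx'' τ).1
    rw [← mul_smul] at h4
    refine (c τ).lin ((c τ).trans h4 (hp τ).1) (hp τ).2.1 h5 (hgh τ) ?_
    have e1 := (c τ).add h5 (hgh τ)
    have e2 := (c τ).add h4 (h3 τ)
    have e3 := (hh.spec hs τ).2
    rw [(c τ).dep_smul, (Up.spec hx'' τ).2] at e1
    rw [mul_smul, (c τ).dep_smul, ← mul_smul] at e2
    rw [(hp τ).2.2]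
    omega
  · rintro x' ⟨h4, h5, -⟩
    funext τ
    rw [eq_inv_smul_iff]
    have h6 := (c τ).smul g (Up.spec h4 τ).1
    have e1 := (c τ).add h6 (h5 τ)
    rw [(c τ).dep_smul, (Up.spec h4 τ).2] at e1
    exact (c τ).uniq h6 (h5 τ) (hp τ).1 (hp τ).2.1 (by rw [(hp τ).2.2]; omega)

end Pool.Agent.MP_f7db47_al.PT
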