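import Pool.Agent.MP_f7db47_al.PT.BT
import Pool.Agent.MP_f7db47_al.PT.Val
import Pool.Agent.MP_f7db47_al.PT.GLa

namespace Pool.Agent.MP_f7db47_al.PT

open scoped WithZero in
theorem GLb_line {K : Type} [Field K] (v : Valuation K ℤᵐ⁰) :
    ∃ (V : Type) (X : SimpleGraph V) (ρ : GL (Fin 2) K →* (X ≃g X)), X.IsTree ∧
      ∀ g : GL (Fin 2) K, (∃ x, ρ g x = x) → v g.val.det = 1 := by
  obtain ⟨X, ρ, h1, h2⟩ := exists_line (G := GL (Fin 2) K)
    (WithZero.unitsWithZeroEquiv.toMonoidHom.comp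
      ((Units.map v.toMonoidWithZeroHom.toMonoidHom).comp Matrix.GeneralLinearGroup.det))
  refine ⟨ℤ, X, ρ, h1, fun g ⟨x, hx⟩ => ?_⟩
  rw [h2, add_eq_left, toAdd_eq_zero] at hx
  have h3 := WithZero.unitsWithZeroEquiv.map_eq_one_iff.1 hx
  exact congrArg Units.val h3

theorem gl2_trees_domain (p : ℕ) [Fact p.Prime] (A : Type) [CommRing A] [IsDomain A]
    [Algebra (ZMod p) A] [Algebra.FiniteType (ZMod p) A] :
    ∃ (k : ℕ) (V : Fin k → Type) (X : ∀ i, SimpleGraph (V i))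
      (ρ : ∀ i, GL (Fin 2) A →* (X i ≃g X i)), (∀ i, (X i).IsTree) ∧
      ∀ g, (∀ i, ∃ v, ρ i g v = v) → IsOfFinOrder g := by
  obtain ⟨L, _, φ, m, v, -, h1, h2⟩ := exists_vals p A
  have key : ∀ s : Fin m ⊕ Fin m, ∃ (V : Type) (X : SimpleGraph V)
      (ρ : GL (Fin 2) L →* (X ≃g X)), X.IsTree ∧ ∀ g : GL (Fin 2) L, (∃ x, ρ g x = x) →
        s.elim (fun i => v i g.val.det = 1) fun i => v i g.val.det = 1 → v i g.val.trace ≤ 1 := by
    rintro (i | i)
    · exact GLb_line (v i)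
    · obtain ⟨π, hπ⟩ := h1 i
      exact exists_BT (v i) π hπ
  choose V X ρ hX hρ using key
  refine ⟨m + m, fun i => V (finSumFinEquiv.symm i), fun i => X _,
    fun i => (ρ _).comp (Matrix.GeneralLinearGroup.map φ), fun i => hX _, fun g hg => ?_⟩
  have h3 : ∀ s, ∃ x, ρ s (Matrix.GeneralLinearGroup.map φ g) x = x := fun s => by
    obtain ⟨i, rfl⟩ := finSumFinEquiv.symm.surjective s
    exact hg i
  have hd : (Matrix.GeneralLinearGroup.map φ g).val.det = φ g.val.det := (φ.map_det _).symm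
  have ht : (Matrix.GeneralLinearGroup.map φ g).val.trace = φ g.val.trace :=
    (AddMonoidHom.map_trace φ _).symm
  have h4 : ∀ i, v i (Matrix.GeneralLinearGroup.map φ g).val.det = 1 := fun i =>
    hρ (Sum.inl i) _ (h3 _)
  refine finOrder_of_integral p A g (h2 _ fun i => ?_) (h2 _ fun i => ?_)
  · rw [← ht]
    exact hρ (Sum.inr i) _ (h3 _) (h4 i)
  · rw [← hd]
    exact (h4 i).le

end Pool.Agent.MP_f7db47_al.PT
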