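import Pool.Agent.MP_f7db47_al.PT.WDefs

set_option linter.unusedSectionVars false

namespace Pool.Agent.MP_f7db47_al.PT

open Matrix

universe u v w

variable {R : Type v} [Ring R] {G : Type u} [Group G]

/-- The lift of a matrix along a refinement of the labels. -/
noncomputable def lift {Y Y' J J' : Type} (π : Y → J) (π' : Y' → J') (Rel : Y → Y' → Set G)
    (A : Matrix J J' (MonoidAlgebra R G)) : Matrix Y Y' (MonoidAlgebra R G) :=
  fun y y' => pr (Rel y y') (A (π y) (π' y'))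

theorem Lift_fib {Y' : Type} (s : Finset Y') (R₁ R₂ : Y' → Set G) (R₃ SA SB : Set G)
    {x z : MonoidAlgebra R G} (hx : Sup SA x) (hz : Sup SB z)
    (hmul : ∀ y', ∀ g ∈ R₁ y', ∀ h ∈ R₂ y', g * h ∈ R₃)
    (huniq : ∀ g ∈ SA, ∀ h ∈ SB, g * h ∈ R₃ → ∃! y', y' ∈ s ∧ g ∈ R₁ y' ∧ h ∈ R₂ y') :
    ∑ y' ∈ s, pr (R₁ y') x * pr (R₂ y') z = pr R₃ (x * z) := by
  refine hx.induction (P := fun x => ∑ y' ∈ s, pr (R₁ y') x * pr (R₂ y') z = pr R₃ (x * z))
    (by simp) (fun a b ha hb => ?_) fun g hg r => ?_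
  · simp only [map_add, add_mul, Finset.sum_add_distrib, ha, hb]
  refine hz.induction (P := fun z => ∑ y' ∈ s, pr (R₁ y') (MonoidAlgebra.single g r) *
    pr (R₂ y') z = pr R₃ (MonoidAlgebra.single g r * z))
    (by simp) (fun a b ha hb => ?_) fun h hh t => ?_
  · simp only [map_add, mul_add, Finset.sum_add_distrib, ha, hb]
  have h0 : ∀ y', ¬ (g ∈ R₁ y' ∧ h ∈ R₂ y') →
      pr (R₁ y') (MonoidAlgebra.single g r) * pr (R₂ y') (MonoidAlgebra.single h t) = 0 := by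
    intro y' hy
    by_cases h1 : g ∈ R₁ y'
    · rw [pr_single_of_not_mem (fun h2 => hy ⟨h1, h2⟩), mul_zero]
    · rw [pr_single_of_not_mem h1, zero_mul]
  by_cases h3 : g * h ∈ R₃
  · obtain ⟨y₀, ⟨m0, m1, m2⟩, hu⟩ := huniq g hg h hh h3
    rw [Finset.sum_eq_single_of_mem y₀ m0 fun y' hy hne => h0 y' fun hc => hne (hu y' ⟨hy, hc⟩),
      pr_single_of_mem m1, pr_single_of_mem m2, MonoidAlgebra.single_mul_single,
      pr_single_of_mem h3]
  · rw [MonoidAlgebra.single_mul_single, pr_single_of_not_mem h3]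
    exact Finset.sum_eq_zero fun y' _ => h0 y' fun hc => h3 (hmul y' g hc.1 h hc.2)

theorem lift_mul {Y Y' Y'' J J' J'' : Type} [Fintype Y'] [Fintype J'] (π : Y → J) (π' : Y' → J')
    (π'' : Y'' → J'') (R₁ : Y → Y' → Set G) (R₂ : Y' → Y'' → Set G) (R₃ : Y → Y'' → Set G)
    {SA : J → J' → Set G} {SB : J' → J'' → Set G} {A : Matrix J J' (MonoidAlgebra R G)}
    {B : Matrix J' J'' (MonoidAlgebra R G)} (hA : MSup2 SA A) (hB : MSup2 SB B)
    (hmul : ∀ y y' y'', ∀ g ∈ R₁ y y', ∀ h ∈ R₂ y' y'', g * h ∈ R₃ y y'')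
    (huniq : ∀ y y'' j, ∀ g ∈ SA (π y) j, ∀ h ∈ SB j (π'' y''), g * h ∈ R₃ y y'' →
      ∃! y', π' y' = j ∧ g ∈ R₁ y y' ∧ h ∈ R₂ y' y'') :
    lift π π' R₁ A * lift π' π'' R₂ B = lift π π'' R₃ (A * B) := by
  classical
  ext1 y y''
  simp only [lift, Matrix.mul_apply, map_sum]
  rw [← Finset.sum_fiberwise Finset.univ π']
  refine Finset.sum_congr rfl fun j _ => ?_
  rw [← Lift_fib (Finset.univ.filter fun y' => π' y' = j) (R₁ y) (fun y' => R₂ y' y'') (R₃ y y'')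
    _ _ (hA (π y) j) (hB j (π'' y'')) (fun y' => hmul y y' y'') fun g hg h hh h3 => by
      simpa using huniq y y'' j g hg h hh h3]
  refine Finset.sum_congr rfl fun y' hy => ?_
  rw [(Finset.mem_filter.1 hy).2]

end Pool.Agent.MP_f7db47_al.PT
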