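import Pool.Agent.MP_f7db47_al.PT.WDefs
import Pool.Agent.MP_f7db47_al.PT.Mark

set_option linter.unusedSectionVars false

namespace Pool.Agent.MP_f7db47_al.PT

open Matrix

universe u v w

variable {R : Type v} [Ring R] {G : Type u} [Group G]
variable {ι : Type} [Fintype ι] {V : ι → Type w} [∀ τ, MulAction G (V τ)]

theorem MarkW_symm {S : ℕ} {x y : Win V} {g : G} (h : Eqv S x y g) : Eqv S y x g⁻¹ :=
  fun τ t ht => by rw [← h τ t ht, inv_smul_smul]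

theorem MarkW_trans {S : ℕ} {x y z : Win V} {g g' : G} (h : Eqv S x y g) (h' : Eqv S y z g') :
    Eqv S x z (g * g') :=
  fun τ t ht => by rw [mul_smul, h' τ t ht, h τ t ht]

theorem MarkW_per {S A : ℕ} {x y : Win V} {g : G} (h : Eqv S x y g) (hx : PosPer G S A x) :
    PosPer G S A y := by
  obtain ⟨γ, v, hv, hp⟩ := hx
  refine ⟨g⁻¹ * γ * g, v, hv, fun τ t h1 h2 => ?_⟩
  rw [mul_smul, mul_smul, h τ t h1, hp τ t h1 h2, ← h τ _ h2, inv_smul_smul]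

theorem MarkW_shift {S B : ℕ} {x y : Win V} {m m' z : ι → ℤ} {g : G}
    (h : Eqv (B + S) (sh x m) (sh y m') g) (hz : ∀ τ, |z τ| ≤ B) :
    Eqv S (sh x (m + z)) (sh y (m' + z)) g := by
  intro τ t ht
  have h1 : |z τ + t| ≤ ((B + S : ℕ) : ℤ) := by
    have := abs_add_le (z τ) t
    have := hz τ
    push_cast
    omega
  have h2 := h τ (z τ + t) h1
  simp only [sh, Pi.add_apply, add_assoc] at h2 ⊢
  exact h2

open Classical in
/-- The colour attached to a predicate. -/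
noncomputable def MarkW_col {n : ℕ} (p : Fin n → Prop) : ℕ :=
  if h : ∃ i, p i then (h.choose : ℕ) else n

theorem MarkW_col_lt {n : ℕ} {p : Fin n → Prop} (h : MarkW_col p < n) :
    ∃ i, p i ∧ MarkW_col p = i := by
  unfold MarkW_col at h ⊢
  split_ifs at h ⊢ with h1
  · exact ⟨_, h1.choose_spec, rfl⟩
  · exact absurd h (lt_irrefl _)

theorem MarkW_lt_col {n : ℕ} {p : Fin n → Prop} (h : ∃ i, p i) : MarkW_col p < n := by
  unfold MarkW_col
  rw [dif_pos h]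
  exact Fin.is_lt _

theorem exists_Marks (S A t C n : ℕ) (hA : A ≤ C * t) (ht : t ≤ A) (cand : Fin n → Win V) :
    ∃ M : Marks G V S A (((2 * C + 1) ^ Fintype.card ι + 1) * n * A + S),
      ∀ x : Win V, (∃ i, ∀ (τ : ι) (s : ℤ), |s| ≤ S → x τ s = cand i τ s) → ¬ PosPer G S A x →
        ∃ q < (2 * C + 1) ^ Fintype.card ι + 1, ∃ m, M.Mk q x m ∧ ∀ τ, |m τ| ≤ t := by
  obtain ⟨Mark, m1, m2, m3, m4⟩ := exists_marks ι t A C n hA ht
  let col : Win V → (ι → ℤ) → ℕ := fun x m => MarkW_col fun i : Fin n =>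
    ¬ PosPer G S A (cand i) ∧ ∃ g : G, Eqv S (sh x m) (cand i) g
  refine ⟨⟨fun q x m => q < (2 * C + 1) ^ Fintype.card ι + 1 ∧ Mark (col x) q m, ?_, ?_, ?_⟩, ?_⟩
  · rintro q x m ⟨-, h⟩ hp
    obtain ⟨i, ⟨h1, g, hg⟩, -⟩ := MarkW_col_lt (m1 _ _ _ h)
    exact h1 (MarkW_per hg hp)
  · rintro q x m m' ⟨-, h⟩ ⟨-, h'⟩ hd
    obtain ⟨i, ⟨-, g, hg⟩, e⟩ := MarkW_col_lt (m1 _ _ _ h)
    obtain ⟨i', ⟨-, g', hg'⟩, e'⟩ := MarkW_col_lt (m1 _ _ _ h')
    have e2 : i = i' := Fin.ext (e.symm.trans ((m2 _ _ _ _ h h' hd).trans e'))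
    subst e2
    exact ⟨g' * g⁻¹, MarkW_trans hg' (MarkW_symm hg)⟩
  · intro q x y m m' g h
    refine and_congr_right fun hq => m4 _ _ _ _ _ fun z hz => ?_
    have h2 := MarkW_shift (z := z) h fun τ => (hz τ).trans (by
      exact_mod_cast Nat.mul_le_mul_right _ (Nat.mul_le_mul_right _ hq))
    refine congrArg MarkW_col (funext fun i => propext (and_congr_right fun _ => ?_))
    exact ⟨fun ⟨a, ha⟩ => ⟨g⁻¹ * a, MarkW_trans (MarkW_symm h2) ha⟩,
      fun ⟨a, ha⟩ => ⟨g * a, MarkW_trans h2 ha⟩⟩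
  · rintro x ⟨i, hi⟩ hx
    have h1 : Eqv S (sh x 0) (cand i) (1 : G) := fun τ s hs => by
      rw [one_smul, ← hi τ s hs]; simp only [sh, Pi.zero_apply, zero_add]
    have h2 : Eqv S (cand i) x (1 : G) := fun τ s hs => by rw [one_smul, hi τ s hs]
    obtain ⟨q, hq, y, hy, hd⟩ := m3 (col x) 0
      (MarkW_lt_col ⟨i, fun h => hx (MarkW_per h2 h), 1, h1⟩)
    exact ⟨q, hq, y, ⟨hq, hy⟩, fun τ => by simpa using hd τ⟩

end Pool.Agent.MP_f7db47_al.PT
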