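import Pool.Agent.MP_f7db47_al.PT.WDefs

set_option linter.unusedSectionVars false

namespace Pool.Agent.MP_f7db47_al.PT

open Matrix

universe u v w

variable {R : Type v} [Ring R] {G : Type u} [Group G]

lemma orb_unit {M : Type*} [Ring M] {P Z : M} (hP : P * P = P) (hZ : P * Z = Z * P)
    (hu : IsUnit Z) : IsUnit (1 - P + P * Z) := by
  have aux : ∀ Z Z' : M, Z * Z' = 1 → P * Z = Z * P →
      (1 - P + P * Z) * (1 - P + P * Z') = 1 := by
    intro Z Z' h h'
    have e : (1 - P + P * Z) * (1 - P + P * Z') =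
        1 - P + (P - P * P) * (Z' - 1) + (P * Z) * (1 - P) + P * (Z * P) * Z' := by
      noncomm_ring
    rw [e, hP, sub_self, zero_mul, add_zero, ← h', ← mul_assoc, hP, mul_assoc _ Z Z', h, h',
      mul_assoc Z, mul_sub, hP]
    simp
  obtain ⟨w, rfl⟩ := hu
  have hZ' : P * (w⁻¹ : Mˣ) = (w⁻¹ : Mˣ) * P := ((show Commute P w from hZ).units_inv_right).eq
  exact ⟨⟨_, _, aux _ _ w.mul_inv hZ, aux _ _ w.inv_mul hZ'⟩, rfl⟩

theorem T_of_groupoid {J : Type} [Fintype J] [DecidableEq J] (rel : J → J → Set G)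
    (h1 : ∀ i, (1 : G) ∈ rel i i)
    (hmul : ∀ i j k, ∀ a ∈ rel i j, ∀ b ∈ rel j k, a * b ∈ rel i k)
    (hinv : ∀ i j, ∀ a ∈ rel i j, a⁻¹ ∈ rel j i)
    (hG : ∀ i, ∀ H : Subgroup G, (H : Set G) = rel i i → G1 R H)
    {A : Matrix J J (MonoidAlgebra R G)} (hA : MSup2 rel A) (hu : IsUnit A) : T A := by
  classical
  let s : Setoid J := ⟨fun i j => (rel i j).Nonempty, ⟨fun i => ⟨1, h1 i⟩,
    fun ⟨a, ha⟩ => ⟨a⁻¹, hinv _ _ a ha⟩, fun ⟨a, ha⟩ ⟨b, hb⟩ => ⟨a * b, hmul _ _ _ a ha b hb⟩⟩⟩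
  obtain ⟨c, hc, hcc⟩ : ∃ c : J → J, (∀ i, (rel (c i) i).Nonempty) ∧
      ∀ i j, (rel (c i) (c j)).Nonempty → c i = c j :=
    ⟨fun i => (Quotient.mk s i).out, fun i => Quotient.mk_out (s := s) i, fun i j h => by
      have := Quotient.sound (s := s) h
      simp only [Quotient.out_eq] at this
      simp only [this]⟩
  choose u hu' using hc
  obtain ⟨D, hD⟩ : ∃ D : Matrix J J (MonoidAlgebra R G),
      D = diagonal fun i => MonoidAlgebra.single (u i) 1 := ⟨_, rfl⟩
  obtain ⟨D', hD'⟩ : ∃ D' : Matrix J J (MonoidAlgebra R G),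
      D' = diagonal fun i => MonoidAlgebra.single (u i)⁻¹ 1 := ⟨_, rfl⟩
  have e1 : D * D' = 1 := by
    rw [hD, hD', diagonal_mul_diagonal, ← diagonal_one]
    congr 1; funext i
    rw [MonoidAlgebra.single_mul_single, mul_inv_cancel, one_mul]; rfl
  have e2 : D' * D = 1 := by
    rw [hD, hD', diagonal_mul_diagonal, ← diagonal_one]
    congr 1; funext i
    rw [MonoidAlgebra.single_mul_single, inv_mul_cancel, one_mul]; rfl
  have hZ : MSup2 (fun i j => rel (c i) (c j)) (D * A * D') := by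
    intro i j
    rw [hD, hD', mul_diagonal, diagonal_mul]
    exact ((sup_single (hu' i) 1).mul (hA i j) (hmul _ _ _)).mul
      (sup_single (hinv _ _ _ (hu' j)) 1) (hmul _ _ _)
  have hZ0 : ∀ i j, c i ≠ c j → (D * A * D') i j = 0 := fun i j h =>
    (hZ i j).eq_zero (hZ i j) fun g hg _ => h (hcc i j ⟨g, hg⟩)
  have hZu : IsUnit (D * A * D') :=
    (IsUnit.mul ⟨⟨D, D', e1, e2⟩, rfl⟩ hu).mul ⟨⟨D', D, e2, e1⟩, rfl⟩
  have hT : T (D * A * D') := by
    refine (stdTS R G).of_blocks c (proj_comm c hZ0) fun y => ?_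
    let H : Subgroup G :=
      { carrier := rel y y
        one_mem' := h1 y
        mul_mem' := fun ha hb => hmul _ _ _ _ ha _ hb
        inv_mem' := fun ha => hinv _ _ _ ha }
    refine T_of_isUnit_msup H (hG y H rfl) ?_
      (orb_unit (proj_mul_self c y) (proj_comm c hZ0 y) hZu)
    refine ((msup_one H.one_mem).sub ?_).add fun i j => ?_
    · refine msup2_diagonal (S := fun _ _ => (H : Set G)) fun i => ?_
      split_ifs
      · exact sup_one H.one_mem
      · exact sup_zero _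
    · rw [proj_mul_apply]
      split_ifs with h
      · by_cases h' : c i = c j
        · have := hZ i j
          simp only [← h', h] at this
          exact this
        · rw [hZ0 i j h']; exact sup_zero _
      · exact sup_zero _
  have := T_conj D' D e2 e1 hT
  rwa [← mul_assoc, ← mul_assoc, e2, one_mul, mul_assoc, e2, mul_one] at this

theorem T_of_orbit {J : Type} [Fintype J] [DecidableEq J] {Y : Type w} [MulAction G Y]
    (y : J → Y) (hG : ∀ j, G1 R (MulAction.stabilizer G (y j)))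
    {A : Matrix J J (MonoidAlgebra R G)} (hA : MSup2 (fun i j => {g | g • y j = y i}) A)
    (hu : IsUnit A) : T A := by
  refine T_of_groupoid _ (fun i => one_smul G _) (fun i j k a ha b hb => ?_)
    (fun i j a ha => ?_) (fun i H hH => ?_) hA hu
  · simp only [Set.mem_ofPred_eq] at *
    rw [mul_smul, hb, ha]
  · simp only [Set.mem_ofPred_eq] at *
    rw [← ha, inv_smul_smul]
  · have : H = MulAction.stabilizer G (y i) := SetLike.coe_injective hH
    rw [this]; exact hG i

end Pool.Agent.MP_f7db47_al.PT
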