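import Pool.Agent.MP_f7db47_al.PT.Orb

set_option linter.unusedSectionVars false

namespace Pool.Agent.MP_f7db47_al.PT

open Matrix

universe u v w

variable {R : Type v} [Ring R] {G : Type u} [Group G]
variable {ι : Type} {V : ι → Type w} [∀ τ, MulAction G (V τ)] (c : ∀ τ, CS G (V τ))

lemma Posit_antisymm {E : Type w} [MulAction G E] (d : CS G E) {x y : E} (h1 : d.le y x)
    (h2 : d.le x y) : y = x := by
  have e0 := d.add (d.refl x) (d.refl x)
  have e1 := d.add h2 h1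
  exact d.zero h1 (by omega)

lemma Posit_mul {J : Type} (l : J → ∀ τ, V τ) {I₁ I₂ I₃ : Set ι} (hI : I₃ ⊆ I₁ ∪ I₂) (i j k : J) :
    ∀ a ∈ Pos c I₁ l l i j, ∀ b ∈ Pos c I₂ l l j k, a * b ∈ Pos c I₃ l l i k := by
  rintro a ⟨ha1, ha2⟩ b ⟨hb1, hb2⟩
  have h1 : ∀ σ, (c σ).le ((a * b) • l k σ) (a • l j σ) := fun σ => by
    rw [mul_smul]; exact (c σ).smul a (hb1 σ)
  refine ⟨fun σ => (c σ).trans (h1 σ) (ha1 σ), fun σ hσ e => ?_⟩
  have e1 : a • l j σ = l i σ := Posit_antisymm (c σ) (ha1 σ) (e ▸ h1 σ)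
  rcases hI hσ with h | h
  · exact ha2 σ h e1
  · rw [← e1, mul_smul] at e
    exact hb2 σ h (smul_left_cancel a e)

lemma Posit_mono {J : Type} (l : J → ∀ τ, V τ) {I₁ I₂ : Set ι} (hI : I₂ ⊆ I₁)
    {A : Matrix J J (MonoidAlgebra R G)} (hA : MSup2 (Pos c I₁ l l) A) :
    MSup2 (Pos c I₂ l l) A :=
  hA.mono fun _ _ _ hg => ⟨hg.1, fun σ hσ => hg.2 σ (hI hσ)⟩

lemma Posit_one {J : Type} [DecidableEq J] (l : J → ∀ τ, V τ) :
    MSup2 (Pos c ∅ l l) (1 : Matrix J J (MonoidAlgebra R G)) :=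
  msup2_one fun i => ⟨fun σ => by rw [one_smul]; exact (c σ).refl _, fun _ h => h.elim⟩

lemma Posit_rest {J : Type} (l : J → ∀ τ, V τ) (I : Set ι) (τ : ι)
    {A : Matrix J J (MonoidAlgebra R G)} (hA : MSup2 (Pos c I l l) A) :
    MSup2 (Pos c (insert τ I) l l) (A - mpr2 (fun i j => {g : G | g • l j τ = l i τ}) A) := by
  intro i j g hg
  have e : (A - mpr2 (fun i j => {g : G | g • l j τ = l i τ}) A) i j =
      pr {g : G | g • l j τ = l i τ}ᶜ (A i j) := by
    rw [Matrix.sub_apply, sub_eq_iff_eq_add']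
    exact (pr_add_pr_compl _ _).symm
  rw [e] at hg
  have h1 := (hA i j).pr g hg
  have h2 := sup_pr _ _ g hg
  refine ⟨h1.1, fun σ hσ => ?_⟩
  rcases hσ with rfl | hσ
  · exact h2
  · exact h1.2 σ hσ

lemma Posit_mpr {J : Type} [Fintype J] (l : J → ∀ τ, V τ) (τ : ι)
    {A B : Matrix J J (MonoidAlgebra R G)} (hA : MSup2 (Pos c ∅ l l) A)
    (hB : MSup2 (Pos c ∅ l l) B) :
    mpr2 (fun i j => {g : G | g • l j τ = l i τ}) (A * B) =
      mpr2 (fun i j => {g : G | g • l j τ = l i τ}) A *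
        mpr2 (fun i j => {g : G | g • l j τ = l i τ}) B := by
  have hA1 := Posit_rest c l ∅ τ hA
  have hB1 := Posit_rest c l ∅ τ hB
  have hA0 := msup2_mpr2 (fun i j => {g : G | g • l j τ = l i τ}) A
  have hB0 := msup2_mpr2 (fun i j => {g : G | g • l j τ = l i τ}) B
  have hA2 := hA.mpr2 (S' := fun i j => {g : G | g • l j τ = l i τ})
  generalize mpr2 (fun i j => {g : G | g • l j τ = l i τ}) A = A₀ at hA1 hA0 hA2 ⊢
  generalize mpr2 (fun i j => {g : G | g • l j τ = l i τ}) B = B₀ at hB1 hB0 ⊢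
  have e : A * B = A₀ * B₀ + ((A - A₀) * B + A₀ * (B - B₀)) := by noncomm_ring
  have h0 : MSup2 (fun i j => {g : G | g • l j τ = l i τ}) (A₀ * B₀) :=
    hA0.mul hB0 fun i j k a ha b hb => by
      change (a * b) • l k τ = l i τ
      rw [mul_smul, show b • l k τ = l j τ from hb]
      exact ha
  have h1 : MSup2 (Pos c (insert τ ∅) l l) ((A - A₀) * B + A₀ * (B - B₀)) :=
    (hA1.mul hB (Posit_mul c l Set.subset_union_left)).add
      (hA2.mul hB1 (Posit_mul c l Set.subset_union_right))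
  rw [e, mpr2_add, h0.mpr2_eq,
    h1.mpr2_eq_zero (S := fun i j => {g : G | g • l j τ = l i τ})
      fun i j g hg => hg.2 τ (Set.mem_insert _ _), add_zero]

theorem posT_step (I : Set ι) (τ : ι) (hG : ∀ e : V τ, G1 R (MulAction.stabilizer G e))
    (h : PosT R c (insert τ I)) : PosT R c I := by
  intro J _ _ l ν β h1 h2 hν hβ
  have hZ : MSup2 (fun i j => {g : G | g • l j τ = l i τ}) (1 : Matrix J J (MonoidAlgebra R G)) :=
    msup2_one fun i => one_smul G (l i τ)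
  have hν0 := (Posit_one c l).sub (Posit_mono c l (Set.empty_subset I) hν)
  have hβ0 := (Posit_one c l).add (Posit_mono c l (Set.empty_subset I) hβ)
  have k1 := Posit_mpr c l τ hν0 hβ0
  have k2 := Posit_mpr c l τ hβ0 hν0
  rw [h1, mpr2_sub, mpr2_add, hZ.mpr2_eq] at k1
  rw [h2, mpr2_sub, mpr2_add, hZ.mpr2_eq] at k2
  have hν1 := Posit_rest c l I τ hν
  have hZν := hZ.sub (msup2_mpr2 (fun i j => {g : G | g • l j τ = l i τ}) ν)
  have hν2 := (Posit_one c l).sub ((Posit_mono c l (Set.empty_subset I) hν).mpr2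
    (S' := fun i j => {g : G | g • l j τ = l i τ}))
  have hβ2 := (Posit_one c l).add ((Posit_mono c l (Set.empty_subset I) hβ).mpr2
    (S' := fun i j => {g : G | g • l j τ = l i τ}))
  generalize mpr2 (fun i j => {g : G | g • l j τ = l i τ}) ν = ν₀ at k1 k2 hν1 hZν hν2
  generalize mpr2 (fun i j => {g : G | g • l j τ = l i τ}) β = β₀ at k1 k2 hβ2
  have t0 : T (1 - ν₀) :=
    T_of_orbit (fun j => l j τ) (fun j => hG _) hZν ⟨⟨_, _, k1.symm, k2.symm⟩, rfl⟩
  have e1 : 1 - (1 + β₀) * (ν - ν₀) = (1 + β₀) * (1 - ν) := by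
    have : (1 + β₀) * (1 - ν) = (1 + β₀) * (1 - ν₀) - (1 + β₀) * (ν - ν₀) := by noncomm_ring
    rw [this, ← k2]
  have e2 : 1 + ((1 + β) * (1 - ν₀) - 1) = (1 + β) * (1 - ν₀) := add_sub_cancel _ _
  have i1 : (1 - (1 + β₀) * (ν - ν₀)) * (1 + ((1 + β) * (1 - ν₀) - 1)) = 1 := by
    rw [e1, e2, mul_assoc, ← mul_assoc (1 - ν), h1, one_mul, ← k2]
  have i2 : (1 + ((1 + β) * (1 - ν₀) - 1)) * (1 - (1 + β₀) * (ν - ν₀)) = 1 := by
    rw [e1, e2, mul_assoc, ← mul_assoc (1 - ν₀), ← k1, one_mul, h2]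
  have s1 : MSup2 (Pos c (insert τ I) l l) ((1 + β₀) * (ν - ν₀)) :=
    hβ2.mul hν1 (Posit_mul c l Set.subset_union_right)
  have s2 : MSup2 (Pos c (insert τ I) l l) ((1 + β) * (1 - ν₀) - 1) := by
    have e3 : (1 + β) * (1 - ν₀) - 1 = (1 + β₀) * (ν - ν₀) * ((1 + β) * (1 - ν₀)) := by
      rw [e2, sub_mul, one_mul, sub_eq_iff_eq_add'] at i1
      exact sub_eq_iff_eq_add.2 i1
    rw [e3]
    exact s1.mul (hβ0.mul hν2 (Posit_mul c l Set.subset_union_left))
      (Posit_mul c l Set.subset_union_left)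
  have t1 := h J l _ _ i1 i2 s1 s2
  have t2 := T_mul t0 t1
  rwa [e1, ← mul_assoc, ← k1, one_mul] at t2

theorem typT_of_posT [Fintype ι] (hG : ∀ (τ : ι) (e : V τ), G1 R (MulAction.stabilizer G e))
    (h : PosT R c Set.univ) :
    TypT R G fun x y : ∀ τ, V τ => ∀ τ, (c τ).le (x τ) (y τ) := by
  classical
  have key : ∀ s : Finset ι, PosT R c (s : Set ι)ᶜ := by
    intro s
    induction s using Finset.induction_on with
    | empty => rwa [Finset.coe_empty, Set.compl_empty]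
    | insert τ s hs ih =>
      refine posT_step c _ τ (hG τ) ?_
      have e : insert τ ((insert τ s : Finset ι) : Set ι)ᶜ = (s : Set ι)ᶜ := by
        ext σ
        by_cases hσ : σ = τ
        · simp [hσ, hs]
        · simp [hσ]
      rwa [e]
  have h0 := key Finset.univ
  rw [Finset.coe_univ, Set.compl_univ] at h0
  intro J _ _ l a b h1 h2 ha hb
  have ha' : MSup2 (Pos c ∅ l l) a := ha.mono fun _ _ _ hg => ⟨hg, fun _ h => h.elim⟩
  have hb' : MSup2 (Pos c ∅ l l) b := hb.mono fun _ _ _ hg => ⟨hg, fun _ h => h.elim⟩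
  have := h0 J l (1 - a) (b - 1) (by rwa [sub_sub_cancel, add_sub_cancel])
    (by rwa [sub_sub_cancel, add_sub_cancel]) ((Posit_one c l).sub ha') (hb'.sub (Posit_one c l))
  rwa [sub_sub_cancel] at this

end Pool.Agent.MP_f7db47_al.PT
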