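import Pool.Agent.MP_f7db47_al.PT.WDefs
import Pool.Agent.MP_f7db47_al.TBCore

/-!
The splitting theorem for trees, for matrices typed by a preordered set.
-/

set_option linter.unusedSectionVars false

namespace Pool.Agent.MP_f7db47_al.PT

open Matrix

universe u v w w'

variable {R : Type v} [Ring R] {G : Type u} [Group G] {V : Type w} [MulAction G V]
variable {Ω : Type w'} [MulAction G Ω]

variable (R) in
/-- Nilpotent matrices typed by `le` and by half trees give trivial unipotent matrices. -/
def NilT (D : TB G V) (le : Ω → Ω → Prop) : Prop :=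
  ∀ (J : Type) [Fintype J] [DecidableEq J] (l : J → Ω) (o : J → D.E × Bool)
    (ν : Matrix J J (MonoidAlgebra R G)),
    MSup2 (fun i j => {g | le (g • l j) (l i) ∧
      ∀ z ∈ D.H (o j).1 (o j).2, g • z ∈ D.H (o i).1 (o i).2}) ν → IsNilpotent ν → T (1 - ν)

lemma lin_nil {D : TB G V} {J : Type} [Fintype J] [DecidableEq J] (L : D.Lin R J) :
    IsNilpotent (Matrix.of fun a b : J × Bool => L.n a.2 b.2 a.1 b.1) := by
  obtain ⟨k, hk⟩ := TB.exists_top (D := D) (e := L.e) (n := fun a : Bool × Bool => L.n a.1 a.2)
    fun g τ f hf => ⟨_, L.mem_itV _ g τ f hf le_rfl⟩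
  set ν : Matrix (J × Bool) (J × Bool) (MonoidAlgebra R G) :=
    Matrix.of fun a b : J × Bool => L.n a.2 b.2 a.1 b.1 with hν
  have key : ∀ (m : ℕ) (s s' : Bool), (TB.filtV hk).Low (m + 1)
      (Matrix.of fun i j => (ν ^ (m + 1)) (i, s) (j, s')) := by
    intro m
    induction m with
    | zero =>
      intro s s'
      rw [zero_add, pow_one]
      exact TB.low_n hk (s, s')
    | succ m ih =>
      intro s s'
      have e : (Matrix.of fun i j => (ν ^ (m + 1 + 1)) (i, s) (j, s')) =
          ∑ t : Bool, (Matrix.of fun i j => (ν ^ (m + 1)) (i, s) (j, t)) * L.n t s' := by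
        ext1 i j
        rw [pow_succ, Matrix.sum_apply, of_apply, Matrix.mul_apply, Fintype.sum_prod_type,
          Finset.sum_comm]
        rfl
      rw [e]
      refine Filt.low_sum _ _ fun t _ => ?_
      have := (ih s t).mul (TB.low_n hk (t, s'))
      rwa [add_comm] at this
  refine ⟨k + 1, ?_⟩
  ext1 a b
  exact congrFun (congrFun ((key k a.2 b.2).eq_zero (Nat.le_succ k)) a.1) b.1

lemma typ_linear {D : TB G V} (hsplit : D.SplitT (stdTS R G)) {le : Ω → Ω → Prop}
    (htrans : ∀ x y z, le x y → le y z → le x z)
    (hsmul : ∀ (g : G) x y, le x y → le (g • x) (g • y)) (hnil : NilT R D le)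
    {J : Type} [Fintype J] [DecidableEq J] (l : J → Ω) (e : J → D.E) (z : J → V)
    {a b : Matrix J J (MonoidAlgebra R G)} (hab : a * b = 1) (hba : b * a = 1)
    (ha : MSup2 (fun i j => {g | le (g • l j) (l i)}) a)
    (hb : MSup2 (fun i j => {g | le (g • l j) (l i)}) b)
    (hA : MSup2 (fun i j => {x | ∃ s, x • z j = D.ep (e i) s}) a) : T a := by
  let Θ : Bool → Matrix J J (MonoidAlgebra R G) := fun s =>
    mpr2 (fun i j => {x | x • z j = D.ep (e i) s}) a
  have hsum : ∀ s, Θ s + Θ (!s) = a := by
    intro s
    rw [← hA.mpr2_eq]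
    refine (mpr2_union _ (fun i j g => ⟨?_, ?_⟩) fun i j g h h' => ?_).symm
    · rintro ⟨s', h⟩
      by_cases hs : s' = s
      · exact Or.inl (hs ▸ h)
      · exact Or.inr (Bool.eq_not.2 hs ▸ h)
    · rintro (h | h) <;> exact ⟨_, h⟩
    · simpa using D.ep_inj (h.symm.trans h')
  let L : D.Lin R J := ⟨e, z, Θ, b, fun s => msup2_mpr2 _ _,
    fun s => by rw [hsum, hab], fun s => by rw [hsum, hba]⟩
  have h1 : T ((L.Θ false + L.Θ true) * (L.U false + L.U true)) := by
    let X : Matrix J (J × Bool) (MonoidAlgebra R G) := Matrix.of fun i a => L.p (!a.2) i a.1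
    let Y : Matrix (J × Bool) J (MonoidAlgebra R G) :=
      Matrix.of fun a j => (L.n a.2 false + L.n a.2 true) a.1 j
    have hXY : X * Y = ∑ s : Bool, L.p (!s) * (L.n s false + L.n s true) := by
      ext1 i j
      rw [Matrix.sum_apply, Matrix.mul_apply, Fintype.sum_prod_type, Finset.sum_comm]
      rfl
    have hYX : Y * X = Matrix.of fun a b : J × Bool => L.n a.2 b.2 a.1 b.1 := by
      ext1 a b
      have : (L.n a.2 false + L.n a.2 true) * L.p (!b.2) = L.n a.2 b.2 := by
        have h3 := L.n_mul_p a.2
        have h4 := L.n_mul_p' a.2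
        rw [add_mul]
        cases b.2
        · rw [h4, Bool.not_false, h3, add_zero]
        · rw [h4, Bool.not_true, h3, zero_add]
      rw [of_apply, ← this]
      rfl
    have hT : T (1 - Y * X) := by
      rw [hYX]
      refine hnil _ (fun a => l a.1) (fun a => (e a.1, a.2)) _ (fun a b => ?_) (lin_nil L)
      have h3 : MSup2 (fun i j => {g | le (g • l j) (l i)}) (L.Θ a.2 * L.Γ) :=
        ha.mpr2.mul hb fun i j k x hx y hy => by
          simp only [Set.mem_ofPred_eq] at hx hy ⊢
          rw [mul_smul]
          exact htrans _ _ _ (hsmul x _ _ hy) hx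
      intro g hg
      have h4 := (msup2_mpr2 (L.Sb a.2 b.2) (L.Θ a.2 * L.Γ)).neg a.1 b.1 g hg
      exact ⟨(h3.mpr2 (S' := L.Sb a.2 b.2)).neg a.1 b.1 g hg, D.nest _ _ _ _ g h4.1 h4.2⟩
    have := T_one_sub_comm X Y hT
    convert this using 1
    rw [add_mul, L.Θ_mul_UU, L.Θ_mul_UU, hXY, Fintype.sum_bool, mul_add, mul_add, L.p_mul_n',
      L.p_mul_n', L.p_mul_n', L.p_mul_n', ← L.p_add false, Bool.not_false]
    abel
  have hp : L.p true = 1 - L.p false := by rw [← L.p_add false, Bool.not_false]; abel
  have hW : L.W = L.p false * L.Θ false + (1 - L.p false) * L.Θ true := by rw [← hp]; rfl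
  have h2 : T L.W := by
    rw [hW]
    refine hsplit J e z _ _ _ (L.hΘ false) (L.hΘ true) (L.msup_p false) (L.p_idem false) ?_
    rw [← hW]
    exact ⟨⟨_, _, L.W_mul_U, L.U_mul_W⟩, rfl⟩
  have := T_mul h1 h2
  rw [mul_assoc, L.U_mul_W, mul_one] at this
  exact hsum false ▸ this

theorem typ_core {D : TB G V} (hsplit : D.SplitT (stdTS R G)) (e₀ : D.E) {le : Ω → Ω → Prop}
    (hrefl : ∀ x, le x x) (htrans : ∀ x y z, le x y → le y z → le x z)
    (hsmul : ∀ (g : G) x y, le x y → le (g • x) (g • y)) (hnil : NilT R D le) :
    TypT R G le := by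
  have hlin : ∀ (τ : D.E) (y : V), ∃ (k : G) (τ' : D.E) (s : Bool), k • D.ep τ' s = y ∧
      ((¬ ∃ s, y = D.ep τ s) → D.μ τ (k • D.ep τ' (!s)) < D.μ τ y) := by
    intro τ y
    rcases D.lin τ y with ⟨s, h⟩ | ⟨k, τ', s, h1, h2⟩
    · exact ⟨1, τ, s, by rw [one_smul, h], fun h' => absurd ⟨s, h⟩ h'⟩
    · exact ⟨k, τ', s, h1, fun _ => h2⟩
  choose kk tt ss hk1 hk2 using hlin
  have main : ∀ (n : ℕ) (J : Type) [Fintype J] [DecidableEq J] (l : J → Ω) (e : J → D.E)
      (z : J → V) (A A' : Matrix J J (MonoidAlgebra R G)), A * A' = 1 → A' * A = 1 →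
      MSup2 (fun i j => {g | le (g • l j) (l i)}) A →
      MSup2 (fun i j => {g | le (g • l j) (l i)}) A' →
      MSup2 (fun i j => {x | (∃ s, x • z j = D.ep (e i) s) ∨ D.μ (e i) (x • z j) < n}) A →
      T A := by
    intro n
    induction n with
    | zero =>
      intro J _ _ l e z A A' h1 h2 h3 h4 hA
      exact typ_linear hsplit htrans hsmul hnil l e z h1 h2 h3 h4
        (hA.mono fun i j x hx => hx.resolve_right (by omega))
    | succ n ih =>
      intro J _ _ l e z A Ai hAi hiA hty hty' hA
      classical
      set A' := mpr2 (fun i j => {x | ∃ s, x • z j = D.ep (e i) s}ᶜ) A with hA'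
      set A₀ := mpr2 (fun i j => {x | ∃ s, x • z j = D.ep (e i) s}) A with hA₀
      have hsum : A = A₀ + A' := by
        ext1 i j; exact (pr_add_pr_compl _ _).symm
      obtain ⟨s, hs, -⟩ := exists_finset_msup A'
      let el : Fin s.card → G := fun i => (s.equivFin.symm i : G)
      let y : J × J × Fin s.card → V := fun l => el l.2.2 • z l.2.1
      let k : J × J × Fin s.card → G := fun l => kk (e l.1) (y l)
      let B : Matrix J (J × J × Fin s.card) (MonoidAlgebra R G) := fun i l =>
        if i = l.1 then MonoidAlgebra.single (k l) ((A' l.1 l.2.1).coeff (el l.2.2)) else 0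
      let Sm : Matrix (J × J × Fin s.card) J (MonoidAlgebra R G) := fun l j =>
        if l.2.1 = j ∧ (A' l.1 l.2.1).coeff (el l.2.2) ≠ 0 then
          MonoidAlgebra.single ((k l)⁻¹ * el l.2.2) 1 else 0
      have hBS : B * Sm = A' := by
        ext1 i j
        rw [Matrix.mul_apply, Fintype.sum_prod_type, Finset.sum_eq_single i,
          Fintype.sum_prod_type, Finset.sum_eq_single j]
        · have : ∀ x : Fin s.card, B i (i, j, x) * Sm (i, j, x) j =
              MonoidAlgebra.single (el x) ((A' i j).coeff (el x)) := by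
            intro x
            by_cases h0 : (A' i j).coeff (el x) = 0
            · simp [B, h0]
            · simp only [B, Sm, if_true, true_and, ne_eq, h0, not_false_eq_true,
                MonoidAlgebra.single_mul_single, mul_one, mul_inv_cancel_left]
          simp only [this]
          rw [← Equiv.sum_comp s.equivFin]
          simp only [el, Equiv.symm_apply_apply]
          rw [Finset.sum_coe_sort s fun g => MonoidAlgebra.single g ((A' i j).coeff g)]
          conv_rhs => rw [← MonoidAlgebra.sum_coeff_single (A' i j)]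
          rw [Finsupp.sum_of_support_subset _ (s := s)]
          · intro g hg; exact hs i j g (Finsupp.mem_support_iff.1 hg)
          · intro g _; simp
        · intro j' _ hj'
          simp [Sm, hj']
        · simp
        · intro i' _ hi'
          simp [B, Ne.symm hi']
        · simp
      have hprod : fromBlocks 1 (-B) 0 1 * fromBlocks A 0 0 1 * fromBlocks 1 0 Sm 1 =
          fromBlocks A₀ (-B) Sm 1 := by
        simp only [fromBlocks_multiply, fromBlocks_inj, Matrix.one_mul, Matrix.mul_one,
          Matrix.zero_mul, Matrix.mul_zero, add_zero, zero_add, and_true, Matrix.neg_mul]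
        rw [hBS]
        conv_lhs => rw [hsum]
        abel
      let l' : J ⊕ J × J × Fin s.card → Ω := Sum.elim l fun x => (k x)⁻¹ • l x.1
      have hmul : ∀ i j m, ∀ a ∈ {g : G | le (g • l' j) (l' i)},
          ∀ b ∈ {g : G | le (g • l' m) (l' j)}, a * b ∈ {g : G | le (g • l' m) (l' i)} := by
        intro i j m a ha b hb
        simp only [Set.mem_ofPred_eq] at ha hb ⊢
        rw [mul_smul]
        exact htrans _ _ _ (hsmul a _ _ hb) ha
      have hone : ∀ x : Ω, (1 : G) ∈ {g : G | le (g • x) x} := fun x => by
        simpa using hrefl x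
      have tyB : ∀ i x, Sup {g : G | le (g • l' (.inr x)) (l' (.inl i))} (B i x) := by
        intro i x
        simp only [B]
        split_ifs with h
        · refine sup_single ?_ _
          subst h
          simpa [l'] using hrefl _
        · exact sup_zero _
      have tyS : ∀ x j, Sup {g : G | le (g • l' (.inl j)) (l' (.inr x))} (Sm x j) := by
        intro x j
        simp only [Sm]
        split_ifs with h
        · refine sup_single ?_ _
          obtain ⟨h1, h2⟩ := h
          subst h1
          have := hsmul (k x)⁻¹ _ _ (hty.mpr2 _ _ _ h2)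
          simpa [l', mul_smul] using this
        · exact sup_zero _
      have tyU : ∀ X : Matrix J (J × J × Fin s.card) (MonoidAlgebra R G),
          (∀ i x, Sup {g : G | le (g • l' (.inr x)) (l' (.inl i))} (X i x)) →
          MSup2 (fun i j => {g : G | le (g • l' j) (l' i)}) (fromBlocks 1 X 0 1) := by
        rintro X hX (i | i) (j | j)
        · exact msup2_one (S := fun i j => {g : G | le (g • l' (.inl j)) (l' (.inl i))})
            (fun _ => hone _) i j
        · exact hX i j
        · exact sup_zero _
        · exact msup2_one (S := fun i j => {g : G | le (g • l' (.inr j)) (l' (.inr i))})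
            (fun _ => hone _) i j
      have tyL : ∀ X : Matrix (J × J × Fin s.card) J (MonoidAlgebra R G),
          (∀ x j, Sup {g : G | le (g • l' (.inl j)) (l' (.inr x))} (X x j)) →
          MSup2 (fun i j => {g : G | le (g • l' j) (l' i)}) (fromBlocks 1 0 X 1) := by
        rintro X hX (i | i) (j | j)
        · exact msup2_one (S := fun i j => {g : G | le (g • l' (.inl j)) (l' (.inl i))})
            (fun _ => hone _) i j
        · exact sup_zero _
        · exact hX i j
        · exact msup2_one (S := fun i j => {g : G | le (g • l' (.inr j)) (l' (.inr i))})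
            (fun _ => hone _) i j
      have tyD : ∀ X : Matrix J J (MonoidAlgebra R G),
          MSup2 (fun i j => {g | le (g • l j) (l i)}) X →
          MSup2 (fun i j => {g : G | le (g • l' j) (l' i)}) (fromBlocks X 0 0 1) := by
        rintro X hX (i | i) (j | j)
        · exact hX i j
        · exact sup_zero _
        · exact sup_zero _
        · exact msup2_one (S := fun i j => {g : G | le (g • l' (.inr j)) (l' (.inr i))})
            (fun _ => hone _) i j
      have hT : T (fromBlocks A₀ (-B) Sm 1) := by
        refine ih _ l' (Sum.elim e fun l => tt (e l.1) (y l))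
          (Sum.elim z fun l => D.ep (tt (e l.1) (y l)) (!ss (e l.1) (y l))) _
          (fromBlocks 1 0 (-Sm) 1 * fromBlocks Ai 0 0 1 * fromBlocks 1 B 0 1) ?_ ?_ ?_ ?_ ?_
        · rw [← hprod]
          have e1 : (fromBlocks 1 0 Sm 1 : Matrix (J ⊕ J × J × Fin s.card)
              (J ⊕ J × J × Fin s.card) (MonoidAlgebra R G)) *
              fromBlocks 1 0 (-Sm) 1 = 1 := by simp [fromBlocks_multiply]
          have e2 : (fromBlocks A 0 0 1 :
              Matrix (J ⊕ J × J × Fin s.card) (J ⊕ J × J × Fin s.card) _) *
              fromBlocks Ai 0 0 1 = 1 := by simp [fromBlocks_multiply, hAi]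
          have e3 : (fromBlocks 1 (-B) 0 1 : Matrix (J ⊕ J × J × Fin s.card)
              (J ⊕ J × J × Fin s.card) (MonoidAlgebra R G)) *
              fromBlocks 1 B 0 1 = 1 := by simp [fromBlocks_multiply]
          simp only [mul_assoc]
          rw [← mul_assoc (fromBlocks 1 0 Sm 1), e1, one_mul, ← mul_assoc (fromBlocks A 0 0 1),
            e2, one_mul, e3]
        · rw [← hprod]
          have e1 : (fromBlocks 1 0 (-Sm) 1 : Matrix (J ⊕ J × J × Fin s.card)
              (J ⊕ J × J × Fin s.card) (MonoidAlgebra R G)) *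
              fromBlocks 1 0 Sm 1 = 1 := by simp [fromBlocks_multiply]
          have e2 : (fromBlocks Ai 0 0 1 :
              Matrix (J ⊕ J × J × Fin s.card) (J ⊕ J × J × Fin s.card) _) *
              fromBlocks A 0 0 1 = 1 := by simp [fromBlocks_multiply, hiA]
          have e3 : (fromBlocks 1 B 0 1 : Matrix (J ⊕ J × J × Fin s.card)
              (J ⊕ J × J × Fin s.card) (MonoidAlgebra R G)) *
              fromBlocks 1 (-B) 0 1 = 1 := by simp [fromBlocks_multiply]
          simp only [mul_assoc]
          rw [← mul_assoc (fromBlocks 1 B 0 1), e3, one_mul, ← mul_assoc (fromBlocks Ai 0 0 1),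
            e2, one_mul, e1]
        · rw [← hprod]
          exact ((tyU _ fun i x => (tyB i x).neg).mul (tyD _ hty) hmul).mul (tyL _ tyS) hmul
        · exact ((tyL _ fun x j => (tyS x j).neg).mul (tyD _ hty') hmul).mul (tyU _ tyB) hmul
        · rintro (i | l) (j | l')
          · rw [fromBlocks_apply₁₁, hA₀]
            exact (msup2_mpr2 _ A i j).mono fun x hx => Or.inl hx
          · rw [fromBlocks_apply₁₂, Matrix.neg_apply]
            refine Sup.neg ?_
            simp only [B]
            split_ifs with h
            · by_cases h0 : (A' l'.1 l'.2.1).coeff (el l'.2.2) = 0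
              · rw [h0, MonoidAlgebra.single_zero]; exact sup_zero _
              · have h1 := msup2_mpr2 _ _ _ _ _ h0
                have h2 := (hA.mpr2 _ _ _ h0).resolve_left h1
                have h3 := hk2 (e l'.1) (y l') h1
                refine sup_single ?_ _
                subst h
                exact Or.inr <| lt_of_lt_of_le h3 (Nat.lt_succ_iff.1 h2)
            · exact sup_zero _
          · simp only [fromBlocks_apply₂₁, Sm]
            split_ifs with h
            · refine sup_single ?_ _
              refine Or.inl ⟨ss (e l.1) (y l), ?_⟩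
              obtain ⟨h, -⟩ := h
              subst h
              simp only [Sum.elim_inl, Sum.elim_inr]
              rw [mul_smul, inv_smul_eq_iff]
              exact (hk1 _ _).symm
            · exact sup_zero _
          · exact msup2_one (S := fun l l' => {x : G | (∃ s, x • D.ep (tt (e l'.1) (y l'))
              (!ss (e l'.1) (y l')) = D.ep (tt (e l.1) (y l)) s) ∨ D.μ (tt (e l.1) (y l))
              (x • D.ep (tt (e l'.1) (y l')) (!ss (e l'.1) (y l'))) < n})
              (fun l => Or.inl ⟨_, one_smul _ _⟩) l l'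
      rw [← hprod] at hT
      exact T_of_stab (T_cancel_left (T_upper _) (T_cancel_right (T_lower _) hT))
  intro J _ _ l A A' h1 h2 h3 h4
  obtain ⟨s, hs, -⟩ := exists_finset_msup A
  refine main (s.sup (fun g => D.μ e₀ (g • D.ep e₀ false)) + 1) J l (fun _ => e₀)
    (fun _ => D.ep e₀ false) A A' h1 h2 h3 h4 fun i j => (hs i j).mono fun g hg => Or.inr ?_
  exact Nat.lt_succ_of_le (Finset.le_sup (f := fun g => D.μ e₀ (g • D.ep e₀ false)) hg)

end Pool.Agent.MP_f7db47_al.PT
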