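import Pool.Agent.MP_f7db47_al.PT.WDefs
import Pool.Agent.MP_f7db47_al.TreeGeo

set_option linter.unusedSectionVars false

namespace Pool.Agent.MP_f7db47_al.PT

universe u

variable {G : Type u} [Group G] {V : Type u} [MulAction G V]

/-- Oriented edges. -/
@[ext] structure OE (X : SimpleGraph V) where
  a : V
  b : V
  adj : X.Adj a b

instance {X : SimpleGraph V} [h : Fact (TreeAction G X)] : MulAction G (OE X) where
  smul g p := ⟨g • p.a, g • p.b, h.out.2.1 g _ _ p.adj⟩
  one_smul _ := OE.ext (one_smul _ _) (one_smul _ _)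
  mul_smul _ _ _ := OE.ext (mul_smul _ _ _) (mul_smul _ _ _)

lemma OE.smul_a {X : SimpleGraph V} [Fact (TreeAction G X)] (g : G) (p : OE X) :
    (g • p).a = g • p.a := rfl

lemma OE.smul_b {X : SimpleGraph V} [Fact (TreeAction G X)] (g : G) (p : OE X) :
    (g • p).b = g • p.b := rfl

section Aux

variable {X : SimpleGraph V}

lemma TreeCS_cross (hX : X.IsTree) {a b u w : V} (h : X.Adj a b) (hu : u ∈ Side X a b)
    (hw : w ∉ Side X a b) : X.dist u w = X.dist u b + 1 + X.dist a w := by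
  have hba : X.dist b a = 1 := SimpleGraph.dist_eq_one_iff_adj.2 h.symm
  have key : ∀ (n : ℕ) (u : V), X.dist w u = n → u ∈ Side X a b →
      X.dist u b + 1 + X.dist a w ≤ n := by
    intro n
    induction n using Nat.strong_induction_on with
    | _ n ih =>
      intro u hn hu
      have hne : u ≠ w := fun e => hw (e ▸ hu)
      obtain ⟨u', h1, h2⟩ := tree_closer hX hne
      by_cases hu' : u' ∈ Side X a b
      · have e1 := ih _ (hn ▸ h2) u' rfl hu'
        have e2 := hX.dist_eq_dist_add_one_of_adj b h1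
        rw [X.dist_comm (u := b), X.dist_comm (u := b)] at e2
        omega
      · obtain ⟨rfl, rfl⟩ := side_tri hX h h1 hu hu'
        rw [SimpleGraph.dist_self, X.dist_comm (v := w)]
        omega
  have e1 := key _ u rfl hu
  have e2 := hX.connected.dist_triangle (u := u) (v := b) (w := w)
  have e3 := hX.connected.dist_triangle (u := b) (v := a) (w := w)
  rw [X.dist_comm (u := w)] at e1
  omega

lemma TreeCS_not_mem (a b : V) : a ∉ Side X a b := by
  simp [Side]

lemma TreeCS_crit (hX : X.IsTree) (p q : OE X) (h1 : q.b ∈ Side X p.a p.b)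
    (h2 : p.a ∉ Side X q.a q.b) : Side X q.a q.b ⊆ Side X p.a p.b := by
  intro z hz
  by_contra hz'
  have e1 := TreeCS_cross hX p.adj h1 hz'
  have e2 := TreeCS_cross hX q.adj hz h2
  rw [X.dist_comm (u := z), X.dist_comm (u := z)] at e2
  omega

lemma TreeCS_fa (hX : X.IsTree) {p q : OE X} (h : Side X q.a q.b ⊆ Side X p.a p.b) :
    X.dist q.b p.a = X.dist p.a q.a + 1 := by
  have e := TreeCS_cross hX q.adj (mem_side hX q.adj) fun h' => TreeCS_not_mem p.a p.b (h h')
  rw [SimpleGraph.dist_self, X.dist_comm (u := q.a)] at e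
  omega

lemma TreeCS_fb (hX : X.IsTree) {p q : OE X} (h : Side X q.a q.b ⊆ Side X p.a p.b) :
    X.dist q.b p.b = X.dist p.a q.a := by
  have e := TreeCS_cross hX p.adj (h (mem_side hX q.adj)) (TreeCS_not_mem p.a p.b)
  have e' := TreeCS_fa hX h
  rw [SimpleGraph.dist_self] at e
  omega

lemma TreeCS_add (hX : X.IsTree) {x y z : OE X} (h1 : Side X z.a z.b ⊆ Side X y.a y.b)
    (h2 : Side X y.a y.b ⊆ Side X x.a x.b) :
    X.dist x.a z.a = X.dist x.a y.a + X.dist y.a z.a := by
  have e1 := TreeCS_cross hX y.adj (h1 (mem_side hX z.adj))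
    fun h' => TreeCS_not_mem x.a x.b (h2 h')
  have e2 := TreeCS_fa hX (h1.trans h2)
  have e3 := TreeCS_fb hX h1
  rw [X.dist_comm (u := y.a)] at e1
  omega

lemma TreeCS_step (hX : X.IsTree) {x z : OE X} (h : Side X z.a z.b ⊆ Side X x.a x.b)
    (hd : 0 < X.dist x.a z.a) : ∃ y : OE X, Side X z.a z.b ⊆ Side X y.a y.b ∧
      Side X y.a y.b ⊆ Side X x.a x.b ∧ X.dist x.a y.a = 1 := by
  have e1 := TreeCS_fa hX h
  have e2 := TreeCS_fb hX h
  have hab : X.dist x.a x.b = 1 := SimpleGraph.dist_eq_one_iff_adj.2 x.adj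
  have hne : x.b ≠ z.b := by
    intro e
    rw [e, SimpleGraph.dist_self] at e2
    omega
  obtain ⟨c, h1, h2⟩ := tree_closer hX hne
  refine ⟨⟨x.b, c, h1⟩, TreeCS_crit hX ⟨x.b, c, h1⟩ z h2 fun h' => ?_,
    side_nest hX x.adj h1 fun e => ?_, hab⟩
  · have e3 := TreeCS_cross hX z.adj h' fun h'' => TreeCS_not_mem x.a x.b (h h'')
    change X.dist x.b x.a = X.dist x.b z.b + 1 + X.dist z.a x.a at e3
    rw [X.dist_comm (u := x.b), X.dist_comm (u := z.a)] at e3
    omega
  · have e' : c = x.a := e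
    rw [e'] at h2
    omega

lemma TreeCS_mid (hX : X.IsTree) (a : ℕ) : ∀ {x z : OE X}, Side X z.a z.b ⊆ Side X x.a x.b →
    a ≤ X.dist x.a z.a → ∃ y : OE X, Side X z.a z.b ⊆ Side X y.a y.b ∧
      Side X y.a y.b ⊆ Side X x.a x.b ∧ X.dist x.a y.a = a := by
  induction a with
  | zero => exact fun {x z} h _ => ⟨x, h, subset_rfl, SimpleGraph.dist_self⟩
  | succ a ih =>
    intro x z h ha
    obtain ⟨y1, h1, h2, h3⟩ := TreeCS_step hX h (by omega)
    have e := TreeCS_add hX h1 h2
    obtain ⟨y, h4, h5, h6⟩ := ih h1 (by omega)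
    have e' := TreeCS_add hX h5 h2
    exact ⟨y, h4, h5.trans h2, by omega⟩

lemma TreeCS_lin (hX : X.IsTree) {x y y' z : OE X} (h1 : Side X z.a z.b ⊆ Side X y.a y.b)
    (h2 : Side X y.a y.b ⊆ Side X x.a x.b) (h3 : Side X z.a z.b ⊆ Side X y'.a y'.b)
    (h4 : Side X y'.a y'.b ⊆ Side X x.a x.b) (hd : X.dist x.a y.a ≤ X.dist x.a y'.a) :
    Side X y'.a y'.b ⊆ Side X y.a y.b := by
  refine TreeCS_crit hX y y' ?_ fun h => ?_
  · by_contra h
    have e1 := TreeCS_cross hX y.adj (h1 (mem_side hX z.adj)) h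
    have e2 := TreeCS_fb hX h1
    have e3 := TreeCS_fb hX h3
    have e4 := TreeCS_add hX h1 h2
    have e5 := TreeCS_add hX h3 h4
    omega
  · have e1 := TreeCS_cross hX y'.adj h fun h' => TreeCS_not_mem x.a x.b (h4 h')
    rw [X.dist_comm (u := y.a), X.dist_comm (u := y'.a)] at e1
    omega

end Aux

theorem exists_CS (X : SimpleGraph V) [h : Fact (TreeAction G X)] :
    ∃ c : CS G (OE X), ∀ p q, c.le p q ↔ Side X p.a p.b ⊆ Side X q.a q.b := by
  have hX : X.IsTree := h.out.1
  refine ⟨{ le := fun p q => Side X p.a p.b ⊆ Side X q.a q.b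
            dep := fun p q => X.dist p.a q.a
            refl := fun _ => subset_rfl
            trans := fun h1 h2 => h1.trans h2
            smul := fun g x y hxy z hz => ?_
            dep_smul := fun g x y => h.out.dist_smul g _ _
            add := fun h1 h2 => TreeCS_add hX h1 h2
            zero := fun {x y} h1 h2 => ?_
            mid := fun a h1 h2 => TreeCS_mid hX a h1 h2
            lin := fun h1 h2 h3 h4 h5 => TreeCS_lin hX h1 h2 h3 h4 h5 }, fun _ _ => Iff.rfl⟩
  · rw [← smul_inv_smul g z] at hz ⊢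
    exact (h.out.smul_side g _ _ _).2 (hxy ((h.out.smul_side g _ _ _).1 hz))
  · have e := TreeCS_fb hX h1
    exact OE.ext (hX.connected.dist_eq_zero_iff.1 h2).symm
      (hX.connected.dist_eq_zero_iff.1 (e.trans h2))

theorem exists_TB' {X : SimpleGraph V} (hX : TreeAction G X) : ∃ D : TB G V,
    (∀ τ s, X.Adj (D.ep τ (!s)) (D.ep τ s)) ∧
    (∀ τ s, D.H τ s = Side X (D.ep τ (!s)) (D.ep τ s)) ∧
    ∀ a b, X.Adj a b → Nonempty D.E := by
  let ep : Quotient (edgeRel X G) → Bool → V := fun τ => τ.out.1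
  have adj : ∀ τ s, X.Adj (ep τ (!s)) (ep τ s) := by
    intro τ s
    cases s
    · exact τ.out.2.symm
    · exact τ.out.2
  have same : ∀ τ τ' (k : G) s s', k • ep τ' s' = ep τ s → k • ep τ' (!s') = ep τ (!s) →
      τ' = τ ∧ ∀ s, k • ep τ s = ep τ s := by
    intro τ τ' k s s' h1 h2
    have : τ' = τ := by
      rw [← Quotient.out_eq τ, ← Quotient.out_eq τ']
      refine Quotient.sound ⟨k, xor s' s, fun t => ?_⟩
      cases t <;> cases s <;> cases s' <;> first | exact h1 | exact h2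
    subst this
    refine ⟨rfl, ?_⟩
    by_cases hs : s' = s
    · subst hs
      intro t
      cases t <;> cases s' <;> first | exact h1 | exact h2
    · rw [Bool.eq_not.2 hs] at h1 h2
      rw [Bool.not_not] at h2
      exact absurd ⟨h1, h2⟩ (hX.2.2 k _ _ (adj τ' s))
  have rep : ∀ a b, X.Adj a b → ∃ (k : G) (τ : Quotient (edgeRel X G)) (s : Bool),
      k • ep τ s = a ∧ k • ep τ (!s) = b := by
    intro a b h
    obtain ⟨g, c, hg⟩ := Quotient.mk_out (s := edgeRel X G) ⟨fun s => cond s b a, h⟩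
    refine ⟨g, _, c, (hg c).trans (by simp), (hg (!c)).trans (by simp)⟩
  refine ⟨{ E := Quotient (edgeRel X G)
            ep := ep
            H := fun τ s => Side X (ep τ (!s)) (ep τ s)
            hmem := fun τ s => mem_side hX.1 (adj τ s)
            hcompl := fun τ s z => by rw [Bool.not_not]; exact side_compl hX.1 (adj τ s) z
            tri := ?_
            hC := fun τ c hc s z hz => by
              rw [← hc s, ← hc (!s)]; exact (hX.smul_side c _ _ z).2 hz
            nest := ?_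
            μ := fun τ z => X.dist (ep τ false) z
            lin := ?_ }, adj, fun _ _ => rfl,
    fun a b h => ⟨Quotient.mk _ ⟨fun s => cond s b a, h⟩⟩⟩
  · intro τ τ' k
    by_contra h
    rw [not_or] at h
    refine h.2 fun s s₁ s₂ h1 => ?_
    by_contra h2
    have hs : s₂ = !s₁ := Bool.eq_not.2 fun e => h2 (e ▸ h1)
    subst hs
    obtain ⟨e1, e2⟩ := side_tri hX.1 (adj τ s) (hX.2.1 k _ _ (adj τ' s₁).symm) h1 h2
    exact h.1 (same τ τ' k s s₁ e1 e2)
  · intro τ τ' s s' g h1 h2 z hz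
    refine side_nest hX.1 (adj τ s) (c := g • ep τ' s') (h1 ▸ hX.2.1 g _ _ (adj τ' s'))
      (fun h3 => h2 (same τ τ' g s (!s') h1 (by rwa [Bool.not_not]))) ?_
    rw [← h1]
    exact (hX.smul_side g _ _ z).2 hz
  · intro τ z
    by_cases h : z = ep τ false
    · exact Or.inl ⟨_, h⟩
    · obtain ⟨z', h1, h2⟩ := tree_closer hX.1 h
      obtain ⟨k, τ', s, e1, e2⟩ := rep z z' h1
      exact Or.inr ⟨k, τ', s, e1, by rwa [e2]⟩

end Pool.Agent.MP_f7db47_al.PT
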