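import Pool.Agent.MP_f7db47_al.PT.Refine
import Pool.Agent.MP_f7db47_al.PT.Split
import Pool.Agent.MP_f7db47_al.PT.Posit
import Pool.Agent.MP_f7db47_al.PT.TreeCS
import Pool.Agent.MP_f7db47_al.TreeMain

/-!
The theorem for actions on finite products of trees.
-/

set_option linter.unusedSectionVars false

namespace Pool.Agent.MP_f7db47_al.PT

open Matrix

universe v

variable {R : Type v} [Ring R]

lemma typT_nil {G : Type} [Group G] {Ω : Type} [MulAction G Ω] {le : Ω → Ω → Prop}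
    (hrefl : ∀ x, le x x) (htrans : ∀ x y z, le x y → le y z → le x z)
    (hsmul : ∀ (g : G) x y, le x y → le (g • x) (g • y)) (h : TypT R G le)
    {J : Type} [Fintype J] [DecidableEq J] (l : J → Ω) {ν : Matrix J J (MonoidAlgebra R G)}
    (hν : MSup2 (fun i j => {g | le (g • l j) (l i)}) ν) (hn : IsNilpotent ν) : T (1 - ν) := by
  obtain ⟨k, hk⟩ := hn
  have h1 : MSup2 (fun i j => {g : G | le (g • l j) (l i)})
      (1 : Matrix J J (MonoidAlgebra R G)) := msup2_one fun i => by simpa using hrefl _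
  have hpow : ∀ n : ℕ, MSup2 (fun i j => {g | le (g • l j) (l i)}) (ν ^ n) := by
    intro n
    induction n with
    | zero => rw [pow_zero]; exact h1
    | succ n ih =>
      rw [pow_succ]
      refine ih.mul hν fun i j m a ha b hb => ?_
      simp only [Set.mem_ofPred_eq] at ha hb ⊢
      rw [mul_smul]
      exact htrans _ _ _ (hsmul a _ _ hb) ha
  refine h J l _ (∑ i ∈ Finset.range k, ν ^ i) (by rw [mul_neg_geom_sum, hk, sub_zero])
    (by rw [geom_sum_mul_neg, hk, sub_zero]) (h1.sub hν) ?_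
  exact Finset.sum_induction _ _ (fun _ _ => MSup2.add) (msup2_zero _) fun i _ => hpow i

theorem g1_step {ι : Type} [Fintype ι] {G : Type} [Group G] {V : ι → Type}
    [∀ τ, MulAction G (V τ)] (X : ∀ τ, SimpleGraph (V τ)) (hX : ∀ τ, TreeAction G (X τ))
    (hfree : FreeM G V) (hcomm : CommG1 R G V)
    (hV : ∀ (τ : ι) (y : V τ), QQ R (MulAction.stabilizer G y)) : G1 R G := by
  classical
  by_cases hE : ∀ τ, Nonempty (OE (X τ))
  swap
  · obtain ⟨τ, hτ⟩ := not_forall.1 hE
    obtain ⟨y⟩ := (hX τ).1.connected.nonempty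
    rw [G1_iff]
    intro J _ _ A hu
    refine T_of_isUnit_msup _ (hV τ y).g1 (fun i j g _ => ?_) hu
    by_contra h
    obtain ⟨z', h1, -⟩ := tree_closer (hX τ).1 (z := g • y) (a := y) h
    exact hτ ⟨⟨_, _, h1⟩⟩
  have := fun τ => Fact.mk (hX τ)
  let x₀ : ∀ τ, OE (X τ) := fun τ => (hE τ).some
  choose c hc using fun τ => exists_CS (G := G) (X τ)
  have hfree' : FreeM G fun τ => OE (X τ) := fun g x hx τ y =>
    have h := hfree g (fun τ => (x τ).a) (fun τ => congrArg OE.a (hx τ)) τ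
    OE.ext (h _) (h _)
  have hcomm' : CommG1 R G fun τ => OE (X τ) := fun H hH => hcomm H fun a ha b hb =>
    hfree.eq (fun τ => (x₀ τ).a) fun τ => congrArg OE.a (hH a ha b hb τ (x₀ τ))
  have hstab : ∀ (τ : ι) (e : OE (X τ)), G1 R (MulAction.stabilizer G e) := fun τ e =>
    ((hV τ e.a).sub (Subgroup.inclusion (H := MulAction.stabilizer G e)
      fun g hg => congrArg OE.a hg) (Subgroup.inclusion_injective _)).g1
  have htop := typT_of_posT c hstab (posT_univ c hfree' hcomm')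
  let le : Finset ι → (∀ τ, OE (X τ)) → (∀ τ, OE (X τ)) → Prop :=
    fun I x y => ∀ τ ∈ I, (c τ).le (x τ) (y τ)
  have hrefl : ∀ I x, le I x x := fun I x τ _ => (c τ).refl _
  have htrans : ∀ I x y z, le I x y → le I y z → le I x z :=
    fun I x y z h1 h2 τ hτ => (c τ).trans (h1 τ hτ) (h2 τ hτ)
  have hsmul : ∀ I (g : G) x y, le I x y → le I (g • x) (g • y) :=
    fun I g x y h τ hτ => (c τ).smul g (h τ hτ)
  have main : ∀ I : Finset ι, TypT R G (le I) → TypT R G (le ∅) := by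
    intro I
    induction I using Finset.induction_on with
    | empty => exact id
    | insert τ I hτ ih =>
      intro h
      obtain ⟨D, hadj, hH, hne⟩ := exists_TB' (hX τ)
      obtain ⟨e₀⟩ := hne _ _ (x₀ τ).adj
      refine ih (typ_core (TB.splitT_std (fun y => (hV τ y).g1) fun σ => ?_) e₀ (hrefl I)
        (htrans I) (hsmul I) fun J _ _ l o ν hν hn => ?_)
      · exact ((hV τ (D.ep σ false)).sub (Subgroup.inclusion (H := D.C σ) fun g hg => hg false)
          (Subgroup.inclusion_injective _)).g0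
      · refine typT_nil (hrefl _) (htrans _) (hsmul _) h
          (fun j => Function.update (l j) τ ⟨_, _, hadj (o j).1 (o j).2⟩)
          (hν.mono fun i j g hg σ hσ => ?_) hn
        rw [Pi.smul_apply]
        rcases Finset.mem_insert.1 hσ with rfl | hσ
        · rw [Function.update_self, Function.update_self, hc]
          intro z hz
          have := hg.2 (g⁻¹ • z) (by
            rw [hH, ← (hX σ).smul_side g, smul_inv_smul]; exact hz)
          rwa [smul_inv_smul, hH] at this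
        · have hne : σ ≠ τ := fun e => hτ (e ▸ hσ)
          rw [Function.update_of_ne hne, Function.update_of_ne hne]
          exact hg.1 σ hσ
  have h0 := main Finset.univ fun J _ _ l a b h1 h2 ha hb => htop J l a b h1 h2
    (ha.mono fun i j g hg τ => hg τ (Finset.mem_univ τ))
    (hb.mono fun i j g hg τ => hg τ (Finset.mem_univ τ))
  intro J _ _ A B h1 h2
  exact h0 J (fun _ => x₀) A B h1 h2 (fun i j g _ τ hτ => absurd hτ (Finset.notMem_empty τ))
    fun i j g _ τ hτ => absurd hτ (Finset.notMem_empty τ)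

theorem qq_trees (k : ℕ) : ∀ (ι : Type) [Fintype ι], Fintype.card ι = k →
    ∀ (G : Type) [Group G] (V : ι → Type) [∀ τ, MulAction G (V τ)]
      (X : ∀ τ, SimpleGraph (V τ)), (∀ τ, TreeAction G (X τ)) → FreeM G V →
      (∀ H : Subgroup G, (∀ a ∈ H, ∀ b ∈ H, ∀ (τ : ι) (y : V τ), (a * b) • y = (b * a) • y) →
        QQ R H) → QQ R G := by
  induction k using Nat.strong_induction_on with
  | _ k ih =>
  intro ι _ hk G _ V _ X hX hfree hcomm P _ hP Δ _ f hf
  classical
  let p : Δ →* G := (MonoidHom.fst _ _).comp f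
  let _ : ∀ τ, MulAction Δ (V τ) := fun τ => MulAction.compHom (V τ) p
  have hp : ∀ (τ : ι) (g : Δ) (y : V τ), g • y = p g • y := fun _ _ _ => rfl
  have hX' : ∀ τ, TreeAction Δ (X τ) := fun τ =>
    ⟨(hX τ).1, fun g => (hX τ).2.1 (p g), fun g => (hX τ).2.2 (p g)⟩
  have hfree' : FreeM Δ V := fun g => hfree (p g)
  have hcomm' : ∀ H : Subgroup Δ,
      (∀ a ∈ H, ∀ b ∈ H, ∀ (τ : ι) (y : V τ), (a * b) • y = (b * a) • y) → QQ R H := by
    intro H hH
    refine qq_of_le' hP f hf (H.map p) (hcomm _ ?_) H fun x hx => ⟨x, hx, rfl⟩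
    rintro _ ⟨a, ha, rfl⟩ _ ⟨b, hb, rfl⟩ τ y
    rw [← map_mul, ← map_mul]
    exact hH a ha b hb τ y
  refine g1_step X hX' hfree' (fun H hH => (hcomm' H hH).g1) fun τ y => ?_
  have ext : ∀ x : ∀ σ : {σ // σ ≠ τ}, V σ.1, ∃ x' : ∀ σ, V σ, x' τ = y ∧
      ∀ σ (h : σ ≠ τ), x' σ = x ⟨σ, h⟩ := fun x =>
    ⟨fun σ => if h : σ = τ then h ▸ y else x ⟨σ, h⟩, by simp, fun σ h => dif_neg h⟩
  refine ih _ (hk ▸ Fintype.card_subtype_lt (p := fun σ => σ ≠ τ) (x := τ) (by simp))
    {σ // σ ≠ τ} rfl (MulAction.stabilizer Δ y) (fun σ => V σ.1) (fun σ => X σ.1)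
    (fun σ => ⟨(hX σ.1).1, fun g => (hX' σ.1).2.1 g.1, fun g => (hX' σ.1).2.2 g.1⟩)
    (fun g x hx σ z => ?_) fun H hH => ?_
  · obtain ⟨x', h1, h2⟩ := ext x
    refine hfree' g.1 x' (fun σ => ?_) σ.1 z
    by_cases h : σ = τ
    · subst h; rw [h1]; exact g.2
    · rw [h2 σ h]; exact hx ⟨σ, h⟩
  · refine (hcomm' (H.map (MulAction.stabilizer Δ y).subtype) ?_).sub
      (H.equivMapOfInjective _ (Subgroup.subtype_injective _)).toMonoidHom (MulEquiv.injective _)
    rintro _ ⟨a, ha, rfl⟩ _ ⟨b, hb, rfl⟩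
    obtain ⟨x', h1, h2⟩ := ext fun σ => (hX σ.1).1.connected.nonempty.some
    refine hfree'.eq x' fun σ => ?_
    by_cases h : σ = τ
    · subst h; rw [h1]; exact (a * b).2.trans (b * a).2.symm
    · rw [h2 σ h]; exact hH a ha b hb ⟨σ, h⟩ _

end Pool.Agent.MP_f7db47_al.PT
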