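import Pool.Agent.MP_f7db47_al.PT.WDefs

set_option linter.unusedSectionVars false

namespace Pool.Agent.MP_f7db47_al.PT

open Matrix

universe u v w

variable {R : Type v} [Ring R] {G : Type u} [Group G]
variable {ι : Type} [Fintype ι] {V : ι → Type w} [∀ τ, MulAction G (V τ)]

theorem posPer_conv (hfree : FreeM G V) {ρ r₀ r S A : ℕ} (h1 : 2 * A + r ≤ S) (h2 : S + r ≤ ρ)
    {c x c' : Win V} (hc : PosPer G S A c) (hc' : PosPer G S A c')
    (ha : (Sp G ρ r₀ r c x).Nonempty) (hb : (Sp G ρ r₀ r x c').Nonempty) : PosPer G S A x := by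
  obtain ⟨γ, v, hv, hγ⟩ := hc
  obtain ⟨γ', v', hv', hγ'⟩ := hc'
  obtain ⟨g, d, hd, hdr, hg⟩ := ha
  obtain ⟨h, e, he, her, hh⟩ := hb
  have k1 : ∀ τ (t : ℤ), -(S : ℤ) ≤ t + d τ → t + d τ + v τ ≤ S →
      (g⁻¹ * γ * g) • x τ t = x τ (t + v τ) := by
    intro τ t a b
    have := hv τ
    have := hd.1 τ
    have := hdr τ
    rw [mul_smul, mul_smul, hg τ t (by omega) (by omega),
      hγ τ _ (abs_le.2 ⟨a, by omega⟩) (abs_le.2 ⟨by omega, b⟩), inv_smul_eq_iff,
      hg τ _ (by omega) (by omega)]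
    congr 1
    ring
  have k2 : ∀ τ (t : ℤ), -(S : ℤ) ≤ t - e τ → t - e τ + v' τ ≤ S →
      (h * γ' * h⁻¹) • x τ t = x τ (t + v' τ) := by
    intro τ t a b
    have := hv' τ
    have := he.1 τ
    have := her τ
    have e1 : h⁻¹ • x τ t = c' τ (t - e τ) := by
      rw [inv_smul_eq_iff, hh τ _ (by omega) (by omega), sub_add_cancel]
    rw [mul_smul, mul_smul, e1, hγ' τ _ (abs_le.2 ⟨a, by omega⟩) (abs_le.2 ⟨by omega, b⟩),
      hh τ _ (by omega) (by omega)]
    congr 1
    ring
  generalize g⁻¹ * γ * g = g1 at k1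
  generalize h * γ' * h⁻¹ = g2 at k2
  have hcom := hfree.eq (a := g1 * g2) (b := g2 * g1) (fun τ => x τ 0) (fun τ => by
    have := hv τ
    have := hv' τ
    have := hd.1 τ
    have := hdr τ
    have := he.1 τ
    have := her τ
    rw [mul_smul, mul_smul, k2 τ 0 (by omega) (by omega), k1 τ 0 (by omega) (by omega),
      k1 τ _ (by omega) (by omega), k2 τ _ (by omega) (by omega)]
    congr 1
    ring)
  refine ⟨g1, v, hv, fun τ => ?_⟩
  have key : ∀ n : ℕ, ∀ t : ℤ, (t + S).toNat = n → -(S : ℤ) ≤ t → t + v τ ≤ S →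
      g1 • x τ t = x τ (t + v τ) := by
    have := hv τ
    have := hv' τ
    have := hd.1 τ
    have := hdr τ
    have := he.1 τ
    have := her τ
    intro n
    induction n using Nat.strong_induction_on with
    | _ n ih =>
      intro t hn a b
      by_cases hle : t + d τ + v τ ≤ S
      · exact k1 τ t (by omega) hle
      · have e1 : x τ t = g2 • x τ (t - v' τ) := by
          rw [k2 τ _ (by omega) (by omega), sub_add_cancel]
        rw [e1, ← mul_smul, hcom, mul_smul, ih _ (by omega) _ rfl (by omega) (by omega),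
          k2 τ _ (by omega) (by omega)]
        congr 1
        ring
  intro t a b
  exact key _ t rfl (abs_le.1 a).1 (abs_le.1 b).2

end Pool.Agent.MP_f7db47_al.PT
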