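import Pool.Agent.MP_f7db47_al.PT.Orb

set_option linter.unusedSectionVars false

namespace Pool.Agent.MP_f7db47_al.PT

open Matrix

universe u v w

variable {R : Type v} [Ring R] {G : Type u} [Group G]
variable {ι : Type} [Fintype ι] {V : ι → Type w} [∀ τ, MulAction G (V τ)]

/-- Two sequences with the same period that agree on one period agree. -/
theorem Win0H_agree {Y : Type w} [MulAction G Y] (γ : G) {v S : ℤ} (hv : 1 ≤ v) (hS : v ≤ S)
    {f h : ℤ → Y} (hf : ∀ t, |t| ≤ S → |t + v| ≤ S → γ • f t = f (t + v))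
    (hh : ∀ t, |t| ≤ S → |t + v| ≤ S → γ • h t = h (t + v))
    (h0 : ∀ t, 0 ≤ t → t < v → f t = h t) (t : ℤ) (ht : |t| ≤ S) : f t = h t := by
  have key : ∀ (n : ℕ) (t : ℤ), t.natAbs ≤ n → |t| ≤ S → f t = h t := by
    intro n
    induction n with
    | zero => intro t h1 _; exact h0 t (by omega) (by omega)
    | succ n ih =>
      intro t h1 h2
      rw [abs_le] at h2
      by_cases c : 0 ≤ t
      · by_cases c' : t < v
        · exact h0 t c c'
        · have a1 : |t - v| ≤ S := abs_le.2 ⟨by omega, by omega⟩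
          have a2 : |t - v + v| ≤ S := abs_le.2 ⟨by omega, by omega⟩
          have e1 := hf _ a1 a2
          have e2 := hh _ a1 a2
          rw [sub_add_cancel] at e1 e2
          rw [← e1, ← e2, ih (t - v) (by omega) a1]
      · have a1 : |t| ≤ S := abs_le.2 h2
        have a2 : |t + v| ≤ S := abs_le.2 ⟨by omega, by omega⟩
        apply MulAction.injective γ
        show γ • f t = γ • h t
        rw [hf _ a1 a2, hh _ a1 a2]
        by_cases c' : 0 ≤ t + v
        · exact h0 _ c' (by omega)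
        · exact ih (t + v) (by omega) a2
  exact key _ t le_rfl ht

theorem Win0H_agree' {Y : Type w} [MulAction G Y] (γ : G) {v : ℤ} (hv : 1 ≤ v)
    {f h : ℤ → Y} (hf : ∀ t, γ • f t = f (t + v)) (hh : ∀ t, γ • h t = h (t + v))
    (h0 : ∀ t, 0 ≤ t → t < v → f t = h t) (t : ℤ) : f t = h t :=
  Win0H_agree γ (S := |t| + v) hv (by have := abs_nonneg t; omega) (fun t _ _ => hf t)
    (fun t _ _ => hh t) h0 t (by omega)

/-- A window with a short period extends to a window that is periodic everywhere. -/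
theorem Win0H_ext {S A : ℕ} (hA : A ≤ S) {x : Win V} (hx : PosPer G S A x) :
    ∃ (w : Win V) (γ : G) (v : ι → ℤ), (∀ τ, 1 ≤ v τ ∧ v τ ≤ A) ∧
      (∀ τ t, γ • w τ t = w τ (t + v τ)) ∧ ∀ τ (t : ℤ), |t| ≤ S → w τ t = x τ t := by
  obtain ⟨γ, v, hv, hp⟩ := hx
  have E1 : ∀ τ t, γ • (γ ^ (t / v τ) • x τ (t % v τ)) =
      γ ^ ((t + v τ) / v τ) • x τ ((t + v τ) % v τ) := by
    intro τ t
    have h0 : v τ ≠ 0 := by have := (hv τ).1; omega
    rw [Int.add_emod_right, Int.add_ediv_of_dvd_right (dvd_refl _), Int.ediv_self h0, add_comm,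
      _root_.zpow_add, zpow_one, mul_smul]
  refine ⟨fun τ t => γ ^ (t / v τ) • x τ (t % v τ), γ, v, hv, E1, fun τ t ht => ?_⟩
  refine Win0H_agree γ (S := S) (hv τ).1 (by have := (hv τ).2; omega)
    (f := fun t => γ ^ (t / v τ) • x τ (t % v τ)) (fun t _ _ => E1 τ t) (hp τ) ?_ t ht
  intro s h1 h2
  show γ ^ (s / v τ) • x τ (s % v τ) = x τ s
  rw [Int.ediv_eq_zero_of_lt h1 h2, Int.emod_eq_of_lt h1 h2, zpow_zero, one_smul]

/-- Two periodic windows that agree on a long enough interval agree. -/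
theorem Win0H_uniq (hfree : FreeM G V) {A : ℕ} {u w : Win V} {a b : G} {p q : ι → ℤ}
    (hp : ∀ τ, 1 ≤ p τ ∧ p τ ≤ A) (hq : ∀ τ, 1 ≤ q τ ∧ q τ ≤ A)
    (hu : ∀ τ t, a • u τ t = u τ (t + p τ)) (hw : ∀ τ t, b • w τ t = w τ (t + q τ))
    (h : ∀ τ (t : ℤ), 0 ≤ t → t ≤ 2 * A → u τ t = w τ t) (τ : ι) (t : ℤ) : u τ t = w τ t := by
  have hc : ∀ (τ : ι) (y : V τ), (b * a) • y = (a * b) • y := by
    refine hfree.eq (fun τ => w τ 0) fun σ => ?_
    have h1 := hp σ
    have h2 := hq σ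
    rw [mul_smul, mul_smul, hw, ← h σ (0 + q σ) (by omega) (by omega), hu,
      ← h σ 0 (by omega) (by omega), hu, h σ (0 + p σ) (by omega) (by omega), hw,
      h σ _ (by omega) (by omega)]
    congr 1
    ring
  have h1 := hp τ
  have h2 := hq τ
  have hw' : ∀ t, a • w τ t = w τ (t + p τ) := by
    refine Win0H_agree' b h2.1 (f := fun t => a • w τ t) (h := fun t => w τ (t + p τ))
      (fun s => ?_) (fun s => ?_) (fun s s1 s2 => ?_)
    · show b • a • w τ s = a • w τ (s + q τ)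
      rw [← mul_smul, hc, mul_smul, hw]
    · show b • w τ (s + p τ) = w τ (s + q τ + p τ)
      rw [hw, add_right_comm]
    · show a • w τ s = w τ (s + p τ)
      rw [← h τ s s1 (by omega), hu, h τ _ (by omega) (by omega)]
  exact Win0H_agree' a h1.1 (hu τ) hw' (fun s s1 s2 => h τ s s1 (by omega)) t

theorem posPer_hol (hfree : FreeM G V) (hcomm : CommG1 R G V) {ρ r₀ r S A : ℕ}
    (h1 : 2 * A + r ≤ S) (h2 : S ≤ ρ) (J : Type) [Fintype J] [DecidableEq J] (l : J → Win V)
    (hl : ∀ j, PosPer G S A (l j)) (a : Matrix J J (MonoidAlgebra R G))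
    (ha : MSup2 (fun i j => Sp G ρ r₀ r (l i) (l j)) a) (hu : IsUnit a) : T a := by
  choose w γ v hv hw hwl using fun j => Win0H_ext (by omega) (hl j)
  refine T_of_groupoid (fun i j => {g | ∃ e : ι → ℤ, ∀ τ t, g • w j τ t = w i τ (t + e τ)})
    (fun i => ⟨0, fun τ t => by simp⟩) ?_ ?_ ?_ (ha.mono ?_) hu
  · rintro i j k a ⟨d, hd⟩ b ⟨e, he⟩
    refine ⟨e + d, fun τ t => ?_⟩
    rw [mul_smul, he, hd, Pi.add_apply, add_assoc]
  · rintro i j a ⟨d, hd⟩
    refine ⟨-d, fun τ t => ?_⟩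
    rw [inv_smul_eq_iff, hd, Pi.neg_apply, neg_add_cancel_right]
  · intro i H hH
    refine hcomm H fun a ha b hb => ?_
    rw [← SetLike.mem_coe, hH] at ha hb
    obtain ⟨d, hd⟩ := ha
    obtain ⟨e, he⟩ := hb
    refine hfree.eq (fun τ => w i τ 0) fun σ => ?_
    rw [mul_smul, mul_smul, he, hd, hd, he, add_right_comm]
  · rintro i j g ⟨d, hd1, hd2, hd3⟩
    have key := Win0H_uniq hfree (u := fun τ t => g • w j τ (t - d τ)) (w := w i)
      (a := g * γ j * g⁻¹) (hv j) (hv i) (fun τ t => ?_) (hw i) (fun τ t t1 t2 => ?_)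
    · refine ⟨d, fun τ t => ?_⟩
      have := key τ (t + d τ)
      simp only [add_sub_cancel_right] at this
      exact this
    · show (g * γ j * g⁻¹) • g • w j τ (t - d τ) = g • w j τ (t + v j τ - d τ)
      rw [mul_smul, inv_smul_smul, mul_smul, hw, sub_add_eq_add_sub]
    · show g • w j τ (t - d τ) = w i τ t
      have a1 := hd1.1 τ
      have a2 := hd2 τ
      rw [hwl j τ _ (abs_le.2 ⟨by omega, by omega⟩), hd3 τ _ (by omega) (by omega),
        sub_add_cancel, hwl i τ _ (abs_le.2 ⟨by omega, by omega⟩)]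

end Pool.Agent.MP_f7db47_al.PT
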