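import Pool.Agent.MP_f7db47_al.PT.WDefs

set_option linter.unusedSectionVars false

namespace Pool.Agent.MP_f7db47_al.PT

open Matrix

universe u v w

variable {R : Type v} [Ring R] {G : Type u} [Group G]
variable {ι : Type} [Fintype ι] {V : ι → Type w} [∀ τ, MulAction G (V τ)]

theorem Marks.transfer {S A L ρ : ℕ} (M : Marks G V S A L) {x y : Win V} {g : G} {d : ι → ℤ}
    (h : Arr ρ x y g d) (q : ℕ) (m : ι → ℤ) (h1 : ∀ τ, -(ρ : ℤ) + L ≤ m τ)
    (h2 : ∀ τ, m τ + d τ + L ≤ ρ) : M.Mk q x (m + d) ↔ M.Mk q y m := by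
  refine M.loc q x y _ _ g fun τ s hs => ?_
  have := h1 τ
  have := h2 τ
  rw [abs_le] at hs
  simp only [sh, Pi.add_apply]
  rw [h τ _ (by omega) (by omega)]
  congr 1
  ring

theorem Marks.conv {S A L : ℕ} (M : Marks G V S A L) {ρ r₀ t r q : ℕ} (hr : 1 ≤ r₀)
    (hA : 8 * t * r₀ + 2 * r ≤ A) (hρ : 4 * t * r₀ + r + L ≤ ρ) {c x c' : Win V}
    (hc : c ∈ M.piece r₀ t q) (hc' : c' ∈ M.piece r₀ t q)
    (ha : (Sp G ρ r₀ r c x).Nonempty) (hb : (Sp G ρ r₀ r x c').Nonempty) :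
    x ∈ M.piece r₀ t q := by
  obtain ⟨m₁, -, hm₁, -, b₁, -, c₁, -⟩ := hc
  obtain ⟨-, m₂, -, hm₂, -, b₂, -, c₂⟩ := hc'
  obtain ⟨g, d, d1, d2, d3⟩ := ha
  obtain ⟨h, e, e1, e2, e3⟩ := hb
  have hA' : 2 * (4 * (t : ℤ) * r₀) + 2 * r ≤ A := by
    have : ((8 * t * r₀ + 2 * r : ℕ) : ℤ) ≤ A := by exact_mod_cast hA
    push_cast at this
    linarith
  have hρ' : 4 * (t : ℤ) * r₀ + r + L ≤ ρ := by exact_mod_cast hρ
  have hr' : (1 : ℤ) ≤ r₀ := by exact_mod_cast hr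
  have ht : (0 : ℤ) ≤ t := Int.natCast_nonneg t
  have ht' : 2 * (t : ℤ) ≤ 4 * t * r₀ := by nlinarith
  simp only [abs_le] at b₁ b₂
  have k₁ : M.Mk q x (m₁ - d) := (M.transfer d3 q (m₁ - d)
    (fun τ => by have := b₁ τ; have := d2 τ; simp only [Pi.sub_apply]; linarith)
    fun τ => by have := b₁ τ; simp only [Pi.sub_apply]; linarith).1 (by rwa [sub_add_cancel])
  have k₂ : M.Mk q x (m₂ + e) := (M.transfer e3 q m₂ (fun τ => by have := b₂ τ; linarith)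
    fun τ => by have := b₂ τ; have := e2 τ; linarith).2 hm₂
  have f₁ : Cone r₀ fun τ => 2 * t - (m₁ - d) τ := by
    convert c₁.add d1 using 2 with τ
    simp only [Pi.sub_apply, Pi.add_apply]
    ring
  have f₂ : Cone r₀ fun τ => (m₂ + e) τ + 2 * t := by
    convert c₂.add e1 using 2 with τ
    simp only [Pi.add_apply]
    ring
  have hd : ∀ τ, |(m₁ - d) τ - (m₂ + e) τ| ≤ A := fun τ => by
    have := b₁ τ
    have := b₂ τ
    have := d1.1 τ
    have := d2 τ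
    have := e1.1 τ
    have := e2 τ
    simp only [Pi.sub_apply, Pi.add_apply, abs_le]
    constructor <;> linarith
  generalize m₁ - d = m at k₁ f₁ hd
  generalize m₂ + e = m' at k₂ f₂ hd
  obtain ⟨γ, hγ⟩ := M.sep q x m m' k₁ k₂ hd
  obtain ⟨σ, hσ⟩ : ∃ σ, m' σ - m σ ≤ 0 := by
    by_contra hn
    push Not at hn
    refine M.npos q x m k₁ ⟨γ, m' - m, fun τ => ⟨hn τ, ?_⟩, fun τ s hs _ => ?_⟩
    · have := (abs_le.1 (hd τ)).1
      simp only [Pi.sub_apply]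
      linarith
    · rw [hγ τ s hs]
      simp only [sh, Pi.sub_apply]
      congr 1
      ring
  have a₁ := f₁.1 σ
  have a₂ := f₂.1 σ
  refine ⟨m, m', k₁, k₂, fun τ => ?_, fun τ => ?_, f₁, f₂⟩
  · have a₃ := f₁.1 τ
    have a₄ := f₁.2 τ σ
    have a₅ : (r₀ : ℤ) * (2 * t - m σ) ≤ r₀ * (4 * t) :=
      mul_le_mul_of_nonneg_left (by linarith) (by linarith)
    rw [abs_le]
    constructor <;> linarith
  · have a₃ := f₂.1 τ
    have a₄ := f₂.2 τ σ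
    have a₅ : (r₀ : ℤ) * (m' σ + 2 * t) ≤ r₀ * (4 * t) :=
      mul_le_mul_of_nonneg_left (by linarith) (by linarith)
    rw [abs_le]
    constructor <;> linarith

theorem Marks.cover {S A L : ℕ} (M : Marks G V S A L) {r₀ t q : ℕ} (hr : 3 ≤ r₀) {x : Win V}
    {m : ι → ℤ} (h : M.Mk q x m) (hm : ∀ τ, |m τ| ≤ t) : x ∈ M.piece r₀ t q := by
  have hr' : (3 : ℤ) ≤ r₀ := by exact_mod_cast hr
  have ht : (0 : ℤ) ≤ t := Int.natCast_nonneg t
  have key : ∀ y : ι → ℤ, (∀ τ, t ≤ y τ ∧ y τ ≤ 3 * t) → Cone r₀ y := fun y hy =>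
    ⟨fun τ => ht.trans (hy τ).1, fun τ σ => by
      have := hy τ
      have := hy σ
      nlinarith⟩
  have hb : ∀ τ, |m τ| ≤ 4 * t * r₀ := fun τ => (hm τ).trans (by nlinarith)
  simp only [abs_le] at hm
  exact ⟨m, m, h, h, hb, hb, key _ fun τ => by have := hm τ; omega,
    key _ fun τ => by have := hm τ; omega⟩

end Pool.Agent.MP_f7db47_al.PT
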