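import Pool.Agent.MP_f7db47_al.PT.Orb
import Pool.Agent.MP_f7db47_al.PT.Win1

set_option linter.unusedSectionVars false

namespace Pool.Agent.MP_f7db47_al.PT

open Matrix

universe u v w

variable {R : Type v} [Ring R] {G : Type u} [Group G]
variable {ι : Type} [Fintype ι] {V : ι → Type w} [∀ τ, MulAction G (V τ)]

/-- the group generated by the short periods -/
def Win1H_grp (G : Type u) [Group G] [∀ τ, MulAction G (V τ)] (S A : ℕ) (x : Win V) : Subgroup G :=
  Subgroup.closure {γ | ∃ v : ι → ℤ, (∀ τ, |v τ| ≤ A) ∧ Per S x γ v}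

lemma Win1H_symm {S : ℕ} {x y : Win V} {k : G} (h : Eqv S x y k) : Eqv S y x k⁻¹ :=
  fun τ t ht => by rw [inv_smul_eq_iff, h τ t ht]

lemma Win1H_trans {S : ℕ} {x y z : Win V} {k k' : G} (h : Eqv S x y k) (h' : Eqv S y z k') :
    Eqv S x z (k * k') := fun τ t ht => by rw [mul_smul, h' τ t ht, h τ t ht]

lemma Win1H_conj {S A : ℕ} {x y : Win V} {k γ : G} (h : Eqv S x y k)
    (hγ : γ ∈ Win1H_grp G S A y) : k * γ * k⁻¹ ∈ Win1H_grp G S A x := by
  induction hγ using Subgroup.closure_induction with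
  | mem γ hγ =>
    obtain ⟨v, h1, h2⟩ := hγ
    refine Subgroup.subset_closure ⟨v, h1, fun τ t ht ht' => ?_⟩
    rw [mul_smul, mul_smul, Win1H_symm h τ t ht, h2 τ t ht ht', h τ _ ht']
  | one => simp
  | mul a b _ _ ha hb =>
    have e : k * (a * b) * k⁻¹ = k * a * k⁻¹ * (k * b * k⁻¹) := by group
    rw [e]
    exact mul_mem ha hb
  | inv a _ ha =>
    have e : k * a⁻¹ * k⁻¹ = (k * a * k⁻¹)⁻¹ := by group
    rw [e]
    exact inv_mem ha

lemma Win1H_self {S A : ℕ} {x : Win V} {k : G} (h : Eqv S x x k) : k ∈ Win1H_grp G S A x :=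
  Subgroup.subset_closure ⟨0, fun τ => by simp, fun τ t ht _ => by simpa using h τ t ht⟩

lemma Win1H_ext {s : Set G} {a : G}
    (h : ∀ b ∈ s, ∀ (τ : ι) (y : V τ), (a * b) • y = (b * a) • y) :
    ∀ b ∈ Subgroup.closure s, ∀ (τ : ι) (y : V τ), (a * b) • y = (b * a) • y := by
  intro b hb
  simp only [mul_smul] at h ⊢
  induction hb using Subgroup.closure_induction with
  | mem b hb => exact h b hb
  | one => simp
  | mul b c _ _ hb hc =>
    intro τ y
    rw [mul_smul, mul_smul, hb, hc]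
  | inv b _ hb =>
    intro τ y
    rw [eq_inv_smul_iff, ← hb, smul_inv_smul]

lemma Win1H_comm (hfree : FreeM G V) {S A : ℕ} (hS : 2 * A ≤ S) (x : Win V) :
    ∀ a ∈ Win1H_grp G S A x, ∀ b ∈ Win1H_grp G S A x, ∀ (τ : ι) (y : V τ),
      (a * b) • y = (b * a) • y := by
  intro a ha
  refine Win1H_ext fun b hb τ y => (Win1H_ext (fun c hc => ?_) a ha τ y).symm
  obtain ⟨v, h1, h2⟩ := hb
  obtain ⟨w, h3, h4⟩ := hc
  refine hfree.eq (fun σ => x σ 0) fun σ => ?_
  have h5 := abs_le.1 (h1 σ)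
  have h6 := abs_le.1 (h3 σ)
  rw [mul_smul, mul_smul, h4 σ 0 (by simp) (abs_le.2 (by omega)),
    h2 σ 0 (by simp) (abs_le.2 (by omega)), h2 σ _ (abs_le.2 (by omega)) (abs_le.2 (by omega)),
    h4 σ _ (abs_le.2 (by omega)) (abs_le.2 (by omega))]
  congr 1
  ring

theorem Marks.hol {S A L : ℕ} (M : Marks G V S A L) (hfree : FreeM G V) (hcomm : CommG1 R G V)
    {ρ r₀ t r q : ℕ} (hA : 8 * t * r₀ + r ≤ A) (hS : 2 * A ≤ S) (hL : S ≤ L)
    (hρ : 4 * t * r₀ + r + L ≤ ρ) (J : Type) [Fintype J] [DecidableEq J] (l : J → Win V)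
    (hl : ∀ j, l j ∈ M.piece r₀ t q) (a : Matrix J J (MonoidAlgebra R G))
    (ha : MSup2 (fun i j => Sp G ρ r₀ r (l i) (l j)) a) (hu : IsUnit a) : T a := by
  choose m m' hm _ hb _ using hl
  refine T_of_groupoid (fun i j => {g | ∃ γ ∈ Win1H_grp G S A (sh (l i) (m i)), ∃ k,
    Eqv S (sh (l i) (m i)) (sh (l j) (m j)) k ∧ g = γ * k}) (fun i => ?_) ?_ ?_ ?_ ?_ hu
  · exact ⟨1, one_mem _, 1, fun τ t _ => one_smul _ _, (mul_one 1).symm⟩
  · rintro i j n _ ⟨γ, h1, k, h2, rfl⟩ _ ⟨γ', h3, k', h4, rfl⟩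
    exact ⟨_, mul_mem h1 (Win1H_conj h2 h3), _, Win1H_trans h2 h4, by group⟩
  · rintro i j _ ⟨γ, h1, k, h2, rfl⟩
    exact ⟨_, Win1H_conj (Win1H_symm h2) (inv_mem h1), _, Win1H_symm h2, by group⟩
  · intro i H hH
    have h1 : ∀ g ∈ H, g ∈ Win1H_grp G S A (sh (l i) (m i)) := fun g hg => by
      have h2 : g ∈ (H : Set G) := hg
      rw [hH] at h2
      obtain ⟨γ, h3, k, h4, rfl⟩ := h2
      exact mul_mem h3 (Win1H_self h4)
    exact hcomm H fun a ha b hb => Win1H_comm hfree hS _ a (h1 a ha) b (h1 b hb)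
  · refine fun i j => (ha i j).mono ?_
    rintro g ⟨d, hd, hr, hg⟩
    have hA' : 2 * (4 * (t : ℤ) * r₀) + r ≤ A := by
      have : ((8 * t * r₀ + r : ℕ) : ℤ) ≤ A := by exact_mod_cast hA
      push_cast at this
      linarith
    have hρ' : 4 * (t : ℤ) * r₀ + r + L ≤ ρ := by exact_mod_cast hρ
    have hi := fun τ => abs_le.1 (hb i τ)
    have hj := fun τ => abs_le.1 (hb j τ)
    generalize 4 * (t : ℤ) * r₀ = B at hA' hρ' hi hj
    have h1 : M.Mk q (l i) (m j + d) := (M.transfer hg q (m j)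
      (fun τ => by have := hj τ; omega)
      (fun τ => by have := hj τ; have := hr τ; omega)).2 (hm j)
    have h2 : ∀ τ, |m i τ - (m j + d) τ| ≤ A := fun τ => by
      have := hi τ
      have := hj τ
      have := hr τ
      have := hd.1 τ
      rw [Pi.add_apply, abs_le]
      omega
    obtain ⟨γ, hγ⟩ := M.sep q (l i) _ _ (hm i) h1 h2
    refine ⟨γ, Subgroup.subset_closure ⟨fun τ => (m j + d) τ - m i τ,
      fun τ => by rw [abs_sub_comm]; exact h2 τ, fun τ s hs _ => ?_⟩, γ⁻¹ * g, fun τ s hs => ?_,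
      by group⟩
    · rw [hγ τ s hs]
      simp only [sh]
      congr 1
      ring
    · have h3 := abs_le.1 hs
      have := hj τ
      have := hr τ
      rw [mul_smul, inv_smul_eq_iff, hγ τ s hs]
      simp only [sh]
      rw [hg τ _ (by omega) (by omega), Pi.add_apply]
      congr 1
      ring

end Pool.Agent.MP_f7db47_al.PT
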