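import Pool.Agent.MP_f7db47_al.PT.Elim
import Pool.Agent.MP_f7db47_al.PT.MarkW
import Pool.Agent.MP_f7db47_al.PT.Win0
import Pool.Agent.MP_f7db47_al.PT.Win0H
import Pool.Agent.MP_f7db47_al.PT.Win1H

/-!
The elimination theorem for matrices typed by windows.
-/

set_option linter.unusedSectionVars false

namespace Pool.Agent.MP_f7db47_al.PT

open Matrix

universe u v w

variable {R : Type v} [Ring R] {G : Type u} [Group G]
variable {ι : Type} [Fintype ι] {V : ι → Type w} [∀ τ, MulAction G (V τ)]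

theorem win_core (hfree : FreeM G V) (hcomm : CommG1 R G V) (r₀ : ℕ) (hr : 3 ≤ r₀) :
    ∃ S : ℕ, ∀ n : ℕ, ∃ ρ : ℕ, S ≤ ρ ∧ ∀ (cand : Fin n → Win V) (J : Type) [Fintype J]
      [DecidableEq J] (l : J → Win V),
      (∀ j, ∃ i, ∀ (τ : ι) (s : ℤ), |s| ≤ S → l j τ s = cand i τ s) →
      ∀ a b : Matrix J J (MonoidAlgebra R G), a * b = 1 → b * a = 1 →
        MSup2 (fun i j => Sp G ρ r₀ r₀ (l i) (l j)) a →
        MSup2 (fun i j => Sp G ρ r₀ r₀ (l i) (l j)) b → T a := by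
  obtain ⟨C, hC⟩ : ∃ C, C = 8 * r₀ + 2 := ⟨_, rfl⟩
  obtain ⟨N, hN⟩ : ∃ N, N = (2 * C + 1) ^ Fintype.card ι + 1 := ⟨_, rfl⟩
  obtain ⟨t, ht⟩ : ∃ t, t = 3 ^ (N + 1) * r₀ := ⟨_, rfl⟩
  obtain ⟨A, hA⟩ : ∃ A, A = C * t := ⟨_, rfl⟩
  have hA' : A = 8 * t * r₀ + 2 * t := by rw [hA, hC]; ring
  obtain ⟨S, hS⟩ : ∃ S, S = 2 * A + t := ⟨_, rfl⟩
  refine ⟨S, fun n => ?_⟩
  obtain ⟨L, hL⟩ : ∃ L, L = N * n * A + S := ⟨_, rfl⟩
  refine ⟨4 * t * r₀ + t + L, by omega, fun cand J _ _ l hl a b hab hba ha hb => ?_⟩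
  have hex := exists_Marks (G := G) S A t C n hA.le (by omega) cand
  rw [← hN, ← hL] at hex
  obtain ⟨M, hM⟩ := hex
  refine elim_loop (Sp G (4 * t * r₀ + t + L) r₀) (fun r r' h x y => Sp.mono h x y)
    (fun r r' x y z a ha b hb => Sp.mul ha hb) (N + 1) r₀
    {x | ∃ i, ∀ (τ : ι) (s : ℤ), |s| ≤ S → x τ s = cand i τ s}
    (fun q => Nat.casesOn q {x | PosPer G S A x} fun q => M.piece r₀ t q) ?_ ?_ ?_ J l hl a b
    hab hba ha hb
  · intro x hx
    by_cases h : PosPer G S A x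
    · exact ⟨0, by omega, h⟩
    · obtain ⟨q, hq, m, h1, h2⟩ := hM x hx h
      exact ⟨q + 1, by omega, M.cover hr h1 h2⟩
  · rw [← ht]
    intro q _ c x c' hc hc' h1 h2
    cases q with
    | zero => exact posPer_conv hfree (by omega) (by omega) hc hc' h1 h2
    | succ q => exact M.conv (by omega) (by omega) le_rfl hc hc' h1 h2
  · rw [← ht]
    intro q _ J _ _ l a hl ha hu
    cases q with
    | zero => exact posPer_hol hfree hcomm (by omega) (by omega) J l hl a ha hu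
    | succ q =>
      exact M.hol hfree hcomm (by omega) (by omega) (by omega) le_rfl J l hl a ha hu

end Pool.Agent.MP_f7db47_al.PT
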