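import Pool.Agent.MP_f7db47_al.PT.Chain
import Pool.Agent.MP_f7db47_al.PT.Lift
import Pool.Agent.MP_f7db47_al.PT.WinMain

/-!
Refinement of labels to long windows.
-/

set_option linter.unusedSectionVars false

namespace Pool.Agent.MP_f7db47_al.PT

open Matrix

universe u v

variable {R : Type v} [Ring R] {G : Type u} [Group G]
variable {ι : Type} {V : ι → Type} [∀ τ, MulAction G (V τ)] (c : ∀ τ, CS G (V τ))
variable {J : Type} (l : J → ∀ τ, V τ) (Φ : J → J → Set G)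

/-- The reversed arrows. -/
def rev : J → J → Set G := fun j i => {g | g⁻¹ ∈ Φ i j}

/-- Refined labels: a label with a past and a future segment. -/
def Lab (m n : ℕ) : Type :=
  {p : J × (∀ τ, V τ) × (∀ τ, V τ) //
    p.2.1 ∈ Up c l Φ m p.1 ∧ p.2.2 ∈ Up (fun τ => (c τ).op) l (rev Φ) n p.1}

variable {c l Φ}

/-- Arrows between refined labels. -/
def Rl {m n m' n' : ℕ} (y : Lab c l Φ m n) (y' : Lab c l Φ m' n') : Set G :=
  {g | (∀ τ, (c τ).le (g • y'.1.2.1 τ) (y.1.2.1 τ)) ∧ ∀ τ, (c τ).le (g • y'.1.2.2 τ) (y.1.2.2 τ)}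

/-- The lift of a matrix to refined labels. -/
noncomputable def lf (m n m' n' : ℕ) (A : Matrix J J (MonoidAlgebra R G)) :
    Matrix (Lab c l Φ m n) (Lab c l Φ m' n') (MonoidAlgebra R G) :=
  lift (fun y => y.1.1) (fun y => y.1.1) Rl A

lemma Str.rev (hs : Str c l Φ) : Str (fun τ => (c τ).op) l (rev Φ) := by
  intro j i g hg τ
  obtain ⟨h1, h2⟩ := hs i j _ hg τ
  refine ⟨(by simpa using (c τ).smul g h1 : (c τ).le (l j τ) (g • l i τ)), ?_⟩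
  change 1 ≤ (c τ).dep (g • l i τ) (l j τ)
  rwa [← (c τ).dep_smul g⁻¹, inv_smul_smul]

lemma Lab.finite [Finite J] (hΦ : ∀ i j, (Φ i j).Finite) (m n : ℕ) : Finite (Lab c l Φ m n) := by
  have h : {p : J × (∀ τ, V τ) × (∀ τ, V τ) |
      p.2.1 ∈ Up c l Φ m p.1 ∧ p.2.2 ∈ Up (fun τ => (c τ).op) l (rev Φ) n p.1}.Finite := by
    refine (Set.finite_iUnion fun j : J => (Set.finite_singleton j).prod
      ((Up.finite (c := c) (l := l) hΦ m j).prod (Up.finite (c := fun τ => (c τ).op) (l := l)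
        (Φ := rev Φ) (fun i j => (hΦ j i).inv) n j))).subset ?_
    rintro p ⟨h1, h2⟩
    exact Set.mem_iUnion.2 ⟨p.1, rfl, h1, h2⟩
  exact h.to_subtype

/-- A step between refined labels. -/
def Stq (Φ : J → J → Set G) (m n m' n' : ℕ) (i j : J) : Set G :=
  {g | (g ∈ Φ i j ∧ m' ≤ m + 1 ∧ n ≤ n' + 1) ∨ (i = j ∧ g = 1 ∧ m' ≤ m ∧ n ≤ n')}

lemma Stq.up {m n m' n' : ℕ} {i j : J} {g : G} (h : g ∈ Stq Φ m n m' n' i j) :
    Stp Φ i j g m' m :=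
  h.imp (fun h => ⟨h.1, h.2.1⟩) fun h => ⟨h.1, h.2.1, h.2.2.1⟩

lemma Stq.dn {m n m' n' : ℕ} {i j : J} {g : G} (h : g ∈ Stq Φ m n m' n' i j) :
    Stp (rev Φ) j i g⁻¹ n n' :=
  h.imp (fun h => ⟨by simpa [rev] using h.1, h.2.2⟩) fun h =>
    ⟨h.1.symm, by rw [h.2.1, inv_one], h.2.2.2⟩

lemma lf_mul [Fintype J] (hs : Str c l Φ) {m n m' n' m'' n'' : ℕ} [Fintype (Lab c l Φ m' n')]
    {A B : Matrix J J (MonoidAlgebra R G)} (hA : MSup2 (Stq Φ m n m' n') A)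
    (hB : MSup2 (Stq Φ m' n' m'' n'') B) :
    (lf m n m' n' A : Matrix (Lab c l Φ m n) _ _) * lf m' n' m'' n'' B =
      lf m n m'' n'' (A * B) := by
  refine lift_mul _ _ _ _ _ _ hA hB (fun y y' y'' g hg h hh => ⟨fun τ => ?_, fun τ => ?_⟩) ?_
  · rw [mul_smul]; exact (c τ).trans ((c τ).smul g (hh.1 τ)) (hg.1 τ)
  · rw [mul_smul]; exact (c τ).trans ((c τ).smul g (hh.2 τ)) (hg.2 τ)
  · intro y y'' j g hg h hh hgh
    obtain ⟨x, ⟨x1, x2, x3⟩, hx⟩ := Up.lift hs (Stq.up hg) (Stq.up hh) y.2.1 y''.2.1 hgh.1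
    obtain ⟨z, ⟨z1, z2, z3⟩, hz⟩ := Up.lift hs.rev (Stq.dn hh) (Stq.dn hg) y''.2.2 y.2.2
      fun τ => by
        rw [← _root_.mul_inv_rev]
        exact (c τ).inv_le (hgh.2 τ)
    refine ⟨⟨(j, x, z), x1, z1⟩, ⟨rfl, ⟨x2, fun τ => ?_⟩, x3, fun τ => ?_⟩, ?_⟩
    · simpa using (c τ).smul g (z3 τ)
    · simpa using (c τ).smul h (z2 τ)
    · rintro ⟨⟨j', x', z'⟩, h1, h2⟩ ⟨rfl, h3, h4⟩
      obtain rfl := hx x' ⟨h1, h3.1, h4.1⟩
      obtain rfl := hz z' ⟨h2, fun τ => (c τ).inv_le (h4.2 τ), fun τ => (c τ).inv_le (h3.2 τ)⟩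
      rfl

lemma lf_one [DecidableEq J] {m n : ℕ} [DecidableEq (Lab c l Φ m n)] :
    (lf m n m n (1 : Matrix J J (MonoidAlgebra R G)) : Matrix (Lab c l Φ m n) _ _) = 1 := by
  ext1 y y'
  by_cases h : y = y'
  · subst h
    simp only [lf, lift, one_apply_eq]
    exact (sup_one (S := Rl y y) ⟨fun τ => by rw [one_smul]; exact (c τ).refl _,
      fun τ => by rw [one_smul]; exact (c τ).refl _⟩).pr_eq
  · rw [one_apply_ne h]
    by_cases h' : y.1.1 = y'.1.1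
    · change pr (Rl y y') ((1 : Matrix J J (MonoidAlgebra R G)) y.1.1 y'.1.1) = 0
      rw [h', one_apply_eq]
      refine (sup_one (S := {1}) rfl).pr_eq_zero ?_
      rintro _ rfl ⟨h1, h2⟩
      simp only [one_smul] at h1 h2
      refine h (Subtype.ext (Prod.ext h' (Prod.ext (funext fun τ => ?_) (funext fun τ => ?_))))
      · have e1 := Up.spec y.2.1 τ
        have e2 := Up.spec y'.2.1 τ
        rw [h'] at e1
        have := (c τ).add e2.1 (h1 τ)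
        exact ((c τ).zero (h1 τ) (by omega)).symm
      · have e1 : _ ∧ (c τ).dep _ _ = n := Up.spec y.2.2 τ
        have e2 : _ ∧ (c τ).dep _ _ = n := Up.spec y'.2.2 τ
        rw [h'] at e1
        have := (c τ).add (h2 τ) e1.1
        exact ((c τ).zero (h2 τ) (by omega)).symm
    · simp only [lf, lift, one_apply_ne h', map_zero]

lemma lf_sub {m n m' n' : ℕ} (A B : Matrix J J (MonoidAlgebra R G)) :
    (lf m n m' n' (A - B) : Matrix (Lab c l Φ m n) _ _) = lf m n m' n' A - lf m n m' n' B := by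
  ext1 y y'
  exact map_sub (pr (Rl y y')) _ _

variable (c) in
/-- The window of a refined label. -/
noncomputable def Lab.win {ρ : ℕ} (y : Lab c l Φ ρ ρ) : Win V :=
  fun τ t => (c τ).pt (y.1.2.1 τ) (y.1.2.2 τ) (ρ + t).toNat

lemma Lab.win_spec {ρ : ℕ} (y : Lab c l Φ ρ ρ) (τ : ι) {t : ℤ} (h : t ≤ ρ) :
    (c τ).le (y.1.2.2 τ) (y.win c τ t) ∧ (c τ).le (y.win c τ t) (y.1.2.1 τ) ∧
      (c τ).dep (y.1.2.1 τ) (y.win c τ t) = (ρ + t).toNat := by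
  have e1 := Up.spec y.2.1 τ
  have e2 : _ ∧ (c τ).dep _ _ = ρ := Up.spec y.2.2 τ
  have := (c τ).add e2.1 e1.1
  exact (c τ).pt_spec ((c τ).trans e2.1 e1.1) (by omega)

lemma Lab.arr {ρ : ℕ} {y y' : Lab c l Φ ρ ρ} {g : G} (h : g ∈ Rl y y')
    (hg : ∀ τ, (c τ).le (g • l y'.1.1 τ) (l y.1.1 τ)) :
    Arr ρ (y.win c) (y'.win c) g fun τ => (c τ).dep (l y.1.1 τ) (g • l y'.1.1 τ) := by
  intro τ t h1 h2
  dsimp only at h2 ⊢
  obtain ⟨a1, a2, a3⟩ := y'.win_spec τ (t := t) (by omega)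
  obtain ⟨b1, b2, b3⟩ := y.win_spec τ h2
  have e1 := Up.spec y.2.1 τ
  have e2 := Up.spec y'.2.1 τ
  have e3 := (c τ).add (hg τ) e1.1
  have e4 := (c τ).add ((c τ).smul g e2.1) (h.1 τ)
  have e5 := (c τ).add ((c τ).smul g a2) (h.1 τ)
  rw [(c τ).dep_smul] at e4 e5
  exact (c τ).uniq ((c τ).smul g a1) ((c τ).trans ((c τ).smul g a2) (h.1 τ))
    ((c τ).trans (h.2 τ) b1) b2 (by omega)

lemma Lab.trunc (hs : Str c l Φ) {S ρ : ℕ} (h : S ≤ ρ) (y : Lab c l Φ ρ ρ) :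
    ∃ y' : Lab c l Φ S S, ∀ (τ : ι) (s : ℤ), |s| ≤ S → y.win c τ s = y'.win c τ s := by
  have e1 := Up.spec y.2.1
  have e2 : ∀ τ, (c τ).le (y.1.2.2 τ) (l y.1.1 τ) ∧ (c τ).dep (l y.1.1 τ) (y.1.2.2 τ) = ρ :=
    fun τ => Up.spec y.2.2 τ
  have hp := fun τ => (c τ).pt_spec (a := ρ - S) (e1 τ).1 (by rw [(e1 τ).2]; omega)
  have hq := fun τ => (c τ).pt_spec (a := S) (e2 τ).1 (by rw [(e2 τ).2]; omega)
  have h1 : (fun τ => (c τ).pt (y.1.2.1 τ) (l y.1.1 τ) (ρ - S)) ∈ Up c l Φ S y.1.1 := by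
    refine Up.trunc hs h y.2.1 fun τ => ?_
    have := (c τ).add (hp τ).1 (hp τ).2.1
    rw [(e1 τ).2, (hp τ).2.2] at this
    exact ⟨(hp τ).1, (hp τ).2.1, by omega⟩
  have h2 : (fun τ => (c τ).pt (l y.1.1 τ) (y.1.2.2 τ) S) ∈
      Up (fun τ => (c τ).op) l (rev Φ) S y.1.1 :=
    Up.trunc hs.rev h y.2.2 fun τ => ⟨(hq τ).2.1, (hq τ).1, (hq τ).2.2⟩
  let y' : Lab c l Φ S S := ⟨(y.1.1, fun τ => (c τ).pt (y.1.2.1 τ) (l y.1.1 τ) (ρ - S),
    fun τ => (c τ).pt (l y.1.1 τ) (y.1.2.2 τ) S), h1, h2⟩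
  refine ⟨y', fun τ s hs => ?_⟩
  rw [abs_le] at hs
  obtain ⟨a1, a2, a3⟩ := y.win_spec τ (t := s) (by omega)
  obtain ⟨b1, b2, b3⟩ := y'.win_spec τ hs.2
  have := (c τ).add b2 (hp τ).2.1
  rw [(hp τ).2.2, b3] at this
  exact (c τ).uniq a1 a2 ((c τ).trans (hq τ).1 b1) ((c τ).trans b2 (hp τ).2.1) (by omega)

variable (c) in
theorem posT_univ [Fintype ι] (hfree : FreeM G V) (hcomm : CommG1 R G V) :
    PosT R c Set.univ := by
  intro J _ _ l ν β h1 h2 hν hβ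
  classical
  let Φ : J → J → Set G := fun i j => {g | (ν i j).coeff g ≠ 0 ∨ (β i j).coeff g ≠ 0}
  have hΦ : ∀ i j, (Φ i j).Finite := fun i j =>
    ((ν i j).coeff.support ∪ (β i j).coeff.support).finite_toSet.subset fun g hg => by
      simpa [Φ] using hg
  have hs : Str c l Φ := by
    intro i j g hg τ
    have : g ∈ Pos c Set.univ l l i j := hg.elim (hν i j g) (hβ i j g)
    exact ⟨this.1 τ, Nat.pos_of_ne_zero fun h => this.2 τ trivial ((c τ).zero (this.1 τ) h)⟩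
  have hfin := fun m n => Lab.finite (c := c) (l := l) hΦ m n
  let _ : ∀ m n, Fintype (Lab c l Φ m n) := fun m n => Fintype.ofFinite _
  have sν : ∀ m n m' n', m' ≤ m + 1 → n ≤ n' + 1 → MSup2 (Stq Φ m n m' n') ν :=
    fun m n m' n' a b i j g hg => Or.inl ⟨Or.inl hg, a, b⟩
  have sβ : ∀ m n m' n', m' ≤ m + 1 → n ≤ n' + 1 → MSup2 (Stq Φ m n m' n') β :=
    fun m n m' n' a b i j g hg => Or.inl ⟨Or.inr hg, a, b⟩
  have s1 : ∀ m n m' n', m' ≤ m → n ≤ n' →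
      MSup2 (Stq Φ m n m' n') (1 : Matrix J J (MonoidAlgebra R G)) :=
    fun m n m' n' a b => msup2_one fun i => Or.inr ⟨rfl, rfl, a, b⟩
  obtain ⟨r₀, hr, hr'⟩ : ∃ r₀, 3 ≤ r₀ ∧ ∀ i j, ∀ g ∈ Φ i j, ∀ τ,
      (c τ).dep (l i τ) (g • l j τ) ≤ r₀ := by
    have : (⋃ i, ⋃ j, ⋃ τ, (fun g => (c τ).dep (l i τ) (g • l j τ)) '' Φ i j).Finite :=
      Set.finite_iUnion fun i => Set.finite_iUnion fun j => Set.finite_iUnion fun τ =>
        (hΦ i j).image _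
    obtain ⟨b, hb⟩ := this.bddAbove
    refine ⟨max 3 b, le_max_left _ _, fun i j g hg τ => le_max_of_le_right (hb ?_)⟩
    simp only [Set.mem_iUnion]
    exact ⟨i, j, τ, g, hg, rfl⟩
  obtain ⟨S, hS⟩ := win_core hfree hcomm r₀ hr
  obtain ⟨ρ, hρ, hcore⟩ := hS (Fintype.card (Lab c l Φ S S))
  have sup : ∀ A : Matrix J J (MonoidAlgebra R G), MSup2 (Stq Φ ρ ρ ρ ρ) A →
      MSup2 (fun y y' : Lab c l Φ ρ ρ => Sp G ρ r₀ r₀ (y.win c) (y'.win c)) (lf ρ ρ ρ ρ A) := by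
    intro A hA y y' g hg
    have h3 : g ∈ Rl y y' := sup_pr _ _ g hg
    have h4 : g ∈ Stq Φ ρ ρ ρ ρ _ _ := (hA y.1.1 y'.1.1).pr g hg
    refine ⟨_, ?_, fun τ => ?_, Lab.arr h3 fun τ => ((Stq.up h4).spec hs τ).1⟩
    · refine ⟨fun τ => Int.natCast_nonneg _, fun τ σ => ?_⟩
      rcases h4 with ⟨h4, -⟩ | ⟨h4, rfl, -⟩
      · have e1 := hr' _ _ g h4 τ
        have e2 := (hs _ _ g h4 σ).2
        dsimp only
        exact_mod_cast e1.trans (Nat.le_mul_of_pos_right _ e2)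
      · simp [h4, CS.dep_self]
    · rcases h4 with ⟨h4, -⟩ | ⟨h4, rfl, -⟩
      · exact_mod_cast hr' _ _ g h4 τ
      · simp [h4, CS.dep_self]
  have a1 := (s1 ρ ρ ρ ρ le_rfl le_rfl).sub (sν ρ ρ ρ ρ (by omega) (by omega))
  have a2 := (s1 ρ ρ ρ ρ le_rfl le_rfl).add (sβ ρ ρ ρ ρ (by omega) (by omega))
  have hT := hcore (fun i => ((Fintype.equivFin _).symm i).win c) (Lab c l Φ ρ ρ)
    (fun y => y.win c) (fun y => by
      obtain ⟨y', hy'⟩ := Lab.trunc hs hρ y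
      exact ⟨Fintype.equivFin _ y', by simpa using hy'⟩)
    (lf ρ ρ ρ ρ (1 - ν)) (lf ρ ρ ρ ρ (1 + β)) ((lf_mul hs a1 a2).trans (by rw [h1, lf_one]))
    ((lf_mul hs a2 a1).trans (by rw [h2, lf_one])) (sup _ a1) (sup _ a2)
  rw [lf_sub, lf_one] at hT
  have stepU : ∀ m n, T (1 - (lf (m + 1) n (m + 1) n ν : Matrix (Lab c l Φ _ _) _ _)) →
      T (1 - (lf m n m n ν : Matrix (Lab c l Φ _ _) _ _)) := by
    intro m n h
    have e1 := lf_mul hs (s1 (m + 1) n m n (by omega) le_rfl) (sν m n (m + 1) n le_rfl (by omega))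
    have e2 := lf_mul hs (sν m n (m + 1) n le_rfl (by omega)) (s1 (m + 1) n m n (by omega) le_rfl)
    rw [one_mul] at e1
    rw [mul_one] at e2
    exact e2 ▸ T_one_sub_comm _ _ (e1 ▸ h)
  have stepD : ∀ m n, T (1 - (lf m (n + 1) m (n + 1) ν : Matrix (Lab c l Φ _ _) _ _)) →
      T (1 - (lf m n m n ν : Matrix (Lab c l Φ _ _) _ _)) := by
    intro m n h
    have e1 := lf_mul hs (sν m (n + 1) m n (by omega) le_rfl) (s1 m n m (n + 1) le_rfl (by omega))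
    have e2 := lf_mul hs (s1 m n m (n + 1) le_rfl (by omega)) (sν m (n + 1) m n (by omega) le_rfl)
    rw [mul_one] at e1
    rw [one_mul] at e2
    exact e2 ▸ T_one_sub_comm _ _ (e1 ▸ h)
  have down : ∀ m, T (1 - (lf m m m m ν : Matrix (Lab c l Φ _ _) _ _)) →
      T (1 - (lf 0 0 0 0 ν : Matrix (Lab c l Φ _ _) _ _)) := by
    intro m
    induction m with
    | zero => exact id
    | succ m ih => exact fun h => ih (stepU _ _ (stepD _ _ h))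
  have h0 := down ρ hT
  let e : Lab c l Φ 0 0 ≃ J :=
    { toFun := fun y => y.1.1
      invFun := fun j => ⟨(j, l j, l j), rfl, rfl⟩
      left_inv := fun y => Subtype.ext (Prod.ext rfl (Prod.ext y.2.1.symm y.2.2.symm))
      right_inv := fun _ => rfl }
  refine T_of_submatrix e ?_
  convert h0 using 1
  rw [submatrix_sub, Pi.sub_apply, Pi.sub_apply, submatrix_one_equiv]
  congr 1
  ext1 y y'
  refine (Sup.pr_eq fun g hg => ?_).symm
  have h3 := (hν y.1.1 y'.1.1 g hg).1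
  have e1 : y.1.2.1 = l y.1.1 := y.2.1
  have e2 : y.1.2.2 = l y.1.1 := y.2.2
  have e3 : y'.1.2.1 = l y'.1.1 := y'.2.1
  have e4 : y'.1.2.2 = l y'.1.1 := y'.2.2
  exact ⟨by rw [e1, e3]; exact h3, by rw [e2, e4]; exact h3⟩

end Pool.Agent.MP_f7db47_al.PT
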