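import Mathlib

namespace Pool.Agent.MP_f7db47_al.PT

open MvPolynomial WithZero

open Classical in
/-- The valuation given by the total degree. -/
noncomputable def Val1_v (k σ : Type) [Field k] :
    Valuation (MvPolynomial σ k) (WithZero (Multiplicative ℤ)) where
  toFun f := if f = 0 then 0 else exp (f.totalDegree : ℤ)
  map_zero' := if_pos rfl
  map_one' := by simp
  map_mul' f g := by
    by_cases hf : f = 0
    · simp [hf]
    by_cases hg : g = 0
    · simp [hg]
    simp [hf, hg, totalDegree_mul_of_isDomain hf hg, exp_add]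
  map_add_le_max' f g := by
    by_cases h : f + g = 0
    · simp [h]
    by_cases hf : f = 0
    · simp [hf]
    by_cases hg : g = 0
    · simp [hg]
    have := totalDegree_add f g
    simp only [h, hf, hg, if_false, le_max_iff, exp_le_exp, Nat.cast_le]
    exact le_max_iff.1 this

theorem Val1_apply {k σ : Type} [Field k] {f : MvPolynomial σ k} (hf : f ≠ 0) :
    Val1_v k σ f = exp (f.totalDegree : ℤ) := if_neg hf

/-- The valuation ring at infinity of the total degree. -/
theorem exists_deg_dvr (k : Type) [Field k] (s : ℕ) :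
    ∃ O : ValuationSubring (FractionRing (MvPolynomial (Fin (s + 1)) k)),
      IsDiscreteValuationRing O ∧
      (∀ c : k, algebraMap (MvPolynomial (Fin (s + 1)) k) _ (MvPolynomial.C c) ∈ O) ∧
      ∀ b : MvPolynomial (Fin (s + 1)) k, algebraMap _ _ b ∈ O → ∃ c : k, b = MvPolynomial.C c := by
  have hS : nonZeroDivisors (MvPolynomial (Fin (s + 1)) k) ≤
      (Val1_v k (Fin (s + 1))).supp.primeCompl := by
    intro f hf h
    have h0 := nonZeroDivisors.ne_zero hf
    have h1 : Val1_v k (Fin (s + 1)) f = 0 := (Valuation.mem_supp_iff _ _).1 h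
    rw [Val1_apply h0] at h1
    exact exp_ne_zero h1
  set v := (Val1_v k (Fin (s + 1))).extendToLocalization hS
    (FractionRing (MvPolynomial (Fin (s + 1)) k)) with hv
  have e : ∀ f, v (algebraMap _ _ f) = Val1_v k (Fin (s + 1)) f :=
    Valuation.extendToLocalization_apply_map_apply _ hS _
  have hn : v.IsNontrivial := by
    refine ⟨algebraMap (MvPolynomial (Fin (s + 1)) k) _ (X 0), ?_, ?_⟩
    · rw [e, Val1_apply (X_ne_zero 0)]
      exact exp_ne_zero
    · rw [e, Val1_apply (X_ne_zero 0), totalDegree_X]
      simp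
  refine ⟨v.valuationSubring, inferInstance, fun c => ?_, fun b hb => ?_⟩
  · rw [Valuation.mem_valuationSubring_iff, e]
    by_cases hc : (C c : MvPolynomial (Fin (s + 1)) k) = 0
    · rw [hc, map_zero]
      exact zero_le
    · rw [Val1_apply hc, totalDegree_C]
      simp
  · by_cases h0 : b = 0
    · exact ⟨0, by rw [h0, map_zero]⟩
    rw [Valuation.mem_valuationSubring_iff, e, Val1_apply h0, ← exp_zero, exp_le_exp] at hb
    exact ⟨_, totalDegree_eq_zero_iff_eq_C.1 (by omega)⟩

end Pool.Agent.MP_f7db47_al.PT
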