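import Pool.Agent.MP_f7db47_al.Typed

/-!
Working definitions for the theorem on products of trees.
-/

namespace Pool.Agent.MP_f7db47_al.PT

universe u v w

variable (R : Type v) [Ring R] (G : Type u) [Group G]
variable {ι : Type} (V : ι → Type w) [∀ τ, MulAction G (V τ)]

/-- The action on the product is free modulo the kernel. -/
def FreeM : Prop :=
  ∀ (g : G) (x : ∀ τ, V τ), (∀ τ, g • x τ = x τ) → ∀ (τ : ι) (y : V τ), g • y = y

/-- Subgroups acting through an abelian group satisfy `G1`. -/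
def CommG1 : Prop :=
  ∀ H : Subgroup G, (∀ a ∈ H, ∀ b ∈ H, ∀ (τ : ι) (y : V τ), (a * b) • y = (b * a) • y) → G1 R H

/-- Windows: one sequence in each factor. -/
abbrev Win : Type w := ∀ τ, ℤ → V τ

variable {R G V}

/-- `g` carries the window `y` to the window `x` shifted by `d`, on the overlap. -/
def Arr (ρ : ℕ) (x y : Win V) (g : G) (d : ι → ℤ) : Prop :=
  ∀ (τ : ι) (t : ℤ), -(ρ : ℤ) ≤ t → t + d τ ≤ ρ → g • y τ t = x τ (t + d τ)

/-- The cone of degrees. -/
def Cone (r₀ : ℕ) (d : ι → ℤ) : Prop := (∀ τ, 0 ≤ d τ) ∧ ∀ τ σ, d τ ≤ r₀ * d σ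

variable (G) in
/-- The arrows of degree at most `r`. -/
def Sp (ρ r₀ r : ℕ) (x y : Win V) : Set G :=
  {g | ∃ d, Cone r₀ d ∧ (∀ τ, d τ ≤ r) ∧ Arr ρ x y g d}

/-- `γ` translates the central part of radius `S` of the window by `v`. -/
def Per (S : ℕ) (x : Win V) (γ : G) (v : ι → ℤ) : Prop :=
  ∀ (τ : ι) (t : ℤ), |t| ≤ S → |t + v τ| ≤ S → γ • x τ t = x τ (t + v τ)

variable (G) in
/-- The window has a short positive period. -/
def PosPer (S A : ℕ) (x : Win V) : Prop :=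
  ∃ (γ : G) (v : ι → ℤ), (∀ τ, 1 ≤ v τ ∧ v τ ≤ A) ∧ Per S x γ v

/-- The shifted window. -/
def sh (x : Win V) (m : ι → ℤ) : Win V := fun τ t => x τ (m τ + t)

/-- `g` carries the central part of radius `S` of `y` to that of `x`. -/
def Eqv (S : ℕ) (x y : Win V) (g : G) : Prop :=
  ∀ (τ : ι) (t : ℤ), |t| ≤ S → g • y τ t = x τ t

/-- A system of markers: `Mk q x m` says that the position `m` of the window `x` carries a
marker of class `q`. -/
structure Marks (G : Type u) [Group G] (V : ι → Type w) [∀ τ, MulAction G (V τ)]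
    (S A L : ℕ) where
  Mk : ℕ → Win V → (ι → ℤ) → Prop
  npos : ∀ q x m, Mk q x m → ¬ PosPer G S A (sh x m)
  sep : ∀ q x m m', Mk q x m → Mk q x m' → (∀ τ, |m τ - m' τ| ≤ A) →
    ∃ g : G, Eqv S (sh x m') (sh x m) g
  loc : ∀ q x y m m' (g : G), Eqv L (sh x m) (sh y m') g → (Mk q x m ↔ Mk q y m')

/-- The piece of colour `q`: between a marker moved down and a marker moved up. -/
def Marks.piece {S A L : ℕ} (M : Marks G V S A L) (r₀ t q : ℕ) : Set (Win V) :=
  {x | ∃ m m' : ι → ℤ, M.Mk q x m ∧ M.Mk q x m' ∧ (∀ τ, |m τ| ≤ 4 * t * r₀) ∧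
    (∀ τ, |m' τ| ≤ 4 * t * r₀) ∧ Cone r₀ (fun τ => 2 * t - m τ) ∧ Cone r₀ fun τ => m' τ + 2 * t}

/-- An invariant partial order whose intervals are finite chains; `dep x y` is the length of the
interval from `x` down to `y`. -/
structure CS (G : Type u) [Group G] (E : Type w) [MulAction G E] where
  le : E → E → Prop
  dep : E → E → ℕ
  refl : ∀ x, le x x
  trans : ∀ {x y z}, le x y → le y z → le x z
  smul : ∀ (g : G) {x y}, le x y → le (g • x) (g • y)
  dep_smul : ∀ (g : G) x y, dep (g • x) (g • y) = dep x y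
  add : ∀ {x y z}, le z y → le y x → dep x z = dep x y + dep y z
  zero : ∀ {x y}, le y x → dep x y = 0 → y = x
  mid : ∀ {x z} (a : ℕ), le z x → a ≤ dep x z → ∃ y, le z y ∧ le y x ∧ dep x y = a
  lin : ∀ {x y y' z}, le z y → le y x → le z y' → le y' x → dep x y ≤ dep x y' → le y' y

variable (c : ∀ τ, CS G (V τ))

/-- Arrows that are strictly positive in the directions of `I`. -/
def Pos (I : Set ι) {J K : Type} (l : J → ∀ τ, V τ) (l' : K → ∀ τ, V τ) : J → K → Set G :=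
  fun i j => {g | (∀ τ, (c τ).le (g • l' j τ) (l i τ)) ∧ ∀ τ ∈ I, g • l' j τ ≠ l i τ}

variable (R) in
/-- Typed unipotent-like matrices, positive in the directions of `I`, are trivial. -/
def PosT (I : Set ι) : Prop :=
  ∀ (J : Type) [Fintype J] [DecidableEq J] (l : J → ∀ τ, V τ)
    (ν β : Matrix J J (MonoidAlgebra R G)), (1 - ν) * (1 + β) = 1 → (1 + β) * (1 - ν) = 1 →
    MSup2 (Pos c I l l) ν → MSup2 (Pos c I l l) β → T (1 - ν)

variable (R G) in
/-- Automorphisms typed by the relation `le` on the `G`-set `Ω` are trivial. -/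
def TypT {Ω : Type w} [MulAction G Ω] (le : Ω → Ω → Prop) : Prop :=
  ∀ (J : Type) [Fintype J] [DecidableEq J] (l : J → Ω) (a b : Matrix J J (MonoidAlgebra R G)),
    a * b = 1 → b * a = 1 → MSup2 (fun i j => {g | le (g • l j) (l i)}) a →
    MSup2 (fun i j => {g | le (g • l j) (l i)}) b → T a

lemma Cone.add {r₀ : ℕ} {d e : ι → ℤ} (hd : Cone r₀ d) (he : Cone r₀ e) : Cone r₀ (d + e) :=
  ⟨fun τ => add_nonneg (hd.1 τ) (he.1 τ), fun τ σ => by
    have := hd.2 τ σ
    have := he.2 τ σ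
    simp only [Pi.add_apply, mul_add]
    omega⟩

lemma Arr.mul {ρ : ℕ} {x y z : Win V} {g h : G} {d e : ι → ℤ} (hd : ∀ τ, 0 ≤ d τ)
    (he : ∀ τ, 0 ≤ e τ) (h1 : Arr ρ x y g d) (h2 : Arr ρ y z h e) :
    Arr ρ x z (g * h) (d + e) := by
  intro τ t ht ht'
  have := hd τ
  have := he τ
  simp only [Pi.add_apply] at ht' ⊢
  rw [mul_smul, h2 τ t ht (by omega), h1 τ _ (by omega) (by omega)]
  congr 1
  ring

lemma Sp.mono {ρ r₀ r r' : ℕ} (h : r ≤ r') (x y : Win V) : Sp G ρ r₀ r x y ⊆ Sp G ρ r₀ r' x y := by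
  rintro g ⟨d, h1, h2, h3⟩
  exact ⟨d, h1, fun τ => (h2 τ).trans (by exact_mod_cast h), h3⟩

lemma Sp.mul {ρ r₀ r r' : ℕ} {x y z : Win V} {a b : G} (ha : a ∈ Sp G ρ r₀ r x y)
    (hb : b ∈ Sp G ρ r₀ r' y z) : a * b ∈ Sp G ρ r₀ (r + r') x z := by
  obtain ⟨d, h1, h2, h3⟩ := ha
  obtain ⟨e, h4, h5, h6⟩ := hb
  refine ⟨d + e, h1.add h4, fun τ => ?_, h3.mul h1.1 h4.1 h6⟩
  have := h2 τ
  have := h5 τ
  simp only [Pi.add_apply]
  push_cast
  omega

/-- Two elements that agree on one point of the product act in the same way. -/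
lemma FreeM.eq (h : FreeM G V) {a b : G} (x : ∀ τ, V τ) (hx : ∀ τ, a • x τ = b • x τ)
    (τ : ι) (y : V τ) : a • y = b • y := by
  have := h (b⁻¹ * a) x (fun σ => by rw [mul_smul, hx, inv_smul_smul]) τ y
  rwa [mul_smul, inv_smul_eq_iff] at this

end Pool.Agent.MP_f7db47_al.PT
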