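import Pool.Agent.MP_f7db47_al.PT.ZTame
import Pool.Agent.MP_f7db47_al.PT.Orb
import Pool.Agent.MP_f7db47_al.PT.TreeCS

/-!
Acylindrical actions on forests.
-/

namespace Pool.Agent.MP_f7db47_al.PT

universe v

variable {R : Type v} [Ring R]

lemma ZFor_pow {G V : Type} [Group G] [MulAction G V] {X : SimpleGraph V} (hX : TreeAction G X)
    {a b : V} {x : G} (hx : Pushes X a b x) (n : ℕ) :
    Side X (x ^ (n + 1) • a) (x ^ (n + 1) • b) ⊆ Side X (x • a) (x • b) := by
  induction n with
  | zero => rw [zero_add, pow_one]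
  | succ n ih =>
    intro z hz
    rw [pow_succ', mul_smul, mul_smul, ← smul_inv_smul x z, hX.smul_side] at hz
    rw [← smul_inv_smul x z, hX.smul_side]
    exact hx.1 (ih hz)

lemma ZFor_inf {G V : Type} [Group G] [MulAction G V] {X : SimpleGraph V} (hX : TreeAction G X)
    {a b : V} {x : G} (hx : Pushes X a b x) (n : ℤ) (h : ∀ z : V, x ^ n • z = z) : n = 0 := by
  have key : ∀ m : ℕ, (∀ z : V, x ^ m • z = z) → m = 0 := by
    intro m hm
    cases m with
    | zero => rfl
    | succ m =>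
      have h1 := ZFor_pow hX hx m
      rw [hm, hm] at h1
      exact absurd h1 hx.2
  obtain ⟨m, rfl | rfl⟩ := Int.eq_nat_or_neg n
  · rw [key m fun z => by rw [← zpow_natCast]; exact h z, Nat.cast_zero]
  · rw [key m fun z => by
      have h1 := h z
      rw [zpow_neg, zpow_natCast, inv_smul_eq_iff] at h1
      exact h1.symm, Nat.cast_zero, neg_zero]

lemma ZFor_path {G V : Type} [Group G] [MulAction G V] {X : SimpleGraph V} (hX : TreeAction G X)
    (ty : V → Prop) (hty : ∀ (g : G) a, ty (g • a) ↔ ty a)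
    (hty' : ∀ a b, X.Adj a b → (ty a ↔ ¬ ty b)) {a b : V} (hab : X.Adj a b) {x : G}
    (hx : Pushes X a b x) : ∃ c e, X.Adj b c ∧ X.Adj c e ∧ a ≠ c ∧ b ≠ e ∧
      ∀ g : G, g • b = b → g • x • b = x • b → g • c = c ∧ g • e = e := by
  have e1 : X.dist (x • b) a = X.dist a (x • a) + 1 :=
    TreeCS_fa hX.1 (p := ⟨a, b, hab⟩) (q := ⟨x • a, x • b, hX.2.1 x _ _ hab⟩) hx.1
  have e2 : X.dist (x • b) b = X.dist a (x • a) :=
    TreeCS_fb hX.1 (p := ⟨a, b, hab⟩) (q := ⟨x • a, x • b, hX.2.1 x _ _ hab⟩) hx.1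
  have d0 : X.dist a (x • a) ≠ 0 := fun h => by
    have h1 := hX.1.connected.dist_eq_zero_iff.1 h
    have h2 := hX.1.connected.dist_eq_zero_iff.1 (e2.trans h)
    apply hx.2
    rw [← h1, h2]
  have d1 : X.dist a (x • a) ≠ 1 := fun h => by
    have h1 := hty' _ _ (SimpleGraph.dist_eq_one_iff_adj.1 h)
    rw [hty] at h1
    exact iff_not_self h1
  have hb : b ≠ x • b := fun h => by
    rw [← h, SimpleGraph.dist_self] at e2
    exact d0 e2.symm
  obtain ⟨c, hc, hc'⟩ := tree_closer hX.1 hb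
  have e3 := hX.1.dist_eq_dist_add_one_of_adj (x • b) hc
  have hc0 : c ≠ x • b := fun h => by
    rw [h, SimpleGraph.dist_self] at e3
    omega
  obtain ⟨e, he, he'⟩ := tree_closer hX.1 hc0
  refine ⟨c, e, hc, he, fun h => ?_, fun h => ?_, fun g h1 h2 => ?_⟩
  · rw [← h] at hc'
    omega
  · rw [← h] at he'
    omega
  · have key : ∀ u w, g • u = u → X.Adj u w → X.dist (x • b) w < X.dist (x • b) u →
        g • w = w := by
      intro u w hu huw hd
      have h3 := hX.2.1 g _ _ huw
      have h4 := hX.dist_smul g (x • b) w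
      rw [hu] at h3
      rw [h2] at h4
      exact tree_uniq hX.1 h3 huw (h4 ▸ hd) hd
    have h5 := key b c h1 hc hc'
    exact ⟨h5, key c e h5 he he'⟩

lemma ZFor_tree {G V : Type} [Group G] [MulAction G V] {X : SimpleGraph V} (hX : TreeAction G X)
    (ty : V → Prop) (hty : ∀ (g : G) a, ty (g • a) ↔ ty a)
    (hty' : ∀ a b, X.Adj a b → (ty a ↔ ¬ ty b)) (N : Subgroup G)
    (hN : ∀ g ∈ N, ∀ z : V, g • z = z)
    (hrig : ∀ (g : G) a b c d, X.Adj a b → X.Adj b c → X.Adj c d → a ≠ c → b ≠ d →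
      g • a = a → g • b = b → g • c = c → g • d = d → g ∈ N)
    (hV : ∀ y : V, QQ R (MulAction.stabilizer G y))
    (hF : ∀ x : G, (∀ n : ℤ, (∀ z : V, x ^ n • z = z) → n = 0) →
      QQ R (N ⊔ Subgroup.zpowers x : Subgroup G)) : QQ R G := by
  refine qq_tame hX (F := {H | QQ R H}) (Z := ∅) (fun a b hab => ?_)
    (fun K hK => absurd hK (Set.notMem_empty K)) hV fun H hH => hH
  refine ⟨Bool, fun i => cond i (MulAction.stabilizer G a ⊓ MulAction.stabilizer G b) N,
    (· < ·), wellFounded_lt, fun i => ?_, fun M _ hM => ⟨true, hM⟩,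
    fun i => Or.inr fun x hx => ?_⟩
  · cases i
    · exact fun g hg => ⟨hN g hg a, hN g hg b⟩
    · exact le_rfl
  · cases i
    · exact Or.inl (hF x (ZFor_inf hX hx))
    · refine Or.inr (Or.inl fun M _ hM => ⟨false, Bool.false_lt_true, fun g hg => ?_⟩)
      obtain ⟨⟨h1, h2⟩, h, ⟨-, h3⟩, h4⟩ := hM hg
      obtain ⟨c, e, hc, he, hac, hbe, h5⟩ := ZFor_path hX ty hty hty' hab hx
      have h6 : g • x • b = x • b := by
        have h7 : x * h * x⁻¹ = g := h4
        have h8 : h • b = b := h3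
        rw [← h7, mul_smul, mul_smul, inv_smul_smul, h8]
      obtain ⟨h9, h10⟩ := h5 g h2 h6
      exact hrig g a b c e hab hc he hac hbe h1 h2 h9 h10

lemma ZFor_conn {V : Type} (X : SimpleGraph V) (y : V) (P : V → Prop)
    (hP : ∀ z, P z ↔ X.Reachable z y) :
    (X.comap (Subtype.val : {z // P z} → V)).Connected := by
  have key : ∀ (u v : V) (p : X.Walk u v) (hu : P u) (hv : P v),
      (X.comap (Subtype.val : {z // P z} → V)).Reachable ⟨u, hu⟩ ⟨v, hv⟩ := by
    intro u v p
    induction p with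
    | nil => exact fun _ _ => SimpleGraph.Reachable.refl _
    | @cons u w v h p ih =>
      intro hu hv
      have hw : P w := (hP w).2 (h.symm.reachable.trans ((hP u).1 hu))
      exact (SimpleGraph.Adj.reachable (G := X.comap (Subtype.val : {z // P z} → V))
        (u := ⟨u, hu⟩) (v := ⟨w, hw⟩) h).trans (ih hw hv)
  refine (SimpleGraph.connected_iff_exists_forall_reachable _).2
    ⟨⟨y, (hP y).2 (SimpleGraph.Reachable.refl y)⟩, fun w => ?_⟩
  obtain ⟨p⟩ := ((hP w).1 w.2).symm
  exact key _ _ p _ w.2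

theorem T_of_forest {G V : Type} [Group G] [MulAction G V] (X : SimpleGraph V)
    (hX : X.IsAcyclic) (hadj : ∀ (g : G) a b, X.Adj a b → X.Adj (g • a) (g • b))
    (ty : V → Prop) (hty : ∀ (g : G) a, ty (g • a) ↔ ty a)
    (hty' : ∀ a b, X.Adj a b → (ty a ↔ ¬ ty b))
    (hrig : ∀ (g : G) a b c d, X.Adj a b → X.Adj b c → X.Adj c d → a ≠ c → b ≠ d →
      g • a = a → g • b = b → g • c = c → g • d = d → ∀ z : V, g • z = z)
    (hV : ∀ y : V, QQ R (MulAction.stabilizer G y))
    (hF : ∀ x : G, (∀ n : ℤ, (∀ z : V, x ^ n • z = z) → n = 0) →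
      QQ R ((MulAction.toPermHom G V).ker ⊔ Subgroup.zpowers x : Subgroup G))
    {J : Type} [Fintype J] [DecidableEq J] (y : J → V) {A : Matrix J J (MonoidAlgebra R G)}
    (hA : MSup2 (fun i j => {g : G | X.Reachable (g • y j) (y i)}) A) (hu : IsUnit A) :
    T A := by
  have hr : ∀ (g : G) a b, X.Reachable a b → X.Reachable (g • a) (g • b) := fun g a b h =>
    h.map (G' := X) ⟨fun v => g • v, fun h => hadj g _ _ h⟩
  refine T_of_groupoid _ (fun i => ?_) (fun i j k a ha b hb => ?_) (fun i j a ha => ?_)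
    (fun i H hH => QQ.g1 ?_) hA hu
  · simp only [Set.mem_ofPred_eq, one_smul]
    exact SimpleGraph.Reachable.refl _
  · simp only [Set.mem_ofPred_eq] at *
    rw [mul_smul]
    exact (hr a _ _ hb).trans ha
  · simp only [Set.mem_ofPred_eq] at *
    have h1 := hr a⁻¹ _ _ ha.symm
    rwa [inv_smul_smul] at h1
  · have hH' : ∀ g : H, X.Reachable (g.1 • y i) (y i) := fun g => by
      have h1 : g.1 ∈ (H : Set G) := g.2
      rwa [hH] at h1
    let C : SubMulAction H V :=
      { carrier := {z | X.Reachable z (y i)}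
        smul_mem' := fun g z hz => (hr g.1 _ _ hz).trans (hH' g) }
    have hs : ∀ (g : H) (z : C), ((g • z : C) : V) = g.1 • (z : V) := fun _ _ => rfl
    have hT : TreeAction H (X.comap (Subtype.val : C → V)) := by
      refine ⟨⟨ZFor_conn X (y i) _ fun _ => Iff.rfl,
        hX.comap (SimpleGraph.Hom.comap _ X) Subtype.val_injective⟩,
        fun g a b h => hadj g.1 _ _ h, fun g a b h h' => ?_⟩
      have h1 := hty' _ _ h
      rw [← h'.1, hs, hty] at h1
      exact iff_not_self h1
    refine ZFor_tree hT (fun z => ty z.1) (fun g a => hty g.1 a.1) (fun a b h => hty' _ _ h)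
      ((MulAction.toPermHom G V).ker.subgroupOf H) (fun g hg z => Subtype.ext ?_)
      (fun g a b c d h1 h2 h3 h4 h5 h6 h7 h8 h9 => ?_) (fun z => ?_) fun x hx => ?_
    · exact congrArg (fun σ : Equiv.Perm V => σ z.1) (Subgroup.mem_subgroupOf.1 hg)
    · refine Subgroup.mem_subgroupOf.2 (Equiv.ext ?_)
      exact hrig g.1 a.1 b.1 c.1 d.1 h1 h2 h3 (fun h => h4 (Subtype.ext h))
        (fun h => h5 (Subtype.ext h)) (congrArg Subtype.val h6) (congrArg Subtype.val h7)
        (congrArg Subtype.val h8) (congrArg Subtype.val h9)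
    · exact (hV z.1).sub ((H.subtype.comp (MulAction.stabilizer H z).subtype).codRestrict _
        fun g => congrArg Subtype.val g.2) fun g g' h =>
          Subtype.ext (Subtype.ext (Subtype.ext_iff.1 h :))
    · have h1 := hF x.1 fun n hn => hx n fun z => Subtype.ext (hn z.1)
      have h2 : (MulAction.toPermHom G V).ker.subgroupOf H ⊔ Subgroup.zpowers x ≤
          ((MulAction.toPermHom G V).ker ⊔ Subgroup.zpowers x.1).comap H.subtype :=
        sup_le (fun g hg => Subgroup.mem_sup_left (Subgroup.mem_subgroupOf.1 hg))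
          (Subgroup.zpowers_le.2 (Subgroup.mem_sup_right (Subgroup.mem_zpowers x.1)))
      exact h1.sub ((H.subtype.comp (Subgroup.subtype _)).codRestrict _ fun g => h2 g.2)
        fun g g' h => Subtype.ext (Subtype.ext (Subtype.ext_iff.1 h :))

end Pool.Agent.MP_f7db47_al.PT
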