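import Pool.Agent.MP_f7db47_al.PT.ZCovA
import Pool.Agent.MP_f7db47_al.PT.ZFor

/-!
Matrices with short arrows over a bipartite graph without squares.
-/

namespace Pool.Agent.MP_f7db47_al.PT

universe v

variable {R : Type v} [Ring R]

/-- The additive map induced by a map of the underlying sets. -/
noncomputable def ZCovB_md {G Γ : Type} (f : G → Γ) :
    MonoidAlgebra R G →+ MonoidAlgebra R Γ where
  toFun := MonoidAlgebra.mapDomain f
  map_zero' := MonoidAlgebra.mapDomain_zero f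
  map_add' := MonoidAlgebra.mapDomain_add f

lemma ZCovB_md_single {G Γ : Type} (f : G → Γ) (g : G) (r : R) :
    ZCovB_md f (MonoidAlgebra.single g r) = MonoidAlgebra.single (f g) r :=
  MonoidAlgebra.mapDomain_single

lemma ZCovB_md_mul {G Γ : Type} [Group G] [Group Γ] {S S' : Set G} (f f' f'' : G → Γ)
    (h : ∀ g ∈ S, ∀ k ∈ S', f g * f' k = f'' (g * k)) {x z : MonoidAlgebra R G}
    (hx : Sup S x) (hz : Sup S' z) : ZCovB_md f x * ZCovB_md f' z = ZCovB_md f'' (x * z) := by
  refine hx.induction (P := fun x => ZCovB_md f x * ZCovB_md f' z = ZCovB_md f'' (x * z))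
    (by simp) (fun a b ha hb => ?_) fun g hg r => ?_
  · simp only [map_add, add_mul, ha, hb]
  refine hz.induction (P := fun z => ZCovB_md f (MonoidAlgebra.single g r) * ZCovB_md f' z =
    ZCovB_md f'' (MonoidAlgebra.single g r * z)) (by simp) (fun a b ha hb => ?_) fun k hk t => ?_
  · simp only [map_add, mul_add, ha, hb]
  rw [MonoidAlgebra.single_mul_single, ZCovB_md_single, ZCovB_md_single, ZCovB_md_single,
    MonoidAlgebra.single_mul_single, h g hg k hk]

lemma ZCovB_md_sup {G Γ : Type} [Group G] [Group Γ] {S : Set G} (f : G → Γ)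
    {x : MonoidAlgebra R G} (hx : Sup S x) : Sup (f '' S) (ZCovB_md f x) := by
  refine hx.induction (P := fun x => Sup (f '' S) (ZCovB_md f x)) ?_ (fun a b ha hb => ?_)
    fun g hg r => ?_
  · rw [map_zero]; exact sup_zero _
  · rw [map_add]; exact ha.add hb
  · rw [ZCovB_md_single]; exact sup_single (Set.mem_image_of_mem f hg) r

lemma ZCovB_md_back {G Γ : Type} [Group G] [Group Γ] (p : Γ →* G) (f : G → Γ)
    (hp : ∀ g, p (f g) = g) (x : MonoidAlgebra R G) :
    MonoidAlgebra.mapDomainRingHom R p (ZCovB_md f x) = x := by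
  induction x using MonoidAlgebra.induction_linear with
  | zero => rw [map_zero, map_zero]
  | add a b ha hb => rw [map_add, map_add, ha, hb]
  | single g r =>
    rw [ZCovB_md_single, MonoidAlgebra.mapDomainRingHom_apply, MonoidAlgebra.mapDomain_single, hp]

lemma ZCovB_inv {G Γ : Type} [Group G] [Group Γ] {J : Type} [Fintype J]
    [DecidableEq J] (S : J → J → Set G) (s s₂ : J → J → G → Γ)
    (hs : ∀ i j k, ∀ g ∈ S i j, ∀ h ∈ S j k, s i j g * s j k h = s₂ i k (g * h))
    (h1 : ∀ i, s₂ i i 1 = 1) {a b : Matrix J J (MonoidAlgebra R G)} (hab : a * b = 1)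
    (ha : MSup2 S a) (hb : MSup2 S b) :
    (Matrix.of fun i j => ZCovB_md (s i j) (a i j)) *
      (Matrix.of fun i j => ZCovB_md (s i j) (b i j)) = 1 := by
  ext1 i k
  have e : ∑ j, ZCovB_md (s i j) (a i j) * ZCovB_md (s j k) (b j k) =
      ZCovB_md (s₂ i k) ((a * b) i k) := by
    rw [Matrix.mul_apply, map_sum]
    exact Finset.sum_congr rfl fun j _ => ZCovB_md_mul _ _ _ (hs i j k) (ha i j) (hb j k)
  rw [Matrix.mul_apply]
  simp only [Matrix.of_apply]
  rw [e, hab]
  by_cases h : i = k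
  · subst h
    rw [Matrix.one_apply_eq, Matrix.one_apply_eq, MonoidAlgebra.one_def, ZCovB_md_single, h1]
    rfl
  · rw [Matrix.one_apply_ne h, Matrix.one_apply_ne h, map_zero]

lemma ZCovB_poly {Γ V : Type} [Group Γ] [MulAction Γ V] (x : Γ)
    (hx : ∀ n : ℤ, (∀ z : V, x ^ n • z = z) → n = 0) :
    PolyZ (Subgroup.zpowers (MulAction.toPermHom Γ V x)) := by
  have : Group.FG (Subgroup.zpowers (MulAction.toPermHom Γ V x)) :=
    (Group.fg_iff_subgroup_fg _).2 ((Subgroup.fg_iff _).2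
      ⟨{MulAction.toPermHom Γ V x}, (Subgroup.zpowers_eq_closure _).symm, Set.finite_singleton _⟩)
  refine Ab_poly (fun a b => mul_comm' a b) ?_
  rintro ⟨_, n, rfl⟩ hg
  obtain ⟨m, hm, h⟩ := isOfFinOrder_iff_pow_eq_one.1 hg
  have h2 : MulAction.toPermHom Γ V (x ^ (n * m)) = 1 := by
    rw [map_zpow, zpow_mul, zpow_natCast]
    exact congrArg Subtype.val h
  have h3 := hx (n * m) fun z => by
    have := congrArg (fun e : Equiv.Perm V => e z) h2
    simpa using this
  have h4 : n = 0 := by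
    rcases mul_eq_zero.1 h3 with h | h
    · exact h
    · omega
  subst h4
  exact Subtype.ext (zpow_zero _)

/-- Lifting a pair of inverse matrices along a cocycle. -/
theorem T_of_lift {G Γ : Type} [Group G] [Group Γ] (p : Γ →* G) {J : Type} [Fintype J]
    [DecidableEq J] (S : J → J → Set G) (s s₂ : J → J → G → Γ) (hp : ∀ i j g, p (s i j g) = g)
    (hs : ∀ i j k, ∀ g ∈ S i j, ∀ h ∈ S j k, s i j g * s j k h = s₂ i k (g * h))
    (h1 : ∀ i, s₂ i i 1 = 1)
    (hT : ∀ A : Matrix J J (MonoidAlgebra R Γ), MSup2 (fun i j => s i j '' S i j) A →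
      IsUnit A → T A)
    {a b : Matrix J J (MonoidAlgebra R G)} (hab : a * b = 1) (hba : b * a = 1)
    (ha : MSup2 S a) (hb : MSup2 S b) : T a := by
  have h := T_map p (hT (Matrix.of fun i j => ZCovB_md (s i j) (a i j))
    (fun i j => ZCovB_md_sup _ (ha i j))
    ⟨⟨_, _, ZCovB_inv S s s₂ hs h1 hab ha hb, ZCovB_inv S s s₂ hs h1 hba hb ha⟩, rfl⟩)
  have e : (Matrix.of fun i j => ZCovB_md (s i j) (a i j)).map
      (MonoidAlgebra.mapDomainRingHom R p) = a := by
    ext1 i j
    exact ZCovB_md_back p _ (hp i j) _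
  rwa [e] at h

theorem T_of_geo {G Ω : Type} [Group G] [MulAction G Ω] (X : SimpleGraph Ω)
    (hadj : ∀ (g : G) a b, X.Adj a b → X.Adj (g • a) (g • b))
    (ty : Ω → Prop) (hty : ∀ (g : G) a, ty (g • a) ↔ ty a)
    (hty' : ∀ a b, X.Adj a b → (ty a ↔ ¬ ty b))
    (hfour : ∀ a b b' c, X.Adj a b → X.Adj b c → X.Adj a b' → X.Adj b' c → a ≠ c → b = b')
    (hrig : ∀ (g : G) a b c d, X.Adj a b → X.Adj b c → X.Adj c d → a ≠ c → b ≠ d →
      g • a = a → g • b = b → g • c = c → g • d = d → ∀ z : Ω, g • z = z)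
    (hfix : ∀ g : G, ∃ a : Ω, g • a = a) (hV : ∀ a : Ω, QQ R (MulAction.stabilizer G a))
    {J : Type} [Fintype J] [DecidableEq J] (l : J → Ω)
    {a b : Matrix J J (MonoidAlgebra R G)} (hab : a * b = 1) (hba : b * a = 1)
    (ha : MSup2 (fun i j => {g : G | Near X (g • l j) (l i)}) a)
    (hb : MSup2 (fun i j => {g : G | Near X (g • l j) (l i)}) b) : T a := by
  obtain ⟨Γ, _, p, V, _, Y, q, o, s, s₂, c1, c2, c3, c4, c5, c6, c7, c8, c9, c10, c11, c12⟩ :=
    exists_cover X hadj ty hty hty' hfour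
  refine T_of_lift p (fun i j => {g : G | Near X (g • l j) (l i)}) (fun i j => s (l i) (l j))
    (fun i j => s₂ (l i) (l j)) (fun i j g => c9 _ _ g)
    (fun i j k g hg h hh => c11 _ _ _ g h hg hh) (fun i => c12 _) (fun A hA hu => ?_)
    hab hba ha hb
  have hfx : ∀ (γ : Γ) (z : V), γ • z = z → p γ • q z = q z := fun γ z h => by rw [← c3, h]
  refine T_of_forest Y c1 c2 (fun z => ty (q z)) (fun γ z => by rw [c3, hty])
    (fun z z' h => hty' _ _ (c4 _ _ h)) ?_ (fun z => ?_) (fun x hx => ?_) (fun j => o (l j))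
    (fun i j => (hA i j).mono ?_) hu
  · intro γ z₁ z₂ z₃ z₄ a12 a23 a34 n13 n24 f1 f2 f3 f4
    refine c7 γ z₁ f1 (hrig (p γ) _ _ _ _ (c4 _ _ a12) (c4 _ _ a23) (c4 _ _ a34)
      (fun h => n13 (c5 _ _ _ a12.symm a23 h)) (fun h => n24 (c5 _ _ _ a23.symm a34 h))
      (hfx _ _ f1) (hfx _ _ f2) (hfx _ _ f3) (hfx _ _ f4))
  · refine (hV (q z)).sub ((p.comp (MulAction.stabilizer Γ z).subtype).codRestrict _
      fun γ => hfx _ _ γ.2) ?_
    rw [injective_iff_map_eq_one]
    intro γ hγ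
    exact Subtype.ext (c6 γ z γ.2 (congrArg Subtype.val hγ))
  · obtain ⟨w, hw⟩ := hfix (p x)
    have hk : ∀ γ ∈ (MulAction.toPermHom Γ V).ker, ∀ z : V, γ • z = z := fun γ hγ z => by
      have := congrArg (fun e : Equiv.Perm V => e z) (MonoidHom.mem_ker.1 hγ)
      simpa using this
    have l1 : (MulAction.toPermHom Γ V).ker ⊔ Subgroup.zpowers x ≤
        (MulAction.stabilizer G w).comap p := by
      refine sup_le (fun γ hγ => ?_) ((Subgroup.zpowers_le (G := Γ)).2 hw)
      have := hfx γ (o w) (hk γ hγ _)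
      rwa [c8] at this
    have l2 : (MulAction.toPermHom Γ V).ker ⊔ Subgroup.zpowers x ≤
        (Subgroup.zpowers (MulAction.toPermHom Γ V x)).comap (MulAction.toPermHom Γ V) :=
      sup_le (Subgroup.ker_le_comap _ _)
        ((Subgroup.zpowers_le (G := Γ)).2 (Subgroup.mem_zpowers _))
    refine ((hV w).prod_poly (ZCovB_poly x hx)).sub
      (((p.comp (Subgroup.subtype _)).codRestrict _ fun γ => l1 γ.2).prod
        (((MulAction.toPermHom Γ V).comp (Subgroup.subtype _)).codRestrict _ fun γ => l2 γ.2)) ?_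
    rw [injective_iff_map_eq_one]
    intro γ hγ
    have e1 : p γ = 1 := congrArg (fun t => (t.1 : G)) hγ
    have e2 : MulAction.toPermHom Γ V γ = 1 := congrArg (fun t => (t.2 : Equiv.Perm V)) hγ
    exact Subtype.ext (c6 γ (o w) (hk γ e2 _) e1)
  · rintro _ ⟨g, hg, rfl⟩
    exact c10 _ _ g hg

end Pool.Agent.MP_f7db47_al.PT
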