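import Pool.Agent.MP_f7db47_al.PT.ZDefs
import Pool.Agent.MP_f7db47_al.PT.Win1H
import Pool.Agent.MP_f7db47_al.Main

/-!
Holonomy of windows for actions that are not free.
-/

set_option linter.unusedSectionVars false

namespace Pool.Agent.MP_f7db47_al.PT

open Matrix

universe v

variable {R : Type v} [Ring R] {G : Type} [Group G]
variable {ι : Type} [Fintype ι] {V : ι → Type} [∀ τ, MulAction G (V τ)]
variable {Q : Type} [Group Q] {Ω : Type} [MulAction Q Ω]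

variable (V) in
/-- Elements with a common fixed point in the product satisfy `Comm2`. -/
def ZU (D : Geo Q Ω) (f : G →* Q) : Prop :=
  ∀ (x : ∀ τ, V τ) (a b : G), (∀ τ, a • x τ = x τ) → (∀ τ, b • x τ = x τ) → D.Comm2 (f a) (f b)

variable (R) in
/-- Subgroups that fix a point of the geometry satisfy the inductive property. -/
def ZS (f : G →* Q) (Ω : Type) [MulAction Q Ω] : Prop :=
  ∀ (ω : Ω) (H : Subgroup G), (∀ g ∈ H, f g • ω = ω) → QQ R H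

lemma Eqv.mono {s s' : ℕ} {x y : Win V} {g : G} (h : Eqv s x y g) (hs : s' ≤ s) : Eqv s' x y g :=
  fun τ t ht => h τ t (ht.trans (by exact_mod_cast hs))

lemma Per.back {S : ℕ} {x : Win V} {a : G} {v : ι → ℤ} (h : Per S x a v) (τ : ι) {t : ℤ}
    (h1 : |t| ≤ S) (h2 : |t - v τ| ≤ S) : a⁻¹ • x τ t = x τ (t - v τ) := by
  rw [inv_smul_eq_iff, h τ _ h2 (by simpa using h1), sub_add_cancel]

lemma Per.conj {S A s s' : ℕ} {x : Win V} {a u : G} {v : ι → ℤ} (h : Per S x a v)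
    (hv : ∀ τ, |v τ| ≤ A) (hu : Eqv s x x u) (h1 : s ≤ S) (h2 : s' + A ≤ s) :
    Eqv s' x x (a * u * a⁻¹) := by
  intro τ t ht
  have h3 := abs_le.1 (hv τ)
  have h4 := abs_le.1 ht
  have h5 : a⁻¹ • x τ t = x τ (t - v τ) :=
    h.back τ (abs_le.2 (by omega)) (abs_le.2 (by omega))
  rw [mul_smul, mul_smul, h5, hu τ _ (abs_le.2 (by omega)), ← h5, smul_inv_smul]

lemma Per.comm {S A s : ℕ} {x : Win V} {a b : G} {v w : ι → ℤ} (ha : Per S x a v)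
    (hb : Per S x b w) (hv : ∀ τ, |v τ| ≤ A) (hw : ∀ τ, |w τ| ≤ A) (h : s + 2 * A ≤ S) :
    Eqv s x x (a * b * a⁻¹ * b⁻¹) := by
  intro τ t ht
  have h3 := abs_le.1 (hv τ)
  have h4 := abs_le.1 (hw τ)
  have h5 := abs_le.1 ht
  rw [mul_smul, mul_smul, mul_smul, hb.back τ (abs_le.2 (by omega)) (abs_le.2 (by omega)),
    ha.back τ (abs_le.2 (by omega)) (abs_le.2 (by omega)),
    hb τ _ (abs_le.2 (by omega)) (abs_le.2 (by omega)),
    ha τ _ (abs_le.2 (by omega)) (abs_le.2 (by omega))]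
  congr 1
  ring

variable {D : Geo Q Ω} {f : G →* Q}

lemma ZU.comm2 (hU : ZU V D f) {s : ℕ} {x : Win V} {a b : G} (ha : Eqv s x x a)
    (hb : Eqv s x x b) : D.Comm2 (f a) (f b) :=
  hU (fun τ => x τ 0) a b (fun τ => ha τ 0 (by simp)) fun τ => hb τ 0 (by simp)

lemma ZU.fix_un (hU : ZU V D f) {S A : ℕ} (hA : A ≤ S) {x : Win V} {a u : G} {v : ι → ℤ}
    (h : Per S x a v) (hv : ∀ τ, |v τ| ≤ A) (hu : Eqv A x x u) (hn : D.Un (f u)) :
    f a • D.om (f u) = D.om (f u) := by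
  have h1 : Eqv 0 x x (a * u * a⁻¹) := h.conj hv hu hA (by omega)
  have h2 := (hU.comm2 h1 (hu.mono (Nat.zero_le _))).1
  rw [map_mul, map_mul, map_inv] at h2
  rw [← D.om_conj _ _ (D.un_ncz _ hn)]
  exact h2 (D.un_conj _ _ hn) hn

lemma ZU.fix_nun (hU : ZU V D f) {S A s : ℕ} (hA : s + A ≤ S) {x : Win V}
    (hs : ∀ u, Eqv s x x u → ¬ D.Un (f u)) {a u : G} {v : ι → ℤ}
    (h : Per S x a v) (hv : ∀ τ, |v τ| ≤ A) (hu : Eqv (s + A) x x u) (hn : ¬ D.Cz (f u)) :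
    f a • D.om (f u) = D.om (f u) := by
  have h1 : Eqv s x x (a * u * a⁻¹) := h.conj hv hu hA le_rfl
  have h0 : Eqv s x x u := hu.mono (by omega)
  have h2 := (hU.comm2 h1 h0).2
  have h3 := hs _ (Win1H_trans (Win1H_trans (Win1H_trans h1 h0) (Win1H_symm h1)) (Win1H_symm h0))
  simp only [map_mul, map_inv] at h2 h3
  rw [← D.om_conj _ _ hn]
  refine (h2 (fun h4 => hn (D.cz_conj _ _ h4)) hn).resolve_left ?_
  simpa only [_root_.mul_inv_rev, inv_inv] using h3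

lemma ZU.fix_grp (hU : ZU V D f) {S A : ℕ} (hS : 4 * A ≤ S) (x : Win V) :
    ∃ ω : Ω, ∀ g ∈ Win1H_grp G S A x, f g • ω = ω := by
  have key : (∃ ω : Ω, ∀ (g : G) (v : ι → ℤ), (∀ τ, |v τ| ≤ A) → Per S x g v → f g • ω = ω) := by
    by_cases h1 : ∃ u, Eqv A x x u ∧ D.Un (f u)
    · obtain ⟨u, h2, h3⟩ := h1
      exact ⟨_, fun g v hv hg => hU.fix_un (by omega) hg hv h2 h3⟩
    by_cases h2 : ∃ (a b : G) (v w : ι → ℤ), (∀ τ, |v τ| ≤ A) ∧ (∀ τ, |w τ| ≤ A) ∧ Per S x a v ∧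
        Per S x b w ∧ ¬ D.Cz (f (a * b * a⁻¹ * b⁻¹))
    · obtain ⟨a, b, v, w, hv, hw, ha, hb, h3⟩ := h2
      exact ⟨_, fun g v' hv' hg => hU.fix_nun (s := A) (by omega) (fun u hu hn => h1 ⟨u, hu, hn⟩)
        hg hv' (ha.comm hb hv hw (by omega)) h3⟩
    by_cases h3 : ∃ (b : G) (w : ι → ℤ), (∀ τ, |w τ| ≤ A) ∧ Per S x b w ∧ ¬ D.Cz (f b)
    · obtain ⟨b, w, hw, hb, h4⟩ := h3
      refine ⟨_, fun g v hv hg => D.om_comm _ _ h4 ?_⟩
      by_contra h5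
      exact h2 ⟨g, b, v, w, hv, hw, hg, hb, by simpa only [map_mul, map_inv] using h5⟩
    · refine ⟨D.om 1, fun g v hv hg => D.cz_triv _ _ ?_⟩
      by_contra h4
      exact h3 ⟨g, v, hv, hg, h4⟩
  obtain ⟨ω, h⟩ := key
  refine ⟨ω, fun g hg => ?_⟩
  have : Win1H_grp G S A x ≤ (MulAction.stabilizer Q ω).comap f := by
    rw [Win1H_grp, Subgroup.closure_le]
    rintro g ⟨v, hv, hg⟩
    exact h g v hv hg
  exact this hg

theorem Marks.holZ {S A L : ℕ} (M : Marks G V S A L) (hU : ZU V D f) (hsol : ZS R f Ω)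
    {ρ r₀ t r q : ℕ} (hA : 8 * t * r₀ + r ≤ A) (hS : 4 * A ≤ S) (hL : S ≤ L)
    (hρ : 4 * t * r₀ + r + L ≤ ρ) (J : Type) [Fintype J] [DecidableEq J] (l : J → Win V)
    (hl : ∀ j, l j ∈ M.piece r₀ t q) (a : Matrix J J (MonoidAlgebra R G))
    (ha : MSup2 (fun i j => Sp G ρ r₀ r (l i) (l j)) a) (hu : IsUnit a) : T a := by
  choose m m' hm _ hb _ using hl
  refine T_of_groupoid (fun i j => {g | ∃ γ ∈ Win1H_grp G S A (sh (l i) (m i)), ∃ k,
    Eqv S (sh (l i) (m i)) (sh (l j) (m j)) k ∧ g = γ * k}) (fun i => ?_) ?_ ?_ ?_ ?_ hu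
  · exact ⟨1, one_mem _, 1, fun τ t _ => one_smul _ _, (mul_one 1).symm⟩
  · rintro i j n _ ⟨γ, h1, k, h2, rfl⟩ _ ⟨γ', h3, k', h4, rfl⟩
    exact ⟨_, mul_mem h1 (Win1H_conj h2 h3), _, Win1H_trans h2 h4, by group⟩
  · rintro i j _ ⟨γ, h1, k, h2, rfl⟩
    exact ⟨_, Win1H_conj (Win1H_symm h2) (inv_mem h1), _, Win1H_symm h2, by group⟩
  · intro i H hH
    obtain ⟨ω, hω⟩ := hU.fix_grp hS (sh (l i) (m i))
    refine (hsol ω H fun g hg => hω g ?_).g1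
    have h2 : g ∈ (H : Set G) := hg
    rw [hH] at h2
    obtain ⟨γ, h3, k, h4, rfl⟩ := h2
    exact mul_mem h3 (Win1H_self h4)
  · refine fun i j => (ha i j).mono ?_
    rintro g ⟨d, hd, hr, hg⟩
    have hA' : 2 * (4 * (t : ℤ) * r₀) + r ≤ A := by
      have : ((8 * t * r₀ + r : ℕ) : ℤ) ≤ A := by exact_mod_cast hA
      push_cast at this
      linarith
    have hρ' : 4 * (t : ℤ) * r₀ + r + L ≤ ρ := by exact_mod_cast hρ
    have hi := fun τ => abs_le.1 (hb i τ)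
    have hj := fun τ => abs_le.1 (hb j τ)
    generalize 4 * (t : ℤ) * r₀ = B at hA' hρ' hi hj
    have h1 : M.Mk q (l i) (m j + d) := (M.transfer hg q (m j)
      (fun τ => by have := hj τ; omega)
      (fun τ => by have := hj τ; have := hr τ; omega)).2 (hm j)
    have h2 : ∀ τ, |m i τ - (m j + d) τ| ≤ A := fun τ => by
      have := hi τ
      have := hj τ
      have := hr τ
      have := hd.1 τ
      rw [Pi.add_apply, abs_le]
      omega
    obtain ⟨γ, hγ⟩ := M.sep q (l i) _ _ (hm i) h1 h2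
    refine ⟨γ, Subgroup.subset_closure ⟨fun τ => (m j + d) τ - m i τ,
      fun τ => by rw [abs_sub_comm]; exact h2 τ, fun τ s hs _ => ?_⟩, γ⁻¹ * g, fun τ s hs => ?_,
      by group⟩
    · rw [hγ τ s hs]
      simp only [sh]
      congr 1
      ring
    · have h3 := abs_le.1 hs
      have := hj τ
      have := hr τ
      rw [mul_smul, inv_smul_eq_iff, hγ τ s hs]
      simp only [sh]
      rw [hg τ _ (by omega) (by omega), Pi.add_apply]
      congr 1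
      ring

/-- The window has no repetitions. -/
def Good (ρ : ℕ) (x : Win V) : Prop :=
  ∀ (τ : ι) (s t : ℤ), |s| ≤ ρ → |t| ≤ ρ → x τ s = x τ t → s = t

lemma Arr.back {ρ : ℕ} {x y : Win V} {g : G} {d : ι → ℤ} (h : Arr ρ x y g d) (τ : ι) {t : ℤ}
    (h1 : -(ρ : ℤ) ≤ t - d τ) (h2 : t ≤ ρ) : g⁻¹ • x τ t = y τ (t - d τ) := by
  rw [inv_smul_eq_iff, h τ _ h1 (by omega), sub_add_cancel]

lemma Arr.eqv {ρ r s s' : ℕ} {x y : Win V} {g u : G} {d : ι → ℤ} (h : Arr ρ x y g d)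
    (hd : ∀ τ, 0 ≤ d τ ∧ d τ ≤ r) (hu : Eqv s y y u) (h1 : s ≤ ρ) (h2 : s' + r ≤ s) :
    Eqv s' x x (g * u * g⁻¹) := by
  intro τ t ht
  have h3 := hd τ
  have h4 := abs_le.1 ht
  have h5 : g⁻¹ • x τ t = y τ (t - d τ) := h.back τ (by omega) (by omega)
  rw [mul_smul, mul_smul, h5, hu τ _ (abs_le.2 (by omega)), ← h5, smul_inv_smul]

lemma Arr.per {ρ r S S' : ℕ} {x y : Win V} {g γ : G} {d v : ι → ℤ} (h : Arr ρ x y g d)
    (hd : ∀ τ, 0 ≤ d τ ∧ d τ ≤ r) (hγ : Per S y γ v) (h1 : S ≤ ρ) (h2 : S' + r ≤ S) :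
    Per S' x (g * γ * g⁻¹) v := by
  intro τ t ht ht'
  have h3 := hd τ
  have h4 := abs_le.1 ht
  have h6 := abs_le.1 ht'
  rw [mul_smul, mul_smul, h.back τ (by omega) (by omega),
    hγ τ _ (abs_le.2 (by omega)) (abs_le.2 (by omega)), h τ _ (by omega) (by omega)]
  congr 1
  ring

lemma Per.mono {S S' : ℕ} {x : Win V} {γ : G} {v : ι → ℤ} (h : Per S x γ v) (hS : S' ≤ S) :
    Per S' x γ v := fun τ t h1 h2 =>
  h τ t (h1.trans (by exact_mod_cast hS)) (h2.trans (by exact_mod_cast hS))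

lemma Per.ncz [Nonempty ι] (hZ : ∀ g, D.Cz (f g) → ∀ (τ : ι) (y : V τ), g • y = y)
    {ρ S A : ℕ} (h1 : 2 * A ≤ S) (h2 : S ≤ ρ) {x : Win V} (hx : Good ρ x) {γ : G} {v : ι → ℤ}
    (h : Per S x γ v) (hv : ∀ τ, 1 ≤ v τ ∧ v τ ≤ A) : ¬ D.Cz (f γ * f γ) := by
  intro hc
  obtain ⟨τ⟩ := ‹Nonempty ι›
  have h3 := hv τ
  have h4 := hZ (γ * γ) (by rwa [map_mul]) τ (x τ 0)
  rw [mul_smul, h τ 0 (by simp) (abs_le.2 (by omega)),
    h τ _ (abs_le.2 (by omega)) (abs_le.2 (by omega))] at h4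
  have := hx τ _ _ (abs_le.2 (by omega)) (by simp) h4
  omega

/-- Labels for periodic windows. -/
theorem exists_label [Nonempty ι] (hU : ZU V D f)
    (hZ : ∀ g, D.Cz (f g) → ∀ (τ : ι) (y : V τ), g • y = y) {ρ r₀ r S A : ℕ}
    (h1 : 4 * A + 2 * r ≤ S) (h2 : S ≤ ρ) : ∃ lab : Win V → Ω, ∀ x y : Win V, Good ρ x →
      PosPer G S A x → Good ρ y → PosPer G S A y → ∀ g ∈ Sp G ρ r₀ r x y,
        Near D.X (f g • lab y) (lab x) := by
  classical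
  have key : ∀ x : Win V, ∃ ω : Ω, PosPer G S A x →
      (∃ u, Eqv (r + A) x x u ∧ D.Un (f u) ∧ ω = D.om (f u)) ∨
      ((∀ u, Eqv (r + A) x x u → ¬ D.Un (f u)) ∧ ∃ (γ : G) (v : ι → ℤ),
        (∀ τ, 1 ≤ v τ ∧ v τ ≤ A) ∧ Per S x γ v ∧ ω = D.om (f γ)) := by
    intro x
    by_cases hx : PosPer G S A x
    · by_cases h : ∃ u, Eqv (r + A) x x u ∧ D.Un (f u)
      · obtain ⟨u, h3, h4⟩ := h
        exact ⟨_, fun _ => Or.inl ⟨u, h3, h4, rfl⟩⟩
      · obtain ⟨γ, v, h3, h4⟩ := hx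
        exact ⟨_, fun _ => Or.inr ⟨fun u hu hn => h ⟨u, hu, hn⟩, γ, v, h3, h4, rfl⟩⟩
    · exact ⟨D.om 1, fun h => absurd h hx⟩
  choose lab hlab using key
  refine ⟨lab, ?_⟩
  rintro x y gx px gy py g ⟨d, hd, hr, hg⟩
  have hd' : ∀ τ, 0 ≤ d τ ∧ d τ ≤ r := fun τ => ⟨hd.1 τ, hr τ⟩
  have habs : ∀ {v : ι → ℤ}, (∀ τ, 1 ≤ v τ ∧ v τ ≤ A) → ∀ τ, |v τ| ≤ A := fun h τ => by
    have := h τ
    exact abs_le.2 (by omega)
  have near : ∀ {γ h : Q}, ¬ D.Cz (γ * γ) → ¬ D.Cz h → γ • D.om h = D.om h →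
      Near D.X (D.om γ) (D.om h) := fun a b c => (D.om_near _ _ a b c).imp_right fun h => h.2
  rcases hlab y py with ⟨u', e1, e2, e3⟩ | ⟨e1, γ', v', e2, e3, e4⟩
  · have e4 : Eqv A x x (g * u' * g⁻¹) := hg.eqv hd' e1 (by omega) (by omega)
    have e5 : D.Un (f (g * u' * g⁻¹)) := by
      rw [map_mul, map_mul, map_inv]; exact D.un_conj _ _ e2
    have e6 : f g • lab y = D.om (f (g * u' * g⁻¹)) := by
      rw [e3, map_mul, map_mul, map_inv, D.om_conj _ _ (D.un_ncz _ e2)]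
    rw [e6]
    rcases hlab x px with ⟨u, a1, a2, a3⟩ | ⟨-, γ, v, a2, a3, a4⟩
    · exact Or.inl (((hU.comm2 e4 (a1.mono (by omega))).1 e5 a2).trans a3.symm)
    · rw [a4]
      exact (near (a3.ncz hZ (by omega) h2 gx a2) (D.un_ncz _ e5)
        (hU.fix_un (by omega) a3 (habs a2) e4 e5)).imp Eq.symm fun h => h.symm
  · have e5 : Per (S - r) x (g * γ' * g⁻¹) v' := hg.per hd' e3 h2 (by omega)
    have e6 := e5.ncz hZ (by omega) (by omega) gx e2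
    have e7 := e3.ncz hZ (by omega) h2 gy e2
    have e8 : f g • lab y = D.om (f (g * γ' * g⁻¹)) := by
      rw [e4, map_mul, map_mul, map_inv, D.om_conj _ _ fun h => e7 (D.cz_sq _ h)]
    rw [e8]
    generalize g * γ' * g⁻¹ = δ at e5 e6
    rcases hlab x px with ⟨u, a1, a2, a3⟩ | ⟨a1, γ, v, a2, a3, a4⟩
    · rw [a3]
      exact near e6 (D.un_ncz _ a2)
        (hU.fix_un (by omega) e5 (habs e2) (a1.mono (by omega)) a2)
    · rw [a4]
      have a5 := a3.ncz hZ (by omega) h2 gx a2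
      have a6 : Per (S - r) x γ v := a3.mono (by omega)
      by_cases hc : D.Cz (f (δ * γ * δ⁻¹ * γ⁻¹))
      · refine near e6 (fun h => a5 (D.cz_sq _ h)) (D.om_comm _ _ (fun h => a5 (D.cz_sq _ h)) ?_)
        simpa only [map_mul, map_inv] using hc
      · have b1 : Eqv (r + A + A) x x (δ * γ * δ⁻¹ * γ⁻¹) :=
          e5.comm a6 (habs e2) (habs a2) (by omega)
        have b2 := a1 _ (b1.mono (by omega))
        have b3 := (D.om_near _ _ e6 hc (hU.fix_nun (by omega) a1 e5 (habs e2) b1 hc)).resolve_right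
          fun h => b2 h.1
        have b4 := (D.om_near _ _ a5 hc (hU.fix_nun (by omega) a1 a6 (habs a2) b1 hc)).resolve_right
          fun h => b2 h.1
        exact Or.inl (b3.trans b4.symm)

end Pool.Agent.MP_f7db47_al.PT
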