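import Pool.Agent.MP_f7db47_al.PT.ZElim
import Pool.Agent.MP_f7db47_al.PT.ZWin
import Pool.Agent.MP_f7db47_al.PT.MarkW
import Pool.Agent.MP_f7db47_al.PT.ZCovB

/-!
The elimination theorem for windows, for actions that are not free.
-/

set_option linter.unusedSectionVars false

namespace Pool.Agent.MP_f7db47_al.PT

open Matrix

universe v

variable {R : Type v} [Ring R] {G : Type} [Group G]
variable {ι : Type} [Fintype ι] {V : ι → Type} [∀ τ, MulAction G (V τ)]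
variable {Q : Type} [Group Q] {Ω : Type} [MulAction Q Ω] {D : Geo Q Ω} {f : G →* Q}

lemma Geo.fix (D : Geo Q Ω) (g : Q) : g • D.om g = D.om g := by
  by_cases h : D.Cz g
  · exact D.cz_triv _ _ h
  · rw [← D.om_conj _ _ h, mul_inv_cancel_right]

theorem T_of_geo' (hsol : ZS R f Ω) {J : Type} [Fintype J] [DecidableEq J] (l : J → Ω)
    {a b : Matrix J J (MonoidAlgebra R G)} (hab : a * b = 1) (hba : b * a = 1)
    (ha : MSup2 (fun i j => {g : G | Near D.X (f g • l j) (l i)}) a)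
    (hb : MSup2 (fun i j => {g : G | Near D.X (f g • l j) (l i)}) b) : T a := by
  let _ : MulAction G Ω := MulAction.compHom Ω f
  exact T_of_geo D.X (fun g => D.adj_smul (f g)) D.ty (fun g => D.ty_smul (f g)) D.ty_adj D.four
    (fun g => D.rigid (f g)) (fun g => ⟨_, D.fix (f g)⟩) (fun ω => hsol ω _ fun g hg => hg) l
    hab hba ha hb

theorem winZ_core [Nonempty ι] (hU : ZU V D f)
    (hZ : ∀ g, D.Cz (f g) → ∀ (τ : ι) (y : V τ), g • y = y) (hsol : ZS R f Ω) (r₀ : ℕ)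
    (hr : 3 ≤ r₀) :
    ∃ S : ℕ, ∀ n : ℕ, ∃ ρ : ℕ, S ≤ ρ ∧ ∀ (cand : Fin n → Win V) (J : Type) [Fintype J]
      [DecidableEq J] (l : J → Win V), (∀ j, Good ρ (l j)) →
      (∀ j, ∃ i, ∀ (τ : ι) (s : ℤ), |s| ≤ S → l j τ s = cand i τ s) →
      ∀ a b : Matrix J J (MonoidAlgebra R G), a * b = 1 → b * a = 1 →
        MSup2 (fun i j => Sp G ρ r₀ r₀ (l i) (l j)) a →
        MSup2 (fun i j => Sp G ρ r₀ r₀ (l i) (l j)) b → T a := by
  obtain ⟨C, hC⟩ : ∃ C, C = 8 * r₀ + 2 := ⟨_, rfl⟩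
  obtain ⟨N, hN⟩ : ∃ N, N = (2 * C + 1) ^ Fintype.card ι + 1 := ⟨_, rfl⟩
  obtain ⟨t, ht⟩ : ∃ t, t = 3 ^ N * r₀ := ⟨_, rfl⟩
  obtain ⟨A, hA⟩ : ∃ A, A = C * t := ⟨_, rfl⟩
  have hA' : A = 8 * t * r₀ + 2 * t := by rw [hA, hC]; ring
  obtain ⟨S, hS⟩ : ∃ S, S = 4 * A + 2 * t := ⟨_, rfl⟩
  refine ⟨S, fun n => ?_⟩
  obtain ⟨L, hL⟩ : ∃ L, L = N * n * A + S := ⟨_, rfl⟩
  refine ⟨4 * t * r₀ + t + L, by omega, fun cand J _ _ l hg hl a b hab hba ha hb => ?_⟩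
  have hex := exists_Marks (G := G) S A t C n hA.le (by omega) cand
  rw [← hN, ← hL] at hex
  obtain ⟨M, hM⟩ := hex
  refine elim_loop' (Sp G (4 * t * r₀ + t + L) r₀) (fun r r' h x y => Sp.mono h x y)
    (fun r r' x y z a ha b hb => Sp.mul ha hb) N r₀
    {x | Good (4 * t * r₀ + t + L) x ∧ ∃ i, ∀ (τ : ι) (s : ℤ), |s| ≤ S → x τ s = cand i τ s}
    (fun q => M.piece r₀ t q) ?_ ?_ ?_ J l (fun j => ⟨hg j, hl j⟩) a b hab hba ha hb
  · rw [← ht]
    intro J _ _ l hl a b hab hba ha hb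
    have hp : ∀ j, PosPer G S A (l j) := fun j => by
      by_contra h
      obtain ⟨q, hq, m, h1, h2⟩ := hM _ (hl j).1.2 h
      exact (hl j).2 q hq (M.cover hr h1 h2)
    obtain ⟨lab, hlab⟩ := exists_label (ρ := 4 * t * r₀ + t + L) (r₀ := r₀) (r := t) (S := S)
      (A := A) hU hZ (by omega) (by omega)
    have h := fun i j => hlab (l i) (l j) (hl i).1.1 (hp i) (hl j).1.1 (hp j)
    exact T_of_geo' hsol (fun j => lab (l j)) hab hba (ha.mono h) (hb.mono h)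
  · rw [← ht]
    intro q _ c x c' hc hc' h1 h2
    exact M.conv (by omega) (by omega) le_rfl hc hc' h1 h2
  · rw [← ht]
    intro q _ J _ _ l a hl ha hu
    exact M.holZ hU hsol (by omega) (by omega) (by omega) le_rfl J l hl a ha hu

end Pool.Agent.MP_f7db47_al.PT
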