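import Pool.Agent.MP_f7db47_al.PT.ZDefs
import Pool.Agent.MP_f7db47_al.PT.Hgt

/-!
A forest that covers a bipartite graph without squares.
-/

namespace Pool.Agent.MP_f7db47_al.PT

theorem ZCovA_step {E : Type} [DecidableEq E] (t : E × Bool) (w : FreeGroup E) :
    FreeGroup.norm (FreeGroup.mk [t] * w) = FreeGroup.norm w + 1 ∨
      (FreeGroup.norm (FreeGroup.mk [t] * w) + 1 = FreeGroup.norm w ∧
        (FreeGroup.toWord w).head? = some (t.1, !t.2)) := by
  have h1 : FreeGroup.toWord (FreeGroup.mk [t] * w) =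
      FreeGroup.reduce (t :: FreeGroup.toWord w) := by
    rw [FreeGroup.toWord_mul, FreeGroup.toWord_mk, FreeGroup.reduce_singleton]
    rfl
  rw [FreeGroup.reduce.cons, FreeGroup.reduce_toWord] at h1
  unfold FreeGroup.norm
  rw [h1]
  rcases FreeGroup.toWord w with _ | ⟨hd, tl⟩
  · left
    rfl
  · by_cases h : t.1 = hd.1 ∧ t.2 = !hd.2
    · right
      refine ⟨by simp [h], ?_⟩
      obtain ⟨h1, h2⟩ := h
      simp [h1, h2]
    · left
      simp [h]

theorem ZCovA_step' {E : Type} [DecidableEq E] (t : E × Bool) (u : FreeGroup E) :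
    FreeGroup.norm (u * FreeGroup.mk [t]) = FreeGroup.norm u + 1 ∨
      (FreeGroup.norm (u * FreeGroup.mk [t]) + 1 = FreeGroup.norm u ∧
        (FreeGroup.toWord u⁻¹).head? = some t) := by
  have h1 : (u * FreeGroup.mk [t])⁻¹ = FreeGroup.mk [(t.1, !t.2)] * u⁻¹ := by
    rw [mul_inv_rev, FreeGroup.inv_mk]
    rfl
  have h2 := ZCovA_step (t.1, !t.2) u⁻¹
  rw [← h1, FreeGroup.norm_inv_eq, FreeGroup.norm_inv_eq] at h2
  simpa using h2

theorem ZCovA_phi {G E : Type} [Group G] [MulAction G E] :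
    ∃ φ : G →* MulAut (FreeGroup E), ∀ g e, φ g (FreeGroup.of e) = FreeGroup.of (g • e) := by
  refine ⟨MonoidHom.mk' (fun g => FreeGroup.freeGroupCongr (MulAction.toPerm g)) fun a b => ?_,
    fun g e => by simp⟩
  apply MulEquiv.toMonoidHom_injective
  ext e
  simp [mul_smul]

theorem ZCovA_main {G Ω F : Type} [Group G] [MulAction G Ω] [Group F] (X : SimpleGraph Ω)
    (hadj : ∀ (g : G) a b, X.Adj a b → X.Adj (g • a) (g • b))
    (ty : Ω → Prop) (hty' : ∀ a b, X.Adj a b → (ty a ↔ ¬ ty b))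
    (hfour : ∀ a b b' c, X.Adj a b → X.Adj b c → X.Adj a b' → X.Adj b' c → a ≠ c → b = b')
    (φ : G →* MulAut F) (c : Ω → Ω → F) (n : F → ℤ)
    (hinv : ∀ a b, c b a = (c a b)⁻¹) (hφ : ∀ g a b, φ g (c a b) = c (g • a) (g • b))
    (hone : ∀ a, c a a = 1)
    (hn1 : ∀ u a b, X.Adj a b → n u ≠ n (u * c a b))
    (hn2 : ∀ u a b b', X.Adj a b → X.Adj a b' → n (u * c a b) < n u → n (u * c a b') < n u →
      b = b')
    (htriv : ∀ g : G, (∀ a : Ω, g • a = a) → φ g = 1) :
    ∃ (Γ : Type) (_ : Group Γ) (p : Γ →* G) (V : Type) (_ : MulAction Γ V) (Y : SimpleGraph V)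
      (q : V → Ω) (o : Ω → V) (s s₂ : Ω → Ω → G → Γ),
      Y.IsAcyclic ∧ (∀ (γ : Γ) a b, Y.Adj a b → Y.Adj (γ • a) (γ • b)) ∧
      (∀ (γ : Γ) z, q (γ • z) = p γ • q z) ∧ (∀ z z', Y.Adj z z' → X.Adj (q z) (q z')) ∧
      (∀ z z' z'', Y.Adj z z' → Y.Adj z z'' → q z' = q z'' → z' = z'') ∧
      (∀ (γ : Γ) (z : V), γ • z = z → p γ = 1 → γ = 1) ∧
      (∀ (γ : Γ) (z : V), γ • z = z → (∀ a : Ω, p γ • a = a) → ∀ z' : V, γ • z' = z') ∧
      (∀ a, q (o a) = a) ∧ (∀ x y g, p (s x y g) = g) ∧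
      (∀ x y (g : G), Near X (g • y) x → Y.Reachable (s x y g • o y) (o x)) ∧
      (∀ x y z (g h : G), Near X (g • y) x → Near X (h • z) y →
        s x y g * s y z h = s₂ x z (g * h)) ∧
      ∀ x, s₂ x x 1 = 1 := by
  classical
  letI act : MulAction (F ⋊[φ] G) (F × Ω) :=
    { smul := fun γ z => (γ.left * φ γ.right z.1, γ.right • z.2)
      one_smul := fun z => by
        change ((1 : F) * φ 1 z.1, (1 : G) • z.2) = z
        simp
      mul_smul := fun γ δ z => by
        change ((γ * δ).left * φ (γ * δ).right z.1, (γ * δ).right • z.2) =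
          (γ.left * φ γ.right (δ.left * φ δ.right z.1), γ.right • δ.right • z.2)
        simp [mul_smul, mul_assoc] }
  have hs : ∀ (γ : F ⋊[φ] G) (z : F × Ω),
      γ • z = (γ.left * φ γ.right z.1, γ.right • z.2) := fun _ _ => rfl
  let Y : SimpleGraph (F × Ω) :=
    { Adj := fun z z' => X.Adj z.2 z'.2 ∧ z'.1 = z.1 * c z.2 z'.2
      symm := ⟨fun z z' h => ⟨h.1.symm, by rw [h.2, hinv z.2 z'.2]; simp⟩⟩
      loopless := ⟨fun z h => h.1.ne rfl⟩ }
  have hY : ∀ z z', Y.Adj z z' ↔ X.Adj z.2 z'.2 ∧ z'.1 = z.1 * c z.2 z'.2 := fun _ _ => Iff.rfl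
  have hind : ∀ x y y' z, Near X y x → Near X z y → Near X y' x → Near X z y' →
      c x y * c y z = c x y' * c y' z := by
    intro x y y' z h1 h2 h3 h4
    by_cases hxz : x = z
    · subst hxz
      rw [hinv x y, hinv x y', mul_inv_cancel, mul_inv_cancel]
    by_cases ha : X.Adj x z
    · have key : ∀ y, Near X y x → Near X z y → c x y * c y z = c x z := by
        intro y h1 h2
        rcases h1 with rfl | h1
        · rw [hone, one_mul]
        rcases h2 with rfl | h2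
        · rw [hone, mul_one]
        have t1 := hty' _ _ h1
        have t2 := hty' _ _ h2
        have t3 := hty' _ _ ha
        tauto
      rw [key y h1 h2, key y' h3 h4]
    · have key : ∀ y, Near X y x → Near X z y → X.Adj x y ∧ X.Adj y z := by
        intro y h1 h2
        rcases h1 with rfl | h1
        · rcases h2 with rfl | h2
          · exact absurd rfl hxz
          · exact absurd h2.symm ha
        rcases h2 with rfl | h2
        · exact absurd h1.symm ha
        exact ⟨h1.symm, h2.symm⟩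
      obtain ⟨a1, a2⟩ := key y h1 h2
      obtain ⟨a3, a4⟩ := key y' h3 h4
      rw [hfour x y y' z a1 a2 a3 a4 hxz]
  let c2 : Ω → Ω → F := fun x z =>
    if h : ∃ y, Near X y x ∧ Near X z y then c x h.choose * c h.choose z else 1
  have hc2 : ∀ x y z, Near X y x → Near X z y → c2 x z = c x y * c y z := by
    intro x y z h1 h2
    have h : ∃ y, Near X y x ∧ Near X z y := ⟨y, h1, h2⟩
    simp only [c2, dif_pos h]
    exact hind x _ y z h.choose_spec.1 h.choose_spec.2 h1 h2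
  refine ⟨F ⋊[φ] G, inferInstance, SemidirectProduct.rightHom, F × Ω, act, Y, Prod.snd,
    fun a => (1, a), fun x y g => ⟨c x (g • y), g⟩, fun x z g => ⟨c2 x (g • z), g⟩,
    ?_, ?_, fun _ _ => rfl, fun _ _ h => h.1, ?_, ?_, ?_, fun _ => rfl, fun _ _ _ => rfl,
    ?_, ?_, ?_⟩
  · refine acyclic_of_height Y (fun z => n z.1) (fun z z' h => ?_) fun z z' z'' h h' l l' => ?_
    · rw [h.2]
      exact hn1 _ _ _ h.1
    · rw [h.2] at l
      rw [h'.2] at l'
      have e := hn2 _ _ _ _ h.1 h'.1 l l'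
      exact Prod.ext (by rw [h.2, h'.2, e]) e
  · intro γ a b h
    rw [hY, hs, hs]
    refine ⟨hadj _ _ _ h.1, ?_⟩
    change γ.left * φ γ.right b.1 = γ.left * φ γ.right a.1 * c (γ.right • a.2) (γ.right • b.2)
    rw [h.2, map_mul, hφ, mul_assoc]
  · intro z z' z'' h h' e
    exact Prod.ext (by rw [h.2, h'.2, e]) e
  · intro γ z h hp
    have hp' : γ.right = 1 := hp
    have h1 := congrArg Prod.fst h
    rw [hs, hp'] at h1
    ext
    · simpa using h1
    · simpa using hp'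
  · intro γ z h hp z'
    have hp' : ∀ a : Ω, γ.right • a = a := hp
    have h0 := htriv _ hp'
    have h1 := congrArg Prod.fst h
    rw [hs, h0] at h1
    have h2 : γ.left = 1 := by simpa using h1
    rw [hs, h0, h2, hp']
    simp
  · intro x y g h
    rw [hs]
    change Y.Reachable (c x (g • y) * φ g 1, g • y) (1, x)
    rw [map_one, mul_one]
    rcases h with h | h
    · rw [h, hone]
    · refine SimpleGraph.Adj.reachable (SimpleGraph.Adj.symm ?_)
      exact ⟨h.symm, (one_mul _).symm⟩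
  · intro x y z g h h1 h2
    have h3 : Near X ((g * h) • z) (g • y) := by
      rw [mul_smul]
      rcases h2 with h2 | h2
      · exact Or.inl (by rw [h2])
      · exact Or.inr (hadj _ _ _ h2)
    ext
    · change c x (g • y) * φ g (c y (h • z)) = c2 x ((g * h) • z)
      rw [hc2 x (g • y) _ h1 h3, hφ, mul_smul]
    · rfl
  · intro x
    ext
    · change c2 x ((1 : G) • x) = 1
      rw [one_smul, hc2 x x x (Or.inl rfl) (Or.inl rfl), hone, one_mul]
    · rfl

theorem exists_cover {G Ω : Type} [Group G] [MulAction G Ω] (X : SimpleGraph Ω)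
    (hadj : ∀ (g : G) a b, X.Adj a b → X.Adj (g • a) (g • b))
    (ty : Ω → Prop) (hty : ∀ (g : G) a, ty (g • a) ↔ ty a)
    (hty' : ∀ a b, X.Adj a b → (ty a ↔ ¬ ty b))
    (hfour : ∀ a b b' c, X.Adj a b → X.Adj b c → X.Adj a b' → X.Adj b' c → a ≠ c → b = b') :
    ∃ (Γ : Type) (_ : Group Γ) (p : Γ →* G) (V : Type) (_ : MulAction Γ V) (Y : SimpleGraph V)
      (q : V → Ω) (o : Ω → V) (s s₂ : Ω → Ω → G → Γ),
      Y.IsAcyclic ∧ (∀ (γ : Γ) a b, Y.Adj a b → Y.Adj (γ • a) (γ • b)) ∧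
      (∀ (γ : Γ) z, q (γ • z) = p γ • q z) ∧ (∀ z z', Y.Adj z z' → X.Adj (q z) (q z')) ∧
      (∀ z z' z'', Y.Adj z z' → Y.Adj z z'' → q z' = q z'' → z' = z'') ∧
      (∀ (γ : Γ) (z : V), γ • z = z → p γ = 1 → γ = 1) ∧
      (∀ (γ : Γ) (z : V), γ • z = z → (∀ a : Ω, p γ • a = a) → ∀ z' : V, γ • z' = z') ∧
      (∀ a, q (o a) = a) ∧ (∀ x y g, p (s x y g) = g) ∧
      (∀ x y (g : G), Near X (g • y) x → Y.Reachable (s x y g • o y) (o x)) ∧
      (∀ x y z (g h : G), Near X (g • y) x → Near X (h • z) y →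
        s x y g * s y z h = s₂ x z (g * h)) ∧
      ∀ x, s₂ x x 1 = 1 := by
  classical
  letI act : MulAction G {p : Ω × Ω // X.Adj p.1 p.2 ∧ ty p.1} :=
    { smul := fun g p => ⟨(g • p.1.1, g • p.1.2), hadj _ _ _ p.2.1, (hty _ _).2 p.2.2⟩
      one_smul := fun p => Subtype.ext (Prod.ext (one_smul _ _) (one_smul _ _))
      mul_smul := fun g h p => Subtype.ext (Prod.ext (mul_smul _ _ _) (mul_smul _ _ _)) }
  obtain ⟨φ, hφ⟩ := ZCovA_phi (G := G) (E := {p : Ω × Ω // X.Adj p.1 p.2 ∧ ty p.1})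
  let l : ∀ a b, X.Adj a b → {p : Ω × Ω // X.Adj p.1 p.2 ∧ ty p.1} × Bool := fun a b h =>
    if ht : ty a then (⟨(a, b), h, ht⟩, true)
    else (⟨(b, a), h.symm, (hty' _ _ h.symm).2 ht⟩, false)
  let c : Ω → Ω → FreeGroup {p : Ω × Ω // X.Adj p.1 p.2 ∧ ty p.1} := fun a b =>
    if h : X.Adj a b then FreeGroup.mk [l a b h] else 1
  have hc : ∀ a b (h : X.Adj a b), c a b = FreeGroup.mk [l a b h] := fun a b h => dif_pos h
  have hc0 : ∀ a b, ¬ X.Adj a b → c a b = 1 := fun a b h => dif_neg h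
  have hc1 : ∀ a b (h : X.Adj a b) (ht : ty a), c a b = FreeGroup.of ⟨(a, b), h, ht⟩ := by
    intro a b h ht
    rw [hc a b h]
    simp only [l, dif_pos ht]
    rfl
  have hc2 : ∀ a b (h : X.Adj b a) (ht : ty b), c a b = (FreeGroup.of ⟨(b, a), h, ht⟩)⁻¹ := by
    intro a b h ht
    have ht' : ¬ ty a := (hty' _ _ h).1 ht
    rw [hc a b h.symm]
    simp only [l, dif_neg ht']
    rfl
  have hl : ∀ a b b' (h : X.Adj a b) (h' : X.Adj a b'), l a b h = l a b' h' → b = b' := by
    intro a b b' h h' e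
    by_cases ht : ty a
    · simp only [l, dif_pos ht] at e
      exact congrArg (fun x => x.1.1.2) e
    · simp only [l, dif_neg ht] at e
      exact congrArg (fun x => x.1.1.1) e
  refine ZCovA_main X hadj ty hty' hfour φ c (fun u => (FreeGroup.norm u : ℤ)) ?_ ?_
    (fun a => hc0 a a X.irrefl) ?_ ?_ ?_
  · intro a b
    by_cases h : X.Adj a b
    · by_cases ht : ty a
      · rw [hc1 a b h ht, hc2 b a h ht]
      · have ht' : ty b := (hty' _ _ h.symm).2 ht
        rw [hc1 b a h.symm ht', hc2 a b h.symm ht', inv_inv]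
    · rw [hc0 a b h, hc0 b a fun h' => h h'.symm, inv_one]
  · intro g a b
    by_cases h : X.Adj a b
    · by_cases ht : ty a
      · rw [hc1 a b h ht, hc1 _ _ (hadj g _ _ h) ((hty _ _).2 ht), hφ]
        rfl
      · have ht' : ty b := (hty' _ _ h.symm).2 ht
        rw [hc2 a b h.symm ht', hc2 _ _ (hadj g _ _ h.symm) ((hty _ _).2 ht'), map_inv, hφ]
        rfl
    · rw [hc0 a b h, hc0 _ _ fun h' => h (by simpa using hadj g⁻¹ _ _ h'), map_one]
  · intro u a b h
    rw [hc a b h]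
    rcases ZCovA_step' (l a b h) u with e | ⟨e, -⟩ <;> omega
  · intro u a b b' h h' e e'
    rw [hc a b h] at e
    rw [hc a b' h'] at e'
    rcases ZCovA_step' (l a b h) u with e1 | ⟨-, e1⟩
    · omega
    rcases ZCovA_step' (l a b' h') u with e2 | ⟨-, e2⟩
    · omega
    exact hl a b b' h h' (Option.some.inj (e1.symm.trans e2))
  · intro g hg
    apply MulEquiv.toMonoidHom_injective
    ext e
    have : g • e = e := Subtype.ext (Prod.ext (hg _) (hg _))
    simp [hφ, this]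

end Pool.Agent.MP_f7db47_al.PT
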