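import Pool.Agent.MP_f7db47_al.PT.Orb
import Pool.Agent.MP_f7db47_al.Main
import Pool.Agent.MP_f7db47_al.TBSplit

/-!
Splitting of matrices that are controlled over a long circle.
-/

namespace Pool.Agent.MP_f7db47_al.PT

universe u v

variable {R : Type v} [Ring R] {G : Type u} [Group G]

section
variable {J : Type} [Fintype J] [DecidableEq J]

lemma ZCsl_diag (u : J → G) :
    T (Matrix.diagonal fun i => (MonoidAlgebra.single (u i) 1 : MonoidAlgebra R G)) := by
  have := T_idem_diag (R := R) (ε := 1) (one_mul _) (u := u)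
    fun i j h => Matrix.one_apply_ne fun e => h (congrArg u e)
  rwa [map_single_one_one, sub_self, zero_add, one_mul] at this

lemma ZCsl_diag_mul (u w : J → G) (h : ∀ i, u i * w i = 1) :
    (Matrix.diagonal fun i => (MonoidAlgebra.single (u i) 1 : MonoidAlgebra R G)) *
      (Matrix.diagonal fun i => MonoidAlgebra.single (w i) 1) = 1 := by
  rw [Matrix.diagonal_mul_diagonal, ← Matrix.diagonal_one]
  congr 1; funext i
  rw [MonoidAlgebra.single_mul_single, h, one_mul]; rfl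

lemma ZCsl_sup {H : Type u} [Group H] (f : H →* G) (hf : Function.Injective f) {S : Set G}
    {x : MonoidAlgebra R H} (h : Sup S (MonoidAlgebra.mapDomainRingHom R f x)) :
    Sup (f ⁻¹' S) x := fun g hg => h (f g) (by
  rw [MonoidAlgebra.mapDomainRingHom_apply, MonoidAlgebra.coeff_mapDomain,
    Finsupp.mapDomain_apply hf]
  exact hg)

variable (dg : G → ℤ) (hadd : ∀ a b, dg (a * b) = dg a + dg b)
include hadd

lemma ZCsl_cmp {a b c d : Matrix J J (MonoidAlgebra R G)} {s : ℤ} (hs : s ≠ 0)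
    (ha : MSup {g | dg g = 0} a) (hb : MSup {g | dg g = s} b) (hc : MSup {g | dg g = 0} c)
    (hd : MSup {g | dg g = -s} d) (h : (a + b) * (c + d) = 1) :
    b * c = 0 ∧ a * d = 0 ∧ a * c + b * d = 1 := by
  have h0 := dg_one dg hadd
  have e1 : b * c = 1 - a * c - b * d - a * d := by rw [← h]; noncomm_ring
  have e2 : a * d = 1 - a * c - b * d - b * c := by rw [← h]; noncomm_ring
  have k1 : b * c = 0 := by
    refine MSup.eq_zero (S := {g | dg g = s}) (S' := {g | dg g ≠ s}) (hb.mul hc ?_) ?_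
      fun g hg hg' => hg' hg
    swap
    · rw [e1]
      refine (((msup_one ?_).sub (ha.mul hc ?_)).sub (hb.mul hd ?_)).sub (ha.mul hd ?_)
      · simp only [Set.mem_ofPred_eq]; omega
      all_goals
        intro x hx y hy
        simp only [Set.mem_ofPred_eq, hadd] at *; omega
    · intro x hx y hy
      simp only [Set.mem_ofPred_eq, hadd] at *; omega
  have k2 : a * d = 0 := by
    refine MSup.eq_zero (S := {g | dg g = -s}) (S' := {g | dg g ≠ -s}) (ha.mul hd ?_) ?_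
      fun g hg hg' => hg' hg
    swap
    · rw [e2]
      refine (((msup_one ?_).sub (ha.mul hc ?_)).sub (hb.mul hd ?_)).sub (hb.mul hc ?_)
      · simp only [Set.mem_ofPred_eq]; omega
      all_goals
        intro x hx y hy
        simp only [Set.mem_ofPred_eq, hadd] at *; omega
    · intro x hx y hy
      simp only [Set.mem_ofPred_eq, hadd] at *; omega
  refine ⟨k1, k2, ?_⟩
  rw [← h, add_mul, mul_add, mul_add, k1, k2, add_zero, zero_add]

omit hadd [Fintype J] [DecidableEq J] in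
lemma ZCsl_parts {A : Matrix J J (MonoidAlgebra R G)} {s : ℤ}
    (hA : MSup {g | dg g = 0 ∨ dg g = s} A) :
    ∃ a b, MSup {g | dg g = 0} a ∧ MSup {g | dg g = s} b ∧ A = a + b :=
  ⟨mpr {g | dg g = 0} A, mpr {g | dg g = 0}ᶜ A, msup_mpr _ _, fun i j g hg =>
    (hA.mpr i j g hg).resolve_left (msup_mpr _ A i j g hg), (mpr_add_mpr_compl _ A).symm⟩

lemma ZCsl_two (N : Subgroup G) (hN : ∀ g, g ∈ N ↔ dg g = 0) (t : G) (ht : dg t = 1)
    (h1 : G1 R N) (h0 : G0 R N) {A C : Matrix J J (MonoidAlgebra R G)} (hAC : A * C = 1)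
    (hCA : C * A = 1) (hA : MSup {g | dg g = 0 ∨ dg g = 1} A)
    (hC : MSup {g | dg g = 0 ∨ dg g = -1} C) : T A := by
  have hu : IsUnit A := ⟨⟨A, C, hAC, hCA⟩, rfl⟩
  obtain ⟨a, b, ha, hb, rfl⟩ := ZCsl_parts dg hA
  obtain ⟨c, d, hc, hd, rfl⟩ := ZCsl_parts dg hC
  obtain ⟨k1, k2, -⟩ := ZCsl_cmp dg hadd one_ne_zero ha hb hc hd hAC
  obtain ⟨k3, -, k4⟩ := ZCsl_cmp dg hadd (s := -1) (by omega) hc hd ha hb hCA
  have k5 : b * d * b = b := by
    rw [mul_assoc, eq_sub_of_add_eq' k4, mul_sub, mul_one, ← mul_assoc, k1, zero_mul, sub_zero]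
  have k6 : (1 - b * d) * a + b * d * b = a + b := by
    rw [k5, sub_mul, one_mul, mul_assoc, k3, mul_zero, sub_zero]
  rw [← k6] at hu ⊢
  refine T_split dg hadd N hN t ht h1 h0 ha hb (hb.mul hd ?_) (by rw [← mul_assoc, k5]) hu
  intro x hx y hy
  simp only [Set.mem_ofPred_eq, hadd] at *; omega

lemma ZCsl_two' (N : Subgroup G) (hN : ∀ g, g ∈ N ↔ dg g = 0) (hQ : QQ R N) (t : G) {q : ℤ}
    (hq : q ≠ 0) (ht : dg t = q) {A C : Matrix J J (MonoidAlgebra R G)} (hAC : A * C = 1)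
    (hCA : C * A = 1) (hA : MSup {g | dg g = 0 ∨ dg g = q} A)
    (hC : MSup {g | dg g = 0 ∨ dg g = -q} C) : T A := by
  let H : Subgroup G :=
    { carrier := {g | q ∣ dg g}
      one_mem' := by simp [dg_one dg hadd]
      mul_mem' := fun {a b} ha hb => by
        simp only [Set.mem_ofPred_eq, hadd] at *; exact dvd_add ha hb
      inv_mem' := fun {a} ha => by
        simp only [Set.mem_ofPred_eq, dg_inv dg hadd] at *; exact dvd_neg.2 ha }
  have hr : ∀ g, q ∣ dg g → g ∈ Set.range H.subtype := fun g hg => ⟨⟨g, hg⟩, rfl⟩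
  obtain ⟨A', rfl⟩ := exists_map_of_msup H.subtype H.subtype_injective (hA.mono fun g hg =>
    hr g (by rcases hg with e | e <;> simp [e]))
  obtain ⟨C', rfl⟩ := exists_map_of_msup H.subtype H.subtype_injective (hC.mono fun g hg =>
    hr g (by rcases hg with e | e <;> simp [e]))
  have hinj : Function.Injective fun M : Matrix J J (MonoidAlgebra R H) =>
      M.map (MonoidAlgebra.mapDomainRingHom R H.subtype) :=
    Matrix.map_injective (mapDomain_inj _ H.subtype_injective)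
  have hQ' : QQ R (N.comap H.subtype) := hQ.sub
    ((H.subtype.comp (N.comap H.subtype).subtype).codRestrict N fun x => x.2)
    fun x y hxy => Subtype.ext (Subtype.ext (congrArg (fun z : N => (z : G)) hxy))
  apply T_map
  refine ZCsl_two (fun g : H => dg g / q) (fun a b => ?_) (N.comap H.subtype) (fun g => ?_)
    ⟨t, by change q ∣ dg t; rw [ht]⟩ ?_ hQ'.g1 hQ'.g0 (C := C') (hinj ?_) (hinj ?_)
    (fun i j => (ZCsl_sup _ H.subtype_injective (hA i j)).mono fun g hg => ?_)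
    fun i j => (ZCsl_sup _ H.subtype_injective (hC i j)).mono fun g hg => ?_
  · rw [Subgroup.coe_mul, hadd, Int.add_ediv_of_dvd_left a.2]
  · rw [Subgroup.mem_comap, hN]
    refine ⟨fun e => ?_, fun e => ?_⟩
    · change dg g = 0 at e
      simp [e]
    · change dg g = 0
      rw [← Int.mul_ediv_cancel' g.2, e, mul_zero]
  · simp only [ht]; exact Int.ediv_self hq
  · simpa [Matrix.map_mul, Matrix.map_one _ (map_zero _) (map_one _)] using hAC
  · simpa [Matrix.map_mul, Matrix.map_one _ (map_zero _) (map_one _)] using hCA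
  · change dg g = 0 ∨ dg g = q at hg
    rcases hg with e | e <;> simp [e, hq]
  · change dg g = 0 ∨ dg g = -q at hg
    rcases hg with e | e <;> simp [e, hq]

omit hadd in
lemma ZCsl_tri {p ε : ℕ} (hε : 2 * ε < p) {a b : ZMod p} {δ : ℤ} (h1 : |δ| ≤ ε)
    (h : a = b + δ) : (a.val < p ∧ b.val < p ∧ -(ε : ℤ) ≤ δ ∧ δ ≤ ε) ∧
      ((b.val : ℤ) + δ - a.val = -p ∨ (b.val : ℤ) + δ - a.val = 0 ∨ (b.val : ℤ) + δ - a.val = p) := by
  have : NeZero p := ⟨by omega⟩
  have ha := a.val_lt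
  have hb := b.val_lt
  obtain ⟨h2, h3⟩ := abs_le.1 h1
  refine ⟨⟨ha, hb, h2, h3⟩, ?_⟩
  obtain ⟨k, hk⟩ := (ZMod.intCast_zmod_eq_zero_iff_dvd ((b.val : ℤ) + δ - a.val) p).1 (by
    push_cast
    rw [ZMod.natCast_zmod_val, ZMod.natCast_zmod_val, ← h, sub_self])
  have k1 : k < 2 := by
    by_contra hc
    have : (p : ℤ) * 2 ≤ p * k := mul_le_mul_of_nonneg_left (by omega) (by omega)
    omega
  have k2 : -2 < k := by
    by_contra hc
    have : (p : ℤ) * k ≤ p * (-2) := mul_le_mul_of_nonneg_left (by omega) (by omega)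
    omega
  interval_cases k <;> omega

lemma ZCsl_one (N : Subgroup G) (hN : ∀ g, g ∈ N ↔ dg g = 0) (hQ : QQ R N) (t : G)
    (ht : dg t = 1) (p ε : ℕ) (hε : 2 * ε < p) (θ : J → ZMod p)
    {A B : Matrix J J (MonoidAlgebra R G)} (hAB : A * B = 1) (hBA : B * A = 1)
    (hA : MSup2 (fun i j => {g | |dg g| ≤ ε ∧ θ i = θ j + (dg g : ZMod p)}) A)
    (hB : MSup2 (fun i j => {g | |dg g| ≤ ε ∧ θ i = θ j + (dg g : ZMod p)}) B) : T A := by
  let m : J → ℕ := fun j => (θ j).val + if (θ j).val < ε then p else 0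
  have hp : ∀ n : ℕ, dg (t ^ n) = n := fun n => by rw [dg_pow dg hadd, ht, mul_one]
  have e1 := ZCsl_diag_mul (R := R) (fun i => (t ^ (θ i).val)⁻¹) (fun i => t ^ (θ i).val)
    fun i => inv_mul_cancel _
  have e2 := ZCsl_diag_mul (R := R) (fun i => t ^ (θ i).val) (fun i => (t ^ (θ i).val)⁻¹)
    fun i => mul_inv_cancel _
  have e3 := ZCsl_diag_mul (R := R) (fun i => (t ^ m i)⁻¹) (fun i => t ^ m i)
    fun i => inv_mul_cancel _
  have e4 := ZCsl_diag_mul (R := R) (fun i => t ^ m i) (fun i => (t ^ m i)⁻¹)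
    fun i => mul_inv_cancel _
  refine T_cancel_left (ZCsl_diag fun i => (t ^ (θ i).val)⁻¹)
    (T_cancel_right (ZCsl_diag fun i => t ^ m i) ?_)
  refine ZCsl_two' dg hadd N hN hQ (t ^ p) (q := p) (by omega) (hp p)
    (C := (Matrix.diagonal fun i => MonoidAlgebra.single (t ^ m i)⁻¹ 1) * B *
      Matrix.diagonal fun i => MonoidAlgebra.single (t ^ (θ i).val) 1) ?_ ?_
    (fun i j => ?_) fun i j => ?_
  · rw [mul_assoc _ B, mul_assoc, ← mul_assoc (Matrix.diagonal _) (Matrix.diagonal _), e4,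
      one_mul, mul_assoc, ← mul_assoc A, hAB, one_mul, e1]
  · rw [mul_assoc _ A, mul_assoc, ← mul_assoc (Matrix.diagonal _) (Matrix.diagonal _), e2,
      one_mul, mul_assoc, ← mul_assoc B, hBA, one_mul, e3]
  · rw [Matrix.mul_diagonal, Matrix.diagonal_mul]
    refine ((sup_single (S := {(t ^ (θ i).val)⁻¹}) rfl 1).mul
      (U := {g | dg g + m j = 0 ∨ dg g + m j = p}) (hA i j) ?_).mul
      (sup_single (S := {t ^ m j}) rfl 1) ?_
    · rintro _ rfl g ⟨h1, h2⟩
      have := ZCsl_tri hε h1 h2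
      simp only [Set.mem_ofPred_eq, hadd, dg_inv dg hadd, hp, m]
      split_ifs <;> omega
    · rintro g hg _ rfl
      simpa only [Set.mem_ofPred_eq, hadd, hp] using hg
  · rw [Matrix.mul_diagonal, Matrix.diagonal_mul]
    refine ((sup_single (S := {(t ^ m i)⁻¹}) rfl 1).mul
      (U := {g | dg g + (θ j).val = 0 ∨ dg g + (θ j).val = -p}) (hB i j) ?_).mul
      (sup_single (S := {t ^ (θ j).val}) rfl 1) ?_
    · rintro _ rfl g ⟨h1, h2⟩
      have := ZCsl_tri hε h1 h2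
      simp only [Set.mem_ofPred_eq, hadd, dg_inv dg hadd, hp, m]
      split_ifs <;> omega
    · rintro g hg _ rfl
      simpa only [Set.mem_ofPred_eq, hadd, hp] using hg

end

theorem T_ctrl (dg : G → ℤ) (hadd : ∀ a b, dg (a * b) = dg a + dg b) (N : Subgroup G)
    (hN : ∀ g, g ∈ N ↔ dg g = 0) (hQ : QQ R N) (p ε : ℕ) (hp : p.Prime) (hε : 2 * ε < p)
    {J : Type} [Fintype J] [DecidableEq J] (θ : J → ZMod p)
    {A B : Matrix J J (MonoidAlgebra R G)} (hAB : A * B = 1) (hBA : B * A = 1)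
    (hA : MSup2 (fun i j => {g | |dg g| ≤ ε ∧ θ i = θ j + (dg g : ZMod p)}) A)
    (hB : MSup2 (fun i j => {g | |dg g| ≤ ε ∧ θ i = θ j + (dg g : ZMod p)}) B) : T A := by
  let I : AddSubgroup ℤ :=
    { carrier := Set.range dg
      zero_mem' := ⟨1, dg_one dg hadd⟩
      add_mem' := by rintro _ _ ⟨a, rfl⟩ ⟨b, rfl⟩; exact ⟨a * b, hadd a b⟩
      neg_mem' := by rintro _ ⟨a, rfl⟩; exact ⟨a⁻¹, dg_inv dg hadd a⟩ }
  obtain ⟨d, hd⟩ := Int.subgroup_cyclic I
  have h1 : ∀ g, d ∣ dg g := fun g => by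
    have : dg g ∈ I := ⟨g, rfl⟩
    rw [hd, AddSubgroup.mem_closure_singleton] at this
    obtain ⟨k, hk⟩ := this
    exact ⟨k, by rw [← hk, smul_eq_mul, mul_comm]⟩
  obtain ⟨t, ht⟩ : d ∈ I := hd ▸ AddSubgroup.mem_closure_singleton_self d
  by_cases h : d ≠ 0 ∧ |d| ≤ ε
  · obtain ⟨h0, h2⟩ := h
    have : Fact p.Prime := ⟨hp⟩
    have hdiv : ∀ g, d * (dg g / d) = dg g := fun g => Int.mul_ediv_cancel' (h1 g)
    have h3 : (d : ZMod p) ≠ 0 := fun e => by
      have := Int.le_of_dvd (abs_pos.2 h0)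
        ((dvd_abs _ _).2 ((ZMod.intCast_zmod_eq_zero_iff_dvd d p).1 e))
      omega
    have h4 : ∀ i j, {g | |dg g| ≤ ε ∧ θ i = θ j + (dg g : ZMod p)} ⊆ {g | |dg g / d| ≤ ε ∧
        (d : ZMod p)⁻¹ * θ i = (d : ZMod p)⁻¹ * θ j + ((dg g / d : ℤ) : ZMod p)} := by
      rintro i j g ⟨a1, a2⟩
      rw [← hdiv g] at a1 a2
      refine ⟨le_trans ?_ a1, ?_⟩
      · rw [abs_mul]
        exact le_mul_of_one_le_left (abs_nonneg _) (Int.one_le_abs h0)
      · rw [a2, Int.cast_mul, mul_add, inv_mul_cancel_left₀ h3]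
    refine ZCsl_one (fun g => dg g / d) (fun a b => ?_) N (fun g => ?_) hQ t ?_ p ε hε
      (fun i => (d : ZMod p)⁻¹ * θ i) hAB hBA (fun i j => (hA i j).mono (h4 i j))
      fun i j => (hB i j).mono (h4 i j)
    · rw [hadd, Int.add_ediv_of_dvd_left (h1 a)]
    · rw [hN]
      refine ⟨fun e => by simp [e], fun e => ?_⟩
      rw [← hdiv g, e, mul_zero]
    · simp only [ht]; exact Int.ediv_self h0
  · refine T_of_isUnit_msup N hQ.g1 (fun i j => (hA i j).mono fun g hg => (hN g).2 ?_)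
      ⟨⟨A, B, hAB, hBA⟩, rfl⟩
    by_contra hc
    refine h ⟨fun e => hc (zero_dvd_iff.1 (e ▸ h1 g)), le_trans ?_ hg.1⟩
    exact Int.le_of_dvd (abs_pos.2 hc) ((abs_dvd_abs _ _).2 (h1 g))

lemma ZCsl_inv {M : Type*} [Ring M] {P Z Z' : M} (hP : P * P = P) (h : Z * Z' = 1)
    (h' : P * Z = Z * P) : (1 - P + P * Z) * (1 - P + P * Z') = 1 := by
  have e : (1 - P + P * Z) * (1 - P + P * Z') =
      1 - P + (P - P * P) * (Z' - 1) + (P * Z) * (1 - P) + P * (Z * P) * Z' := by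
    noncomm_ring
  rw [e, hP, sub_self, zero_mul, add_zero, ← h', ← mul_assoc, hP, mul_assoc _ Z Z', h, h',
    mul_assoc Z, mul_sub, hP]
  simp

/-- Several circles. -/
theorem T_ctrl' {Y : Type} (dg : Y → G → ℤ) (hadd : ∀ y a b, dg y (a * b) = dg y a + dg y b)
    (N : Y → Subgroup G) (hN : ∀ y g, g ∈ N y ↔ dg y g = 0) (hQ : ∀ y, QQ R (N y)) (p ε : ℕ)
    (hp : p.Prime) (hε : 2 * ε < p) {J : Type} [Fintype J] [DecidableEq J] (c : J → Y)
    (θ : J → ZMod p) {A B : Matrix J J (MonoidAlgebra R G)} (hAB : A * B = 1) (hBA : B * A = 1)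
    (hA : MSup2 (fun i j =>
      {g | c i = c j ∧ |dg (c i) g| ≤ ε ∧ θ i = θ j + (dg (c i) g : ZMod p)}) A)
    (hB : MSup2 (fun i j =>
      {g | c i = c j ∧ |dg (c i) g| ≤ ε ∧ θ i = θ j + (dg (c i) g : ZMod p)}) B) : T A := by
  have key : ∀ Z : Matrix J J (MonoidAlgebra R G), MSup2 (fun i j =>
      {g | c i = c j ∧ |dg (c i) g| ≤ ε ∧ θ i = θ j + (dg (c i) g : ZMod p)}) Z → ∀ y,
      proj _ c y * Z = Z * proj _ c y ∧
        MSup2 (fun i j => {g | |dg y g| ≤ ε ∧ θ i = θ j + (dg y g : ZMod p)})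
          (1 - proj _ c y + proj _ c y * Z) := by
    intro Z hZ y
    have h1 : ∀ i, (1 : G) ∈ {g | |dg y g| ≤ ε ∧ θ i = θ i + (dg y g : ZMod p)} := fun i => by
      simp [dg_one (dg y) (hadd y)]
    refine ⟨proj_comm c (fun i j h => (hZ i j).eq_zero (hZ i j) fun g hg _ => h hg.1) y,
      ((msup2_one h1).sub (msup2_diagonal fun i => ?_)).add fun i j => ?_⟩
    · split_ifs
      · exact sup_one (h1 i)
      · exact sup_zero _
    · rw [proj_mul_apply]
      split_ifs with h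
      · exact (hZ i j).mono fun g hg => h ▸ hg.2
      · exact sup_zero _
  refine (stdTS R G).of_blocks c (fun y => (key A hA y).1) fun y => ?_
  exact T_ctrl (dg y) (hadd y) (N y) (hN y) (hQ y) p ε hp hε θ
    (ZCsl_inv (proj_mul_self c y) hAB (key A hA y).1)
    (ZCsl_inv (proj_mul_self c y) hBA (key B hB y).1) (key A hA y).2 (key B hB y).2

end Pool.Agent.MP_f7db47_al.PT
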