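import Pool.Agent.MP_f7db47_al.PT.WDefs

/-!
Working definitions for linear groups in characteristic zero.
-/

namespace Pool.Agent.MP_f7db47_al.PT

open Matrix

universe u v w

/-- An incidence geometry with an action of `Q`. The model: `Q = GL_2 K`, the points are the
lines in the space of traceless matrices, `ty` marks the nilpotent lines, `Cz` the scalar
matrices, `Un` the non scalar matrices with a double eigenvalue, `om h` is the line through the
traceless part of `h`. -/
structure Geo (Q : Type) [Group Q] (Ω : Type) [MulAction Q Ω] where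
  X : SimpleGraph Ω
  ty : Ω → Prop
  Cz : Q → Prop
  Un : Q → Prop
  om : Q → Ω
  adj_smul : ∀ (g : Q) a b, X.Adj a b → X.Adj (g • a) (g • b)
  ty_smul : ∀ (g : Q) a, ty (g • a) ↔ ty a
  ty_adj : ∀ a b, X.Adj a b → (ty a ↔ ¬ ty b)
  four : ∀ a b b' c, X.Adj a b → X.Adj b c → X.Adj a b' → X.Adj b' c → a ≠ c → b = b'
  rigid : ∀ (g : Q) a b c d, X.Adj a b → X.Adj b c → X.Adj c d → a ≠ c → b ≠ d →
    g • a = a → g • b = b → g • c = c → g • d = d → ∀ z : Ω, g • z = z
  cz_triv : ∀ (g : Q) (a : Ω), Cz g → g • a = a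
  cz_sq : ∀ g, Cz g → Cz (g * g)
  cz_conj : ∀ a h, Cz (a * h * a⁻¹) → Cz h
  un_conj : ∀ a h, Un h → Un (a * h * a⁻¹)
  un_ncz : ∀ h, Un h → ¬ Cz h
  om_conj : ∀ a h, ¬ Cz h → om (a * h * a⁻¹) = a • om h
  om_comm : ∀ a h, ¬ Cz h → Cz (a * h * a⁻¹ * h⁻¹) → a • om h = om h
  om_near : ∀ γ h, ¬ Cz (γ * γ) → ¬ Cz h → γ • om h = om h →
    om γ = om h ∨ (Un h ∧ X.Adj (om γ) (om h))

/-- What is known about two elements whose commutator has trace two. -/
def Geo.Comm2 {Q : Type} [Group Q] {Ω : Type} [MulAction Q Ω] (D : Geo Q Ω) (a b : Q) : Prop :=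
  (D.Un a → D.Un b → D.om a = D.om b) ∧
    (¬ D.Cz a → ¬ D.Cz b → D.Un (a * b * a⁻¹ * b⁻¹) ∨ D.om a = D.om b)

/-- Equal or adjacent. -/
def Near {Ω : Type} (X : SimpleGraph Ω) (a b : Ω) : Prop := a = b ∨ X.Adj a b

/-- An abelian group that measures the failure of `T`. -/
structure WhS (R : Type v) [Ring R] (G : Type u) [Group G] (W : Type w) [AddCommGroup W] where
  cls : ∀ {J : Type} [Fintype J] [DecidableEq J], Matrix J J (MonoidAlgebra R G) → W
  zero_iff : ∀ {J : Type} [Fintype J] [DecidableEq J] {A : Matrix J J (MonoidAlgebra R G)},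
    IsUnit A → (cls A = 0 ↔ T A)
  mul : ∀ {J : Type} [Fintype J] [DecidableEq J] {A B : Matrix J J (MonoidAlgebra R G)},
    IsUnit A → IsUnit B → cls (A * B) = cls A + cls B
  diag : ∀ {J K : Type} [Fintype J] [DecidableEq J] [Fintype K] [DecidableEq K]
    {A : Matrix J J (MonoidAlgebra R G)} {D : Matrix K K (MonoidAlgebra R G)},
    IsUnit A → IsUnit D → cls (fromBlocks A 0 0 D) = cls A + cls D
  reindex : ∀ {J K : Type} [Fintype J] [DecidableEq J] [Fintype K] [DecidableEq K] (e : K ≃ J)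
    {A : Matrix J J (MonoidAlgebra R G)}, IsUnit A → cls (A.submatrix e e) = cls A

variable {R : Type v} [Ring R] {G : Type u} [Group G]

/-- The matrix induced along a permutation representation. -/
noncomputable def permM {X J : Type} (σ : G →* Equiv.Perm X)
    (A : Matrix J J (MonoidAlgebra R G)) : Matrix (J × X) (J × X) (MonoidAlgebra R G) :=
  fun x y => pr {g | σ g y.2 = x.2} (A x.1 y.1)

/-- The linear forms on the plane, one for each direction. -/
def linF {p : ℕ} (k : Option (ZMod p)) (x : ZMod p × ZMod p) : ZMod p :=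
  k.elim x.2 fun a => x.1 + a * x.2

end Pool.Agent.MP_f7db47_al.PT
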