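import Pool.Agent.MP_f7db47_al.PT.Elim

/-!
The elimination loop with a last colour.
-/

set_option linter.unusedSectionVars false

namespace Pool.Agent.MP_f7db47_al.PT

open Matrix

universe u v w

variable {R : Type v} [Ring R] {G : Type u} [Group G]

theorem elim_loop' {W : Type w} (Sq : ℕ → W → W → Set G)
    (hmono : ∀ r r', r ≤ r' → ∀ x y, Sq r x y ⊆ Sq r' x y)
    (hmul : ∀ r r' x y z, ∀ a ∈ Sq r x y, ∀ b ∈ Sq r' y z, a * b ∈ Sq (r + r') x z)
    (N r₀ : ℕ) (P : Set W) (C : ℕ → Set W)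
    (hlast : ∀ (J : Type) [Fintype J] [DecidableEq J] (l : J → W),
      (∀ j, l j ∈ P ∧ ∀ q < N, l j ∉ C q) → ∀ a b : Matrix J J (MonoidAlgebra R G),
      a * b = 1 → b * a = 1 → MSup2 (fun i j => Sq (3 ^ N * r₀) (l i) (l j)) a →
      MSup2 (fun i j => Sq (3 ^ N * r₀) (l i) (l j)) b → T a)
    (hconv : ∀ q < N, ∀ c x c', c ∈ C q → c' ∈ C q → (Sq (3 ^ N * r₀) c x).Nonempty →
      (Sq (3 ^ N * r₀) x c').Nonempty → x ∈ C q)
    (hhol : ∀ q < N, ∀ (J : Type) [Fintype J] [DecidableEq J] (l : J → W)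
      (a : Matrix J J (MonoidAlgebra R G)), (∀ j, l j ∈ C q) →
      MSup2 (fun i j => Sq (3 ^ N * r₀) (l i) (l j)) a → IsUnit a → T a)
    (J : Type) [Fintype J] [DecidableEq J] (l : J → W) (hl : ∀ j, l j ∈ P)
    (a b : Matrix J J (MonoidAlgebra R G)) (hab : a * b = 1) (hba : b * a = 1)
    (ha : MSup2 (fun i j => Sq r₀ (l i) (l j)) a) (hb : MSup2 (fun i j => Sq r₀ (l i) (l j)) b) :
    T a := by
  have key : ∀ m q, q + m = N → ∀ (J : Type) [Fintype J] [DecidableEq J] (l : J → W),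
      (∀ j, l j ∈ P ∧ ∀ q' < q, l j ∉ C q') → ∀ a b : Matrix J J (MonoidAlgebra R G),
      a * b = 1 → b * a = 1 → MSup2 (fun i j => Sq (3 ^ q * r₀) (l i) (l j)) a →
      MSup2 (fun i j => Sq (3 ^ q * r₀) (l i) (l j)) b → T a := by
    intro m
    induction m with
    | zero =>
      intro q hq
      obtain rfl : q = N := hq
      exact hlast
    | succ m ih =>
      intro q hq J _ _ l hl a b hab hba ha hb
      classical
      have hqN : q < N := by omega
      have hle : 3 ^ q * r₀ ≤ 3 ^ N * r₀ :=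
        Nat.mul_le_mul_right _ (Nat.pow_le_pow_right (by norm_num) hqN.le)
      let e := Equiv.sumCompl fun j => l j ∈ C q
      apply T_of_submatrix e
      have hab' : a.submatrix e e * b.submatrix e e = 1 := by
        rw [submatrix_mul_equiv, hab, submatrix_one_equiv]
      have hba' : b.submatrix e e * a.submatrix e e = 1 := by
        rw [submatrix_mul_equiv, hba, submatrix_one_equiv]
      have hz : ∀ x y : Matrix J J (MonoidAlgebra R G),
          MSup2 (fun i j => Sq (3 ^ q * r₀) (l i) (l j)) x →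
          MSup2 (fun i j => Sq (3 ^ q * r₀) (l i) (l j)) y →
          (x.submatrix e e).toBlocks₁₂ * (y.submatrix e e).toBlocks₂₁ = 0 := fun x y hx hy =>
        Elim_zero (S := fun i j => Sq (3 ^ q * r₀) (l i.1) (l j.1))
          (S' := fun i j => Sq (3 ^ q * r₀) (l i.1) (l j.1)) (fun i j => hx i.1 j.1)
          (fun i j => hy i.1 j.1) fun i j k h1 h2 => j.2 (hconv q hqN _ _ _ i.2 k.2
            (h1.mono (hmono _ _ hle _ _)) (h2.mono (hmono _ _ hle _ _)))
      rw [← fromBlocks_toBlocks (a.submatrix e e)] at hab' hba' ⊢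
      rw [← fromBlocks_toBlocks (b.submatrix e e)] at hab' hba'
      refine Elim_block hab' hba' (hz a b ha hb) (hz b a hb ha)
        (hhol q hqN _ (fun j => l j.1) _ (fun j => j.2) fun i j =>
          (ha i.1 j.1).mono (hmono _ _ hle _ _)) fun g1 g2 => ?_
      have h3 : 3 ^ (q + 1) * r₀ = 3 ^ q * r₀ + 3 ^ q * r₀ + 3 ^ q * r₀ := by ring
      have hle' : 3 ^ q * r₀ ≤ 3 ^ (q + 1) * r₀ := by omega
      refine ih (q + 1) (by omega) _ (fun j => l j.1) (fun j => ⟨(hl j.1).1, fun q' hq' => ?_⟩)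
        _ _ g1 g2 (MSup2.sub (fun i j => (ha i.1 j.1).mono (hmono _ _ hle' _ _)) ?_)
        fun i j => (hb i.1 j.1).mono (hmono _ _ hle' _ _)
      · rcases (Nat.lt_succ_iff.1 hq').eq_or_lt with rfl | h
        · exact j.2
        · exact (hl j.1).2 q' h
      · rw [h3]
        exact MSup2.mul (S := fun i j => Sq (3 ^ q * r₀ + 3 ^ q * r₀) (l i.1) (l j.1))
          (S' := fun i j => Sq (3 ^ q * r₀) (l i.1) (l j.1))
          (MSup2.mul (S := fun i j => Sq (3 ^ q * r₀) (l i.1) (l j.1))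
            (S' := fun i j => Sq (3 ^ q * r₀) (l i.1) (l j.1)) (fun i j => ha i.1 j.1)
            (fun i j => hb i.1 j.1) fun i j k => hmul _ _ _ _ _) (fun i j => ha i.1 j.1)
          fun i j k => hmul _ _ _ _ _
  refine key N 0 (zero_add N) J l (fun j => ⟨hl j, fun q' h => absurd h (Nat.not_lt_zero _)⟩)
    a b hab hba ?_ ?_
  · simpa using ha
  · simpa using hb

end Pool.Agent.MP_f7db47_al.PT
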