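import Pool.Agent.MP_f7db47_al.PT.ZDefs

/-!
The Radon transform on the affine plane over a prime field, and Thue's lemma.
-/

namespace Pool.Agent.MP_f7db47_al.PT

section

variable {p : ℕ} [Fact p.Prime]

theorem ZRad_add (k : Option (ZMod p)) (x c : ZMod p × ZMod p) :
    linF k (x + c) = linF k x + linF k c := by
  cases k with
  | none => simp [linF]
  | some a => simp only [linF, Option.elim, Prod.fst_add, Prod.snd_add]; ring

theorem ZRad_sub (k : Option (ZMod p)) (x c : ZMod p × ZMod p) :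
    linF k (x - c) = linF k x - linF k c := by
  cases k with
  | none => simp [linF]
  | some a => simp only [linF, Option.elim, Prod.fst_sub, Prod.snd_sub]; ring

theorem ZRad_zero {k k' : Option (ZMod p)} (h : k ≠ k') {w : ZMod p × ZMod p}
    (h1 : linF k w = 0) (h2 : linF k' w = 0) : w = 0 := by
  obtain ⟨u, v⟩ := w
  cases k with
  | none =>
    cases k' with
    | none => exact absurd rfl h
    | some b =>
      simp only [linF, Option.elim] at h1 h2
      subst h1
      simp only [mul_zero, add_zero] at h2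
      subst h2
      rfl
  | some a =>
    cases k' with
    | none =>
      simp only [linF, Option.elim] at h1 h2
      subst h2
      simp only [mul_zero, add_zero] at h1
      subst h1
      rfl
    | some b =>
      simp only [linF, Option.elim] at h1 h2
      have hab : a - b ≠ 0 := fun h0 => h (by rw [sub_eq_zero.mp h0])
      have hv : (a - b) * v = 0 := by linear_combination h1 - h2
      have hv0 : v = 0 := (mul_eq_zero.mp hv).resolve_left hab
      subst hv0
      simp only [mul_zero, add_zero] at h1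
      subst h1
      rfl

theorem ZRad_bij {k k' : Option (ZMod p)} (h : k ≠ k') :
    Function.Bijective (fun x : ZMod p × ZMod p => (linF k x, linF k' x)) := by
  apply Function.Injective.bijective_of_finite
  intro x y hxy
  simp only [Prod.mk.injEq] at hxy
  have := ZRad_zero h (w := x - y) (by rw [ZRad_sub, hxy.1, sub_self])
    (by rw [ZRad_sub, hxy.2, sub_self])
  exact sub_eq_zero.mp this

theorem ZRad_sum2 {k k' : Option (ZMod p)} (h : k ≠ k') (g : ZMod p → ZMod p → ℤ) :
    ∑ x : ZMod p × ZMod p, g (linF k x) (linF k' x) = ∑ u, ∑ v, g u v := by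
  rw [← Fintype.sum_prod_type' g]
  exact (ZRad_bij h).sum_comp (fun z : ZMod p × ZMod p => g z.1 z.2)

theorem ZRad_sum1 (k : Option (ZMod p)) (g : ZMod p → ℤ) :
    ∑ x : ZMod p × ZMod p, g (linF k x) = p * ∑ u, g u := by
  obtain ⟨k', hk⟩ := exists_ne k
  have := ZRad_sum2 hk.symm (fun u _ => g u)
  rw [this, Finset.mul_sum]
  refine Finset.sum_congr rfl fun u _ => ?_
  simp [ZMod.card]

theorem ZRad_count {w : ZMod p × ZMod p} (hw : w ≠ 0) :
    ∑ k : Option (ZMod p), (if linF k w = 0 then (1 : ℤ) else 0) = 1 := by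
  obtain ⟨k0, hk0⟩ : ∃ k0 : Option (ZMod p), linF k0 w = 0 := by
    by_cases h2 : w.2 = 0
    · exact ⟨none, by simpa [linF] using h2⟩
    · refine ⟨some (-w.1 / w.2), ?_⟩
      simp only [linF, Option.elim]
      field_simp
      ring
  rw [Finset.sum_eq_single k0]
  · simp [hk0]
  · intro k _ hk
    rw [if_neg]
    intro h
    exact hw (ZRad_zero hk h hk0)
  · simp

/-- The Radon transform. -/
def ZRad_f (p : ℕ) [Fact p.Prime] :
    (ZMod p × ZMod p → ℤ) →ₗ[ℤ] (Option (ZMod p) × ZMod p → ℤ) where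
  toFun F y := ∑ x, if linF y.1 x = y.2 then F x else 0
  map_add' F G := by
    funext y
    simp only [Pi.add_apply, ← Finset.sum_add_distrib]
    refine Finset.sum_congr rfl fun x _ => ?_
    split_ifs <;> simp
  map_smul' c F := by
    funext y
    simp only [Pi.smul_apply, RingHom.id_apply, smul_eq_mul, Finset.mul_sum]
    refine Finset.sum_congr rfl fun x _ => ?_
    split_ifs <;> simp

theorem ZRad_f_apply (F : ZMod p × ZMod p → ℤ) (y : Option (ZMod p) × ZMod p) :
    ZRad_f p F y = ∑ x, if linF y.1 x = y.2 then F x else 0 := rfl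

theorem ZRad_inj : Function.Injective (ZRad_f p) := by
  rw [injective_iff_map_eq_zero]
  intro F hF
  have hv : ∀ k y, (∑ x, if linF k x = y then F x else 0) = 0 := fun k y =>
    congrFun hF (k, y)
  have htot : ∑ x, F x = 0 := by
    have h1 : ∑ y : ZMod p, (∑ x, if linF none x = y then F x else 0) = 0 :=
      Finset.sum_eq_zero fun y _ => hv none y
    rw [Finset.sum_comm] at h1
    simpa using h1
  funext x
  have h2 : ∑ k : Option (ZMod p), (∑ z, if linF k z = linF k x then F z else 0) = 0 :=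
    Finset.sum_eq_zero fun k _ => hv k _
  rw [Finset.sum_comm] at h2
  have h3 : ∀ z : ZMod p × ZMod p,
      (∑ k : Option (ZMod p), if linF k z = linF k x then F z else 0) =
        F z + (if z = x then p * F z else 0) := by
    intro z
    by_cases hz : z = x
    · subst hz
      simp only [if_true, Finset.sum_const, Finset.card_univ, Fintype.card_option, ZMod.card,
        nsmul_eq_mul]
      push_cast
      ring
    · have hc := ZRad_count (w := z - x) (sub_ne_zero.mpr hz)
      rw [if_neg hz, add_zero]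
      calc (∑ k : Option (ZMod p), if linF k z = linF k x then F z else 0)
          = ∑ k : Option (ZMod p), (if linF k (z - x) = 0 then (1 : ℤ) else 0) * F z := by
            refine Finset.sum_congr rfl fun k _ => ?_
            rw [ZRad_sub]
            simp only [sub_eq_zero]
            split_ifs <;> simp
        _ = F z := by rw [← Finset.sum_mul, hc, one_mul]
  simp only [h3, Finset.sum_add_distrib, htot, Finset.sum_ite_eq', Finset.mem_univ, if_true,
    zero_add] at h2
  have hp : (p : ℤ) ≠ 0 := by exact_mod_cast (Fact.out : p.Prime).ne_zero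
  exact (mul_eq_zero.mp h2).resolve_left hp

theorem ZRad_equiv (c : ZMod p × ZMod p) (F : ZMod p × ZMod p → ℤ) :
    ZRad_f p (fun x => F (x + c)) = fun y => ZRad_f p F (y.1, y.2 + linF y.1 c) := by
  funext y
  rw [ZRad_f_apply, ZRad_f_apply]
  refine Fintype.sum_equiv (Equiv.addRight c) _ _ fun x => ?_
  simp only [Equiv.coe_addRight, ZRad_add, add_left_inj]

theorem ZRad_range (F : Option (ZMod p) × ZMod p → ℤ) (hF : ∀ k, ∑ y, F (k, y) = 0) :
    (p : ℤ) • F ∈ LinearMap.range (ZRad_f p) := by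
  refine ⟨fun x => ∑ k, F (k, linF k x), ?_⟩
  funext y
  obtain ⟨k0, y0⟩ := y
  rw [ZRad_f_apply]
  have h1 : ∀ x : ZMod p × ZMod p,
      (if linF k0 x = y0 then ∑ k, F (k, linF k x) else 0) =
        ∑ k, (if linF k0 x = y0 then F (k, linF k x) else 0) := by
    intro x
    split_ifs <;> simp
  simp only [h1]
  rw [Finset.sum_comm, Finset.sum_eq_single k0]
  · have := ZRad_sum1 k0 (fun u => if u = y0 then F (k0, u) else 0)
    rw [this]
    simp
  · intro k _ hk
    have := ZRad_sum2 hk.symm (fun u v => if u = y0 then F (k, v) else 0)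
    rw [this]
    refine Finset.sum_eq_zero fun u _ => ?_
    split_ifs
    · exact hF k
    · simp
  · simp

/-- Translation along the fibres. -/
def ZRad_T (p : ℕ) [Fact p.Prime] (t : Option (ZMod p) → ZMod p) :
    Module.End ℤ (Option (ZMod p) × ZMod p → ℤ) where
  toFun F y := F (y.1, y.2 + t y.1)
  map_add' _ _ := rfl
  map_smul' _ _ := rfl

theorem ZRad_T_apply (t : Option (ZMod p) → ZMod p) (F : Option (ZMod p) × ZMod p → ℤ)
    (y : Option (ZMod p) × ZMod p) : ZRad_T p t F y = F (y.1, y.2 + t y.1) := rfl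

theorem ZRad_T_comm (s t : Option (ZMod p) → ZMod p) : Commute (ZRad_T p s) (ZRad_T p t) := by
  refine LinearMap.ext fun F => funext fun y => ?_
  simp only [Module.End.mul_apply, ZRad_T_apply]
  rw [add_right_comm]

theorem ZRad_T_pow (n : ℕ) (F : Option (ZMod p) × ZMod p → ℤ) (y : Option (ZMod p) × ZMod p) :
    (ZRad_T p (fun _ => 1) ^ n) F y = F (y.1, y.2 + n) := by
  induction n generalizing F with
  | zero => simp
  | succ n ih =>
    rw [pow_succ, Module.End.mul_apply, ih, ZRad_T_apply]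
    push_cast
    rw [add_assoc]

theorem ZRad_tele (t : Option (ZMod p) → ZMod p) (G : Option (ZMod p) × ZMod p → ℤ) :
    ∃ H, ZRad_T p t G - G = (ZRad_T p (fun _ => 1) - 1) H := by
  refine ⟨fun y => ∑ i ∈ Finset.range (t y.1).val, G (y.1, y.2 + i), ?_⟩
  funext y
  simp only [Pi.sub_apply, LinearMap.sub_apply, Module.End.one_apply, ZRad_T_apply]
  rw [← Finset.sum_sub_distrib]
  have h := Finset.sum_range_sub (fun i : ℕ => G (y.1, y.2 + i)) (t y.1).val
  simp only [Nat.cast_zero, add_zero, ZMod.natCast_val, ZMod.cast_id', id_eq] at h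
  rw [← h]
  refine Finset.sum_congr rfl fun i _ => ?_
  push_cast
  rw [add_assoc, add_comm 1]

theorem ZRad_nil :
    ∃ E : Module.End ℤ (Option (ZMod p) × ZMod p → ℤ),
      (ZRad_T p (fun _ => 1) - 1) ^ p = (p : ℤ) • E := by
  have hp : p.Prime := Fact.out
  have hc : Commute (ZRad_T p (fun _ => 1)) (-1) := Commute.neg_one_right _
  obtain ⟨r, hr⟩ := hc.exists_add_pow_prime_eq hp
  have h1 : ZRad_T p (fun _ => 1) ^ p = 1 := by
    refine LinearMap.ext fun F => funext fun y => ?_
    rw [ZRad_T_pow]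
    simp
  rw [sub_eq_add_neg, hr, h1]
  rcases hp.eq_two_or_odd' with h2 | hodd
  · refine ⟨1 + ZRad_T p (fun _ => 1) * (-1) * r, ?_⟩
    have h3 : ((-1 : Module.End ℤ (Option (ZMod p) × ZMod p → ℤ))) ^ p = 1 := by
      rw [h2]; exact neg_one_sq
    rw [h3, zsmul_eq_mul, Int.cast_natCast, mul_add, mul_one, mul_assoc, mul_assoc, mul_assoc]
    congr 1
    rw [h2]
    norm_num
  · refine ⟨ZRad_T p (fun _ => 1) * (-1) * r, ?_⟩
    rw [hodd.neg_one_pow, zsmul_eq_mul, Int.cast_natCast, add_neg_cancel, zero_add]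
    simp only [mul_assoc]

end

theorem exists_radon (p : ℕ) [Fact p.Prime] :
    ∃ (f : (ZMod p × ZMod p → ℤ) →ₗ[ℤ] (Option (ZMod p) × ZMod p → ℤ)) (n : ℕ)
      (Kf : ℕ → Submodule ℤ (Option (ZMod p) × ZMod p → ℤ)), Function.Injective f ∧
      (∀ (c : ZMod p × ZMod p) (F : ZMod p × ZMod p → ℤ),
        f (fun x => F (x + c)) = fun y => f F (y.1, y.2 + linF y.1 c)) ∧
      Kf 0 = ⊤ ∧ (∀ j, Kf (j + 1) ≤ Kf j) ∧
      (∀ (j : ℕ) (c : ZMod p × ZMod p) (F : Option (ZMod p) × ZMod p → ℤ), F ∈ Kf j →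
        (fun y => F (y.1, y.2 + linF y.1 c)) - F ∈ Kf (j + 1)) ∧
      Kf n ≤ LinearMap.range f := by
  refine ⟨ZRad_f p, p + 1, fun j => LinearMap.range ((ZRad_T p (fun _ => 1) - 1) ^ j),
    ZRad_inj, ZRad_equiv, ?_, ?_, ?_, ?_⟩
  · simp only [pow_zero]
    exact LinearMap.range_eq_top.mpr fun F => ⟨F, rfl⟩
  · rintro j F ⟨G, rfl⟩
    exact ⟨(ZRad_T p (fun _ => 1) - 1) G, by rw [pow_succ, Module.End.mul_apply]⟩
  · rintro j c F ⟨G, rfl⟩
    obtain ⟨H, hH⟩ := ZRad_tele (fun k => linF k c) G
    refine ⟨H, ?_⟩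
    have hc : Commute (ZRad_T p (fun k => linF k c)) ((ZRad_T p (fun _ => 1) - 1) ^ j) :=
      ((ZRad_T_comm _ _).sub_right (Commute.one_right _)).pow_right j
    rw [pow_succ, Module.End.mul_apply, ← hH, map_sub, ← Module.End.mul_apply, ← hc.eq,
      Module.End.mul_apply]
    rfl
  · rintro F ⟨G, rfl⟩
    obtain ⟨E, hE⟩ := ZRad_nil (p := p)
    rw [pow_succ', Module.End.mul_apply, hE, LinearMap.smul_apply, map_smul]
    refine ZRad_range _ fun k => ?_
    simp only [LinearMap.sub_apply, Pi.sub_apply, Module.End.one_apply, ZRad_T_apply,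
      Finset.sum_sub_distrib]
    rw [sub_eq_zero]
    exact Fintype.sum_equiv (Equiv.addRight 1) _ _ fun y => rfl

theorem exists_thue (p : ℕ) [Fact p.Prime] (k : Option (ZMod p)) :
    ∃ (a b : ℤ) (c : ZMod p), (a ≠ 0 ∨ b ≠ 0) ∧ |a| ≤ Nat.sqrt p ∧ |b| ≤ Nat.sqrt p ∧
      ∀ x : ZMod p × ZMod p, c * linF k x = a * x.1 + b * x.2 := by
  have hp : p.Prime := Fact.out
  cases k with
  | none =>
    refine ⟨0, 1, 1, Or.inr one_ne_zero, by simp, ?_, fun x => by simp [linF]⟩
    have : 1 ≤ Nat.sqrt p := Nat.le_sqrt.mpr (by have := hp.pos; omega)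
    simpa using this
  | some t =>
    have hcard : Fintype.card (ZMod p) <
        Fintype.card (Fin (Nat.sqrt p + 1) × Fin (Nat.sqrt p + 1)) := by
      rw [ZMod.card, Fintype.card_prod, Fintype.card_fin]
      exact Nat.lt_succ_sqrt p
    obtain ⟨u, v, huv, h⟩ := Fintype.exists_ne_map_eq_of_card_lt
      (fun u : Fin (Nat.sqrt p + 1) × Fin (Nat.sqrt p + 1) =>
        ((u.2 : ℕ) : ZMod p) - t * ((u.1 : ℕ) : ZMod p)) hcard
    refine ⟨(u.1 : ℕ) - (v.1 : ℕ), (u.2 : ℕ) - (v.2 : ℕ), ((u.1 : ℕ) : ZMod p) - (v.1 : ℕ),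
      ?_, ?_, ?_, fun x => ?_⟩
    · by_contra hcon
      push Not at hcon
      apply huv
      refine Prod.ext (Fin.ext ?_) (Fin.ext ?_)
      · have := hcon.1; omega
      · have := hcon.2; omega
    · have h1 := u.1.2
      have h2 := v.1.2
      rw [abs_le]
      constructor <;> omega
    · have h1 := u.2.2
      have h2 := v.2.2
      rw [abs_le]
      constructor <;> omega
    · simp only [linF, Option.elim]
      push_cast
      linear_combination (-x.2) * h

end Pool.Agent.MP_f7db47_al.PT
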