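import Pool.Agent.MP_f7db47_al.PT.ZWh
import Pool.Agent.MP_f7db47_al.PT.ZLat
import Pool.Agent.MP_f7db47_al.PT.ZRad
import Pool.Agent.MP_f7db47_al.PT.ZCsl

/-!
The Farrell-Hsiang step for a group over the plane lattice.
-/

namespace Pool.Agent.MP_f7db47_al.PT

universe u v w

variable {R : Type v} [Ring R] {G : Type u} [Group G]

/-- The kernel of an additive degree. -/
def ZFH_ker (dg : G → ℤ) (hadd : ∀ a b, dg (a * b) = dg a + dg b) : Subgroup G where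
  carrier := {g | dg g = 0}
  mul_mem' := fun {a b} ha hb => by
    change dg (a * b) = 0
    rw [hadd, show dg a = 0 from ha, show dg b = 0 from hb, add_zero]
  one_mem' := dg_one dg hadd
  inv_mem' := fun {a} ha => by
    change dg a⁻¹ = 0
    rw [dg_inv dg hadd, show dg a = 0 from ha, neg_zero]

lemma ZFH_linF_add {p : ℕ} (k : Option (ZMod p)) (x y : ZMod p × ZMod p) :
    linF k (x + y) = linF k x + linF k y := by
  cases k with
  | none => rfl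
  | some a =>
    simp only [linF, Option.elim, Prod.fst_add, Prod.snd_add]
    ring

/-- Translations of the plane. -/
def ZFH_sig {p : ℕ} (c : G → ZMod p × ZMod p) (hc : ∀ a b, c (a * b) = c a + c b) :
    G →* Equiv.Perm (ZMod p × ZMod p) :=
  MonoidHom.mk' (fun g => Equiv.addRight (c g)) fun a b => Equiv.ext fun x => by
    change x + c (a * b) = x + c b + c a
    rw [hc]
    abel

/-- Translations of the lines of the plane. -/
def ZFH_tau {p : ℕ} (c : G → ZMod p × ZMod p) (hc : ∀ a b, c (a * b) = c a + c b) :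
    G →* Equiv.Perm (Option (ZMod p) × ZMod p) :=
  MonoidHom.mk' (fun g => Equiv.prodCongrRight fun k => Equiv.addRight (linF k (c g)))
    fun a b => Equiv.ext fun x => by
      change (x.1, x.2 + linF x.1 (c (a * b))) = (x.1, x.2 + linF x.1 (c b) + linF x.1 (c a))
      rw [hc, ZFH_linF_add]
      congr 1
      abel

lemma ZFH_sup {X J : Type} (σ : G →* Equiv.Perm X) {S : Set G}
    {A : Matrix J J (MonoidAlgebra R G)} (hA : MSup S A) {S' : J × X → J × X → Set G}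
    (h : ∀ (x y : J × X) (g : G), g ∈ S → σ g y.2 = x.2 → g ∈ S' x y) :
    MSup2 S' (permM σ A) := fun x y g hg =>
  h x y g ((hA x.1 y.1).pr g hg) (sup_pr {g | σ g y.2 = x.2} _ g hg)

lemma ZFH_inv {X J : Type} [Fintype X] [DecidableEq X] [Fintype J] [DecidableEq J]
    (σ : G →* Equiv.Perm X) {A B : Matrix J J (MonoidAlgebra R G)} (h : A * B = 1) :
    permM σ A * permM σ B = 1 := by
  rw [permM_mul, h, permM_one]

lemma ZFH_prime (φ₀ φ₁ : G → ℤ) (h₀ : ∀ a b, φ₀ (a * b) = φ₀ a + φ₀ b)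
    (h₁ : ∀ a b, φ₁ (a * b) = φ₁ a + φ₁ b)
    (hQ : ∀ a b : ℤ, (a ≠ 0 ∨ b ≠ 0) → ∀ N : Subgroup G,
      (∀ g, g ∈ N ↔ a * φ₀ g + b * φ₁ g = 0) → QQ R N)
    {W : Type w} [AddCommGroup W] (E : WhS R G W) {J : Type} [Fintype J] [DecidableEq J]
    {A B : Matrix J J (MonoidAlgebra R G)} (hAB : A * B = 1) (hBA : B * A = 1) (D : ℕ)
    (hA : MSup {g | |φ₀ g| ≤ D ∧ |φ₁ g| ≤ D} A) (hB : MSup {g | |φ₀ g| ≤ D ∧ |φ₁ g| ≤ D} B)
    (p : ℕ) (hp : p.Prime) (hD : 4 * D < Nat.sqrt p) : p • E.cls A = 0 := by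
  have : Fact p.Prime := ⟨hp⟩
  have hsq : Nat.sqrt p * Nat.sqrt p ≤ p := Nat.sqrt_le p
  have hsp : Nat.sqrt p ≤ p := Nat.sqrt_le_self p
  set c : G → ZMod p × ZMod p := fun g => ((φ₀ g : ZMod p), (φ₁ g : ZMod p)) with hcdef
  have hc : ∀ a b, c (a * b) = c a + c b := fun a b => by
    simp only [hcdef, h₀, h₁, Int.cast_add, Prod.mk_add_mk]
  have hu : IsUnit A := ⟨⟨A, B, hAB, hBA⟩, rfl⟩
  obtain ⟨f, n, Kf, hf, he, h0, hanti, hstep, hn⟩ := exists_radon p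
  have key := cls_perm E (ZFH_sig c hc) (ZFH_tau c hc) f hf (fun g F => he (c g) F) n Kf h0 hanti
    (fun j g F hF => hstep j (c g) F hF) hn hu
  have hT1 : T (permM (ZFH_sig c hc) A) := by
    have hs : ∀ (x y : J × (ZMod p × ZMod p)) (g : G), g ∈ {g | |φ₀ g| ≤ D ∧ |φ₁ g| ≤ D} →
        ZFH_sig c hc g y.2 = x.2 →
        g ∈ {g | |φ₁ g| ≤ D ∧ x.2.2 = y.2.2 + (φ₁ g : ZMod p)} := by
      intro x y g hg hσ
      exact ⟨hg.2, (congrArg Prod.snd hσ).symm⟩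
    exact T_ctrl φ₁ h₁ (ZFH_ker φ₁ h₁) (fun _ => Iff.rfl)
      (hQ 0 1 (Or.inr one_ne_zero) _ fun g => by
        rw [zero_mul, one_mul, zero_add]
        rfl) p D hp (by omega) (fun x : J × (ZMod p × ZMod p) => x.2.2)
      (ZFH_inv _ hAB) (ZFH_inv _ hBA) (ZFH_sup _ hA hs) (ZFH_sup _ hB hs)
  have hT2 : T (permM (ZFH_tau c hc) A) := by
    choose a b e hab ha hb hlin using exists_thue p
    have hadd : ∀ k x y, a k * φ₀ (x * y) + b k * φ₁ (x * y) =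
        a k * φ₀ x + b k * φ₁ x + (a k * φ₀ y + b k * φ₁ y) := fun k x y => by
      rw [h₀, h₁]
      ring
    have hs : ∀ (x y : J × (Option (ZMod p) × ZMod p)) (g : G),
        g ∈ {g | |φ₀ g| ≤ D ∧ |φ₁ g| ≤ D} → ZFH_tau c hc g y.2 = x.2 →
        g ∈ {g | x.2.1 = y.2.1 ∧
          |a x.2.1 * φ₀ g + b x.2.1 * φ₁ g| ≤ (2 * Nat.sqrt p * D : ℕ) ∧
          e x.2.1 * x.2.2 = e y.2.1 * y.2.2 +
            ((a x.2.1 * φ₀ g + b x.2.1 * φ₁ g : ℤ) : ZMod p)} := by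
      intro x y g hg hτ
      have e1 : y.2.1 = x.2.1 := (congrArg Prod.fst hτ :)
      have e2 : y.2.2 + linF y.2.1 (c g) = x.2.2 := congrArg Prod.snd hτ
      refine ⟨e1.symm, ?_, ?_⟩
      · have t1 : |a x.2.1 * φ₀ g| ≤ Nat.sqrt p * D := by
          rw [abs_mul]
          exact mul_le_mul (ha _) hg.1 (abs_nonneg _) (Nat.cast_nonneg _)
        have t2 : |b x.2.1 * φ₁ g| ≤ Nat.sqrt p * D := by
          rw [abs_mul]
          exact mul_le_mul (hb _) hg.2 (abs_nonneg _) (Nat.cast_nonneg _)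
        have t3 := abs_add_le (a x.2.1 * φ₀ g) (b x.2.1 * φ₁ g)
        push_cast
        linarith
      · rw [← e2, e1, mul_add, hlin]
        push_cast
        rfl
    exact T_ctrl' (fun k g => a k * φ₀ g + b k * φ₁ g) hadd
      (fun k => ZFH_ker (fun g => a k * φ₀ g + b k * φ₁ g) (hadd k)) (fun _ _ => Iff.rfl)
      (fun k => hQ (a k) (b k) (hab k) _ fun _ => Iff.rfl) p (2 * Nat.sqrt p * D) hp
      (by nlinarith) (fun x : J × (Option (ZMod p) × ZMod p) => x.2.1)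
      (fun x => e x.2.1 * x.2.2)
      (ZFH_inv _ hAB) (ZFH_inv _ hBA) (ZFH_sup _ hA hs) (ZFH_sup _ hB hs)
  rw [(E.zero_iff hT1.isUnit).2 hT1, (E.zero_iff hT2.isUnit).2 hT2, zero_add, zero_add,
    Fintype.card_prod, Fintype.card_prod, Fintype.card_option, ZMod.card, add_mul, one_mul,
    add_nsmul] at key
  exact add_eq_left.1 key

theorem g1_FH (φ₀ φ₁ : G → ℤ) (h₀ : ∀ a b, φ₀ (a * b) = φ₀ a + φ₀ b)
    (h₁ : ∀ a b, φ₁ (a * b) = φ₁ a + φ₁ b)
    (hQ : ∀ a b : ℤ, (a ≠ 0 ∨ b ≠ 0) → ∀ N : Subgroup G,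
      (∀ g, g ∈ N ↔ a * φ₀ g + b * φ₁ g = 0) → QQ R N) : G1 R G := by
  classical
  intro J _ _ A B hAB hBA
  obtain ⟨s, hs, -⟩ := exists_finset_msup A
  obtain ⟨t, ht, -⟩ := exists_finset_msup B
  obtain ⟨W, _, ⟨E⟩⟩ := exists_WhS R G
  set D : ℕ := (s ∪ t).sup fun g => (φ₀ g).natAbs + (φ₁ g).natAbs with hD
  have hsub : ((s ∪ t : Finset G) : Set G) ⊆ {g | |φ₀ g| ≤ D ∧ |φ₁ g| ≤ D} := by
    intro g hg
    have h1 : (φ₀ g).natAbs + (φ₁ g).natAbs ≤ D :=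
      Finset.le_sup (f := fun g => (φ₀ g).natAbs + (φ₁ g).natAbs) hg
    refine ⟨?_, ?_⟩ <;> rw [Int.abs_eq_natAbs] <;> omega
  have hA := hs.mono ((Finset.coe_subset.2 Finset.subset_union_left).trans hsub)
  have hB := ht.mono ((Finset.coe_subset.2 Finset.subset_union_right).trans hsub)
  obtain ⟨p, hp1, hp⟩ := Nat.exists_infinite_primes ((4 * D + 1) ^ 2)
  obtain ⟨q, hq1, hq⟩ := Nat.exists_infinite_primes (p + 1)
  have e1 := ZFH_prime φ₀ φ₁ h₀ h₁ hQ E hAB hBA D hA hB p hp (Nat.le_sqrt'.2 hp1)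
  have e2 := ZFH_prime φ₀ φ₁ h₀ h₁ hQ E hAB hBA D hA hB q hq (Nat.le_sqrt'.2 (hp1.trans (by omega)))
  have hco : Nat.gcd p q = 1 := (Nat.coprime_primes hp hq).2 (by omega)
  have hdv := Nat.dvd_gcd (addOrderOf_dvd_of_nsmul_eq_zero e1) (addOrderOf_dvd_of_nsmul_eq_zero e2)
  rw [hco, Nat.dvd_one, AddMonoid.addOrderOf_eq_one_iff] at hdv
  exact (E.zero_iff ⟨⟨A, B, hAB, hBA⟩, rfl⟩).1 hdv

end Pool.Agent.MP_f7db47_al.PT
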