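import Pool.Agent.MP_f7db47_al.PT.Refine
import Pool.Agent.MP_f7db47_al.PT.ZCore

/-!
Positive matrices, for actions that are not free.
-/

set_option linter.unusedSectionVars false

namespace Pool.Agent.MP_f7db47_al.PT

open Matrix

universe v

variable {R : Type v} [Ring R] {G : Type} [Group G]
variable {ι : Type} [Fintype ι] {V : ι → Type} [∀ τ, MulAction G (V τ)] (c : ∀ τ, CS G (V τ))
variable {Q : Type} [Group Q] {Ω : Type} [MulAction Q Ω] {D : Geo Q Ω} {f : G →* Q}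

lemma Lab.good {J : Type} {l : J → ∀ τ, V τ} {Φ : J → J → Set G} {ρ : ℕ} (y : Lab c l Φ ρ ρ) :
    Good ρ (y.win c) := by
  intro τ s t hs ht h
  rw [abs_le] at hs ht
  have h1 := (y.win_spec τ hs.2).2.2
  have h2 := (y.win_spec τ ht.2).2.2
  rw [h] at h1
  omega

theorem posT_univZ [Nonempty ι] (hU : ZU V D f)
    (hZ : ∀ g, D.Cz (f g) → ∀ (τ : ι) (y : V τ), g • y = y) (hsol : ZS R f Ω) :
    PosT R c Set.univ := by
  intro J _ _ l ν β h1 h2 hν hβ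
  classical
  let Φ : J → J → Set G := fun i j => {g | (ν i j).coeff g ≠ 0 ∨ (β i j).coeff g ≠ 0}
  have hΦ : ∀ i j, (Φ i j).Finite := fun i j =>
    ((ν i j).coeff.support ∪ (β i j).coeff.support).finite_toSet.subset fun g hg => by
      simpa [Φ] using hg
  have hs : Str c l Φ := by
    intro i j g hg τ
    have : g ∈ Pos c Set.univ l l i j := hg.elim (hν i j g) (hβ i j g)
    exact ⟨this.1 τ, Nat.pos_of_ne_zero fun h => this.2 τ trivial ((c τ).zero (this.1 τ) h)⟩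
  have hfin := fun m n => Lab.finite (c := c) (l := l) hΦ m n
  let _ : ∀ m n, Fintype (Lab c l Φ m n) := fun m n => Fintype.ofFinite _
  have sν : ∀ m n m' n', m' ≤ m + 1 → n ≤ n' + 1 → MSup2 (Stq Φ m n m' n') ν :=
    fun m n m' n' a b i j g hg => Or.inl ⟨Or.inl hg, a, b⟩
  have sβ : ∀ m n m' n', m' ≤ m + 1 → n ≤ n' + 1 → MSup2 (Stq Φ m n m' n') β :=
    fun m n m' n' a b i j g hg => Or.inl ⟨Or.inr hg, a, b⟩
  have s1 : ∀ m n m' n', m' ≤ m → n ≤ n' →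
      MSup2 (Stq Φ m n m' n') (1 : Matrix J J (MonoidAlgebra R G)) :=
    fun m n m' n' a b => msup2_one fun i => Or.inr ⟨rfl, rfl, a, b⟩
  obtain ⟨r₀, hr, hr'⟩ : ∃ r₀, 3 ≤ r₀ ∧ ∀ i j, ∀ g ∈ Φ i j, ∀ τ,
      (c τ).dep (l i τ) (g • l j τ) ≤ r₀ := by
    have : (⋃ i, ⋃ j, ⋃ τ, (fun g => (c τ).dep (l i τ) (g • l j τ)) '' Φ i j).Finite :=
      Set.finite_iUnion fun i => Set.finite_iUnion fun j => Set.finite_iUnion fun τ =>
        (hΦ i j).image _
    obtain ⟨b, hb⟩ := this.bddAbove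
    refine ⟨max 3 b, le_max_left _ _, fun i j g hg τ => le_max_of_le_right (hb ?_)⟩
    simp only [Set.mem_iUnion]
    exact ⟨i, j, τ, g, hg, rfl⟩
  obtain ⟨S, hS⟩ := winZ_core hU hZ hsol r₀ hr
  obtain ⟨ρ, hρ, hcore⟩ := hS (Fintype.card (Lab c l Φ S S))
  have sup : ∀ A : Matrix J J (MonoidAlgebra R G), MSup2 (Stq Φ ρ ρ ρ ρ) A →
      MSup2 (fun y y' : Lab c l Φ ρ ρ => Sp G ρ r₀ r₀ (y.win c) (y'.win c)) (lf ρ ρ ρ ρ A) := by
    intro A hA y y' g hg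
    have h3 : g ∈ Rl y y' := sup_pr _ _ g hg
    have h4 : g ∈ Stq Φ ρ ρ ρ ρ _ _ := (hA y.1.1 y'.1.1).pr g hg
    refine ⟨_, ?_, fun τ => ?_, Lab.arr h3 fun τ => ((Stq.up h4).spec hs τ).1⟩
    · refine ⟨fun τ => Int.natCast_nonneg _, fun τ σ => ?_⟩
      rcases h4 with ⟨h4, -⟩ | ⟨h4, rfl, -⟩
      · have e1 := hr' _ _ g h4 τ
        have e2 := (hs _ _ g h4 σ).2
        dsimp only
        exact_mod_cast e1.trans (Nat.le_mul_of_pos_right _ e2)
      · simp [h4, CS.dep_self]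
    · rcases h4 with ⟨h4, -⟩ | ⟨h4, rfl, -⟩
      · exact_mod_cast hr' _ _ g h4 τ
      · simp [h4, CS.dep_self]
  have a1 := (s1 ρ ρ ρ ρ le_rfl le_rfl).sub (sν ρ ρ ρ ρ (by omega) (by omega))
  have a2 := (s1 ρ ρ ρ ρ le_rfl le_rfl).add (sβ ρ ρ ρ ρ (by omega) (by omega))
  have hT := hcore (fun i => ((Fintype.equivFin _).symm i).win c) (Lab c l Φ ρ ρ)
    (fun y => y.win c) (fun y => y.good c) (fun y => by
      obtain ⟨y', hy'⟩ := Lab.trunc hs hρ y
      exact ⟨Fintype.equivFin _ y', by simpa using hy'⟩)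
    (lf ρ ρ ρ ρ (1 - ν)) (lf ρ ρ ρ ρ (1 + β)) ((lf_mul hs a1 a2).trans (by rw [h1, lf_one]))
    ((lf_mul hs a2 a1).trans (by rw [h2, lf_one])) (sup _ a1) (sup _ a2)
  rw [lf_sub, lf_one] at hT
  have stepU : ∀ m n, T (1 - (lf (m + 1) n (m + 1) n ν : Matrix (Lab c l Φ _ _) _ _)) →
      T (1 - (lf m n m n ν : Matrix (Lab c l Φ _ _) _ _)) := by
    intro m n h
    have e1 := lf_mul hs (s1 (m + 1) n m n (by omega) le_rfl) (sν m n (m + 1) n le_rfl (by omega))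
    have e2 := lf_mul hs (sν m n (m + 1) n le_rfl (by omega)) (s1 (m + 1) n m n (by omega) le_rfl)
    rw [one_mul] at e1
    rw [mul_one] at e2
    exact e2 ▸ T_one_sub_comm _ _ (e1 ▸ h)
  have stepD : ∀ m n, T (1 - (lf m (n + 1) m (n + 1) ν : Matrix (Lab c l Φ _ _) _ _)) →
      T (1 - (lf m n m n ν : Matrix (Lab c l Φ _ _) _ _)) := by
    intro m n h
    have e1 := lf_mul hs (sν m (n + 1) m n (by omega) le_rfl) (s1 m n m (n + 1) le_rfl (by omega))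
    have e2 := lf_mul hs (s1 m n m (n + 1) le_rfl (by omega)) (sν m (n + 1) m n (by omega) le_rfl)
    rw [mul_one] at e1
    rw [one_mul] at e2
    exact e2 ▸ T_one_sub_comm _ _ (e1 ▸ h)
  have down : ∀ m, T (1 - (lf m m m m ν : Matrix (Lab c l Φ _ _) _ _)) →
      T (1 - (lf 0 0 0 0 ν : Matrix (Lab c l Φ _ _) _ _)) := by
    intro m
    induction m with
    | zero => exact id
    | succ m ih => exact fun h => ih (stepU _ _ (stepD _ _ h))
  have h0 := down ρ hT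
  let e : Lab c l Φ 0 0 ≃ J :=
    { toFun := fun y => y.1.1
      invFun := fun j => ⟨(j, l j, l j), rfl, rfl⟩
      left_inv := fun y => Subtype.ext (Prod.ext rfl (Prod.ext y.2.1.symm y.2.2.symm))
      right_inv := fun _ => rfl }
  refine T_of_submatrix e ?_
  convert h0 using 1
  rw [submatrix_sub, Pi.sub_apply, Pi.sub_apply, submatrix_one_equiv]
  congr 1
  ext1 y y'
  refine (Sup.pr_eq fun g hg => ?_).symm
  have h3 := (hν y.1.1 y'.1.1 g hg).1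
  have e1 : y.1.2.1 = l y.1.1 := y.2.1
  have e2 : y.1.2.2 = l y.1.1 := y.2.2
  have e3 : y'.1.2.1 = l y'.1.1 := y'.2.1
  have e4 : y'.1.2.2 = l y'.1.1 := y'.2.2
  exact ⟨by rw [e1, e3]; exact h3, by rw [e2, e4]; exact h3⟩

end Pool.Agent.MP_f7db47_al.PT
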