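import Pool.Agent.MP_f7db47_al.PT.PMain
import Pool.Agent.MP_f7db47_al.PT.ZRef

/-!
Actions on finite products of trees that are not free.
-/

set_option linter.unusedSectionVars false

namespace Pool.Agent.MP_f7db47_al.PT

open Matrix

universe v

variable {R : Type v} [Ring R] {Q : Type} [Group Q] {Ω : Type} [MulAction Q Ω]

theorem g1_stepZ {ι : Type} [Fintype ι] [Nonempty ι] {G : Type} [Group G] {V : ι → Type}
    [∀ τ, MulAction G (V τ)] (X : ∀ τ, SimpleGraph (V τ)) (hX : ∀ τ, TreeAction G (X τ))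
    (D₀ : Geo Q Ω) (f : G →* Q) (hZ : ∀ g, D₀.Cz (f g) → ∀ (τ : ι) (y : V τ), g • y = y)
    (hU : ∀ a b : ∀ τ, V τ, (∀ τ, (X τ).Adj (a τ) (b τ)) → ∀ g h : G,
      (∀ τ, g • a τ = a τ ∧ g • b τ = b τ) → (∀ τ, h • a τ = a τ ∧ h • b τ = b τ) →
      D₀.Comm2 (f g) (f h)) (hsol : ZS R f Ω)
    (hV : ∀ (τ : ι) (y : V τ), QQ R (MulAction.stabilizer G y)) : G1 R G := by
  classical
  by_cases hE : ∀ τ, Nonempty (OE (X τ))
  swap
  · obtain ⟨τ, hτ⟩ := not_forall.1 hE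
    obtain ⟨y⟩ := (hX τ).1.connected.nonempty
    rw [G1_iff]
    intro J _ _ A hu
    refine T_of_isUnit_msup _ (hV τ y).g1 (fun i j g _ => ?_) hu
    by_contra h
    obtain ⟨z', h1, -⟩ := tree_closer (hX τ).1 (z := g • y) (a := y) h
    exact hτ ⟨⟨_, _, h1⟩⟩
  have := fun τ => Fact.mk (hX τ)
  let x₀ : ∀ τ, OE (X τ) := fun τ => (hE τ).some
  choose c hc using fun τ => exists_CS (G := G) (X τ)
  have hU' : ZU (fun τ => OE (X τ)) D₀ f := fun x g h hg hh =>
    hU (fun τ => (x τ).a) (fun τ => (x τ).b) (fun τ => (x τ).adj) g h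
      (fun τ => ⟨congrArg OE.a (hg τ), congrArg OE.b (hg τ)⟩)
      fun τ => ⟨congrArg OE.a (hh τ), congrArg OE.b (hh τ)⟩
  have hZ' : ∀ g, D₀.Cz (f g) → ∀ (τ : ι) (y : OE (X τ)), g • y = y := fun g hg τ y =>
    OE.ext (hZ g hg τ _) (hZ g hg τ _)
  have hstab : ∀ (τ : ι) (e : OE (X τ)), G1 R (MulAction.stabilizer G e) := fun τ e =>
    ((hV τ e.a).sub (Subgroup.inclusion (H := MulAction.stabilizer G e)
      fun g hg => congrArg OE.a hg) (Subgroup.inclusion_injective _)).g1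
  have htop := typT_of_posT c hstab (posT_univZ c hU' hZ' hsol)
  let le : Finset ι → (∀ τ, OE (X τ)) → (∀ τ, OE (X τ)) → Prop :=
    fun I x y => ∀ τ ∈ I, (c τ).le (x τ) (y τ)
  have hrefl : ∀ I x, le I x x := fun I x τ _ => (c τ).refl _
  have htrans : ∀ I x y z, le I x y → le I y z → le I x z :=
    fun I x y z h1 h2 τ hτ => (c τ).trans (h1 τ hτ) (h2 τ hτ)
  have hsmul : ∀ I (g : G) x y, le I x y → le I (g • x) (g • y) :=
    fun I g x y h τ hτ => (c τ).smul g (h τ hτ)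
  have main : ∀ I : Finset ι, TypT R G (le I) → TypT R G (le ∅) := by
    intro I
    induction I using Finset.induction_on with
    | empty => exact id
    | insert τ I hτ ih =>
      intro h
      obtain ⟨D, hadj, hH, hne⟩ := exists_TB' (hX τ)
      obtain ⟨e₀⟩ := hne _ _ (x₀ τ).adj
      refine ih (typ_core (TB.splitT_std (fun y => (hV τ y).g1) fun σ => ?_) e₀ (hrefl I)
        (htrans I) (hsmul I) fun J _ _ l o ν hν hn => ?_)
      · exact ((hV τ (D.ep σ false)).sub (Subgroup.inclusion (H := D.C σ) fun g hg => hg false)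
          (Subgroup.inclusion_injective _)).g0
      · refine typT_nil (hrefl _) (htrans _) (hsmul _) h
          (fun j => Function.update (l j) τ ⟨_, _, hadj (o j).1 (o j).2⟩)
          (hν.mono fun i j g hg σ hσ => ?_) hn
        rw [Pi.smul_apply]
        rcases Finset.mem_insert.1 hσ with rfl | hσ
        · rw [Function.update_self, Function.update_self, hc]
          intro z hz
          have := hg.2 (g⁻¹ • z) (by
            rw [hH, ← (hX σ).smul_side g, smul_inv_smul]; exact hz)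
          rwa [smul_inv_smul, hH] at this
        · have hne : σ ≠ τ := fun e => hτ (e ▸ hσ)
          rw [Function.update_of_ne hne, Function.update_of_ne hne]
          exact hg.1 σ hσ
  have h0 := main Finset.univ fun J _ _ l a b h1 h2 ha hb => htop J l a b h1 h2
    (ha.mono fun i j g hg τ => hg τ (Finset.mem_univ τ))
    (hb.mono fun i j g hg τ => hg τ (Finset.mem_univ τ))
  intro J _ _ A B h1 h2
  exact h0 J (fun _ => x₀) A B h1 h2 (fun i j g _ τ hτ => absurd hτ (Finset.notMem_empty τ))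
    fun i j g _ τ hτ => absurd hτ (Finset.notMem_empty τ)

theorem qqZ_trees (D : Geo Q Ω) (Alg : Q → Prop) (k : ℕ) : ∀ (ι : Type) [Fintype ι],
    Fintype.card ι = k → ∀ (G : Type) [Group G] (f : G →* Q) (V : ι → Type)
      [∀ τ, MulAction G (V τ)] (X : ∀ τ, SimpleGraph (V τ)), (∀ τ, TreeAction G (X τ)) →
      (∀ g, D.Cz (f g) → ∀ (τ : ι) (y : V τ), g • y = y) →
      (∀ (x : ∀ τ, V τ) (g : G), (∀ τ, g • x τ = x τ) → Alg (f g)) →
      (∀ (τ : ι) (a b : V τ), (X τ).Adj a b → ∀ g h : G, g • a = a → g • b = b → h • a = a →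
        h • b = b → Alg (f (g * h * g⁻¹ * h⁻¹)) → D.Comm2 (f g) (f h)) →
      ZS R f Ω → (∀ H : Subgroup G, (∀ g ∈ H, Alg (f g)) → QQ R H) → QQ R G := by
  induction k using Nat.strong_induction_on with
  | _ k ih =>
  intro ι _ hk G _ f₀ V _ X hX hZ h2 h3 hsol halg
  rcases isEmpty_or_nonempty ι with hι | hι
  · exact (halg ⊤ fun g _ => h2 (fun τ => isEmptyElim τ) g fun τ => isEmptyElim τ).sub
      Subgroup.topEquiv.symm.toMonoidHom (MulEquiv.injective _)
  intro P _ hP Δ _ f hf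
  classical
  let p : Δ →* G := (MonoidHom.fst _ _).comp f
  let _ : ∀ τ, MulAction Δ (V τ) := fun τ => MulAction.compHom (V τ) p
  have hX' : ∀ τ, TreeAction Δ (X τ) := fun τ =>
    ⟨(hX τ).1, fun g => (hX τ).2.1 (p g), fun g => (hX τ).2.2 (p g)⟩
  have key : ∀ (C : Q → Prop), (∀ H : Subgroup G, (∀ g ∈ H, C (f₀ g)) → QQ R H) →
      ∀ H : Subgroup Δ, (∀ g ∈ H, C (f₀ (p g))) → QQ R H := by
    intro C hC H hH
    refine qq_of_le' hP f hf (H.map p) (hC _ ?_) H fun x hx => ⟨x, hx, rfl⟩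
    rintro _ ⟨a, ha, rfl⟩
    exact hH a ha
  have key' : ∀ (C : Q → Prop), (∀ H : Subgroup G, (∀ g ∈ H, C (f₀ g)) → QQ R H) →
      ∀ (K : Subgroup Δ) (H : Subgroup K), (∀ g ∈ H, C (f₀ (p g.1))) → QQ R H := by
    intro C hC K H hH
    refine (key C hC (H.map K.subtype) ?_).sub
      (H.equivMapOfInjective _ (Subgroup.subtype_injective _)).toMonoidHom (MulEquiv.injective _)
    rintro _ ⟨a, ha, rfl⟩
    exact hH a ha
  have h3' : ∀ (τ : ι) (a b : V τ), (X τ).Adj a b → ∀ g h : Δ, g • a = a → g • b = b →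
      h • a = a → h • b = b → Alg (f₀ (p (g * h * g⁻¹ * h⁻¹))) →
      D.Comm2 (f₀ (p g)) (f₀ (p h)) := fun τ a b hab g h e1 e2 e3 e4 e5 =>
    h3 τ a b hab (p g) (p h) e1 e2 e3 e4 (by simpa only [map_mul, map_inv] using e5)
  refine g1_stepZ X hX' D (f₀.comp p) (fun g => hZ (p g)) (fun a b hab g h hg hh => ?_)
    (fun ω => key (fun q => q • ω = ω) (hsol ω)) fun τ y => ?_
  · obtain ⟨τ⟩ := hι
    refine h3' τ _ _ (hab τ) g h (hg τ).1 (hg τ).2 (hh τ).1 (hh τ).2 (h2 a _ fun σ => ?_)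
    have e1 : g ∈ MulAction.stabilizer Δ (a σ) := (hg σ).1
    have e2 : h ∈ MulAction.stabilizer Δ (a σ) := (hh σ).1
    exact mul_mem (mul_mem (mul_mem e1 e2) (inv_mem e1)) (inv_mem e2)
  have ext : ∀ x : ∀ σ : {σ // σ ≠ τ}, V σ.1, ∃ x' : ∀ σ, V σ, x' τ = y ∧
      ∀ σ (h : σ ≠ τ), x' σ = x ⟨σ, h⟩ := fun x =>
    ⟨fun σ => if h : σ = τ then h ▸ y else x ⟨σ, h⟩, by simp, fun σ h => dif_neg h⟩
  refine ih _ (hk ▸ Fintype.card_subtype_lt (p := fun σ => σ ≠ τ) (x := τ) (by simp))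
    {σ // σ ≠ τ} rfl (MulAction.stabilizer Δ y)
    ((f₀.comp p).comp (MulAction.stabilizer Δ y).subtype) (fun σ => V σ.1) (fun σ => X σ.1)
    (fun σ => ⟨(hX σ.1).1, fun g => (hX' σ.1).2.1 g.1, fun g => (hX' σ.1).2.2 g.1⟩)
    (fun g hg σ => hZ (p g.1) hg σ.1) (fun x g hx => ?_)
    (fun σ a b hab g h => h3' σ.1 a b hab g.1 h.1) (fun ω => key' (fun q => q • ω = ω) (hsol ω) _)
    (key' Alg halg _)
  obtain ⟨x', h1, h4⟩ := ext x
  refine h2 x' (p g.1) fun σ => ?_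
  by_cases h : σ = τ
  · subst h; rw [h1]; exact g.2
  · rw [h4 σ h]; exact hx ⟨σ, h⟩

end Pool.Agent.MP_f7db47_al.PT
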