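import Pool.Agent.MP_f7db47_al.PT.ZDefs
import Pool.Agent.MP_f7db47_al.PT.Lift

/-!
Matrices induced along permutation representations.
-/

namespace Pool.Agent.MP_f7db47_al.PT

universe u v

variable {R : Type v} [Ring R] {G : Type u} [Group G] {X J : Type}

theorem permM_mul [Fintype X] [Fintype J] (σ : G →* Equiv.Perm X)
    (A B : Matrix J J (MonoidAlgebra R G)) : permM σ A * permM σ B = permM σ (A * B) := by
  refine lift_mul (SA := fun _ _ => Set.univ) (SB := fun _ _ => Set.univ) Prod.fst Prod.fst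
    Prod.fst (fun x y : J × X => {g | σ g y.2 = x.2}) (fun x y : J × X => {g | σ g y.2 = x.2})
    (fun x y : J × X => {g | σ g y.2 = x.2}) (fun _ _ => sup_univ _) (fun _ _ => sup_univ _)
    (fun y y' y'' g hg h hh => ?_) fun y y'' j g _ h _ hgh => ?_
  · simp only [Set.mem_ofPred_eq] at *
    rw [map_mul, Equiv.Perm.mul_apply, hh, hg]
  · simp only [Set.mem_ofPred_eq, map_mul, Equiv.Perm.mul_apply] at *
    refine ⟨(j, σ h y''.2), ⟨rfl, hgh, rfl⟩, ?_⟩
    rintro ⟨j', x⟩ ⟨h1, -, h2⟩
    exact Prod.ext h1 h2.symm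

theorem permM_one [DecidableEq X] [DecidableEq J] (σ : G →* Equiv.Perm X) :
    permM σ (1 : Matrix J J (MonoidAlgebra R G)) = 1 := by
  ext1 x y
  by_cases h : x = y
  · subst h
    simp only [permM, Matrix.one_apply_eq]
    exact (sup_one (S := {g | σ g x.2 = x.2}) (by simp)).pr_eq
  · rw [Matrix.one_apply_ne h]
    by_cases h' : x.1 = y.1
    · change pr _ ((1 : Matrix J J (MonoidAlgebra R G)) x.1 y.1) = 0
      rw [h', Matrix.one_apply_eq]
      refine (sup_one (S := {1}) rfl).pr_eq_zero ?_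
      rintro _ rfl h1
      exact h (Prod.ext h' (by simpa using h1.symm))
    · simp only [permM, Matrix.one_apply_ne h', map_zero]

end Pool.Agent.MP_f7db47_al.PT
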