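import Pool.Agent.MP_f7db47_al.PT.ZDefs
import Pool.Agent.MP_f7db47_al.TCalc

/-!
The abelian group of invertible matrices modulo the trivial ones.
-/

namespace Pool.Agent.MP_f7db47_al.PT

open Matrix

universe u v

/-- Square matrices of all sizes. -/
structure ZWh_U (R : Type v) [Ring R] (G : Type u) [Group G] : Type (max 1 u v) where
  J : Type
  [fin : Fintype J]
  [dec : DecidableEq J]
  A : Matrix J J (MonoidAlgebra R G)

attribute [instance] ZWh_U.fin ZWh_U.dec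

section

variable {R : Type v} [Ring R] {G : Type u} [Group G]

lemma ZWh_white {J : Type} [Fintype J] [DecidableEq J] {A B : Matrix J J (MonoidAlgebra R G)}
    (h : A * B = 1) (h' : B * A = 1) : T (fromBlocks A 0 0 B) := by
  have h1 := T_mul (T_mul (T_mul (T_upper A) (T_lower (-B))) (T_upper A))
    (T_mul (T_mul (T_upper (-1 : Matrix J J (MonoidAlgebra R G))) (T_lower 1)) (T_upper (-1)))
  simpa [fromBlocks_multiply, h, h'] using h1

noncomputable instance ZWh_add : Add (ZWh_U R G) :=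
  ⟨fun x y => ⟨x.J ⊕ y.J, fromBlocks x.A 0 0 y.A⟩⟩

noncomputable instance ZWh_zero : Zero (ZWh_U R G) := ⟨⟨Empty, 1⟩⟩

lemma ZWh_T_equiv {x y : ZWh_U R G} (e : y.J ≃ x.J) (h : y.A = x.A.submatrix e e) :
    T x.A ↔ T y.A := by
  rw [h]
  exact ⟨T_submatrix e, T_of_submatrix e⟩

lemma ZWh_T_assoc (x y z : ZWh_U R G) : T (x + y + z).A ↔ T (x + (y + z)).A := by
  refine ZWh_T_equiv (Equiv.sumAssoc x.J y.J z.J).symm ?_
  ext (i | i | i) (j | j | j) <;> rfl

lemma ZWh_T_comm (x y : ZWh_U R G) : T (x + y).A ↔ T (y + x).A := by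
  refine ZWh_T_equiv (Equiv.sumComm y.J x.J) ?_
  ext (i | i) (j | j) <;> rfl

/-- Two matrices are related if the same block sums are trivial. -/
def ZWh_rel (x y : ZWh_U R G) : Prop := ∀ z : ZWh_U R G, T (x + z).A ↔ T (y + z).A

lemma ZWh_rel_equiv {x y : ZWh_U R G} (e : y.J ≃ x.J) (h : y.A = x.A.submatrix e e) :
    ZWh_rel x y := by
  intro z
  refine ZWh_T_equiv (Equiv.sumCongr e (Equiv.refl z.J)) ?_
  ext (i | i) (j | j)
  · exact congrFun (congrFun (congrArg (fun M => fun a b => M a b) h) i) j ▸ rfl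
  all_goals rfl

lemma ZWh_rel_comm (x y : ZWh_U R G) : ZWh_rel (x + y) (y + x) := by
  refine ZWh_rel_equiv (Equiv.sumComm y.J x.J) ?_
  ext (i | i) (j | j) <;> rfl

lemma ZWh_rel_add {x x' : ZWh_U R G} (h : ZWh_rel x x') (y : ZWh_U R G) :
    ZWh_rel (x + y) (x' + y) := fun z =>
  (ZWh_T_assoc x y z).trans ((h (y + z)).trans (ZWh_T_assoc x' y z).symm)

variable (R G) in
/-- The congruence. -/
def ZWh_con : AddCon (ZWh_U R G) where
  r := ZWh_rel
  iseqv := ⟨fun _ _ => Iff.rfl, fun h z => (h z).symm, fun h h' z => (h z).trans (h' z)⟩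
  add' := fun {_ x y z} h h' t =>
    (ZWh_rel_add h y t).trans ((ZWh_rel_comm x y t).trans
      ((ZWh_rel_add h' x t).trans (ZWh_rel_comm z x t)))

lemma ZWh_eq {x y : ZWh_U R G} : (x : (ZWh_con R G).Quotient) = y ↔ ZWh_rel x y :=
  (ZWh_con R G).eq

noncomputable instance ZWh_zero' : Zero (ZWh_con R G).Quotient := ⟨((0 : ZWh_U R G) : _)⟩

lemma ZWh_zero_add (x : ZWh_U R G) : ZWh_rel (0 + x) x := by
  refine ZWh_rel_equiv (Equiv.emptySum Empty x.J).symm ?_
  ext i j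
  rfl

noncomputable instance ZWh_mon : AddCommMonoid (ZWh_con R G).Quotient where
  add_assoc := fun a b c => Quotient.inductionOn₃' a b c fun x y z => ZWh_eq.2 (by
    refine ZWh_rel_equiv (x := x + y + z) (y := x + (y + z)) (Equiv.sumAssoc x.J y.J z.J).symm ?_
    ext (i | i | i) (j | j | j) <;> rfl)
  zero_add := fun a => Quotient.inductionOn' a fun x => ZWh_eq.2 (ZWh_zero_add x)
  add_zero := fun a => Quotient.inductionOn' a fun x =>
    (ZWh_eq.2 (ZWh_rel_comm x 0)).trans (ZWh_eq.2 (ZWh_zero_add x))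
  add_comm := fun a b => Quotient.inductionOn₂' a b fun x y => ZWh_eq.2 (ZWh_rel_comm x y)
  nsmul := nsmulRec

variable {J K : Type} [Fintype J] [DecidableEq J] [Fintype K] [DecidableEq K]

/-- The class of a matrix. -/
noncomputable def ZWh_mk (A : Matrix J J (MonoidAlgebra R G)) : (ZWh_con R G).Quotient :=
  ((⟨J, A⟩ : ZWh_U R G) : _)

lemma ZWh_mk_diag (A : Matrix J J (MonoidAlgebra R G)) (D : Matrix K K (MonoidAlgebra R G)) :
    ZWh_mk (fromBlocks A 0 0 D) = ZWh_mk A + ZWh_mk D := rfl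

lemma ZWh_mk_zero {A : Matrix J J (MonoidAlgebra R G)} : ZWh_mk A = 0 ↔ T A := by
  refine ZWh_eq.trans ⟨fun h => ?_, fun h z => ?_⟩
  · exact T_of_stab ((h 0).2 (T_stab (K := Empty) (T_one (J := Empty))))
  · exact ⟨fun h' => T_stab' (K := Empty) (T_upper_block_right h' h),
      fun h' => T_upper_block 0 h (T_of_stab' (K := Empty) h')⟩

lemma ZWh_mk_mul_T (A : Matrix J J (MonoidAlgebra R G)) {N : Matrix J J (MonoidAlgebra R G)}
    (hN : T N) : ZWh_mk (A * N) = ZWh_mk A := by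
  refine ZWh_eq.2 fun z => ?_
  have h : fromBlocks (A * N) 0 0 z.A = fromBlocks A 0 0 z.A * fromBlocks N 0 0 1 := by
    simp [fromBlocks_multiply]
  change T (fromBlocks (A * N) 0 0 z.A) ↔ T (fromBlocks A 0 0 z.A)
  rw [h]
  exact ⟨T_cancel_right (T_stab hN), fun h' => T_mul h' (T_stab hN)⟩

lemma ZWh_mk_mul (A : Matrix J J (MonoidAlgebra R G)) {B : Matrix J J (MonoidAlgebra R G)}
    (hB : IsUnit B) : ZWh_mk (A * B) = ZWh_mk A + ZWh_mk B := by
  obtain ⟨b, rfl⟩ := hB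
  have h : fromBlocks A 0 0 b.val =
      fromBlocks (A * b.val) 0 0 1 * fromBlocks b⁻¹.val 0 0 b.val := by
    simp [fromBlocks_multiply]
  rw [← ZWh_mk_diag, h, ZWh_mk_mul_T _ (ZWh_white b.inv_mul b.mul_inv), ZWh_mk_diag,
    ZWh_mk_zero.2 T_one, add_zero]

lemma ZWh_mk_reindex (e : K ≃ J) (A : Matrix J J (MonoidAlgebra R G)) :
    ZWh_mk (A.submatrix e e) = ZWh_mk A :=
  (ZWh_eq.2 (ZWh_rel_equiv (x := ⟨J, A⟩) (y := ⟨K, A.submatrix e e⟩) e rfl)).symm

lemma ZWh_isAddUnit {A : Matrix J J (MonoidAlgebra R G)} (hA : IsUnit A) :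
    IsAddUnit (ZWh_mk A) := by
  obtain ⟨a, rfl⟩ := hA
  refine IsAddUnit.of_add_eq_zero (ZWh_mk a⁻¹.val) ?_
  rw [← ZWh_mk_diag]
  exact ZWh_mk_zero.2 (ZWh_white a.mul_inv a.inv_mul)

open Classical in
/-- The class of a matrix in the group. -/
noncomputable def ZWh_cls (A : Matrix J J (MonoidAlgebra R G)) : AddUnits (ZWh_con R G).Quotient :=
  if h : IsAddUnit (ZWh_mk A) then h.addUnit else 0

lemma ZWh_cls_val {A : Matrix J J (MonoidAlgebra R G)} (hA : IsAddUnit (ZWh_mk A)) :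
    (ZWh_cls A).val = ZWh_mk A := by
  rw [ZWh_cls, dif_pos hA, IsAddUnit.addUnit_spec]

end

theorem exists_WhS (R : Type v) [Ring R] (G : Type u) [Group G] :
    ∃ (W : Type (max 1 u v)) (_ : AddCommGroup W), Nonempty (WhS R G W) := by
  refine ⟨AddUnits (ZWh_con R G).Quotient, inferInstance, ⟨⟨fun A => ZWh_cls A, ?_, ?_, ?_, ?_⟩⟩⟩
  · intro J _ _ A hA
    rw [AddUnits.ext_iff, ZWh_cls_val (ZWh_isAddUnit hA), AddUnits.val_zero, ZWh_mk_zero]
  · intro J _ _ A B hA hB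
    rw [AddUnits.ext_iff, AddUnits.val_add, ZWh_cls_val (ZWh_isAddUnit hA),
      ZWh_cls_val (ZWh_isAddUnit hB), ZWh_cls_val (ZWh_isAddUnit (hA.mul hB)), ZWh_mk_mul A hB]
  · intro J K _ _ _ _ A D hA hD
    rw [AddUnits.ext_iff, AddUnits.val_add, ZWh_cls_val (ZWh_isAddUnit hA),
      ZWh_cls_val (ZWh_isAddUnit hD), ZWh_cls_val, ZWh_mk_diag]
    rw [ZWh_mk_diag]
    exact (ZWh_isAddUnit hA).add (ZWh_isAddUnit hD)
  · intro J K _ _ _ _ e A hA
    rw [AddUnits.ext_iff, ZWh_cls_val (ZWh_isAddUnit hA), ZWh_cls_val, ZWh_mk_reindex]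
    rw [ZWh_mk_reindex]
    exact ZWh_isAddUnit hA

end Pool.Agent.MP_f7db47_al.PT
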